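import Pool.Agent.H295R2.Lap
import Pool.Agent.Helper625.Planch

set_option autoImplicit false

open MeasureTheory Filter Topology Set

namespace Pool.Agent.H295R2

noncomputable section

/-- forward average over a window of length `η` -/
def avg (η : ℝ) (k : ℝ → ℂ) (u : ℝ) : ℂ := (1 / (η : ℂ)) * ∫ v in (0:ℝ)..η, k (u + v)

def phi (η : ℝ) (s : ℂ) : ℂ := (Complex.exp (s * η) - 1) / (s * η)

lemma Nice.intervalIntegrable {k : ℝ → ℂ} {C u₀ : ℝ} (h : Nice k C 0 u₀) (a b : ℝ) :
    IntervalIntegrable k volume a b := by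
  have h1 : ∀ u, ‖k u‖ ≤ C := fun u => by simpa using h.bound u
  exact (intervalIntegrable_const (c := C)).mono_fun h.meas.aestronglyMeasurable
    (Eventually.of_forall fun u => by
      rw [Real.norm_eq_abs]
      exact (h1 u).trans (le_abs_self C))

lemma Nice.avg_continuous {k : ℝ → ℂ} {C u₀ : ℝ} (h : Nice k C 0 u₀) (η : ℝ) :
    Continuous (avg η k) := by
  unfold avg
  refine continuous_const.mul ?_
  have h1 : ∀ u : ℝ, ∫ v in (0:ℝ)..η, k (u + v) = (∫ v in (0:ℝ)..(u + η), k v) - ∫ v in (0:ℝ)..u, k v := by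
    intro u
    rw [intervalIntegral.integral_comp_add_left (fun v => k v) u, add_zero,
      intervalIntegral.integral_interval_sub_left (h.intervalIntegrable _ _) (h.intervalIntegrable _ _)]
  simp_rw [h1]
  have h2 := intervalIntegral.continuous_primitive (μ := volume) (fun a b => h.intervalIntegrable a b) 0
  exact (h2.comp (continuous_id.add continuous_const)).sub h2

lemma Nice.avg {k : ℝ → ℂ} {C u₀ η : ℝ} (h : Nice k C 0 u₀) (hη : 0 < η) :
    Nice (avg η k) C 0 (u₀ - η) where
  meas := (h.avg_continuous η).measurable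
  bound := by
    intro u
    have h1 : ∀ u, ‖k u‖ ≤ C := fun u => by simpa using h.bound u
    have h2 : ‖∫ v in (0:ℝ)..η, k (u + v)‖ ≤ C * |η - 0| :=
      intervalIntegral.norm_integral_le_of_norm_le_const fun v _ => h1 _
    rw [sub_zero, abs_of_pos hη] at h2
    unfold Pool.Agent.H295R2.avg
    rw [norm_mul, norm_div, norm_one, Complex.norm_real, Real.norm_of_nonneg hη.le]
    simp only [zero_mul, Real.exp_zero, mul_one]
    calc 1 / η * ‖∫ v in (0:ℝ)..η, k (u + v)‖ ≤ 1 / η * (C * η) := by gcongr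
      _ = C := by field_simp
  zero := by
    intro u hu
    unfold Pool.Agent.H295R2.avg
    have : ∫ v in (0:ℝ)..η, k (u + v) = ∫ v in (0:ℝ)..η, (0:ℂ) := by
      apply intervalIntegral.integral_congr
      intro v hv
      rw [uIcc_of_le hη.le] at hv
      exact h.zero _ (by linarith [hv.2])
    rw [this]
    simp

lemma Nice.shift_integrable {k : ℝ → ℂ} {C a u₀ : ℝ} (h : Nice k C a u₀) {s : ℂ} (hs : a < s.re)
    (v : ℝ) : Integrable (fun u : ℝ => k (u + v) * Complex.exp (-(s * u))) := by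
  have h1 := ((h.integrable hs).comp_add_right v).const_mul (Complex.exp (s * v))
  refine h1.congr (Eventually.of_forall fun u => ?_)
  simp only
  have : Complex.exp (-(s * ((u + v : ℝ) : ℂ))) = Complex.exp (-(s * v)) * Complex.exp (-(s * u)) := by
    rw [← Complex.exp_add]; push_cast; ring_nf
  rw [this]
  have h2 : Complex.exp (s * v) * Complex.exp (-(s * v)) = 1 := by
    rw [← Complex.exp_add]; simp
  linear_combination (k (u + v) * Complex.exp (-(s * u))) * h2

lemma Nice.Lap_shift {k : ℝ → ℂ} {C a u₀ : ℝ} (_h : Nice k C a u₀) (s : ℂ)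
    (v : ℝ) : ∫ u : ℝ, k (u + v) * Complex.exp (-(s * u)) = Complex.exp (s * v) * Lap k s := by
  have h1 : ∀ u : ℝ, k (u + v) * Complex.exp (-(s * u)) =
      Complex.exp (s * v) * ((fun w : ℝ => k w * Complex.exp (-(s * w))) (u + v)) := by
    intro u
    simp only
    have : Complex.exp (-(s * ((u + v : ℝ) : ℂ))) = Complex.exp (-(s * v)) * Complex.exp (-(s * u)) := by
      rw [← Complex.exp_add]; push_cast; ring_nf
    rw [this]
    have h2 : Complex.exp (s * v) * Complex.exp (-(s * v)) = 1 := by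
      rw [← Complex.exp_add]; simp
    linear_combination (-k (u + v) * Complex.exp (-(s * u))) * h2
  simp_rw [h1]
  rw [integral_const_mul, integral_add_right_eq_self (fun w : ℝ => k w * Complex.exp (-(s * w))) v]
  rfl

lemma Nice.shift_norm {k : ℝ → ℂ} (s : ℂ) (v : ℝ) :
    ∫ u : ℝ, ‖k (u + v) * Complex.exp (-(s * u))‖ =
      Real.exp (s.re * v) * ∫ u : ℝ, ‖k u * Complex.exp (-(s * u))‖ := by
  have h1 : ∀ u : ℝ, ‖k (u + v) * Complex.exp (-(s * u))‖ =
      Real.exp (s.re * v) * ((fun w : ℝ => ‖k w * Complex.exp (-(s * w))‖) (u + v)) := by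
    intro u
    simp only [norm_mul, norm_exp_neg_mul]
    have : Real.exp (-(s.re * (u + v))) = Real.exp (-(s.re * v)) * Real.exp (-(s.re * u)) := by
      rw [← Real.exp_add]; ring_nf
    rw [this]
    have h2 : Real.exp (s.re * v) * Real.exp (-(s.re * v)) = 1 := by
      rw [← Real.exp_add]; simp
    linear_combination (-‖k (u + v)‖ * Real.exp (-(s.re * u))) * h2
  simp_rw [h1]
  rw [integral_const_mul, integral_add_right_eq_self (fun w : ℝ => ‖k w * Complex.exp (-(s * w))‖) v]

lemma Nice.Lap_avg {k : ℝ → ℂ} {C u₀ η : ℝ} (h : Nice k C 0 u₀) (hη : 0 < η) {s : ℂ}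
    (hs : 0 < s.re) : Lap (Pool.Agent.H295R2.avg η k) s = phi η s * Lap k s := by
  have hs0 : s ≠ 0 := by rintro rfl; simp at hs
  unfold Lap Pool.Agent.H295R2.avg
  have h1 : ∀ u : ℝ, (1 / (η : ℂ) * ∫ v in (0:ℝ)..η, k (u + v)) * Complex.exp (-(s * u)) =
      (1 / (η : ℂ)) * ∫ v in Ioc (0:ℝ) η, k (u + v) * Complex.exp (-(s * u)) := by
    intro u
    rw [intervalIntegral.integral_of_le hη.le, mul_assoc, ← integral_mul_const]
  simp_rw [h1]
  rw [integral_const_mul]
  have hmeas : AEStronglyMeasurable (Function.uncurry fun (u v : ℝ) => k (u + v) * Complex.exp (-(s * u)))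
      (volume.prod (volume.restrict (Ioc (0:ℝ) η))) := by
    refine Measurable.aestronglyMeasurable ?_
    refine Measurable.mul (h.meas.comp (measurable_fst.add measurable_snd)) ?_
    have : Continuous (fun p : ℝ × ℝ => Complex.exp (-(s * p.1))) := by fun_prop
    exact this.measurable
  have hint : Integrable (Function.uncurry fun (u v : ℝ) => k (u + v) * Complex.exp (-(s * u)))
      (volume.prod (volume.restrict (Ioc (0:ℝ) η))) := by
    rw [integrable_prod_iff' hmeas]
    refine ⟨Eventually.of_forall fun v => h.shift_integrable (by simpa using hs) v, ?_⟩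
    simp only [Function.uncurry_apply_pair]
    simp_rw [Nice.shift_norm]
    have : Continuous (fun v : ℝ => Real.exp (s.re * v) * ∫ u : ℝ, ‖k u * Complex.exp (-(s * u))‖) := by
      fun_prop
    exact (this.integrableOn_Icc (a := 0) (b := η)).mono_set Ioc_subset_Icc_self
  rw [integral_integral_swap hint]
  simp_rw [h.Lap_shift s]
  rw [integral_mul_const, ← intervalIntegral.integral_of_le hη.le, integral_exp_mul_complex hs0]
  unfold phi Lap
  have hη' : (η : ℂ) ≠ 0 := by exact_mod_cast hη.ne'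
  simp only [Complex.ofReal_zero, mul_zero, Complex.exp_zero]
  field_simp

lemma phi_eq_integral {η : ℝ} {s : ℂ} (hη : 0 < η) (hs : s ≠ 0) :
    phi η s = (1 / (η:ℂ)) * ∫ v in (0:ℝ)..η, Complex.exp (s * v) := by
  have hη' : (η : ℂ) ≠ 0 := by exact_mod_cast hη.ne'
  rw [integral_exp_mul_complex hs]
  unfold phi
  simp only [Complex.ofReal_zero, mul_zero, Complex.exp_zero]
  field_simp

/-- `‖φ_η(s)‖ ≤ e²` for `0 < Re s ≤ 2`, `0 < η ≤ 1`. -/
lemma norm_phi_le {η : ℝ} {s : ℂ} (hη : 0 < η) (hη1 : η ≤ 1) (hs : 0 < s.re) (hs2 : s.re ≤ 2) :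
    ‖phi η s‖ ≤ 10 := by
  have hs0 : s ≠ 0 := by rintro rfl; simp at hs
  rw [phi_eq_integral hη hs0, norm_mul, norm_div, norm_one, Complex.norm_real, Real.norm_of_nonneg hη.le]
  have h1 : ‖∫ v in (0:ℝ)..η, Complex.exp (s * v)‖ ≤ 10 * |η - 0| := by
    refine intervalIntegral.norm_integral_le_of_norm_le_const fun v hv => ?_
    rw [uIoc_of_le hη.le] at hv
    rw [Complex.norm_exp]
    have h2 : (s * (v:ℂ)).re ≤ 2 := by
      simp only [Complex.mul_re, Complex.ofReal_re, Complex.ofReal_im, mul_zero, sub_zero]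
      nlinarith [hv.1, hv.2]
    calc Real.exp (s * (v:ℂ)).re ≤ Real.exp 2 := Real.exp_le_exp.mpr h2
      _ = Real.exp 1 * Real.exp 1 := by rw [← Real.exp_add]; norm_num
      _ ≤ 10 := by nlinarith [Real.exp_one_lt_d9, Real.exp_pos 1]
  rw [sub_zero, abs_of_pos hη] at h1
  calc 1 / η * _ ≤ 1 / η * (10 * η) := by gcongr
    _ = 10 := by field_simp

lemma norm_phi_le' {η : ℝ} {s : ℂ} (hη : 0 < η) (hη1 : η ≤ 1) (hs : 0 < s.re) (hs2 : s.re ≤ 2) :
    ‖phi η s‖ ≤ 11 / (η * ‖s‖) := by
  have hs0 : 0 < ‖s‖ := norm_pos_iff.mpr (by rintro rfl; simp at hs)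
  unfold phi
  rw [norm_div, norm_mul, Complex.norm_real, Real.norm_of_nonneg hη.le, mul_comm ‖s‖]
  have h1 : ‖Complex.exp (s * η) - 1‖ ≤ 11 := by
    have h2 : ‖Complex.exp (s * η)‖ ≤ 10 := by
      rw [Complex.norm_exp]
      have h2 : (s * (η:ℂ)).re ≤ 2 := by
        simp only [Complex.mul_re, Complex.ofReal_re, Complex.ofReal_im, mul_zero, sub_zero]
        nlinarith
      calc Real.exp (s * (η:ℂ)).re ≤ Real.exp 2 := Real.exp_le_exp.mpr h2
        _ = Real.exp 1 * Real.exp 1 := by rw [← Real.exp_add]; norm_num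
        _ ≤ 10 := by nlinarith [Real.exp_one_lt_d9, Real.exp_pos 1]
    calc _ ≤ ‖Complex.exp (s * η)‖ + ‖(1:ℂ)‖ := norm_sub_le _ _
      _ ≤ 11 := by rw [norm_one]; linarith
  gcongr

lemma phi_differentiableAt {η : ℝ} {s : ℂ} (hη : 0 < η) (hs : s ≠ 0) :
    DifferentiableAt ℂ (phi η) s := by
  unfold phi
  refine DifferentiableAt.div (by fun_prop) (by fun_prop) ?_
  exact mul_ne_zero hs (by exact_mod_cast hη.ne')

open FourierTransform

lemma fourier_eq_Lap (k : ℝ → ℂ) (c ξ : ℝ) :
    𝓕 (fun u : ℝ => k u * Complex.exp (-(c * u))) ξ = Lap k (c + 2 * Real.pi * ξ * Complex.I) := by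
  rw [Real.fourier_real_eq_integral_exp_smul]
  unfold Lap
  refine integral_congr_ae (Eventually.of_forall fun u => ?_)
  simp only [smul_eq_mul]
  rw [mul_comm, mul_assoc, ← Complex.exp_add]
  congr 2
  push_cast
  ring

/-- Fourier inversion in the form used below. -/
lemma inversion {k : ℝ → ℂ} {C u₀ c : ℝ} (h : Nice k C 0 u₀) (hc : 0 < c) (hcont : Continuous k)
    (hint : Integrable (fun ξ : ℝ => Lap k (c + 2 * Real.pi * ξ * Complex.I))) (u : ℝ) :
    k u = ∫ ξ : ℝ, Lap k (c + 2 * Real.pi * ξ * Complex.I) *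
      Complex.exp ((c + 2 * Real.pi * ξ * Complex.I) * u) := by
  set g : ℝ → ℂ := fun u => k u * Complex.exp (-(c * u)) with hg
  have hgi : Integrable g := h.integrable (by simpa using hc)
  have hgF : Integrable (𝓕 g) := by
    refine hint.congr (Eventually.of_forall fun ξ => ?_)
    exact (fourier_eq_Lap k c ξ).symm
  have hgc : ContinuousAt g u := by
    have : Continuous g := by rw [hg]; fun_prop
    exact this.continuousAt
  have h1 := hgi.fourierInv_fourier_eq hgF hgc
  rw [Real.fourierInv_eq'] at h1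
  have h2 : k u = g u * Complex.exp (c * u) := by
    rw [hg]
    simp only
    rw [mul_assoc, ← Complex.exp_add]
    simp
  rw [h2, ← h1, ← integral_mul_const]
  refine integral_congr_ae (Eventually.of_forall fun ξ => ?_)
  simp only [smul_eq_mul]
  rw [fourier_eq_Lap k c ξ]
  have h3 : Complex.exp (↑(2 * Real.pi * inner ℝ ξ u) * Complex.I) * Complex.exp (c * u) =
      Complex.exp ((c + 2 * Real.pi * ξ * Complex.I) * u) := by
    rw [← Complex.exp_add]
    congr 1
    simp only [RCLike.inner_apply, conj_trivial]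
    push_cast
    ring
  linear_combination (Lap k (c + 2 * Real.pi * ξ * Complex.I)) * h3

/-- Plancherel -/
lemma plancherel_Lap {k : ℝ → ℂ} {C a u₀ c : ℝ} (h : Nice k C a u₀) (hc : a < c) :
    Integrable (fun ξ : ℝ => ‖Lap k (c + 2 * Real.pi * ξ * Complex.I)‖ ^ 2) ∧
    ∫ ξ : ℝ, ‖Lap k (c + 2 * Real.pi * ξ * Complex.I)‖ ^ 2 =
      ∫ u : ℝ, ‖k u‖ ^ 2 * Real.exp (-(2 * c * u)) := by
  set g : ℝ → ℂ := fun u => k u * Complex.exp (-(c * u)) with hg
  have hgi : Integrable g := h.integrable (by simpa using hc)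
  have hg2 : MemLp g 2 := by
    rw [memLp_two_iff_integrable_sq_norm hgi.aestronglyMeasurable]
    have h1 := integrable_ind_exp (by linarith : 2 * (a - c) < 0) (C ^ 2) u₀
    refine h1.mono' (hgi.aestronglyMeasurable.norm.pow 2) (Eventually.of_forall fun u => ?_)
    rw [norm_pow, norm_norm]
    by_cases hu : u ∈ Ici u₀
    · rw [indicator_of_mem hu, hg]
      simp only
      have h2 : ‖Complex.exp (-(c * u))‖ = Real.exp (-(c * u)) := by
        rw [Complex.norm_exp]; congr 1; simp
      rw [norm_mul, h2]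
      have h3 : ‖k u‖ * Real.exp (-(c * u)) ≤ C * Real.exp ((a - c) * u) := by
        calc ‖k u‖ * Real.exp (-(c * u)) ≤ (C * Real.exp (a * u)) * Real.exp (-(c * u)) :=
              mul_le_mul_of_nonneg_right (h.bound u) (Real.exp_pos _).le
          _ = C * Real.exp ((a - c) * u) := by rw [mul_assoc, ← Real.exp_add]; ring_nf
      calc (‖k u‖ * Real.exp (-(c * u))) ^ 2 ≤ (C * Real.exp ((a - c) * u)) ^ 2 :=
            pow_le_pow_left₀ (by positivity) h3 2
        _ = C ^ 2 * Real.exp (2 * (a - c) * u) := by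
          rw [mul_pow, ← Real.exp_nat_mul]; push_cast; ring_nf
    · rw [indicator_of_notMem hu, hg]
      simp only
      rw [h.zero u (by simpa using hu)]
      simp
  obtain ⟨h1, h2⟩ := Pool.Agent.Helper625.Planch.plancherel g hgi hg2
  have hF : 𝓕 g = fun ξ : ℝ => Lap k (c + 2 * Real.pi * ξ * Complex.I) := by
    ext ξ; exact fourier_eq_Lap k c ξ
  rw [hF] at h1 h2
  refine ⟨?_, ?_⟩
  · exact (memLp_two_iff_integrable_sq_norm h1.aestronglyMeasurable).mp h1
  · rw [h2]
    refine integral_congr_ae (Eventually.of_forall fun u => ?_)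
    simp only [hg]
    rw [norm_mul, mul_pow]
    congr 1
    have h2 : ‖Complex.exp (-(c * u))‖ = Real.exp (-(c * u)) := by
      rw [Complex.norm_exp]; congr 1; simp
    rw [h2, ← Real.exp_nat_mul]
    push_cast
    ring_nf

end

end Pool.Agent.H295R2
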