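import Pool.Agent.H295R2.T6b

set_option autoImplicit false

open MeasureTheory Filter Topology Set
open scoped ContDiff

namespace Pool.Agent.H295R2

noncomputable section

/-- Mertens bound with exponent at most one. -/
lemma mertens_sup {e : ℝ} (he : 0 < e) :
    ∃ σ : ℝ, zetaSup ≤ σ ∧ σ ≤ zetaSup + e ∧ 1 / 2 < σ ∧ σ ≤ 1 ∧ ∃ C > 0, ∀ y : ℝ, 1 ≤ y → |Mx y| ≤ C * y ^ σ := by
  have h1 := half_le_zetaSup
  rcases zetaSup_le_one.eq_or_lt with h | h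
  · refine ⟨1, h.le, by linarith, by norm_num, le_rfl, 1, one_pos, fun y hy => ?_⟩
    rw [Real.rpow_one, one_mul]
    exact abs_Mx_le (by linarith)
  · set σ : ℝ := min (zetaSup + e) 1 with hσ
    have hlt : zetaSup < σ := by rw [hσ]; apply lt_min <;> linarith
    have hle1 : σ ≤ 1 := min_le_right _ _
    obtain ⟨C, hC0, hC⟩ := mertens_bound (θ := zetaSup) (σ := σ) (by linarith) zetaSup_free hlt (by linarith)
    exact ⟨σ, hlt.le, min_le_left _ _, by linarith, hle1, C, hC0, hC⟩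

lemma window_lower' {p q : ℕ} (hpq : p < q) (hco : Nat.Coprime p q) {c κ : ℝ} (hc : 0 ≤ c) (hc1 : c < 1) (hκ : 0 < κ)
    {ε : ℝ} (hε : 0 < ε) :
    ∀ᶠ n : ℕ in atTop, (n:ℝ) ^ ((1 - c) * zetaSup - ε) ≤ localSum (p / q) (p / q + κ * (n:ℝ) ^ (-c)) n := by
  have hΘ2 := zetaSup_le_one
  set s : ℝ := min (ε / 2) ((1 - c) / 2) with hs
  have hs0 : 0 < s := by rw [hs]; apply lt_min <;> linarith
  have hs1 : s ≤ ε / 2 := min_le_left _ _
  have hs2 : s ≤ (1 - c) / 2 := min_le_right _ _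
  have hw := window_lower hpq hco (c := c + s) (by linarith) (by linarith) (ε := ε / 2) (by linarith)
  filter_upwards [hw, rpow_eventually_ge hs0 (1 / κ), eventually_ge_atTop 1] with n h1 h2 hn
  have hn1 : (1:ℝ) ≤ n := by exact_mod_cast hn
  have hn0 : (0:ℝ) < n := by linarith
  calc (n:ℝ) ^ ((1 - c) * zetaSup - ε) ≤ (n:ℝ) ^ ((1 - (c + s)) * zetaSup - ε / 2) := by
        apply Real.rpow_le_rpow_of_exponent_le hn1
        nlinarith
    _ ≤ localSum (p / q) (p / q + (n:ℝ) ^ (-(c + s))) n := h1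
    _ ≤ localSum (p / q) (p / q + κ * (n:ℝ) ^ (-c)) n := by
        apply localSum_mono le_rfl
        have e1 : (n:ℝ) ^ (-(c + s)) = (n:ℝ) ^ (-c) * ((n:ℝ) ^ s)⁻¹ := by
          rw [← Real.rpow_neg hn0.le, ← Real.rpow_add hn0]; congr 1; ring
        have e2 : ((n:ℝ) ^ s)⁻¹ ≤ κ := by
          rw [inv_le_comm₀ (by positivity) hκ, ← one_div]; exact h2
        have e3 : (n:ℝ) ^ (-(c + s)) ≤ κ * (n:ℝ) ^ (-c) := by
          rw [e1, mul_comm]; gcongr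
        linarith

lemma window_upper (Hs : ∀ {σ ε C : ℝ}, 1/2 < σ → σ ≤ 1 → 0 < ε → 0 < C → (∀ y : ℝ, 1 ≤ y → |Mx y| ≤ C * y ^ σ) →
      ∃ K > 0, ∀ n : ℕ, 2 ≤ n → ∀ x L : ℝ, 1 / n ≤ L → L ≤ 1 → localSum x (x + L) n ≤ K * (n:ℝ) ^ ε * (n * L) ^ σ)
    (x : ℝ) {c κ : ℝ} (hc : 0 ≤ c) (hc1 : c < 1) (hκ : 0 < κ) {ε : ℝ} (hε : 0 < ε) :
    ∀ᶠ n : ℕ in atTop, localSum x (x + κ * (n:ℝ) ^ (-c)) n ≤ (n:ℝ) ^ ((1 - c) * zetaSup + ε) := by
  have hΘ1 := half_le_zetaSup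
  have hΘ2 := zetaSup_le_one
  rcases hc.eq_or_lt with h0 | h0
  · -- fixed intervals
    subst h0
    set e : ℝ := min (ε / 2) 1 with he
    have he0 : 0 < e := by rw [he]; apply lt_min <;> linarith
    have he1 : e ≤ ε / 2 := min_le_left _ _
    obtain ⟨K, hK0, hK⟩ := total_upper he0 (min_le_right _ _)
    filter_upwards [rpow_eventually_ge he0 K, eventually_ge_atTop 1] with n h1 hn
    have hn1 : (1:ℝ) ≤ n := by exact_mod_cast hn
    have hn0 : (0:ℝ) < n := by linarith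
    calc localSum x (x + κ * (n:ℝ) ^ (-(0:ℝ))) n ≤ totalSum n := localSum_le_total _ _ _
      _ ≤ K * (n:ℝ) ^ (zetaSup + e) := hK n hn
      _ ≤ (n:ℝ) ^ e * (n:ℝ) ^ (zetaSup + e) := by gcongr
      _ = (n:ℝ) ^ (e + (zetaSup + e)) := by rw [← Real.rpow_add hn0]
      _ ≤ (n:ℝ) ^ ((1 - 0) * zetaSup + ε) := by
          apply Real.rpow_le_rpow_of_exponent_le hn1
          linarith
  · obtain ⟨σ, hσ1, hσ2, hσ3, hσ4, C, hC0, hC⟩ := mertens_sup (e := ε / 4) (by linarith)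
    obtain ⟨K, hK0, hK⟩ := Hs hσ3 hσ4 (ε := ε / 4) (by linarith) hC0 hC
    filter_upwards [rpow_eventually_ge h0 κ, rpow_eventually_ge (by linarith : 0 < 1 - c) (1 / κ),
      rpow_eventually_ge (by linarith : 0 < ε / 4) (K * κ ^ σ), eventually_ge_atTop 2] with n h1 h2 h3 hn
    have hn1 : (1:ℝ) ≤ n := by
      have : 1 ≤ n := by omega
      exact_mod_cast this
    have hn0 : (0:ℝ) < n := by linarith
    have hL1 : κ * (n:ℝ) ^ (-c) ≤ 1 := by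
      rw [Real.rpow_neg hn0.le, ← div_eq_mul_inv, div_le_one (by positivity)]; exact h1
    have hL0 : 1 / (n:ℝ) ≤ κ * (n:ℝ) ^ (-c) := by
      rw [div_le_iff₀ hn0, mul_assoc]
      have e1 : (n:ℝ) ^ (-c) * n = (n:ℝ) ^ (1 - c) := by
        rw [← Real.rpow_add_one hn0.ne']; congr 1; ring
      rw [e1]
      rw [div_le_iff₀ hκ] at h2
      linarith
    refine (hK n hn x _ hL0 hL1).trans ?_
    have e2 : (n:ℝ) * (κ * (n:ℝ) ^ (-c)) = κ * (n:ℝ) ^ (1 - c) := by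
      have e1 : (n:ℝ) ^ (1 - c) = (n:ℝ) ^ (-c) * n := by
        rw [← Real.rpow_add_one hn0.ne']; congr 1; ring
      rw [e1]; ring
    rw [e2, Real.mul_rpow hκ.le (by positivity), ← Real.rpow_mul hn0.le]
    calc K * (n:ℝ) ^ (ε / 4) * (κ ^ σ * (n:ℝ) ^ ((1 - c) * σ)) = (K * κ ^ σ) * ((n:ℝ) ^ (ε / 4) * (n:ℝ) ^ ((1 - c) * σ)) := by ring
      _ ≤ (n:ℝ) ^ (ε / 4) * ((n:ℝ) ^ (ε / 4) * (n:ℝ) ^ ((1 - c) * σ)) := by gcongr
      _ = (n:ℝ) ^ (ε / 4 + (ε / 4 + (1 - c) * σ)) := by rw [← Real.rpow_add hn0, ← Real.rpow_add hn0]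
      _ ≤ (n:ℝ) ^ ((1 - c) * zetaSup + ε) := by
          apply Real.rpow_le_rpow_of_exponent_le hn1
          nlinarith

lemma log_limit {S : ℕ → ℝ} {a : ℝ} (h1 : ∀ ε > 0, ∀ᶠ n : ℕ in atTop, (n:ℝ) ^ (a - ε) ≤ S n)
    (h2 : ∀ ε > 0, ∀ᶠ n : ℕ in atTop, S n ≤ (n:ℝ) ^ (a + ε)) :
    Tendsto (fun n : ℕ => Real.log (S n) / Real.log n) atTop (𝓝 a) := by
  rw [Metric.tendsto_nhds]
  intro ε hε
  filter_upwards [h1 (ε / 2) (by linarith), h2 (ε / 2) (by linarith), eventually_ge_atTop 2] with n h1 h2 hn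
  have hn2 : (1:ℝ) < n := by exact_mod_cast hn
  have hn0 : (0:ℝ) < n := by linarith
  have hlog : 0 < Real.log n := Real.log_pos hn2
  have hS0 : 0 < S n := lt_of_lt_of_le (by positivity) h1
  have h4 : (a - ε / 2) * Real.log n ≤ Real.log (S n) := by
    rw [← Real.log_rpow hn0]
    exact Real.log_le_log (by positivity) h1
  have h5 : Real.log (S n) ≤ (a + ε / 2) * Real.log n := by
    rw [← Real.log_rpow hn0]
    exact Real.log_le_log hS0 h2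
  rw [Real.dist_eq, abs_lt]
  constructor
  · have : a - ε / 2 ≤ Real.log (S n) / Real.log n := by rw [le_div_iff₀ hlog]; exact h4
    linarith
  · have : Real.log (S n) / Real.log n ≤ a + ε / 2 := by rw [div_le_iff₀ hlog]; exact h5
    linarith

theorem window_limit (Hs : ∀ {σ ε C : ℝ}, 1/2 < σ → σ ≤ 1 → 0 < ε → 0 < C → (∀ y : ℝ, 1 ≤ y → |Mx y| ≤ C * y ^ σ) →
      ∃ K > 0, ∀ n : ℕ, 2 ≤ n → ∀ x L : ℝ, 1 / n ≤ L → L ≤ 1 → localSum x (x + L) n ≤ K * (n:ℝ) ^ ε * (n * L) ^ σ)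
    {p q : ℕ} (hpq : p < q) (hco : Nat.Coprime p q) {c κ : ℝ} (hc : 0 ≤ c) (hc1 : c < 1) (hκ : 0 < κ) :
    Tendsto (fun n : ℕ => Real.log (localSum (p / q) (p / q + κ * (n:ℝ) ^ (-c)) n) / Real.log n) atTop
      (𝓝 ((1 - c) * zetaSup)) :=
  log_limit (fun _ hε => window_lower' hpq hco hc hc1 hκ hε) (fun _ hε => window_upper Hs _ hc hc1 hκ hε)

end

end Pool.Agent.H295R2
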