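import Pool.Agent.H295R2.F

set_option autoImplicit false

open MeasureTheory Filter Topology Set

namespace Pool.Agent.H295R2

noncomputable section

/-- `W φ v = ∑_{l ∈ ℤ} φ'(l/v)` -/
def W (φ : ℝ → ℝ) (v : ℝ) : ℝ := ∑' l : ℤ, deriv φ ((l : ℝ) / v)

/-- `Om φ y = ∫_0^y W φ` -/
def Om (φ : ℝ → ℝ) (y : ℝ) : ℝ := ∫ v in (0:ℝ)..y, W φ v

/-- `mOm φ X = ∑_k μ(k) Om φ (X/k)` (a finite sum, as `Om φ y = 0` for `y ≤ 1/2`). -/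
def mOm (φ : ℝ → ℝ) (X : ℝ) : ℝ := ∑' k : ℕ, mu k * Om φ (X / k)

end

end Pool.Agent.H295R2
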