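import Pool.Agent.H295R2.M

set_option autoImplicit false

open MeasureTheory Filter Topology Set

namespace Pool.Agent.H295R2

noncomputable section

/-- The Farey sequence `F_n` as a finite set: the rationals in `(0, 1]` with denominator at most `n`. -/
def farey (n : ℕ) : Finset ℚ :=
  ((Finset.Icc 1 n ×ˢ Finset.Icc 1 n).image (fun p : ℕ × ℕ => (p.1 : ℚ) / (p.2 : ℚ))).filter
    (fun q : ℚ => q ≤ 1)

/-- The `j`-th element of `F_n` in increasing order (`j` starts at `0`). -/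
def fareyNth (n : ℕ) (j : Fin (farey n).card) : ℝ := (((farey n).orderEmbOfFin rfl j : ℚ) : ℝ)

/-- The displacement `|f_{j+1} - (j+1)/A(n)|`. -/
def disp (n : ℕ) (j : Fin (farey n).card) : ℝ :=
  |fareyNth n j - ((j : ℕ) + 1 : ℝ) / ((farey n).card : ℝ)|

/-- The Franel-Landau sum. -/
def totalSum (n : ℕ) : ℝ := ∑ j : Fin (farey n).card, disp n j

lemma mem_farey {n : ℕ} {x : ℚ} : x ∈ farey n ↔ 0 < x ∧ x ≤ 1 ∧ x.den ≤ n := by
  unfold farey
  simp only [Finset.mem_filter, Finset.mem_image, Finset.mem_product, Finset.mem_Icc, Prod.exists]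
  constructor
  · rintro ⟨⟨a, b, ⟨⟨ha1, ha2⟩, hb1, hb2⟩, rfl⟩, hx⟩
    refine ⟨by positivity, hx, ?_⟩
    have h1 : ((a : ℚ) / (b : ℚ)).den ∣ b := by
      have := Rat.den_dvd (a : ℤ) (b : ℤ)
      rw [Rat.divInt_eq_div, Int.cast_natCast, Int.cast_natCast] at this
      exact Int.natCast_dvd_natCast.mp this
    exact (Nat.le_of_dvd hb1 h1).trans hb2
  · rintro ⟨h0, h1, h2⟩
    refine ⟨⟨x.num.natAbs, x.den, ⟨⟨?_, ?_⟩, x.den_pos, h2⟩, ?_⟩, h1⟩
    · have : 0 < x.num := Rat.num_pos.mpr h0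
      omega
    · have h3 : x.num ≤ x.den := by
        rw [← Rat.num_div_den x, div_le_one (by exact_mod_cast x.den_pos)] at h1
        exact_mod_cast h1
      have : 0 < x.num := Rat.num_pos.mpr h0
      omega
    · have h4 : ((x.num.natAbs : ℕ) : ℚ) = (x.num : ℚ) := by
        have : 0 < x.num := Rat.num_pos.mpr h0
        rw [Nat.cast_natAbs, abs_of_pos this]
      rw [h4, Rat.num_div_den]

lemma sum_farey_eq (n : ℕ) (G : ℚ → ℝ) :
    ∑ x ∈ farey n, G x =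
      ∑ k ∈ Finset.Icc 1 n, ∑ h ∈ (Finset.Icc 1 k).filter (fun h => Nat.Coprime h k), G ((h : ℚ) / (k : ℚ)) := by
  rw [Finset.sum_sigma']
  refine Finset.sum_nbij' (fun x => ⟨x.den, x.num.natAbs⟩) (fun p => (p.2 : ℚ) / (p.1 : ℚ)) ?_ ?_ ?_ ?_ ?_
  · intro x hx
    rw [mem_farey] at hx
    obtain ⟨h0, h1, h2⟩ := hx
    have hnum : 0 < x.num := Rat.num_pos.mpr h0
    rw [Finset.mem_sigma, Finset.mem_filter, Finset.mem_Icc, Finset.mem_Icc]
    refine ⟨⟨x.den_pos, h2⟩, ⟨⟨by simp only; omega, ?_⟩, x.reduced⟩⟩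
    have h3 : x.num ≤ x.den := by
      rw [← Rat.num_div_den x, div_le_one (by exact_mod_cast x.den_pos)] at h1
      exact_mod_cast h1
    simp only
    omega
  · rintro ⟨k, h⟩ hp
    rw [Finset.mem_sigma, Finset.mem_filter, Finset.mem_Icc, Finset.mem_Icc] at hp
    simp only at hp
    obtain ⟨⟨hk1, hk2⟩, ⟨hh1, hh2⟩, hco⟩ := hp
    rw [mem_farey]
    simp only
    have hk0 : (0:ℚ) < k := by exact_mod_cast hk1
    have hh0 : (0:ℚ) < h := by exact_mod_cast hh1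
    refine ⟨by positivity, ?_, ?_⟩
    · rw [div_le_one hk0]; exact_mod_cast hh2
    · have h1 : ((h : ℚ) / (k : ℚ)).den ∣ k := by
        have := Rat.den_dvd (h : ℤ) (k : ℤ)
        rw [Rat.divInt_eq_div, Int.cast_natCast, Int.cast_natCast] at this
        exact Int.natCast_dvd_natCast.mp this
      exact (Nat.le_of_dvd hk1 h1).trans hk2
  · intro x hx
    rw [mem_farey] at hx
    obtain ⟨h0, h1, h2⟩ := hx
    have hnum : 0 < x.num := Rat.num_pos.mpr h0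
    simp only
    rw [Nat.cast_natAbs, abs_of_pos hnum, Rat.num_div_den]
  · rintro ⟨k, h⟩ hp
    rw [Finset.mem_sigma, Finset.mem_filter, Finset.mem_Icc, Finset.mem_Icc] at hp
    simp only at hp
    obtain ⟨⟨hk1, hk2⟩, ⟨hh1, hh2⟩, hco⟩ := hp
    have e1 : ((h : ℚ) / (k : ℚ)).den = k := by
      have := Rat.den_div_eq_of_coprime (a := h) (b := k) (by exact_mod_cast hk1) (by simpa using hco)
      push_cast at this
      exact_mod_cast this
    have e2 : ((h : ℚ) / (k : ℚ)).num = h := by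
      have := Rat.num_div_eq_of_coprime (a := h) (b := k) (by exact_mod_cast hk1) (by simpa using hco)
      push_cast at this
      exact_mod_cast this
    simp only [e1, e2, Int.natAbs_natCast]
  · intro x hx
    rw [mem_farey] at hx
    obtain ⟨h0, h1, h2⟩ := hx
    have hnum : 0 < x.num := Rat.num_pos.mpr h0
    simp only
    rw [Nat.cast_natAbs, abs_of_pos hnum, Rat.num_div_den]

lemma sum_coprime_eq (k : ℕ) (hk : 0 < k) (G : ℚ → ℝ) :
    ∑ h ∈ (Finset.Icc 1 k).filter (fun h => Nat.Coprime h k), G ((h : ℚ) / (k : ℚ)) =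
      ∑ e ∈ k.divisors, mu e * ∑ h ∈ Finset.Icc 1 (k / e), G ((h : ℚ) / ((k / e : ℕ) : ℚ)) := by
  have h1 : ∀ h ∈ Finset.Icc 1 k, (if Nat.Coprime h k then G ((h : ℚ) / (k : ℚ)) else 0) =
      ∑ e ∈ k.divisors, (if e ∣ h then mu e * G ((h : ℚ) / (k : ℚ)) else 0) := by
    intro h hh
    rw [Finset.mem_Icc] at hh
    have h2 : ∑ e ∈ (Nat.gcd h k).divisors, mu e = if Nat.gcd h k = 1 then 1 else 0 := by
      have := congrArg (fun f : ArithmeticFunction ℤ => f (Nat.gcd h k)) ArithmeticFunction.moebius_mul_coe_zeta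
      simp only [ArithmeticFunction.coe_mul_zeta_apply, ArithmeticFunction.one_apply] at this
      unfold mu
      exact_mod_cast this
    have h3 : (Nat.gcd h k).divisors = k.divisors.filter (fun e => e ∣ h) := by
      ext e
      simp only [Nat.mem_divisors, Finset.mem_filter, Nat.dvd_gcd_iff]
      have : Nat.gcd h k ≠ 0 := (Nat.gcd_pos_of_pos_right h hk).ne'
      constructor
      · rintro ⟨⟨a, b⟩, _⟩; exact ⟨⟨b, hk.ne'⟩, a⟩
      · rintro ⟨⟨a, _⟩, b⟩; exact ⟨⟨b, a⟩, this⟩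
    rw [h3, Finset.sum_filter] at h2
    have h4 : ∑ e ∈ k.divisors, (if e ∣ h then mu e * G ((h : ℚ) / (k : ℚ)) else 0) =
        (∑ e ∈ k.divisors, (if e ∣ h then mu e else 0)) * G ((h : ℚ) / (k : ℚ)) := by
      rw [Finset.sum_mul]
      refine Finset.sum_congr rfl fun e _ => ?_
      split_ifs <;> ring
    rw [h4, h2]
    unfold Nat.Coprime
    split_ifs <;> ring
  rw [Finset.sum_filter, Finset.sum_congr rfl h1, Finset.sum_comm]
  refine Finset.sum_congr rfl fun e he => ?_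
  rw [Nat.mem_divisors] at he
  obtain ⟨⟨d, rfl⟩, _⟩ := he
  have he0 : 0 < e := Nat.pos_of_mul_pos_right hk |> fun h => by
    rcases Nat.eq_zero_or_pos e with h0 | h0
    · simp [h0] at hk
    · exact h0
  rw [Nat.mul_div_cancel_left d he0, Finset.mul_sum, ← Finset.sum_filter]
  symm
  refine Finset.sum_nbij' (fun h => e * h) (fun h => h / e) ?_ ?_ ?_ ?_ ?_
  · intro h hh
    rw [Finset.mem_Icc] at hh
    rw [Finset.mem_filter, Finset.mem_Icc]
    refine ⟨⟨?_, Nat.mul_le_mul_left e hh.2⟩, dvd_mul_right e h⟩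
    exact Nat.mul_pos he0 hh.1
  · intro h hh
    rw [Finset.mem_filter, Finset.mem_Icc] at hh
    obtain ⟨⟨hh1, hh2⟩, ⟨c, rfl⟩⟩ := hh
    rw [Nat.mul_div_cancel_left c he0, Finset.mem_Icc]
    exact ⟨Nat.pos_of_ne_zero (by rintro rfl; simp at hh1), Nat.le_of_mul_le_mul_left hh2 he0⟩
  · intro h hh
    exact Nat.mul_div_cancel_left h he0
  · intro h hh
    rw [Finset.mem_filter] at hh
    exact Nat.mul_div_cancel' hh.2
  · intro h hh
    have : ((e * h : ℕ) : ℚ) / ((e * d : ℕ) : ℚ) = (h : ℚ) / (d : ℚ) := by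
      push_cast
      rw [mul_div_mul_left _ _ (by exact_mod_cast he0.ne')]
    rw [this]

lemma sum_divisors_swap (n : ℕ) (g : ℕ → ℕ → ℝ) :
    ∑ k ∈ Finset.Icc 1 n, ∑ e ∈ k.divisors, g e (k / e) =
      ∑ e ∈ Finset.Icc 1 n, ∑ d ∈ Finset.Icc 1 (n / e), g e d := by
  rw [Finset.sum_sigma', Finset.sum_sigma']
  refine Finset.sum_nbij' (fun p => ⟨p.2, p.1 / p.2⟩) (fun p => ⟨p.1 * p.2, p.1⟩) ?_ ?_ ?_ ?_ ?_
  · rintro ⟨k, e⟩ hp
    simp only [Finset.mem_sigma, Finset.mem_Icc, Nat.mem_divisors] at hp ⊢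
    obtain ⟨⟨hk1, hk2⟩, ⟨d, rfl⟩, _⟩ := hp
    have he0 : 0 < e := by
      rcases Nat.eq_zero_or_pos e with h0 | h0
      · simp [h0] at hk1
      · exact h0
    have hd0 : 0 < d := by
      rcases Nat.eq_zero_or_pos d with h0 | h0
      · simp [h0] at hk1
      · exact h0
    rw [Nat.mul_div_cancel_left d he0]
    refine ⟨⟨he0, ?_⟩, hd0, ?_⟩
    · exact (Nat.le_mul_of_pos_right e hd0).trans hk2
    · rw [Nat.le_div_iff_mul_le he0, mul_comm]; exact hk2
  · rintro ⟨e, d⟩ hp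
    simp only [Finset.mem_sigma, Finset.mem_Icc, Nat.mem_divisors] at hp ⊢
    obtain ⟨⟨he1, he2⟩, hd1, hd2⟩ := hp
    rw [Nat.le_div_iff_mul_le he1, mul_comm] at hd2
    have hpos : 0 < e * d := Nat.mul_pos he1 hd1
    exact ⟨⟨hpos, hd2⟩, dvd_mul_right e d, hpos.ne'⟩
  · rintro ⟨k, e⟩ hp
    simp only [Finset.mem_sigma, Finset.mem_Icc, Nat.mem_divisors] at hp ⊢
    obtain ⟨_, hd, _⟩ := hp
    rw [Nat.mul_div_cancel' hd]
  · rintro ⟨e, d⟩ hp
    simp only [Finset.mem_sigma, Finset.mem_Icc] at hp ⊢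
    rw [Nat.mul_div_cancel_left d hp.1.1]
  · rintro ⟨k, e⟩ hp
    rfl

/-- The sum over the Farey sequence, first form. -/
theorem sum_farey_moebius (n : ℕ) (G : ℚ → ℝ) :
    ∑ x ∈ farey n, G x =
      ∑ e ∈ Finset.Icc 1 n, mu e * ∑ d ∈ Finset.Icc 1 (n / e), ∑ h ∈ Finset.Icc 1 d, G ((h : ℚ) / (d : ℚ)) := by
  rw [sum_farey_eq]
  have h1 : ∀ k ∈ Finset.Icc 1 n,
      ∑ h ∈ (Finset.Icc 1 k).filter (fun h => Nat.Coprime h k), G ((h : ℚ) / (k : ℚ)) =
      ∑ e ∈ k.divisors, (fun e d : ℕ => mu e * ∑ h ∈ Finset.Icc 1 d, G ((h : ℚ) / (d : ℚ))) e (k / e) := by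
    intro k hk
    rw [Finset.mem_Icc] at hk
    exact sum_coprime_eq k hk.1 G
  rw [Finset.sum_congr rfl h1, sum_divisors_swap n (fun e d : ℕ => mu e * ∑ h ∈ Finset.Icc 1 d, G ((h : ℚ) / (d : ℚ)))]
  refine Finset.sum_congr rfl fun e _ => ?_
  rw [Finset.mul_sum]

lemma sum_swap_div (n : ℕ) (a b : ℕ → ℝ) :
    ∑ e ∈ Finset.Icc 1 n, a e * ∑ d ∈ Finset.Icc 1 (n / e), b d =
      ∑ d ∈ Finset.Icc 1 n, b d * ∑ e ∈ Finset.Icc 1 (n / d), a e := by
  have h1 : ∀ e ∈ Finset.Icc 1 n, a e * ∑ d ∈ Finset.Icc 1 (n / e), b d =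
      ∑ d ∈ Finset.Icc 1 n, if e * d ≤ n then a e * b d else 0 := by
    intro e he
    rw [Finset.mem_Icc] at he
    rw [← Finset.sum_filter, Finset.mul_sum]
    refine Finset.sum_congr ?_ fun _ _ => rfl
    ext d
    simp only [Finset.mem_Icc, Finset.mem_filter]
    rw [Nat.le_div_iff_mul_le he.1, mul_comm d e]
    constructor
    · rintro ⟨h1, h2⟩
      exact ⟨⟨h1, (Nat.le_mul_of_pos_left d he.1).trans h2⟩, h2⟩
    · rintro ⟨⟨h1, _⟩, h2⟩
      exact ⟨h1, h2⟩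
  have h2 : ∀ d ∈ Finset.Icc 1 n, b d * ∑ e ∈ Finset.Icc 1 (n / d), a e =
      ∑ e ∈ Finset.Icc 1 n, if e * d ≤ n then a e * b d else 0 := by
    intro d hd
    rw [Finset.mem_Icc] at hd
    rw [← Finset.sum_filter, Finset.mul_sum]
    refine Finset.sum_congr ?_ fun _ _ => by ring
    ext e
    simp only [Finset.mem_Icc, Finset.mem_filter]
    rw [Nat.le_div_iff_mul_le hd.1]
    constructor
    · rintro ⟨h1, h2⟩
      exact ⟨⟨h1, (Nat.le_mul_of_pos_right e hd.1).trans h2⟩, h2⟩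
    · rintro ⟨⟨h1, _⟩, h2⟩
      exact ⟨h1, h2⟩
  rw [Finset.sum_congr rfl h1, Finset.sum_congr rfl h2, Finset.sum_comm]

lemma Mx_div (n d : ℕ) : Mx ((n : ℝ) / d) = ∑ e ∈ Finset.Icc 1 (n / d), mu e := by
  unfold Mx
  rw [Nat.floor_div_natCast, Nat.floor_natCast]

/-- The sum over the Farey sequence, second form. -/
theorem sum_farey_mertens (n : ℕ) (G : ℚ → ℝ) :
    ∑ x ∈ farey n, G x =
      ∑ d ∈ Finset.Icc 1 n, Mx ((n : ℝ) / d) * ∑ h ∈ Finset.Icc 1 d, G ((h : ℚ) / (d : ℚ)) := by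
  rw [sum_farey_moebius, sum_swap_div n mu (fun d => ∑ h ∈ Finset.Icc 1 d, G ((h : ℚ) / (d : ℚ)))]
  refine Finset.sum_congr rfl fun d _ => ?_
  rw [Mx_div]; ring

end

end Pool.Agent.H295R2
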