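import Pool.Agent.H295R2.T1

set_option autoImplicit false

open MeasureTheory Filter Topology Set
open H332.FL (sw)

namespace Pool.Agent.H295R2

noncomputable section

lemma harmonic_Icc_le {n : ℕ} (hn : 1 ≤ n) : ∑ d ∈ Finset.Icc 1 n, (1 / (d : ℝ)) ≤ 1 + Real.log n := by
  have h1 := harmonic_le_one_add_log n
  have h2 : ∀ m : ℕ, ∑ d ∈ Finset.Icc 1 m, (1 / (d : ℝ)) = ((harmonic m : ℚ) : ℝ) := by
    intro m
    induction m with
    | zero => simp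
    | succ k ih =>
      rw [Finset.sum_Icc_succ_top (by omega), ih, harmonic_succ]
      push_cast
      rw [one_div]
  rw [h2]; exact h1

lemma sum_Mx_le {n : ℕ} (hn : 1 ≤ n) : ∑ d ∈ Finset.Icc 1 n, |Mx ((n : ℝ) / d)| ≤ n * (1 + Real.log n) := by
  have hn0 : (0:ℝ) < n := by exact_mod_cast hn
  calc ∑ d ∈ Finset.Icc 1 n, |Mx ((n : ℝ) / d)| ≤ ∑ d ∈ Finset.Icc 1 n, (n:ℝ) * (1 / d) := by
        refine Finset.sum_le_sum fun d _ => ?_
        have := abs_Mx_le (y := (n:ℝ) / d) (by positivity)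
        rw [mul_one_div]; exact this
    _ = n * ∑ d ∈ Finset.Icc 1 n, (1 / (d:ℝ)) := by rw [Finset.mul_sum]
    _ ≤ n * (1 + Real.log n) := by gcongr; exact harmonic_Icc_le hn

lemma abs_Ef_le {n : ℕ} (hn : 1 ≤ n) (t : ℝ) : |Ef n t| ≤ n * (1 + Real.log n) := by
  have hn1 : (1:ℝ) ≤ n := by exact_mod_cast hn
  have hlog : 0 ≤ Real.log n := Real.log_nonneg hn1
  unfold Ef
  have h1 : |∑ d ∈ Finset.Icc 1 n, Mx ((n : ℝ) / d) * sw ((d : ℝ) * t)| ≤ (n * (1 + Real.log n)) * (1 / 2) := by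
    refine (Finset.abs_sum_le_sum_abs _ _).trans ?_
    calc ∑ d ∈ Finset.Icc 1 n, |Mx ((n : ℝ) / d) * sw ((d : ℝ) * t)|
        ≤ ∑ d ∈ Finset.Icc 1 n, |Mx ((n : ℝ) / d)| * (1 / 2) := by
          refine Finset.sum_le_sum fun d _ => ?_
          rw [abs_mul]
          gcongr
          exact H332.FL.abs_sw_le _
      _ = (∑ d ∈ Finset.Icc 1 n, |Mx ((n : ℝ) / d)|) * (1 / 2) := by rw [Finset.sum_mul]
      _ ≤ _ := by gcongr; exact sum_Mx_le hn
  have h2 := abs_sub (-(∑ d ∈ Finset.Icc 1 n, Mx ((n : ℝ) / d) * sw ((d : ℝ) * t))) (1 / 2)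
  rw [abs_neg] at h2
  have h3 : |(1 : ℝ) / 2| = 1 / 2 := by norm_num
  nlinarith

lemma sum_Icc_id (m : ℕ) : ∑ d ∈ Finset.Icc 1 m, (d : ℝ) = m * (m + 1) / 2 := by
  induction m with
  | zero => simp
  | succ k ih =>
    rw [Finset.sum_Icc_succ_top (by omega), ih]
    push_cast; ring

lemma card_lower {n : ℕ} (hn : 2 ≤ n) : (n:ℝ) ^ 2 / 8 - n * (1 + Real.log n) ≤ (farey n).card := by
  have hn1 : 1 ≤ n := by omega
  have hn0 : (0:ℝ) < n := by exact_mod_cast hn1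
  have h1 := sum_farey_moebius n (fun _ => 1)
  have h2 : ∀ e ∈ Finset.Icc 1 n, mu e * ∑ d ∈ Finset.Icc 1 (n / e), ∑ h ∈ Finset.Icc 1 d, (1:ℝ) =
      mu e * (((n / e : ℕ) : ℝ) * ((n / e : ℕ) + 1) / 2) := by
    intro e _
    congr 1
    rw [← sum_Icc_id]
    refine Finset.sum_congr rfl fun d _ => ?_
    simp
  rw [Finset.sum_congr rfl h2, Finset.sum_const, nsmul_eq_mul, mul_one] at h1
  rw [h1]
  have hsplit : Finset.Icc 1 n = insert 1 (insert 2 (Finset.Ioc 2 n)) := by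
    ext x; simp only [Finset.mem_Icc, Finset.mem_insert, Finset.mem_Ioc]; omega
  have hterm : ∀ e : ℕ, 2 ≤ e → -(((n:ℝ) ^ 2 * ((e:ℝ) ^ 2)⁻¹ + n * (1 / e)) / 2) ≤ mu e * (((n / e : ℕ) : ℝ) * ((n / e : ℕ) + 1) / 2) := by
    intro e he
    have he0 : (0:ℝ) < e := by
      have : 0 < e := by omega
      exact_mod_cast this
    have h3 : ((n / e : ℕ) : ℝ) ≤ n / e := Nat.cast_div_le
    have h4 : (0:ℝ) ≤ ((n / e : ℕ) : ℝ) := Nat.cast_nonneg _
    have h5 := abs_le.mp (abs_mu_le e)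
    have h6 : ((n / e : ℕ) : ℝ) * ((n / e : ℕ) + 1) / 2 ≤ ((n:ℝ) ^ 2 * ((e:ℝ) ^ 2)⁻¹ + n * (1 / e)) / 2 := by
      have : (n:ℝ) ^ 2 * ((e:ℝ) ^ 2)⁻¹ + n * (1 / e) = (n / e) * (n / e + 1) := by field_simp
      rw [this]; gcongr
    have h7 : 0 ≤ ((n / e : ℕ) : ℝ) * ((n / e : ℕ) + 1) / 2 := by positivity
    have h8 := mul_le_mul_of_nonneg_right h5.1 h7
    linarith
  have hlow : ∑ e ∈ Finset.Icc 1 n, mu e * (((n / e : ℕ) : ℝ) * ((n / e : ℕ) + 1) / 2) ≥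
      (n:ℝ) * (n + 1) / 2 - ∑ e ∈ insert 2 (Finset.Ioc 2 n), (((n:ℝ) ^ 2 * ((e:ℝ) ^ 2)⁻¹ + n * (1 / e)) / 2) := by
    rw [hsplit, Finset.sum_insert (by simp)]
    have h7 : mu 1 = 1 := by unfold mu; simp
    rw [h7, Nat.div_one, one_mul]
    have h9 : ∑ e ∈ insert 2 (Finset.Ioc 2 n), -(((n:ℝ) ^ 2 * ((e:ℝ) ^ 2)⁻¹ + n * (1 / e)) / 2) ≤
        ∑ e ∈ insert 2 (Finset.Ioc 2 n), mu e * (((n / e : ℕ) : ℝ) * ((n / e : ℕ) + 1) / 2) := by
      refine Finset.sum_le_sum fun e he => ?_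
      simp only [Finset.mem_insert, Finset.mem_Ioc] at he
      exact hterm e (by omega)
    rw [Finset.sum_neg_distrib] at h9
    linarith
  have hsq : ∑ e ∈ insert 2 (Finset.Ioc 2 n), (((e:ℕ):ℝ) ^ 2)⁻¹ ≤ 3 / 4 := by
    rw [Finset.sum_insert (by simp)]
    have := sum_Ioc_inv_sq_le_sub (α := ℝ) (k := 2) (n := n) (by norm_num) hn
    have h8 : (0:ℝ) ≤ (n:ℝ)⁻¹ := by positivity
    norm_num at this ⊢
    linarith
  have hh : ∑ e ∈ insert 2 (Finset.Ioc 2 n), (1 / ((e:ℕ):ℝ)) ≤ 1 + Real.log n := by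
    refine le_trans ?_ (harmonic_Icc_le hn1)
    refine Finset.sum_le_sum_of_subset_of_nonneg ?_ fun _ _ _ => by positivity
    intro x hx
    simp only [Finset.mem_insert, Finset.mem_Ioc] at hx
    rw [Finset.mem_Icc]; omega
  have e9 : ∑ e ∈ insert 2 (Finset.Ioc 2 n), (((n:ℝ) ^ 2 * (((e:ℕ):ℝ) ^ 2)⁻¹ + n * (1 / e)) / 2) =
      ((n:ℝ) ^ 2 * ∑ e ∈ insert 2 (Finset.Ioc 2 n), (((e:ℕ):ℝ) ^ 2)⁻¹ + n * ∑ e ∈ insert 2 (Finset.Ioc 2 n), (1 / ((e:ℕ):ℝ))) / 2 := by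
    rw [Finset.mul_sum, Finset.mul_sum, ← Finset.sum_add_distrib, Finset.sum_div]
  rw [e9] at hlow
  have hlog : 0 ≤ Real.log n := Real.log_nonneg (by exact_mod_cast hn1)
  have h10 : (n:ℝ) ^ 2 * ∑ e ∈ insert 2 (Finset.Ioc 2 n), (((e:ℕ):ℝ) ^ 2)⁻¹ ≤ (n:ℝ) ^ 2 * (3 / 4) := by gcongr
  have h11 : (n:ℝ) * ∑ e ∈ insert 2 (Finset.Ioc 2 n), (1 / ((e:ℕ):ℝ)) ≤ n * (1 + Real.log n) := by gcongr
  have h12 : 0 ≤ (n:ℝ) * (1 + Real.log n) := by positivity
  nlinarith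

/-- eventually `A(n) ≥ n²/16` -/
lemma card_lower' : ∀ᶠ n : ℕ in atTop, (n:ℝ) ^ 2 / 16 ≤ (farey n).card := by
  have h1 : Tendsto (fun n : ℕ => (1 + Real.log (n:ℝ)) / (n:ℝ)) atTop (𝓝 0) := by
    have h2 : Tendsto (fun x : ℝ => (1 + Real.log x) / x) atTop (𝓝 0) := by
      have h3 := (Real.isLittleO_log_id_atTop).tendsto_div_nhds_zero
      have h4 : Tendsto (fun x : ℝ => 1 / x) atTop (𝓝 0) := by
        simpa using tendsto_inv_atTop_zero (𝕜 := ℝ)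
      have := h4.add h3
      rw [add_zero] at this
      refine this.congr fun x => ?_
      simp only [id]
      ring
    exact h2.comp tendsto_natCast_atTop_atTop
  have h5 := h1.eventually (gt_mem_nhds (show (0:ℝ) < 1 / 16 by norm_num))
  filter_upwards [h5, eventually_ge_atTop 2] with n h6 hn
  have hn0 : (0:ℝ) < n := by
    have : 0 < n := by omega
    exact_mod_cast this
  have h7 := card_lower hn
  rw [div_lt_iff₀ hn0] at h6
  have h8 : (n:ℝ) * (1 + Real.log n) ≤ n * (1 / 16 * n) := by gcongr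
  nlinarith

lemma cnt_fareyNth {n : ℕ} (j : Fin (farey n).card) : cnt n (fareyNth n j) = (j : ℕ) + 1 := by
  unfold cnt
  rw [t1_sum_eq n (fun x => if ((x : ℚ) : ℝ) ≤ fareyNth n j then 1 else 0)]
  have h3 : ∀ i : Fin (farey n).card,
      (if ((((farey n).orderEmbOfFin rfl i : ℚ)) : ℝ) ≤ fareyNth n j then (1 : ℝ) else 0) =
      if i ≤ j then 1 else 0 := by
    intro i
    congr 1
    exact propext ((fareyNth_strictMono n).le_iff_le (a := i) (b := j))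
  rw [Finset.sum_congr rfl fun i _ => h3 i, ← Finset.sum_filter, Finset.sum_const, nsmul_eq_mul, mul_one]
  have h4 : (Finset.univ.filter fun i : Fin (farey n).card => i ≤ j) = Finset.Iic j := by
    ext i; simp
  rw [h4, Fin.card_Iic]
  push_cast; ring

lemma disp_eq {n : ℕ} (hn : 1 ≤ n) (j : Fin (farey n).card) :
    disp n j = |Ef n (fareyNth n j)| / (farey n).card := by
  have hA : (0:ℝ) < (farey n).card := by exact_mod_cast t1_card_pos hn
  have h1 := cnt_sub hn (fareyNth_pos n j).le (fareyNth_le_one n j)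
  rw [cnt_fareyNth] at h1
  rw [← h1]
  unfold disp
  rw [← abs_of_pos hA, ← abs_div, abs_of_pos hA, ← abs_neg]
  congr 1
  field_simp
  ring

/-- displacements are small -/
lemma disp_le : ∀ᶠ n : ℕ in atTop, ∀ j : Fin (farey n).card, disp n j ≤ 16 * (1 + Real.log n) / n := by
  filter_upwards [card_lower', eventually_ge_atTop 2] with n h1 hn j
  have hn1 : 1 ≤ n := by omega
  have hn0 : (0:ℝ) < n := by exact_mod_cast hn1
  have hA : (0:ℝ) < (farey n).card := by exact_mod_cast t1_card_pos hn1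
  have hlog : 0 ≤ Real.log n := Real.log_nonneg (by exact_mod_cast hn1)
  rw [disp_eq hn1, div_le_div_iff₀ hA hn0]
  calc |Ef n (fareyNth n j)| * n ≤ (n * (1 + Real.log n)) * n := by gcongr; exact abs_Ef_le hn1 _
    _ = 16 * (1 + Real.log n) * (n ^ 2 / 16) := by ring
    _ ≤ 16 * (1 + Real.log n) * (farey n).card := by gcongr

end

end Pool.Agent.H295R2
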