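import Pool.Agent.H295R2.R3

set_option autoImplicit false

open MeasureTheory Filter Topology Set
open scoped ContDiff ENNReal

namespace Pool.Agent.H295R2

noncomputable section

lemma bb_eq_sum {φ : ℝ → ℝ} (hφ : Bump φ) {p q : ℕ} (hpq : p < q) {D : ℝ} (hD : 2 * (q:ℝ) ≤ D) {d : ℕ}
    (hd : 0 < d) :
    ∑ h ∈ Finset.Icc 1 d, deriv φ (D * ((((h : ℚ) / (d : ℚ) : ℚ) : ℝ) - p / q)) = bb φ p q D d := by
  have hq : 0 < q := by omega
  have hq' : (0:ℝ) < q := by exact_mod_cast hq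
  have hp' : (0:ℝ) ≤ p := Nat.cast_nonneg p
  have hd' : (0:ℝ) < d := by exact_mod_cast hd
  have hpq1 : (p:ℝ) + 1 ≤ q := by exact_mod_cast hpq
  have hD0 : 0 < D := by linarith
  unfold bb
  rw [Gt_eq]
  have hval : ∀ j : ℝ, (-((p:ℝ) * d) + q * j) * (D / (q * d)) = D * (j / d - p / q) := by
    intro j; field_simp; ring
  have h1 : ∑' j : ℤ, deriv φ ((-((p:ℝ) * d) + q * j) * (D / (q * d))) =
      ∑ j ∈ Finset.Icc (1:ℤ) d, deriv φ (D * ((j:ℝ) / d - p / q)) := by
    rw [tsum_congr (fun j : ℤ => by rw [hval j])]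
    refine tsum_eq_sum fun j hj => ?_
    by_contra hne
    apply hj
    have h2 := hφ.deriv.supp hne
    have h3 : (0:ℝ) < (j:ℝ) / d - p / q := by
      by_contra hneg
      have := mul_nonpos_of_nonneg_of_nonpos hD0.le (not_lt.mp hneg)
      linarith [h2.1]
    have h4 : (j:ℝ) / d - p / q ≤ 1 / q := by
      have h5 : D * ((j:ℝ) / d - p / q) ≤ D * (1 / q) := by
        refine h2.2.trans ?_
        rw [mul_one_div, le_div_iff₀ hq']; exact hD
      exact le_of_mul_le_mul_left h5 hD0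
    have h6 : (0:ℝ) < (j:ℝ) / d := by
      have : (0:ℝ) ≤ (p:ℝ) / q := by positivity
      linarith
    have h7 : (0:ℝ) < j := by
      by_contra hneg
      have := div_nonpos_of_nonpos_of_nonneg (not_lt.mp hneg) hd'.le
      linarith
    have h8 : (j:ℝ) / d ≤ 1 := by
      have : (p:ℝ) / q + 1 / q ≤ 1 := by
        rw [← add_div, div_le_one hq']; exact hpq1
      linarith
    rw [div_le_one hd'] at h8
    rw [Finset.mem_Icc]
    constructor
    · have : (0:ℤ) < j := by exact_mod_cast h7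
      omega
    · exact_mod_cast h8
  rw [h1]
  refine Finset.sum_nbij' (fun h : ℕ => (h : ℤ)) (fun j : ℤ => j.toNat) ?_ ?_ ?_ ?_ ?_
  · intro h hh
    rw [Finset.mem_Icc] at hh ⊢
    omega
  · intro j hj
    rw [Finset.mem_Icc] at hj ⊢
    omega
  · intro h _
    simp
  · intro j hj
    rw [Finset.mem_Icc] at hj
    exact Int.toNat_of_nonneg (by omega)
  · intro h _
    push_cast
    rfl

/-- the Farey sum of `φ'(D (x - p/q))` -/
theorem farey_local_sum {φ : ℝ → ℝ} (hφ : Bump φ) {p q : ℕ} (hpq : p < q) {D : ℝ} (hD : 2 * (q:ℝ) ≤ D)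
    (n : ℕ) :
    ∑ x ∈ farey n, deriv φ (D * ((x : ℝ) - p / q)) =
      ∑ e ∈ Finset.Icc 1 n, mu e * rho φ p q D ((n:ℝ) / e) + D / q ^ 2 * mOm φ (q * n / D) := by
  have hq : 0 < q := by omega
  have hq' : (0:ℝ) < q := by exact_mod_cast hq
  have hD0 : 0 < D := by linarith
  rw [sum_farey_moebius n (fun x : ℚ => deriv φ (D * ((x : ℝ) - p / q)))]
  rw [mOm_eq_sum hφ (X := q * n / D) (N := n) (by positivity) (by
    rw [mul_div_assoc']
    rw [div_le_iff₀ hD0]
    have : (0:ℝ) ≤ n := Nat.cast_nonneg n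
    nlinarith)]
  rw [Finset.mul_sum, ← Finset.sum_add_distrib]
  refine Finset.sum_congr rfl fun e he => ?_
  rw [Finset.mem_Icc] at he
  have he' : (0:ℝ) < e := by exact_mod_cast he.1
  have h1 : ∑ d ∈ Finset.Icc 1 (n / e), ∑ h ∈ Finset.Icc 1 d, deriv φ (D * ((((h : ℚ) / (d : ℚ) : ℚ) : ℝ) - p / q)) =
      ∑ d ∈ Finset.Icc 1 (n / e), bb φ p q D d := by
    refine Finset.sum_congr rfl fun d hd => ?_
    rw [Finset.mem_Icc] at hd
    exact bb_eq_sum hφ hpq hD hd.1
  rw [h1]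
  unfold rho
  rw [Nat.floor_div_natCast, Nat.floor_natCast]
  have h2 : (q:ℝ) * (n / e) / D = q * n / D / e := by field_simp
  rw [h2]
  ring

lemma avg_sub_le {k : ℝ → ℂ} {η u ε : ℝ} {c : ℂ} (hη : 0 < η)
    (hk : IntervalIntegrable (fun v => k (u + v)) volume 0 η) (h : ∀ v ∈ Icc 0 η, ‖k (u + v) - c‖ ≤ ε) :
    ‖avg η k u - c‖ ≤ ε := by
  unfold avg
  have hη' : (η:ℂ) ≠ 0 := by exact_mod_cast hη.ne'
  have h1 : (1 / (η:ℂ)) * (∫ v in (0:ℝ)..η, k (u + v)) - c = (1 / (η:ℂ)) * ∫ v in (0:ℝ)..η, (k (u + v) - c) := by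
    rw [intervalIntegral.integral_sub hk intervalIntegrable_const, intervalIntegral.integral_const, sub_zero,
      Complex.real_smul]
    field_simp
  rw [h1, norm_mul, norm_div, norm_one, Complex.norm_real, Real.norm_of_nonneg hη.le]
  have h2 := intervalIntegral.norm_integral_le_of_norm_le_const (a := 0) (b := η) (f := fun v => k (u + v) - c) (C := ε)
    (by
      intro v hv
      rw [uIoc_of_le hη.le] at hv
      exact h v ⟨hv.1.le, hv.2⟩)
  rw [sub_zero, abs_of_pos hη] at h2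
  calc 1 / η * ‖∫ v in (0:ℝ)..η, (k (u + v) - c)‖ ≤ 1 / η * (ε * η) := by gcongr
    _ = ε := by field_simp

lemma avg_avg_sub_le {k : ℝ → ℂ} {C u₀ : ℝ} (hk : Nice k C 0 u₀) {η u ε : ℝ} {c : ℂ} (hη : 0 < η)
    (h : ∀ w, 0 ≤ w → w ≤ 2 * η → ‖k (u + w) - c‖ ≤ ε) :
    ‖avg η (avg η k) u - c‖ ≤ ε := by
  refine avg_sub_le hη ?_ ?_
  · have := hk.avg_continuous η
    exact Continuous.intervalIntegrable (by fun_prop) _ _
  · intro v hv
    refine avg_sub_le hη ?_ ?_
    · have := (hk.intervalIntegrable (u + v + 0) (u + v + η))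
      have := this.comp_add_left (u + v)
      simpa using this
    · intro w hw
      have := h (v + w) (by linarith [hv.1, hw.1]) (by linarith [hv.2, hw.2])
      rw [← add_assoc] at this
      exact this

lemma floor_exp {n m : ℕ} (hn : 0 < n) (hm : 0 < m) {w : ℝ} (hw0 : 0 ≤ w) (hw : w ≤ 1 / (2 * n)) :
    ⌊((n:ℝ) / m) * Real.exp w⌋₊ = n / m ∧ n * Real.exp w < n + 1 := by
  have hn' : (1:ℝ) ≤ n := by exact_mod_cast hn
  have hm' : (0:ℝ) < m := by exact_mod_cast hm
  have hw1 : w ≤ 1 / 2 := hw.trans (by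
    rw [div_le_div_iff₀ (by positivity) (by norm_num)]; linarith)
  have h1 : Real.exp w ≤ 1 + w + w ^ 2 := by
    have := Real.abs_exp_sub_one_sub_id_le (x := w) (by rw [abs_of_nonneg hw0]; linarith)
    have := (abs_le.mp this).2
    linarith
  have hwn : w * n ≤ 1 / 2 := by
    rw [le_div_iff₀ (by positivity)] at hw
    linarith
  have h2 : (n:ℝ) * Real.exp w < n + 1 := by
    have : (n:ℝ) * Real.exp w ≤ n * (1 + w + w ^ 2) := by gcongr
    have h3 : (n:ℝ) * (1 + w + w ^ 2) = n + w * n + w * (w * n) := by ring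
    rw [h3] at this
    nlinarith
  refine ⟨?_, h2⟩
  apply le_antisymm
  · apply Nat.le_of_lt_succ
    rw [Nat.floor_lt (by positivity)]
    have h4 : n < m * (n / m + 1) := Nat.lt_mul_div_succ n hm
    have h5 : ((n:ℝ) + 1) ≤ m * ((n / m : ℕ) + 1) := by exact_mod_cast h4
    rw [div_mul_eq_mul_div, div_lt_iff₀ hm']
    push_cast
    linarith
  · have h3 : (n / m : ℕ) = ⌊(n:ℝ) / m⌋₊ := by rw [Nat.floor_div_natCast, Nat.floor_natCast]
    rw [h3]
    apply Nat.floor_le_floor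
    have : (1:ℝ) ≤ Real.exp w := Real.one_le_exp hw0
    have h6 : (0:ℝ) ≤ (n:ℝ) / m := by positivity
    nlinarith

/-- comparison of the smoothed sum with the sharp one -/
theorem perron_side {φ : ℝ → ℝ} (hφ : Bump φ) {p q : ℕ} (hq : 0 < q) (hpq : Nat.Coprime p q) :
    ∃ C > 0, ∀ n : ℕ, 1 ≤ n → ∀ D : ℝ, 4 * (q:ℝ) ≤ D →
      ‖(∑' m : ℕ, ((ArithmeticFunction.moebius m : ℤ) : ℂ) *
          avg (1 / (4 * n)) (avg (1 / (4 * n)) (krho φ p q D)) (Real.log n - Real.log m)) -
        ((∑ e ∈ Finset.Icc 1 n, mu e * rho φ p q D ((n:ℝ) / e) : ℝ) : ℂ)‖ ≤ C := by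
  obtain ⟨B, hB0, hB⟩ := krho_nice hφ hq hpq
  obtain ⟨C3, hC30, hC3⟩ := Om_diff_log hφ
  have hq' : (0:ℝ) < q := by exact_mod_cast hq
  have hq1 : (1:ℝ) ≤ q := by exact_mod_cast hq
  refine ⟨2 * q * C3, by positivity, fun n hn D hD => ?_⟩
  have hn' : (1:ℝ) ≤ n := by exact_mod_cast hn
  have hn0 : (0:ℝ) < n := by linarith
  have hD1 : 1 ≤ D := by linarith
  have hD0 : 0 < D := by linarith
  have hnice := hB B le_rfl D hD1
  set η : ℝ := 1 / (4 * n) with hη
  have hη0 : 0 < η := by rw [hη]; positivity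
  have h2η : 2 * η = 1 / (2 * n) := by rw [hη]; field_simp; norm_num
  set k := krho φ p q D with hk
  -- pointwise
  have hval : ∀ m : ℕ, 0 < m → ∀ w : ℝ, k (Real.log n - Real.log m + w) = ((rho φ p q D (((n:ℝ) / m) * Real.exp w) : ℝ) : ℂ) := by
    intro m hm w
    have hm' : (0:ℝ) < m := by exact_mod_cast hm
    rw [hk]
    unfold krho
    rw [Real.exp_add, Real.exp_sub, Real.exp_log hn0, Real.exp_log hm']
  -- terms beyond n vanish
  have hbig : ∀ m : ℕ, n < m → avg η (avg η k) (Real.log n - Real.log m) = 0 := by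
    intro m hm
    have hm0 : 0 < m := by omega
    have hm' : (0:ℝ) < m := by exact_mod_cast hm0
    have := avg_avg_sub_le hnice (u := Real.log n - Real.log m) (ε := 0) (c := 0) hη0 (by
      intro w hw0 hw
      rw [hval m hm0 w, sub_zero, Complex.norm_real, Real.norm_eq_abs]
      rw [h2η] at hw
      have h1 := (floor_exp hn hm0 hw0 hw).2
      have h2 : ((n:ℝ) / m) * Real.exp w ≤ 1 := by
        rw [div_mul_eq_mul_div, div_le_one hm']
        have : ((n:ℝ) + 1) ≤ m := by exact_mod_cast hm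
        linarith
      rw [rho_zero hφ hq hD0 (by positivity) (h2.trans (by rw [le_div_iff₀ (by positivity)]; linarith)), abs_zero])
    rw [sub_zero] at this
    exact norm_le_zero_iff.mp this
  have htsum : (∑' m : ℕ, ((ArithmeticFunction.moebius m : ℤ) : ℂ) * avg η (avg η k) (Real.log n - Real.log m)) =
      ∑ m ∈ Finset.Icc 1 n, ((ArithmeticFunction.moebius m : ℤ) : ℂ) * avg η (avg η k) (Real.log n - Real.log m) := by
    refine tsum_eq_sum fun m hm => ?_
    rw [Finset.mem_Icc, not_and_or] at hm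
    rcases hm with hm | hm
    · have : m = 0 := by omega
      subst this
      simp
    · rw [hbig m (by omega), mul_zero]
  rw [htsum]
  push_cast
  rw [← Finset.sum_sub_distrib]
  have hterm : ∀ m ∈ Finset.Icc 1 n, ‖((ArithmeticFunction.moebius m : ℤ) : ℂ) * avg η (avg η k) (Real.log n - Real.log m) -
      ((mu m : ℝ) : ℂ) * ((rho φ p q D ((n:ℝ) / m) : ℝ) : ℂ)‖ ≤ if (m:ℝ) ≤ 4 * q * n / D then D * C3 / (2 * n) else 0 := by
    intro m hm
    rw [Finset.mem_Icc] at hm
    have hm' : (0:ℝ) < m := by exact_mod_cast hm.1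
    have e1 : ((ArithmeticFunction.moebius m : ℤ) : ℂ) = ((mu m : ℝ) : ℂ) := by
      unfold mu; push_cast; rfl
    rw [e1, ← mul_sub, norm_mul, Complex.norm_real, Real.norm_eq_abs]
    have h1 : ‖avg η (avg η k) (Real.log n - Real.log m) - ((rho φ p q D ((n:ℝ) / m) : ℝ) : ℂ)‖ ≤
        if (m:ℝ) ≤ 4 * q * n / D then D * C3 / (2 * n) else 0 := by
      refine avg_avg_sub_le hnice hη0 ?_
      intro w hw0 hw
      rw [hval m hm.1 w, ← Complex.ofReal_sub, Complex.norm_real, Real.norm_eq_abs]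
      rw [h2η] at hw
      have h2 := (floor_exp hn hm.1 hw0 hw).1
      have h3 : ⌊(n:ℝ) / m⌋₊ = n / m := by rw [Nat.floor_div_natCast, Nat.floor_natCast]
      have e2 : rho φ p q D (((n:ℝ) / m) * Real.exp w) - rho φ p q D ((n:ℝ) / m) =
          -(D / q ^ 2 * (Om φ (q * ((n:ℝ) / m * Real.exp w) / D) - Om φ (q * ((n:ℝ) / m) / D))) := by
        unfold rho
        rw [h2, h3]; ring
      rw [e2, abs_neg, abs_mul, abs_of_pos (by positivity : (0:ℝ) < D / q ^ 2)]
      have hexp1 : (1:ℝ) ≤ Real.exp w := Real.one_le_exp hw0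
      split_ifs with hcase
      · have h4 := hC3 (q * ((n:ℝ) / m) / D) (q * ((n:ℝ) / m * Real.exp w) / D) (by positivity) (by
          have : (0:ℝ) < (n:ℝ) / m := by positivity
          gcongr
          nlinarith)
        have e3 : q * ((n:ℝ) / m * Real.exp w) / D / (q * ((n:ℝ) / m) / D) = Real.exp w := by field_simp
        rw [e3, Real.log_exp] at h4
        have h5 : D / (q:ℝ) ^ 2 ≤ D := by
          rw [div_le_iff₀ (by positivity)]
          nlinarith [hD0, mul_le_mul hq1 hq1 (by norm_num) hq'.le]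
        calc D / (q:ℝ) ^ 2 * |Om φ (q * ((n:ℝ) / m * Real.exp w) / D) - Om φ (q * ((n:ℝ) / m) / D)|
            ≤ D * (C3 * (1 / (2 * n))) := by gcongr; exact h4.trans (by gcongr)
          _ = D * C3 / (2 * n) := by ring
      · push Not at hcase
        have hexp2 : Real.exp w ≤ 2 := by
          have h6 := (floor_exp hn hm.1 hw0 hw).2
          have : (n:ℝ) * Real.exp w ≤ n * 2 := by linarith
          exact le_of_mul_le_mul_left this hn0
        have h7 : q * ((n:ℝ) / m * Real.exp w) / D ≤ 1 / 2 := by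
          rw [div_lt_iff₀ hD0] at hcase
          rw [div_le_iff₀ hD0]
          have : (n:ℝ) / m * Real.exp w ≤ n / m * 2 := by gcongr
          have h8 : (q:ℝ) * (n / m * 2) = 2 * (q * n) / m := by ring
          have h9 : 2 * (q * n) / (m:ℝ) ≤ 1 / 2 * D := by
            rw [div_le_iff₀ hm']; linarith
          calc (q:ℝ) * ((n:ℝ) / m * Real.exp w) ≤ q * (n / m * 2) := by gcongr
            _ ≤ 1 / 2 * D := by rw [h8]; exact h9
        have h10 : q * ((n:ℝ) / m) / D ≤ 1 / 2 := by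
          refine le_trans ?_ h7
          have : (0:ℝ) < (n:ℝ) / m := by positivity
          gcongr
          nlinarith
        rw [Om_zero hφ (by positivity) h7, Om_zero hφ (by positivity) h10]
        simp
    calc |mu m| * ‖avg η (avg η k) (Real.log n - Real.log m) - ((rho φ p q D ((n:ℝ) / m) : ℝ) : ℂ)‖
        ≤ 1 * (if (m:ℝ) ≤ 4 * q * n / D then D * C3 / (2 * n) else 0) := by
          have := abs_mu_le m
          gcongr
      _ = _ := one_mul _
  refine (norm_sum_le _ _).trans ((Finset.sum_le_sum hterm).trans ?_)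
  rw [← Finset.sum_filter, Finset.sum_const, nsmul_eq_mul]
  have hcard : (((Finset.Icc 1 n).filter (fun m : ℕ => (m:ℝ) ≤ 4 * q * n / D)).card : ℝ) ≤ 4 * q * n / D := by
    have h1 : (Finset.Icc 1 n).filter (fun m : ℕ => (m:ℝ) ≤ 4 * q * n / D) ⊆ Finset.Icc 1 ⌊4 * q * n / D⌋₊ := by
      intro m hm
      rw [Finset.mem_filter, Finset.mem_Icc] at hm
      rw [Finset.mem_Icc]
      exact ⟨hm.1.1, (Nat.le_floor_iff (by positivity)).mpr hm.2⟩
    have h2 := Finset.card_le_card h1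
    rw [Nat.card_Icc, Nat.add_sub_cancel] at h2
    have h3 : (⌊4 * q * n / D⌋₊ : ℝ) ≤ 4 * q * n / D := Nat.floor_le (by positivity)
    refine le_trans ?_ h3
    exact_mod_cast h2
  calc (((Finset.Icc 1 n).filter (fun m : ℕ => (m:ℝ) ≤ 4 * q * n / D)).card : ℝ) * (D * C3 / (2 * n))
      ≤ (4 * q * n / D) * (D * C3 / (2 * n)) := by gcongr
    _ = 2 * q * C3 := by field_simp; norm_num

end

end Pool.Agent.H295R2
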