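import Pool.Agent.H295R2.G
import Pool.Agent.H295R2.R4

set_option autoImplicit false

open MeasureTheory Filter Topology Set
open scoped ContDiff

namespace Pool.Agent.H295R2

noncomputable section

/-- the part of the Franel-Landau sum over the Farey points in the open interval `(α, β)` -/
def localSum (α β : ℝ) (n : ℕ) : ℝ :=
  ∑ j : Fin (farey n).card, if α < fareyNth n j ∧ fareyNth n j < β then disp n j else 0

lemma disp_nonneg (n : ℕ) (j : Fin (farey n).card) : 0 ≤ disp n j := abs_nonneg _

lemma localSum_nonneg (α β : ℝ) (n : ℕ) : 0 ≤ localSum α β n :=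
  Finset.sum_nonneg fun j _ => by split_ifs; exacts [disp_nonneg n j, le_rfl]

lemma localSum_mono {α β α' β' : ℝ} (h1 : α' ≤ α) (h2 : β ≤ β') (n : ℕ) : localSum α β n ≤ localSum α' β' n := by
  unfold localSum
  refine Finset.sum_le_sum fun j _ => ?_
  by_cases h : α < fareyNth n j ∧ fareyNth n j < β
  · rw [if_pos h, if_pos ⟨lt_of_le_of_lt h1 h.1, lt_of_lt_of_le h.2 h2⟩]
  · rw [if_neg h]
    split_ifs; exacts [disp_nonneg n j, le_rfl]

lemma localSum_le_total (α β : ℝ) (n : ℕ) : localSum α β n ≤ totalSum n := by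
  unfold localSum totalSum
  refine Finset.sum_le_sum fun j _ => ?_
  split_ifs; exacts [le_rfl, disp_nonneg n j]

/-- **the functional inequality** -/
lemma functional {F : ℝ → ℝ} {L a b g : ℝ} {n : ℕ} (hn : 1 ≤ n) (hL : 0 ≤ L)
    (hF : ∀ x y, |F x - F y| ≤ L * |x - y|)
    (hint : ∫ x in (0:ℝ)..1, F x = 0) (hsupp : ∀ x, F x ≠ 0 → a ≤ x ∧ x ≤ b) (hg : ∀ j, disp n j < g) :
    |∑ x ∈ farey n, F ((x : ℚ) : ℝ)| ≤ L * (localSum (a - g) (b + g) n + 1) := by
  have hApos := t1_card_pos hn
  set A := (farey n).card with hA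
  have hA0 : (0:ℝ) < A := by exact_mod_cast hApos
  have hcont : Continuous F := by
    have : LipschitzWith (Real.toNNReal L) F := by
      refine LipschitzWith.of_dist_le_mul fun x y => ?_
      rw [Real.coe_toNNReal _ hL, Real.dist_eq, Real.dist_eq]
      exact hF x y
    exact this.continuous
  rw [t1_sum_eq n (fun x => F ((x : ℚ) : ℝ))]
  -- second sum
  have h2 : |∑ j : Fin A, F (((j : ℕ) + 1 : ℝ) / A)| ≤ L := by
    have e1 : ∑ j : Fin A, F (((j : ℕ) + 1 : ℝ) / A) =
        ∑ j ∈ Finset.range A, A * ∫ x in ((j : ℝ) / A)..(((j + 1 : ℕ) : ℝ) / A), (F (((j : ℕ) + 1 : ℝ) / A) - F x) := by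
      have e2 : ∀ j ∈ Finset.range A, A * ∫ x in ((j : ℝ) / A)..(((j + 1 : ℕ) : ℝ) / A), (F (((j : ℕ) + 1 : ℝ) / A) - F x) =
          F (((j : ℕ) + 1 : ℝ) / A) - A * ∫ x in ((j : ℝ) / A)..(((j + 1 : ℕ) : ℝ) / A), F x := by
        intro j _
        rw [intervalIntegral.integral_sub intervalIntegrable_const (hcont.intervalIntegrable _ _),
          intervalIntegral.integral_const, smul_eq_mul]
        push_cast
        field_simp
        ring
      rw [Finset.sum_congr rfl e2, Finset.sum_sub_distrib, ← Finset.mul_sum]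
      have e3 := intervalIntegral.sum_integral_adjacent_intervals (μ := volume) (f := F) (a := fun j : ℕ => (j : ℝ) / A) (n := A)
        (fun k _ => hcont.intervalIntegrable _ _)
      rw [e3, Nat.cast_zero, zero_div, div_self hA0.ne', hint, mul_zero, sub_zero,
        Finset.sum_range (fun j : ℕ => F (((j : ℕ) + 1 : ℝ) / A))]
    rw [e1]
    refine (Finset.abs_sum_le_sum_abs _ _).trans ?_
    have e4 : ∀ j ∈ Finset.range A, |A * ∫ x in ((j : ℝ) / A)..(((j + 1 : ℕ) : ℝ) / A), (F (((j : ℕ) + 1 : ℝ) / A) - F x)| ≤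
        L / A := by
      intro j _
      have hle : (j : ℝ) / A ≤ ((j + 1 : ℕ) : ℝ) / A := by gcongr; simp
      have e5 := intervalIntegral.norm_integral_le_of_norm_le_const (a := (j : ℝ) / A) (b := ((j + 1 : ℕ) : ℝ) / A)
        (f := fun x => F (((j : ℕ) + 1 : ℝ) / A) - F x) (C := L * (1 / A)) (by
          intro x hx
          rw [uIoc_of_le hle] at hx
          rw [Real.norm_eq_abs]
          refine (hF _ _).trans ?_
          have h6 : |((j : ℕ) + 1 : ℝ) / A - x| ≤ 1 / A := by
            rw [abs_le]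
            have e7 : ((j + 1 : ℕ) : ℝ) / A = j / A + 1 / A := by push_cast; ring
            have e8 : ((j : ℕ) + 1 : ℝ) / A = j / A + 1 / A := by ring
            rw [e7] at hx
            rw [e8]
            have : (0:ℝ) < 1 / A := by positivity
            constructor <;> linarith [hx.1, hx.2]
          gcongr)
      rw [Real.norm_eq_abs] at e5
      have e9 : |((j + 1 : ℕ) : ℝ) / A - (j : ℝ) / A| = 1 / A := by
        have : ((j + 1 : ℕ) : ℝ) / A - (j : ℝ) / A = 1 / A := by push_cast; ring
        rw [this, abs_of_pos (by positivity)]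
      rw [e9] at e5
      rw [abs_mul, abs_of_pos hA0]
      calc (A:ℝ) * |∫ x in ((j : ℝ) / A)..(((j + 1 : ℕ) : ℝ) / A), (F (((j : ℕ) + 1 : ℝ) / A) - F x)|
          ≤ A * (L * (1 / A) * (1 / A)) := by gcongr
        _ = L / A := by field_simp
    calc ∑ j ∈ Finset.range A, |A * ∫ x in ((j : ℝ) / A)..(((j + 1 : ℕ) : ℝ) / A), (F (((j : ℕ) + 1 : ℝ) / A) - F x)|
        ≤ ∑ j ∈ Finset.range A, L / A := Finset.sum_le_sum e4
      _ = L := by rw [Finset.sum_const, Finset.card_range, nsmul_eq_mul]; field_simp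
  -- first sum
  have h1 : |∑ j : Fin A, (F (fareyNth n j) - F (((j : ℕ) + 1 : ℝ) / A))| ≤ L * localSum (a - g) (b + g) n := by
    refine (Finset.abs_sum_le_sum_abs _ _).trans ?_
    unfold localSum
    rw [Finset.mul_sum]
    refine Finset.sum_le_sum fun j _ => ?_
    split_ifs with hcase
    · exact hF _ _
    · rw [mul_zero]
      have hdj := hg j
      have hd0 := disp_nonneg n j
      have c1 : F (fareyNth n j) = 0 := by
        by_contra hne
        have := hsupp _ hne
        exact hcase ⟨by linarith [this.1], by linarith [this.2]⟩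
      have c2 : F (((j : ℕ) + 1 : ℝ) / A) = 0 := by
        by_contra hne
        have := hsupp _ hne
        unfold disp at hdj
        rw [abs_lt] at hdj
        exact hcase ⟨by linarith [this.1, hdj.1], by linarith [this.2, hdj.2]⟩
      rw [c1, c2, sub_zero, abs_zero]
  have e : ∑ i : Fin A, F ((((farey n).orderEmbOfFin rfl i : ℚ) : ℚ) : ℝ) =
      ∑ j : Fin A, (F (fareyNth n j) - F (((j : ℕ) + 1 : ℝ) / A)) + ∑ j : Fin A, F (((j : ℕ) + 1 : ℝ) / A) := by
    rw [← Finset.sum_add_distrib]
    refine Finset.sum_congr rfl fun j _ => ?_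
    rw [sub_add_cancel]
    rfl
  rw [e]
  calc |∑ j : Fin A, (F (fareyNth n j) - F (((j : ℕ) + 1 : ℝ) / A)) + ∑ j : Fin A, F (((j : ℕ) + 1 : ℝ) / A)|
      ≤ _ := abs_add_le _ _
    _ ≤ L * localSum (a - g) (b + g) n + L := add_le_add h1 h2
    _ = L * (localSum (a - g) (b + g) n + 1) := by ring

/-- application to the windows near a rational number -/
lemma functional_window {φ : ℝ → ℝ} (hφ : Bump φ) {p q : ℕ} (hpq : p < q) {η : ℝ} (hη : 0 < η) :
    ∃ C > 0, ∀ᶠ n : ℕ in atTop, ∀ D : ℝ, 2 * (q:ℝ) ≤ D → D ≤ (n:ℝ) ^ (1 - η) →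
      |∑ x ∈ farey n, deriv φ (D * (((x : ℚ) : ℝ) - p / q))| ≤ C * D * (localSum (p / q) (p / q + 3 / D) n + 1) := by
  obtain ⟨K, hK0, hK⟩ := hφ.deriv.deriv.bounded
  have hq : 0 < q := by omega
  have hq' : (0:ℝ) < q := by exact_mod_cast hq
  refine ⟨K, hK0, ?_⟩
  have hsmall : ∀ᶠ n : ℕ in atTop, 16 * (1 + Real.log n) / n < 1 / (n:ℝ) ^ (1 - η) := by
    have h1 : Tendsto (fun n : ℕ => 16 * (1 + Real.log (n:ℝ)) / (n:ℝ) ^ η) atTop (𝓝 0) := by
      have h2 : Tendsto (fun x : ℝ => 16 * (1 + Real.log x) / x ^ η) atTop (𝓝 0) := by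
        have h3 := (isLittleO_log_rpow_atTop hη).tendsto_div_nhds_zero
        have h4 : Tendsto (fun x : ℝ => 1 / x ^ η) atTop (𝓝 0) := by
          have := (tendsto_rpow_atTop hη).inv_tendsto_atTop
          refine this.congr fun x => ?_
          rw [one_div]; rfl
        have := (h4.add h3).const_mul 16
        rw [add_zero, mul_zero] at this
        refine this.congr fun x => ?_
        ring
      exact h2.comp tendsto_natCast_atTop_atTop
    filter_upwards [h1.eventually (gt_mem_nhds (show (0:ℝ) < 1 by norm_num)), eventually_ge_atTop 1] with n h5 hn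
    have hn0 : (0:ℝ) < n := by exact_mod_cast hn
    rw [div_lt_iff₀ (by positivity), one_mul] at h5
    rw [div_lt_div_iff₀ hn0 (by positivity), one_mul]
    calc 16 * (1 + Real.log n) * (n:ℝ) ^ (1 - η) < (n:ℝ) ^ η * (n:ℝ) ^ (1 - η) := by gcongr
      _ = n := by
        rw [← Real.rpow_add hn0]
        norm_num
  filter_upwards [disp_le, hsmall, eventually_ge_atTop 1] with n hdisp hsm hn D hD hDn
  have hD0 : 0 < D := by linarith
  have hn0 : (0:ℝ) < n := by exact_mod_cast hn
  have hn1 : (1:ℝ) ≤ n := by exact_mod_cast hn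
  have hg : ∀ j, disp n j < 1 / D := by
    intro j
    refine (hdisp j).trans_lt (hsm.trans_le ?_)
    gcongr
  have hpq1 : (p:ℝ) + 1 ≤ q := by exact_mod_cast hpq
  have hp' : (0:ℝ) ≤ p := Nat.cast_nonneg p
  have h1 := functional (F := fun x => deriv φ (D * (x - p / q))) (L := K * D) (a := p / q + 1 / D) (b := p / q + 2 / D)
    (g := 1 / D) (n := n) hn (by positivity) (by
      intro x y
      have := Convex.norm_image_sub_le_of_norm_hasDerivWithin_le (f := deriv φ)
        (f' := deriv (deriv φ)) (s := univ) (C := K) (x := D * (y - p / q)) (y := D * (x - p / q))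
        (fun y _ => (hφ.deriv.hasDerivAt y).hasDerivWithinAt) (fun y _ => by rw [Real.norm_eq_abs]; exact hK y) convex_univ
        (mem_univ _) (mem_univ _)
      rw [Real.norm_eq_abs, Real.norm_eq_abs] at this
      refine this.trans (le_of_eq ?_)
      have e : D * (x - p / q) - D * (y - p / q) = D * (x - y) := by ring
      rw [e, abs_mul, abs_of_pos hD0]; ring)
    (by
      have h2 : ∀ x ∈ uIcc (0:ℝ) 1, HasDerivAt (fun x => φ (D * (x - p / q)) / D) (deriv φ (D * (x - p / q))) x := by
        intro x _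
        have e1 : HasDerivAt (fun x : ℝ => D * (x - p / q)) (D * 1) x :=
          ((hasDerivAt_id' x).sub_const _).const_mul D
        have e2 := ((hφ.hasDerivAt (D * (x - p / q))).comp x e1).div_const D
        refine e2.congr_deriv ?_
        field_simp
      rw [intervalIntegral.integral_eq_sub_of_hasDerivAt h2 (by
        apply Continuous.intervalIntegrable
        have := hφ.deriv.1.continuous
        fun_prop)]
      have c1 : φ (D * (1 - p / q)) = 0 := by
        have h3 : 2 ≤ D * (1 - p / q) := by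
          have e3 : (1:ℝ) / q ≤ 1 - p / q := by
            rw [div_le_iff₀ hq']
            field_simp
            linarith
          calc (2:ℝ) = (2 * q) * (1 / q) := by field_simp
            _ ≤ D * (1 - p / q) := by gcongr
        rcases h3.eq_or_lt with h4 | h4
        · rw [← h4]; exact hφ.at_two
        · by_contra hne
          have := (hφ.supp hne).2
          linarith
      have c2 : φ (D * (0 - p / q)) = 0 := by
        by_contra hne
        have := (hφ.supp hne).1
        have : D * (0 - p / q) ≤ 0 := by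
          apply mul_nonpos_of_nonneg_of_nonpos hD0.le
          have : (0:ℝ) ≤ p / q := by positivity
          linarith
        linarith
      rw [c1, c2]; simp)
    (by
      intro x hx
      have := hφ.deriv.supp hx
      constructor
      · have h3 : 1 / D ≤ x - p / q := by
          rw [div_le_iff₀ hD0]; linarith [this.1]
        linarith
      · have h3 : x - p / q ≤ 2 / D := by
          rw [le_div_iff₀ hD0]; linarith [this.2]
        linarith)
    hg
  refine h1.trans ?_
  have e1 : (p:ℝ) / q + 1 / D - 1 / D = p / q := by ring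
  have e2 : (p:ℝ) / q + 2 / D + 1 / D = p / q + 3 / D := by ring
  rw [e1, e2]

end

end Pool.Agent.H295R2
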