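import Mathlib

set_option autoImplicit false

open MeasureTheory Filter Topology Set

namespace Pool.Agent.H295R2

noncomputable section

/-- `k` is measurable, `‖k u‖ ≤ C e^{a u}`, and `k` vanishes on `(-∞, u₀)`. -/
structure Nice (k : ℝ → ℂ) (C a u₀ : ℝ) : Prop where
  meas : Measurable k
  bound : ∀ u, ‖k u‖ ≤ C * Real.exp (a * u)
  zero : ∀ u, u < u₀ → k u = 0

/-- the Laplace transform over the whole line -/
def Lap (k : ℝ → ℂ) (s : ℂ) : ℂ := ∫ u, k u * Complex.exp (-(s * u))

lemma norm_exp_neg_mul (s : ℂ) (u : ℝ) : ‖Complex.exp (-(s * u))‖ = Real.exp (-(s.re * u)) := by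
  rw [Complex.norm_exp]
  congr 1
  simp

lemma Nice.C_nonneg {k : ℝ → ℂ} {C a u₀ : ℝ} (h : Nice k C a u₀) : 0 ≤ C := by
  have h1 := (norm_nonneg _).trans (h.bound 0)
  simpa using h1

/-- the dominating function -/
lemma Nice.dom {k : ℝ → ℂ} {C a u₀ : ℝ} (h : Nice k C a u₀) (s : ℂ) (u : ℝ) :
    ‖k u * Complex.exp (-(s * u))‖ ≤ (Ici u₀).indicator (fun u => C * Real.exp ((a - s.re) * u)) u := by
  by_cases hu : u ∈ Ici u₀
  · rw [indicator_of_mem hu, norm_mul, norm_exp_neg_mul]
    calc ‖k u‖ * Real.exp (-(s.re * u)) ≤ (C * Real.exp (a * u)) * Real.exp (-(s.re * u)) :=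
          mul_le_mul_of_nonneg_right (h.bound u) (Real.exp_pos _).le
      _ = C * Real.exp ((a - s.re) * u) := by
          rw [mul_assoc, ← Real.exp_add]; ring_nf
  · rw [indicator_of_notMem hu, h.zero u (by simpa using hu), zero_mul, norm_zero]

lemma integrable_ind_exp {b : ℝ} (hb : b < 0) (C u₀ : ℝ) :
    Integrable ((Ici u₀).indicator (fun u => C * Real.exp (b * u))) := by
  rw [integrable_indicator_iff measurableSet_Ici, integrableOn_Ici_iff_integrableOn_Ioi]
  exact (integrableOn_exp_mul_Ioi hb u₀).const_mul C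

lemma integral_ind_exp {b : ℝ} (hb : b < 0) (C u₀ : ℝ) :
    ∫ u, (Ici u₀).indicator (fun u => C * Real.exp (b * u)) u = C * (-Real.exp (b * u₀) / b) := by
  rw [integral_indicator measurableSet_Ici, integral_Ici_eq_integral_Ioi, integral_const_mul,
    integral_exp_mul_Ioi hb]

lemma Nice.aesm {k : ℝ → ℂ} {C a u₀ : ℝ} (h : Nice k C a u₀) (s : ℂ) :
    AEStronglyMeasurable (fun u : ℝ => k u * Complex.exp (-(s * u))) volume := by
  refine AEStronglyMeasurable.mul h.meas.aestronglyMeasurable ?_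
  exact Continuous.aestronglyMeasurable (by fun_prop)

lemma Nice.integrable {k : ℝ → ℂ} {C a u₀ : ℝ} (h : Nice k C a u₀) {s : ℂ} (hs : a < s.re) :
    Integrable (fun u : ℝ => k u * Complex.exp (-(s * u))) :=
  (integrable_ind_exp (by linarith : a - s.re < 0) C u₀).mono' (h.aesm s)
    (Eventually.of_forall fun u => h.dom s u)

lemma Nice.norm_Lap_le {k : ℝ → ℂ} {C a u₀ : ℝ} (h : Nice k C a u₀) {s : ℂ} (hs : a < s.re) :
    ‖Lap k s‖ ≤ C * Real.exp ((a - s.re) * u₀) / (s.re - a) := by
  have hb : a - s.re < 0 := by linarith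
  calc ‖Lap k s‖ ≤ ∫ u, (Ici u₀).indicator (fun u => C * Real.exp ((a - s.re) * u)) u :=
        norm_integral_le_of_norm_le (integrable_ind_exp hb C u₀) (Eventually.of_forall fun u => h.dom s u)
    _ = _ := by
      rw [integral_ind_exp hb]
      have h1 : a - s.re = -(s.re - a) := by ring
      rw [h1, neg_div_neg_eq, mul_div_assoc]

lemma abs_mul_exp_le {δ : ℝ} (hδ : 0 < δ) (u₀ : ℝ) {u : ℝ} (hu : u₀ ≤ u) :
    |u| * Real.exp (-(2 * δ) * u) ≤ (1 / δ * Real.exp (2 * δ * |u₀|)) * Real.exp (-δ * u) := by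
  have h1 : |u| ≤ 1 / δ * Real.exp (δ * |u|) := by
    have := Real.add_one_le_exp (δ * |u|)
    rw [one_div, ← div_eq_inv_mul, le_div_iff₀ hδ]
    nlinarith [abs_nonneg u]
  have h2 : |u| ≤ u + 2 * |u₀| := by
    rcases le_or_gt 0 u with h | h
    · rw [abs_of_nonneg h]; linarith [abs_nonneg u₀]
    · rw [abs_of_neg h]
      have : |u₀| = -u₀ := abs_of_nonpos (by linarith)
      rw [this]; linarith
  have h3 : Real.exp (δ * |u|) ≤ Real.exp (δ * u + 2 * δ * |u₀|) := by
    apply Real.exp_le_exp.mpr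
    nlinarith
  calc |u| * Real.exp (-(2 * δ) * u)
      ≤ (1 / δ * Real.exp (δ * u + 2 * δ * |u₀|)) * Real.exp (-(2 * δ) * u) := by
        refine mul_le_mul_of_nonneg_right (h1.trans ?_) (Real.exp_pos _).le
        exact mul_le_mul_of_nonneg_left h3 (by positivity)
    _ = _ := by
      have e1 : Real.exp (δ * u + 2 * δ * |u₀|) * Real.exp (-(2 * δ) * u) =
          Real.exp (2 * δ * |u₀|) * Real.exp (-δ * u) := by
        rw [← Real.exp_add, ← Real.exp_add]; ring_nf
      linear_combination (1 / δ) * e1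

lemma Nice.Lap_hasDerivAt {k : ℝ → ℂ} {C a u₀ : ℝ} (h : Nice k C a u₀) {s : ℂ} (hs : a < s.re) :
    HasDerivAt (Lap k) (∫ u : ℝ, k u * (-(u : ℂ) * Complex.exp (-(s * u)))) s := by
  set δ : ℝ := (s.re - a) / 3 with hδ
  have hδ0 : 0 < δ := by rw [hδ]; linarith
  have hC := h.C_nonneg
  have key := hasDerivAt_integral_of_dominated_loc_of_deriv_le (μ := volume) (𝕜 := ℂ)
    (F := fun (z : ℂ) (u : ℝ) => k u * Complex.exp (-(z * u)))
    (F' := fun (z : ℂ) (u : ℝ) => k u * (-(u : ℂ) * Complex.exp (-(z * u))))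
    (x₀ := s) (s := Metric.ball s δ)
    (bound := (Ici u₀).indicator (fun u =>
      (C * Real.exp (4 * δ * |u₀|) * (1 / δ * Real.exp (2 * δ * |u₀|))) * Real.exp (-δ * u)))
    (Metric.ball_mem_nhds s hδ0)
    (Eventually.of_forall fun z => h.aesm z) (h.integrable hs) ?_ ?_ ?_ ?_
  · exact key.2
  · refine AEStronglyMeasurable.mul h.meas.aestronglyMeasurable ?_
    exact Continuous.aestronglyMeasurable (by fun_prop)
  · refine Eventually.of_forall fun u z hz => ?_
    by_cases hu : u ∈ Ici u₀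
    · rw [indicator_of_mem hu, norm_mul, norm_mul, norm_exp_neg_mul, norm_neg, Complex.norm_real,
        Real.norm_eq_abs]
      have hu' : u₀ ≤ u := hu
      have hz2 : s.re - δ < z.re ∧ z.re < s.re + δ := by
        rw [Metric.mem_ball, dist_eq_norm] at hz
        have h2 := (abs_lt.mp (lt_of_le_of_lt (Complex.abs_re_le_norm (z - s)) hz))
        rw [Complex.sub_re] at h2
        constructor <;> linarith [h2.1, h2.2]
      have h3 : Real.exp (a * u) * Real.exp (-(z.re * u)) ≤
          Real.exp (4 * δ * |u₀|) * Real.exp (-(2 * δ) * u) := by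
        rw [← Real.exp_add, ← Real.exp_add]
        apply Real.exp_le_exp.mpr
        rcases le_or_gt 0 u with h0 | h0
        · have : 0 ≤ 4 * δ * |u₀| := by positivity
          have h5 : (a - z.re + 2 * δ) * u ≤ 0 := by
            apply mul_nonpos_of_nonpos_of_nonneg _ h0
            rw [hδ] at hz2 ⊢
            linarith [hz2.1]
          linarith
        · have h6 : |u₀| = -u₀ := abs_of_nonpos (by linarith)
          have h7 : -u ≤ |u₀| := by rw [h6]; linarith
          have h8 : (z.re - a - 2 * δ) * (-u) ≤ (4 * δ) * |u₀| := by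
            apply mul_le_mul _ h7 (by linarith) (by positivity)
            rw [hδ] at hz2 ⊢
            linarith [hz2.2]
          nlinarith
      calc ‖k u‖ * (|u| * Real.exp (-(z.re * u)))
          ≤ (C * Real.exp (a * u)) * (|u| * Real.exp (-(z.re * u))) :=
            mul_le_mul_of_nonneg_right (h.bound u) (by positivity)
        _ = C * |u| * (Real.exp (a * u) * Real.exp (-(z.re * u))) := by ring
        _ ≤ C * |u| * (Real.exp (4 * δ * |u₀|) * Real.exp (-(2 * δ) * u)) :=
            mul_le_mul_of_nonneg_left h3 (by positivity)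
        _ = C * Real.exp (4 * δ * |u₀|) * (|u| * Real.exp (-(2 * δ) * u)) := by ring
        _ ≤ C * Real.exp (4 * δ * |u₀|) * ((1 / δ * Real.exp (2 * δ * |u₀|)) * Real.exp (-δ * u)) :=
            mul_le_mul_of_nonneg_left (abs_mul_exp_le hδ0 u₀ hu') (by positivity)
        _ = _ := by ring
    · rw [indicator_of_notMem hu, h.zero u (by simpa using hu), zero_mul, norm_zero]
  · exact integrable_ind_exp (by linarith) _ _
  · refine Eventually.of_forall fun u z _ => ?_
    have h1 : HasDerivAt (fun z : ℂ => -(z * u)) (-(u : ℂ)) z := by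
      have := ((hasDerivAt_id z).mul_const (u : ℂ)).neg
      rw [one_mul] at this
      exact this
    have h2 := (h1.cexp).const_mul (k u)
    refine h2.congr_deriv ?_
    ring

lemma Nice.Lap_differentiableAt {k : ℝ → ℂ} {C a u₀ : ℝ} (h : Nice k C a u₀) {s : ℂ}
    (hs : a < s.re) : DifferentiableAt ℂ (Lap k) s :=
  (h.Lap_hasDerivAt hs).differentiableAt

end

end Pool.Agent.H295R2
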