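import Pool.Agent.H295R2.P

set_option autoImplicit false

open MeasureTheory Filter Topology Set

namespace Pool.Agent.H295R2

noncomputable section

/-- Möbius function as a real number -/
def mu (k : ℕ) : ℝ := ((ArithmeticFunction.moebius k : ℤ) : ℝ)

lemma abs_mu_le (k : ℕ) : |mu k| ≤ 1 := by
  have := ArithmeticFunction.abs_moebius_le_one (n := k)
  unfold mu
  exact_mod_cast this

/-- Mertens function at a real argument -/
def Mx (y : ℝ) : ℝ := ∑ k ∈ Finset.Icc 1 ⌊y⌋₊, mu k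

lemma abs_Mx_le {y : ℝ} (hy : 0 ≤ y) : |Mx y| ≤ y := by
  unfold Mx
  calc |∑ k ∈ Finset.Icc 1 ⌊y⌋₊, mu k| ≤ ∑ k ∈ Finset.Icc 1 ⌊y⌋₊, |mu k| := Finset.abs_sum_le_sum_abs _ _
    _ ≤ ∑ k ∈ Finset.Icc 1 ⌊y⌋₊, (1:ℝ) := Finset.sum_le_sum fun k _ => abs_mu_le k
    _ = ⌊y⌋₊ := by simp
    _ ≤ y := Nat.floor_le hy

lemma norm_phi_pow {η a : ℝ} {s : ℂ} (hη : 0 < η) (hη1 : η ≤ 1) (hs : 1 / 4 ≤ s.re) (hs2 : s.re ≤ 2)
    (ha : 0 ≤ a) (ha1 : a ≤ 1) :
    ‖phi η s‖ ^ 2 ≤ 550 * (η * (1 + |s.im|)) ^ (-a) := by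
  have hre : 0 < s.re := by linarith
  have h1 := norm_phi_le hη hη1 hre hs2
  have h2 := norm_phi_le' hη hη1 hre hs2
  have hb : 0 < η * (1 + |s.im|) := by positivity
  have hs0 : 1 / 4 ≤ ‖s‖ := hs.trans ((le_abs_self _).trans (Complex.abs_re_le_norm s))
  have hs1 : |s.im| ≤ ‖s‖ := Complex.abs_im_le_norm s
  rcases le_or_gt (η * (1 + |s.im|)) 1 with h | h
  · have h3 : 1 ≤ (η * (1 + |s.im|)) ^ (-a) :=
      Real.one_le_rpow_of_pos_of_le_one_of_nonpos hb h (by linarith)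
    nlinarith [norm_nonneg (phi η s)]
  · have h3 : (η * (1 + |s.im|)) ^ (-(1:ℝ)) ≤ (η * (1 + |s.im|)) ^ (-a) :=
      Real.rpow_le_rpow_of_exponent_le h.le (by linarith)
    have h4 : (η * (1 + |s.im|)) ^ (-(1:ℝ)) = 1 / (η * (1 + |s.im|)) := by
      rw [Real.rpow_neg hb.le, Real.rpow_one, one_div]
    have h5 : 11 / (η * ‖s‖) ≤ 55 / (η * (1 + |s.im|)) := by
      rw [div_le_div_iff₀ (by positivity) hb]
      have : 1 + |s.im| ≤ 5 * ‖s‖ := by linarith
      nlinarith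
    calc ‖phi η s‖ ^ 2 = ‖phi η s‖ * ‖phi η s‖ := sq _
      _ ≤ 10 * (55 / (η * (1 + |s.im|))) := by
        refine mul_le_mul h1 (h2.trans h5) (norm_nonneg _) (by norm_num)
      _ = 550 * (η * (1 + |s.im|)) ^ (-(1:ℝ)) := by rw [h4]; ring
      _ ≤ 550 * (η * (1 + |s.im|)) ^ (-a) := by gcongr

/-- Heaviside step -/
def step (u : ℝ) : ℂ := if 0 ≤ u then 1 else 0

lemma step_nice : Nice step 1 0 0 where
  meas := Measurable.ite measurableSet_Ici measurable_const measurable_const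
  bound := by
    intro u
    unfold step
    split_ifs <;> simp
  zero := by
    intro u hu
    unfold step
    rw [if_neg (by linarith)]

lemma Lap_step {s : ℂ} (hs : 0 < s.re) : Lap step s = 1 / s := by
  have hs0 : s ≠ 0 := by rintro rfl; simp at hs
  unfold Lap step
  have h1 : ∀ u : ℝ, (if 0 ≤ u then (1:ℂ) else 0) * Complex.exp (-(s * u)) =
      (Ici (0:ℝ)).indicator (fun u : ℝ => Complex.exp (-s * u)) u := by
    intro u
    by_cases hu : 0 ≤ u
    · rw [if_pos hu, indicator_of_mem (by exact hu), one_mul, neg_mul]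
    · rw [if_neg hu, indicator_of_notMem (by exact hu), zero_mul]
  simp_rw [h1]
  rw [integral_indicator measurableSet_Ici, integral_Ici_eq_integral_Ioi,
    integral_exp_mul_complex_Ioi (by simpa using hs)]
  simp only [Complex.ofReal_zero, mul_zero, Complex.exp_zero]
  rw [neg_div_neg_eq]

lemma avg_step_of_nonneg {η : ℝ} (hη : 0 < η) {u : ℝ} (hu : 0 ≤ u) : avg η step u = 1 := by
  unfold avg
  have : ∫ v in (0:ℝ)..η, step (u + v) = ∫ v in (0:ℝ)..η, (1:ℂ) := by
    apply intervalIntegral.integral_congr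
    intro v hv
    rw [uIcc_of_le hη.le] at hv
    simp only [step]
    rw [if_pos (by linarith [hv.1])]
  have hη' : (η:ℂ) ≠ 0 := by exact_mod_cast hη.ne'
  rw [this]
  simp
  field_simp

lemma avg2_step_of_nonneg {η : ℝ} (hη : 0 < η) {u : ℝ} (hu : 0 ≤ u) : avg η (avg η step) u = 1 := by
  conv_lhs => unfold avg
  have : ∫ v in (0:ℝ)..η, avg η step (u + v) = ∫ v in (0:ℝ)..η, (1:ℂ) := by
    apply intervalIntegral.integral_congr
    intro v hv
    rw [uIcc_of_le hη.le] at hv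
    exact avg_step_of_nonneg hη (by linarith [hv.1])
  have hη' : (η:ℂ) ≠ 0 := by exact_mod_cast hη.ne'
  change (1 / (η:ℂ)) * (∫ v in (0:ℝ)..η, avg η step (u + v)) = 1
  rw [this]
  simp
  field_simp

lemma integrable_decay' {a : ℝ} (ha : 1 < a) : Integrable (fun ξ : ℝ => (1 + |2 * Real.pi * ξ|) ^ (-a)) := by
  have h1 := integrable_one_add_norm (E := ℝ) (μ := volume) (r := a) (by simpa using ha)
  refine h1.mono' ?_ (Eventually.of_forall fun ξ => ?_)
  · refine Continuous.aestronglyMeasurable ?_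
    refine Continuous.rpow_const (by fun_prop) ?_
    intro x
    left
    positivity
  · rw [Real.norm_of_nonneg (by positivity)]
    refine Real.rpow_le_rpow_of_nonpos (by positivity) ?_ (by linarith)
    rw [Real.norm_eq_abs, abs_mul, abs_of_pos (by positivity : (0:ℝ) < 2 * Real.pi)]
    have := Real.pi_gt_three
    nlinarith [abs_nonneg ξ]

lemma line_re (σ ξ : ℝ) : ((σ : ℂ) + 2 * Real.pi * ξ * Complex.I).re = σ := by simp
lemma line_im (σ ξ : ℝ) : ((σ : ℂ) + 2 * Real.pi * ξ * Complex.I).im = 2 * Real.pi * ξ := by simp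

/-- `M(y) ≪ y^σ` in a zero-free half plane. -/
theorem mertens_bound {θ σ : ℝ} (hθ : 1 / 4 ≤ θ)
    (hz : ∀ s : ℂ, θ < s.re → Zs s ≠ 0) (hσ : θ < σ) (hσ2 : σ ≤ 2) :
    ∃ C : ℝ, 0 < C ∧ ∀ y : ℝ, 1 ≤ y → |Mx y| ≤ C * y ^ σ := by
  set σ' : ℝ := (θ + σ) / 2 with hσ'
  set ε : ℝ := (σ - σ') / 2 with hε
  have hε0 : 0 < ε := by rw [hε, hσ']; linarith
  have hε1 : 2 * ε ≤ 1 := by rw [hε, hσ']; linarith
  have h1 : θ < σ' := by rw [hσ']; linarith
  have h2 : σ' ≤ 2 := by rw [hσ']; linarith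
  have h14 : 1 / 4 ≤ σ' := by linarith
  obtain ⟨Cf, hCf0, hCf⟩ := fz_bound hθ hz h1 hε0
  set I0 : ℝ := ∫ ξ : ℝ, (1 + |2 * Real.pi * ξ|) ^ (-(1 + ε)) with hI0
  have hI0' : 0 ≤ I0 := integral_nonneg fun ξ => by positivity
  refine ⟨5 * 550 * Cf * I0 + 20, by positivity, fun y hy => ?_⟩
  have hy0 : 0 < y := by linarith
  set x : ℝ := Real.log y with hx
  set η : ℝ := 1 / y with hη
  have hη0 : 0 < η := by rw [hη]; positivity
  have hη1 : η ≤ 1 := by rw [hη, div_le_one hy0]; exact hy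
  have hexpx : Real.exp x = y := by rw [hx, Real.exp_log hy0]
  have key := perron (x := x) hθ hz h1 h2 step_nice hη0 hη1
  -- the sum is finite
  set k2 := avg η (avg η step) with hk2
  have hn : Nice k2 1 0 (0 - η - η) := (step_nice.avg hη0).avg hη0
  set N : ℕ := ⌊y * Real.exp (2 * η)⌋₊ with hN
  have hzero : ∀ m ∉ Finset.Icc 1 N, ((ArithmeticFunction.moebius m : ℤ) : ℂ) * k2 (x - Real.log m) = 0 := by
    intro m hm
    rcases Nat.eq_zero_or_pos m with rfl | hm0
    · simp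
    · have hm1 : N < m := by
        by_contra hcon
        exact hm (Finset.mem_Icc.mpr ⟨hm0, by omega⟩)
      have hm2 : y * Real.exp (2 * η) < m := (Nat.floor_lt (by positivity)).mp hm1
      rw [hn.zero, mul_zero]
      have h3 := Real.log_lt_log (by positivity) hm2
      rw [Real.log_mul hy0.ne' (Real.exp_pos _).ne', Real.log_exp] at h3
      linarith
  have hsum := (hasSum_sum_of_ne_finset_zero hzero).unique key
  -- compare with the Mertens function
  have hfloor : ⌊y⌋₊ ≤ N := by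
    rw [hN]
    refine Nat.floor_le_floor ?_
    have : 1 ≤ Real.exp (2 * η) := Real.one_le_exp (by positivity)
    nlinarith
  have hsplit : ∑ m ∈ Finset.Icc 1 N, ((ArithmeticFunction.moebius m : ℤ) : ℂ) * k2 (x - Real.log m) =
      (Mx y : ℂ) + ∑ m ∈ Finset.Ioc ⌊y⌋₊ N, ((ArithmeticFunction.moebius m : ℤ) : ℂ) * k2 (x - Real.log m) := by
    have e0 : Finset.Icc 1 N = Finset.Icc 1 ⌊y⌋₊ ∪ Finset.Ioc ⌊y⌋₊ N := by
      ext m
      simp only [Finset.mem_Icc, Finset.mem_union, Finset.mem_Ioc]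
      omega
    rw [e0, Finset.sum_union]
    · congr 1
      unfold Mx mu
      push_cast
      refine Finset.sum_congr rfl fun m hm => ?_
      rw [Finset.mem_Icc] at hm
      have hm1 : (m:ℝ) ≤ y := (Nat.le_floor_iff hy0.le).mp hm.2
      have hm0 : (0:ℝ) < m := by exact_mod_cast hm.1
      have : 0 ≤ x - Real.log m := by
        have := Real.log_le_log hm0 hm1
        linarith
      rw [hk2, avg2_step_of_nonneg hη0 this, mul_one]
    · rw [Finset.disjoint_left]
      intro m hm1 hm2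
      rw [Finset.mem_Icc] at hm1
      rw [Finset.mem_Ioc] at hm2
      omega
  have hrest : ‖∑ m ∈ Finset.Ioc ⌊y⌋₊ N, ((ArithmeticFunction.moebius m : ℤ) : ℂ) * k2 (x - Real.log m)‖ ≤ 20 := by
    have hb : ∀ m ∈ Finset.Ioc ⌊y⌋₊ N, ‖((ArithmeticFunction.moebius m : ℤ) : ℂ) * k2 (x - Real.log m)‖ ≤ 1 := by
      intro m _
      rw [norm_mul, Complex.norm_intCast]
      have h3 : |((ArithmeticFunction.moebius m : ℤ) : ℝ)| ≤ 1 := abs_mu_le m
      have h4 : ‖k2 (x - Real.log m)‖ ≤ 1 := by simpa using hn.bound (x - Real.log m)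
      nlinarith [norm_nonneg (k2 (x - Real.log m)), abs_nonneg ((ArithmeticFunction.moebius m : ℤ) : ℝ)]
    refine (norm_sum_le_of_le _ hb).trans ?_
    rw [Finset.sum_const, Nat.card_Ioc, nsmul_eq_mul, mul_one, Nat.cast_sub hfloor]
    have h3 : (N:ℝ) ≤ y * Real.exp (2 * η) := Nat.floor_le (by positivity)
    have h4 : y - 1 < ⌊y⌋₊ := Nat.sub_one_lt_floor y
    have h5 : Real.exp (2 * η) ≤ 1 + 2 * η * Real.exp (2 * η) := by
      have h6 := Real.add_one_le_exp (-(2 * η))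
      have h7 : Real.exp (-(2 * η)) * Real.exp (2 * η) = 1 := by rw [← Real.exp_add]; simp
      nlinarith [Real.exp_pos (2 * η)]
    have h6 : Real.exp (2 * η) ≤ 9 := by
      calc Real.exp (2 * η) ≤ Real.exp 2 := Real.exp_le_exp.mpr (by linarith)
        _ = Real.exp 1 * Real.exp 1 := by rw [← Real.exp_add]; norm_num
        _ ≤ 9 := by nlinarith [Real.exp_one_lt_d9, Real.exp_pos 1]
    have h7 : y * η = 1 := by rw [hη]; field_simp
    have h8 : y * Real.exp (2 * η) ≤ y + 18 := by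
      calc y * Real.exp (2 * η) ≤ y * (1 + 2 * η * 9) := by
            gcongr
            calc Real.exp (2 * η) ≤ 1 + 2 * η * Real.exp (2 * η) := h5
              _ ≤ 1 + 2 * η * 9 := by gcongr
        _ = y + 18 * (y * η) := by ring
        _ = y + 18 := by rw [h7]; ring
    linarith
  -- bound of the integral
  have hint : ‖∫ ξ : ℝ, PH η x step (σ' + 2 * Real.pi * ξ * Complex.I)‖ ≤
      5 * 550 * Cf * I0 * y ^ σ := by
    have hpt : ∀ ξ : ℝ, ‖PH η x step (σ' + 2 * Real.pi * ξ * Complex.I)‖ ≤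
        (5 * 550 * Cf * y ^ σ) * (1 + |2 * Real.pi * ξ|) ^ (-(1 + ε)) := by
      intro ξ
      set s : ℂ := σ' + 2 * Real.pi * ξ * Complex.I with hs
      have hsre : s.re = σ' := line_re σ' ξ
      have hsim : s.im = 2 * Real.pi * ξ := line_im σ' ξ
      set T : ℝ := 1 + |2 * Real.pi * ξ| with hT
      have hT0 : 0 < T := by rw [hT]; positivity
      unfold PH
      rw [norm_mul, norm_mul, norm_mul, norm_pow, Lap_step (by rw [hsre]; linarith)]
      have a1 : ‖1 / s‖ ≤ 5 * T ^ (-(1:ℝ)) := by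
        rw [norm_div, norm_one, Real.rpow_neg hT0.le, Real.rpow_one]
        have hs0 : 1 / 4 ≤ ‖s‖ := by
          have := Complex.abs_re_le_norm s
          rw [hsre] at this
          exact h14.trans ((le_abs_self _).trans this)
        have hs1 : |2 * Real.pi * ξ| ≤ ‖s‖ := by rw [← hsim]; exact Complex.abs_im_le_norm s
        rw [← div_eq_mul_inv, div_le_div_iff₀ (by linarith) hT0]
        rw [hT]; linarith
      have a2 : ‖phi η s‖ ^ 2 ≤ 550 * (η * T) ^ (-(2 * ε)) := by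
        have := norm_phi_pow (a := 2 * ε) hη0 hη1 (s := s) (by rw [hsre]; exact h14) (by rw [hsre]; exact h2)
          (by positivity) hε1
        rw [hsim] at this
        exact this
      have a3 : ‖Complex.exp (s * x)‖ = y ^ σ' := by
        rw [Complex.norm_exp]
        simp only [Complex.mul_re, Complex.ofReal_re, Complex.ofReal_im, mul_zero, sub_zero, hsre]
        rw [Real.rpow_def_of_pos hy0, mul_comm]
      have a4 : ‖fz s‖ ≤ Cf * T ^ ε := by
        have := hCf s (by rw [hsre]) (by rw [hsre]; exact h2)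
        rw [hsim] at this
        exact this
      rw [a3]
      have e1 : (η * T) ^ (-(2 * ε)) = y ^ (2 * ε) * T ^ (-(2 * ε)) := by
        rw [Real.mul_rpow hη0.le hT0.le, hη, one_div, Real.inv_rpow hy0.le, ← Real.rpow_neg hy0.le, neg_neg]
      have e2 : y ^ σ' * y ^ (2 * ε) = y ^ σ := by
        rw [← Real.rpow_add hy0]
        congr 1
        rw [hε]; ring
      have e3 : T ^ (-(1:ℝ)) * T ^ (-(2 * ε)) * T ^ ε = T ^ (-(1 + ε)) := by
        rw [← Real.rpow_add hT0, ← Real.rpow_add hT0]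
        congr 1; ring
      calc ‖1 / s‖ * ‖phi η s‖ ^ 2 * y ^ σ' * ‖fz s‖
          ≤ (5 * T ^ (-(1:ℝ))) * (550 * (η * T) ^ (-(2 * ε))) * y ^ σ' * (Cf * T ^ ε) := by gcongr
        _ = (5 * 550 * Cf) * (y ^ σ' * y ^ (2 * ε)) * (T ^ (-(1:ℝ)) * T ^ (-(2 * ε)) * T ^ ε) := by
          rw [e1]; ring
        _ = _ := by rw [e2, e3]
    have hI := (integrable_decay' (a := 1 + ε) (by linarith)).const_mul (5 * 550 * Cf * y ^ σ)
    calc _ ≤ ∫ ξ : ℝ, (5 * 550 * Cf * y ^ σ) * (1 + |2 * Real.pi * ξ|) ^ (-(1 + ε)) :=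
          norm_integral_le_of_norm_le hI (Eventually.of_forall hpt)
      _ = _ := by rw [integral_const_mul]; ring
  have hfin : (Mx y : ℂ) = (∫ ξ : ℝ, PH η x step (σ' + 2 * Real.pi * ξ * Complex.I)) -
      ∑ m ∈ Finset.Ioc ⌊y⌋₊ N, ((ArithmeticFunction.moebius m : ℤ) : ℂ) * k2 (x - Real.log m) := by
    rw [← hsum, hsplit]; ring
  have hnorm : |Mx y| = ‖(Mx y : ℂ)‖ := by rw [Complex.norm_real, Real.norm_eq_abs]
  rw [hnorm, hfin]
  have hyσ : 1 ≤ y ^ σ := Real.one_le_rpow hy (by linarith)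
  calc _ ≤ 5 * 550 * Cf * I0 * y ^ σ + 20 := (norm_sub_le _ _).trans (add_le_add hint hrest)
    _ ≤ (5 * 550 * Cf * I0 + 20) * y ^ σ := by nlinarith

end

end Pool.Agent.H295R2
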