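import Pool.Agent.H295R2.Avg
import Pool.Agent.H295R2.L

set_option autoImplicit false

open MeasureTheory Filter Topology Set

namespace Pool.Agent.H295R2

noncomputable section

lemma integrable_decay : Integrable (fun y : ℝ => (1 + |y|) ^ (-(3 / 2 : ℝ))) := by
  have := integrable_one_add_norm (E := ℝ) (μ := volume) (r := 3 / 2) (by simp; norm_num)
  simpa using this

lemma vertical_integrable {H : ℂ → ℂ} {a B : ℝ}
    (hd : ∀ s : ℂ, s.re = a → ContinuousAt H s)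
    (hB : ∀ s : ℂ, s.re = a → ‖H s‖ ≤ B * (1 + |s.im|) ^ (-(3 / 2 : ℝ))) :
    Integrable (fun y : ℝ => H (a + y * Complex.I)) := by
  have hc : Continuous (fun y : ℝ => H (a + y * Complex.I)) := by
    rw [continuous_iff_continuousAt]
    intro y
    have h1 : ContinuousAt H ((a : ℂ) + y * Complex.I) := hd _ (by simp)
    exact ContinuousAt.comp (f := fun y : ℝ => (a : ℂ) + y * Complex.I) h1 (by fun_prop)
  refine (integrable_decay.const_mul B).mono' hc.aestronglyMeasurable (Eventually.of_forall fun y => ?_)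
  have := hB (a + y * Complex.I) (by simp)
  simpa using this

lemma contour_shift {H : ℂ → ℂ} {a b B : ℝ} (hab : a ≤ b)
    (hd : ∀ s : ℂ, a ≤ s.re → s.re ≤ b → DifferentiableAt ℂ H s)
    (hB : ∀ s : ℂ, a ≤ s.re → s.re ≤ b → ‖H s‖ ≤ B * (1 + |s.im|) ^ (-(3 / 2 : ℝ))) :
    ∫ y : ℝ, H (a + y * Complex.I) = ∫ y : ℝ, H (b + y * Complex.I) := by
  have ia : Integrable (fun y : ℝ => H (a + y * Complex.I)) :=
    vertical_integrable (fun s hs => (hd s hs.ge (hs.le.trans hab)).continuousAt)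
      (fun s hs => hB s hs.ge (hs.le.trans hab))
  have ib : Integrable (fun y : ℝ => H (b + y * Complex.I)) :=
    vertical_integrable (fun s hs => (hd s (hab.trans hs.ge) hs.le).continuousAt)
      (fun s hs => hB s (hab.trans hs.ge) hs.le)
  -- rectangles
  have hrect : ∀ T : ℝ, 0 < T →
      (∫ x in a..b, H (x + (-T : ℝ) * Complex.I)) - (∫ x in a..b, H (x + (T : ℝ) * Complex.I)) +
        Complex.I • (∫ y in (-T)..T, H (b + y * Complex.I)) -
        Complex.I • (∫ y in (-T)..T, H (a + y * Complex.I)) = 0 := by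
    intro T hT
    have := Complex.integral_boundary_rect_eq_zero_of_differentiableOn H ⟨a, -T⟩ ⟨b, T⟩ ?_
    · simpa using this
    · intro s hs
      rw [Complex.mem_reProdIm] at hs
      simp only at hs
      rw [uIcc_of_le hab] at hs
      exact (hd s hs.1.1 hs.1.2).differentiableWithinAt
  have hB0 : 0 ≤ B := by
    have := (norm_nonneg _).trans (hB a (by simp) (by simpa using hab))
    simpa using this
  have hhor : ∀ T : ℝ, ‖∫ x in a..b, H (x + (T : ℝ) * Complex.I)‖ ≤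
      B * (1 + |T|) ^ (-(3 / 2 : ℝ)) * |b - a| := by
    intro T
    refine intervalIntegral.norm_integral_le_of_norm_le_const fun x hx => ?_
    rw [uIoc_of_le hab] at hx
    have := hB (x + (T : ℝ) * Complex.I) (by simpa using hx.1.le) (by simpa using hx.2)
    simpa using this
  have hlim0 : Tendsto (fun T : ℝ => B * (1 + |T|) ^ (-(3 / 2 : ℝ)) * |b - a|) atTop (𝓝 0) := by
    have h1 : Tendsto (fun T : ℝ => (1 + |T|)) atTop atTop :=
      tendsto_atTop_add_const_left _ _ tendsto_abs_atTop_atTop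
    have h2 := (tendsto_rpow_neg_atTop (y := 3 / 2) (by norm_num)).comp h1
    have h3 := (h2.const_mul B).mul_const |b - a|
    simpa using h3
  have hl1 : Tendsto (fun T : ℝ => ∫ x in a..b, H (x + (T : ℝ) * Complex.I)) atTop (𝓝 0) :=
    squeeze_zero_norm hhor hlim0
  have hl2 : Tendsto (fun T : ℝ => ∫ x in a..b, H (x + (-T : ℝ) * Complex.I)) atTop (𝓝 0) := by
    refine squeeze_zero_norm (a := fun T : ℝ => B * (1 + |T|) ^ (-(3 / 2 : ℝ)) * |b - a|) ?_ hlim0
    intro T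
    have := hhor (-T)
    rw [abs_neg] at this
    exact this
  have hl3 := intervalIntegral_tendsto_integral ib tendsto_neg_atTop_atBot tendsto_id
  have hl4 := intervalIntegral_tendsto_integral ia tendsto_neg_atTop_atBot tendsto_id
  have hfin := ((hl2.sub hl1).add (hl3.const_smul Complex.I)).sub (hl4.const_smul Complex.I)
  have hzero : Tendsto (fun _ : ℝ => (0:ℂ)) atTop (𝓝 0) := tendsto_const_nhds
  have huniq := tendsto_nhds_unique (hfin.congr' ?_) hzero
  · rw [sub_zero, zero_add, ← smul_sub, smul_eq_mul] at huniq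
    have := (mul_eq_zero.mp huniq).resolve_left Complex.I_ne_zero
    exact (sub_eq_zero.mp this).symm
  · filter_upwards [eventually_gt_atTop 0] with T hT
    simpa using hrect T hT

lemma scale_integral (H : ℂ → ℂ) (a : ℝ) :
    ∫ ξ : ℝ, H (a + 2 * Real.pi * ξ * Complex.I) = (2 * Real.pi)⁻¹ * ∫ y : ℝ, H (a + y * Complex.I) := by
  have h := Measure.integral_comp_mul_left (fun y : ℝ => H (a + y * Complex.I)) (2 * Real.pi)
  rw [abs_of_pos (by positivity)] at h
  have h2 : (fun ξ : ℝ => H (a + 2 * Real.pi * ξ * Complex.I)) =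
      fun ξ : ℝ => H (a + ((2 * Real.pi * ξ : ℝ) : ℂ) * Complex.I) := by
    ext ξ; push_cast; rfl
  rw [h2, h, Complex.real_smul]

lemma scale_integrable {H : ℂ → ℂ} {a : ℝ} (h : Integrable (fun y : ℝ => H (a + y * Complex.I))) :
    Integrable (fun ξ : ℝ => H (a + 2 * Real.pi * ξ * Complex.I)) := by
  have h1 := h.comp_mul_left' (R := 2 * Real.pi) (by positivity)
  refine h1.congr (Eventually.of_forall fun ξ => ?_)
  simp only
  push_cast
  rfl

/-- The integrand in the Perron formula. -/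
def PH (η x : ℝ) (k : ℝ → ℂ) (s : ℂ) : ℂ :=
  Lap k s * phi η s ^ 2 * Complex.exp (s * x) * fz s

lemma norm_phi_sq_le {η : ℝ} {s : ℂ} (hη : 0 < η) (hη1 : η ≤ 1) (hs : 0 < s.re) (hs2 : s.re ≤ 2) :
    ‖phi η s‖ ^ 2 ≤ (1000 / η ^ 2) * (1 + |s.im|) ^ (-2 : ℝ) := by
  have hpow : (1 + |s.im|) ^ (-2 : ℝ) = 1 / (1 + |s.im|) ^ 2 := by
    rw [Real.rpow_neg (by positivity)]
    norm_num
  rw [hpow]
  have hpos : 0 < (1 + |s.im|) ^ 2 := by positivity
  rw [mul_one_div, le_div_iff₀ hpos]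
  have hη2 : 1 ≤ 1 / η ^ 2 := by
    rw [le_div_iff₀ (by positivity)]
    nlinarith
  rcases le_or_gt |s.im| 1 with h | h
  · have h1 := norm_phi_le hη hη1 hs hs2
    have h2 : ‖phi η s‖ ^ 2 ≤ 100 := by nlinarith [norm_nonneg (phi η s)]
    have h3 : (1 + |s.im|) ^ 2 ≤ 4 := by nlinarith [abs_nonneg s.im]
    calc ‖phi η s‖ ^ 2 * (1 + |s.im|) ^ 2 ≤ 100 * 4 := by gcongr
      _ ≤ 1000 * (1 / η ^ 2) := by nlinarith
      _ = 1000 / η ^ 2 := by ring
  · have h1 := norm_phi_le' hη hη1 hs hs2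
    have h2 : |s.im| ≤ ‖s‖ := Complex.abs_im_le_norm s
    have h3 : ‖phi η s‖ ≤ 11 / (η * |s.im|) := by
      refine h1.trans ?_
      gcongr
    have h4 : 1 + |s.im| ≤ 2 * |s.im| := by linarith
    have him : 0 < |s.im| := by linarith
    calc ‖phi η s‖ ^ 2 * (1 + |s.im|) ^ 2 ≤ (11 / (η * |s.im|)) ^ 2 * (2 * |s.im|) ^ 2 := by gcongr
      _ = 484 / η ^ 2 := by field_simp; ring
      _ ≤ 1000 / η ^ 2 := by gcongr; norm_num

lemma PH_bound {η x σ : ℝ} {k : ℝ → ℂ} {C u₀ Cf : ℝ} (h : Nice k C 0 u₀) (hη : 0 < η) (hη1 : η ≤ 1)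
    (hσ : 0 < σ)
    (hf : ∀ s : ℂ, σ ≤ s.re → s.re ≤ 2 → ‖fz s‖ ≤ Cf * (1 + |s.im|) ^ (1 / 2 : ℝ)) :
    ∃ B : ℝ, ∀ s : ℂ, σ ≤ s.re → s.re ≤ 2 → ‖PH η x k s‖ ≤ B * (1 + |s.im|) ^ (-(3 / 2 : ℝ)) := by
  have hC := h.C_nonneg
  refine ⟨(C * Real.exp (2 * |u₀|) / σ) * (1000 / η ^ 2) * Real.exp (2 * |x|) * Cf, fun s hs1 hs2 => ?_⟩
  have hre : 0 < s.re := by linarith
  have hCf : 0 ≤ Cf := by
    have h1 := (norm_nonneg _).trans (hf s hs1 hs2)
    have h2 : 0 < (1 + |s.im|) ^ (1 / 2 : ℝ) := by positivity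
    exact nonneg_of_mul_nonneg_left h1 h2
  have h1 : ‖Lap k s‖ ≤ C * Real.exp (2 * |u₀|) / σ := by
    have h2 := h.norm_Lap_le hre
    refine h2.trans ?_
    have h3 : (0 - s.re) * u₀ ≤ 2 * |u₀| := by
      have h5 := neg_abs_le u₀
      have h6 := abs_nonneg u₀
      nlinarith
    have h4 : σ ≤ s.re - 0 := by linarith
    gcongr
  have h2 := norm_phi_sq_le hη hη1 hre hs2
  have h3 : ‖Complex.exp (s * x)‖ ≤ Real.exp (2 * |x|) := by
    rw [Complex.norm_exp]
    apply Real.exp_le_exp.mpr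
    simp only [Complex.mul_re, Complex.ofReal_re, Complex.ofReal_im, mul_zero, sub_zero]
    have h5 := le_abs_self x
    have h6 := abs_nonneg x
    nlinarith
  have h4 := hf s hs1 hs2
  unfold PH
  rw [norm_mul, norm_mul, norm_mul, norm_pow]
  have e1 : (1 + |s.im|) ^ (-2 : ℝ) * (1 + |s.im|) ^ (1 / 2 : ℝ) = (1 + |s.im|) ^ (-(3 / 2 : ℝ)) := by
    rw [← Real.rpow_add (by positivity)]
    norm_num
  calc ‖Lap k s‖ * ‖phi η s‖ ^ 2 * ‖Complex.exp (s * x)‖ * ‖fz s‖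
      ≤ (C * Real.exp (2 * |u₀|) / σ) * ((1000 / η ^ 2) * (1 + |s.im|) ^ (-2 : ℝ)) *
          Real.exp (2 * |x|) * (Cf * (1 + |s.im|) ^ (1 / 2 : ℝ)) := by gcongr
    _ = (C * Real.exp (2 * |u₀|) / σ) * (1000 / η ^ 2) * Real.exp (2 * |x|) * Cf *
          ((1 + |s.im|) ^ (-2 : ℝ) * (1 + |s.im|) ^ (1 / 2 : ℝ)) := by ring
    _ = _ := by rw [e1]

/-- **Perron formula** for the doubly averaged kernel. -/
theorem perron {θ σ η x : ℝ} {k : ℝ → ℂ} {C u₀ : ℝ} (hθ : 1 / 4 ≤ θ)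
    (hz : ∀ s : ℂ, θ < s.re → Zs s ≠ 0) (hσ : θ < σ) (hσ2 : σ ≤ 2)
    (h : Nice k C 0 u₀) (hη : 0 < η) (hη1 : η ≤ 1) :
    HasSum (fun m : ℕ => ((ArithmeticFunction.moebius m : ℤ) : ℂ) * avg η (avg η k) (x - Real.log m))
      (∫ ξ : ℝ, PH η x k (σ + 2 * Real.pi * ξ * Complex.I)) := by
  obtain ⟨Cf, hCf0, hCf⟩ := fz_bound hθ hz hσ (ε := 1 / 2) (by norm_num)
  have hσ0 : 0 < σ := by linarith
  obtain ⟨B, hB⟩ := PH_bound (x := x) h hη hη1 hσ0 hCf
  have hd : ∀ s : ℂ, σ ≤ s.re → s.re ≤ 2 → DifferentiableAt ℂ (PH η x k) s := by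
    intro s hs1 hs2
    have hs0 : s ≠ 0 := by rintro rfl; simp at hs1; linarith
    unfold PH
    have e1 : DifferentiableAt ℂ (Lap k) s := h.Lap_differentiableAt (by linarith)
    have e2 := phi_differentiableAt hη hs0
    have e3 := fz_differentiableAt (hz s (by linarith))
    fun_prop
  -- shift the line
  have hshift := contour_shift hσ2 hd hB
  have hline : ∫ ξ : ℝ, PH η x k (σ + 2 * Real.pi * ξ * Complex.I) =
      ∫ ξ : ℝ, PH η x k ((2:ℝ) + 2 * Real.pi * ξ * Complex.I) := by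
    rw [scale_integral, scale_integral, hshift]
  rw [hline]
  -- the formula on Re s = 2
  set k1 := avg η k with hk1
  set k2 := avg η k1 with hk2
  have hn1 : Nice k1 C 0 (u₀ - η) := h.avg hη
  have hn2 : Nice k2 C 0 (u₀ - η - η) := hn1.avg hη
  have hLap2 : ∀ s : ℂ, 0 < s.re → Lap k2 s = Lap k s * phi η s ^ 2 := by
    intro s hs
    rw [hk2, hn1.Lap_avg hη hs, hk1, h.Lap_avg hη hs]
    ring
  set G : ℂ → ℂ := fun s => Lap k2 s * Complex.exp (s * x) with hG
  -- bound for G on Re s = 2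
  have hre2 : ∀ ξ : ℝ, (((2:ℝ) : ℂ) + 2 * Real.pi * ξ * Complex.I).re = 2 := by
    intro ξ; simp
  have hre2' : ∀ y : ℝ, (((2:ℝ) : ℂ) + y * Complex.I).re = 2 := by
    intro ξ; simp
  have hLint : Integrable (fun ξ : ℝ => Lap k2 ((2:ℝ) + 2 * Real.pi * ξ * Complex.I)) := by
    refine scale_integrable (H := Lap k2) ?_
    refine vertical_integrable (B := C * Real.exp (2 * |u₀|) / 2 * (1000 / η ^ 2)) ?_ ?_
    · intro s hs
      exact (hn2.Lap_differentiableAt (by rw [hs]; norm_num)).continuousAt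
    · intro s hs
      have hs0 : 0 < s.re := by rw [hs]; norm_num
      rw [hLap2 s hs0, norm_mul, norm_pow]
      have h1 : ‖Lap k s‖ ≤ C * Real.exp (2 * |u₀|) / 2 := by
        have h2 := h.norm_Lap_le hs0
        rw [hs] at h2
        refine h2.trans ?_
        have h3 : (0 - 2) * u₀ ≤ 2 * |u₀| := by
          have h5 := neg_abs_le u₀
          linarith
        have hC := h.C_nonneg
        rw [sub_zero]
        gcongr
      have h2 := norm_phi_sq_le hη hη1 hs0 hs.le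
      have h3 : (1 + |s.im|) ^ (-2 : ℝ) ≤ (1 + |s.im|) ^ (-(3 / 2 : ℝ)) :=
        Real.rpow_le_rpow_of_exponent_le (by linarith [abs_nonneg s.im]) (by norm_num)
      have hC := h.C_nonneg
      calc ‖Lap k s‖ * ‖phi η s‖ ^ 2 ≤ (C * Real.exp (2 * |u₀|) / 2) *
            ((1000 / η ^ 2) * (1 + |s.im|) ^ (-2 : ℝ)) := by gcongr
        _ ≤ (C * Real.exp (2 * |u₀|) / 2) * ((1000 / η ^ 2) * (1 + |s.im|) ^ (-(3 / 2 : ℝ))) := by gcongr
        _ = _ := by ring
  set F : ℕ → ℝ → ℂ := fun m ξ => Lap k2 ((2:ℝ) + 2 * Real.pi * ξ * Complex.I) *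
      Complex.exp (((2:ℝ) + 2 * Real.pi * ξ * Complex.I) * x) *
      LSeries.term (fun n => ((ArithmeticFunction.moebius n : ℤ) : ℂ)) ((2:ℝ) + 2 * Real.pi * ξ * Complex.I) m with hF
  have hFeq : ∀ m : ℕ, ∀ ξ : ℝ, F m ξ = ((ArithmeticFunction.moebius m : ℤ) : ℂ) *
      (Lap k2 ((2:ℝ) + 2 * Real.pi * ξ * Complex.I) *
      Complex.exp (((2:ℝ) + 2 * Real.pi * ξ * Complex.I) * ((x - Real.log m : ℝ) : ℂ))) := by
    intro m ξ
    rcases Nat.eq_zero_or_pos m with rfl | hm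
    · simp [hF, LSeries.term]
    · have hm0 : (m : ℂ) ≠ 0 := by exact_mod_cast hm.ne'
      rw [hF]
      simp only
      rw [LSeries.term_of_ne_zero hm.ne']
      have e1 : Complex.exp (((2:ℝ) + 2 * Real.pi * ξ * Complex.I) * ((x - Real.log m : ℝ) : ℂ)) =
          Complex.exp (((2:ℝ) + 2 * Real.pi * ξ * Complex.I) * x) /
            (m : ℂ) ^ (((2:ℝ) : ℂ) + 2 * Real.pi * ξ * Complex.I) := by
        rw [Complex.cpow_def_of_ne_zero hm0, ← Complex.exp_sub]
        congr 1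
        rw [Complex.ofReal_sub, Complex.natCast_log]
        ring
      rw [e1]
      ring
  have hFnorm : ∀ m : ℕ, ∀ ξ : ℝ, ‖F m ξ‖ ≤ (Real.exp (2 * x) * (1 / (m:ℝ) ^ 2)) *
      ‖Lap k2 ((2:ℝ) + 2 * Real.pi * ξ * Complex.I)‖ := by
    intro m ξ
    rw [hF]
    simp only
    rw [norm_mul, norm_mul]
    have e1 : ‖Complex.exp (((2:ℝ) + 2 * Real.pi * ξ * Complex.I) * x)‖ = Real.exp (2 * x) := by
      rw [Complex.norm_exp]; congr 1; simp
    have e2 : ‖LSeries.term (fun n => ((ArithmeticFunction.moebius n : ℤ) : ℂ))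
        (((2:ℝ) : ℂ) + 2 * Real.pi * ξ * Complex.I) m‖ ≤ 1 / (m:ℝ) ^ 2 := by
      rw [LSeries.norm_term_eq, hre2]
      split_ifs with hm
      · positivity
      · have h1 : ‖((ArithmeticFunction.moebius m : ℤ) : ℂ)‖ ≤ 1 := by
          rw [Complex.norm_intCast]
          have := ArithmeticFunction.abs_moebius_le_one (n := m)
          exact_mod_cast this
        have h2 : (m:ℝ) ^ (2:ℝ) = (m:ℝ) ^ 2 := by norm_num
        rw [h2]
        gcongr
    rw [e1]
    have h3 : 0 ≤ ‖Lap k2 ((2:ℝ) + 2 * Real.pi * ξ * Complex.I)‖ := norm_nonneg _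
    have h4 : 0 < Real.exp (2 * x) := Real.exp_pos _
    calc _ ≤ ‖Lap k2 ((2:ℝ) + 2 * Real.pi * ξ * Complex.I)‖ * Real.exp (2 * x) * (1 / (m:ℝ) ^ 2) := by
          gcongr
      _ = _ := by ring
  have hFint : ∀ m : ℕ, Integrable (F m) := by
    intro m
    refine (hLint.norm.const_mul (Real.exp (2 * x) * (1 / (m:ℝ) ^ 2))).mono' ?_
      (Eventually.of_forall fun ξ => hFnorm m ξ)
    have : F m = fun ξ : ℝ => ((ArithmeticFunction.moebius m : ℤ) : ℂ) *
      (Lap k2 ((2:ℝ) + 2 * Real.pi * ξ * Complex.I) *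
      Complex.exp (((2:ℝ) + 2 * Real.pi * ξ * Complex.I) * ((x - Real.log m : ℝ) : ℂ))) := by
      ext ξ; exact hFeq m ξ
    rw [this]
    refine AEStronglyMeasurable.const_mul ?_ _
    refine hLint.aestronglyMeasurable.mul (Continuous.aestronglyMeasurable ?_)
    fun_prop
  have hFsum : Summable (fun m : ℕ => ∫ ξ, ‖F m ξ‖) := by
    refine Summable.of_nonneg_of_le (fun m => integral_nonneg fun ξ => norm_nonneg _)
      (f := fun m : ℕ => (Real.exp (2 * x) * ∫ ξ : ℝ, ‖Lap k2 ((2:ℝ) + 2 * Real.pi * ξ * Complex.I)‖) *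
        (1 / (m:ℝ) ^ 2)) ?_ ?_
    · intro m
      calc ∫ ξ, ‖F m ξ‖ ≤ ∫ ξ : ℝ, (Real.exp (2 * x) * (1 / (m:ℝ) ^ 2)) *
            ‖Lap k2 ((2:ℝ) + 2 * Real.pi * ξ * Complex.I)‖ :=
            integral_mono (hFint m).norm (hLint.norm.const_mul _) (hFnorm m)
        _ = _ := by rw [integral_const_mul]; ring
    · exact (Real.summable_one_div_nat_pow.mpr (by norm_num)).mul_left _
  have key := hasSum_integral_of_summable_integral_norm hFint hFsum
  have e1 : ∀ m : ℕ, ∫ ξ, F m ξ = ((ArithmeticFunction.moebius m : ℤ) : ℂ) * k2 (x - Real.log m) := by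
    intro m
    simp_rw [hFeq]
    rw [integral_const_mul]
    congr 1
    exact (inversion hn2 (by norm_num : (0:ℝ) < 2) (hn1.avg_continuous η) hLint (x - Real.log m)).symm
  have e2 : ∫ ξ, ∑' m, F m ξ = ∫ ξ : ℝ, PH η x k ((2:ℝ) + 2 * Real.pi * ξ * Complex.I) := by
    refine integral_congr_ae (Eventually.of_forall fun ξ => ?_)
    simp only [hF]
    rw [tsum_mul_left]
    have h1 := (moebius_lseries (s := ((2:ℝ) : ℂ) + 2 * Real.pi * ξ * Complex.I)
      (by rw [hre2]; norm_num)).LSeries_eq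
    unfold LSeries at h1
    rw [h1]
    unfold PH
    rw [hLap2 _ (by rw [hre2]; norm_num)]
  simp_rw [e1] at key
  rw [e2] at key
  exact key

end

end Pool.Agent.H295R2
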