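import Pool.Agent.H295R2.W

set_option autoImplicit false

open MeasureTheory Filter Topology Set
open scoped ContDiff

namespace Pool.Agent.H295R2

noncomputable section

/-- the weight `b(d) = ∑_{h ∈ ℤ} φ'(D (h/d - p/q))` -/
def bb (φ : ℝ → ℝ) (p q : ℕ) (D : ℝ) (d : ℕ) : ℝ := Gt φ (-((p:ℝ) * d)) q (D / (q * d))

def rho (φ : ℝ → ℝ) (p q : ℕ) (D : ℝ) (y : ℝ) : ℝ :=
  ∑ d ∈ Finset.Icc 1 ⌊y⌋₊, bb φ p q D d - D / q ^ 2 * Om φ (q * y / D)

lemma Gt_min {φ : ℝ → ℝ} (hφ : Bump φ) (c q : ℤ) (t : ℝ) : Gt φ c q (min t 2) = Gt φ c q t := by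
  rcases le_total t 2 with h | h
  · rw [min_eq_left h]
  · rw [min_eq_right h, Gt_zero hφ c q le_rfl, Gt_zero hφ c q h]

/-- the truncated parameter -/
def tau (D : ℝ) (q : ℕ) (u : ℝ) : ℝ := if u ≤ 0 then 2 else min (D / (q * u)) 2

lemma tau_le {D : ℝ} {q : ℕ} (u : ℝ) : tau D q u ≤ 2 := by
  unfold tau; split_ifs
  · exact le_rfl
  · exact min_le_right _ _

lemma tau_pos {D : ℝ} (hD : 0 < D) {q : ℕ} (hq : 0 < q) (u : ℝ) : 0 < tau D q u := by
  unfold tau; split_ifs with h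
  · norm_num
  · have : (0:ℝ) < q := by exact_mod_cast hq
    push Not at h
    exact lt_min (by positivity) (by norm_num)

lemma tau_anti {D : ℝ} (hD : 0 < D) {q : ℕ} (hq : 0 < q) {u v : ℝ} (h : u ≤ v) : tau D q v ≤ tau D q u := by
  have hq' : (0:ℝ) < q := by exact_mod_cast hq
  unfold tau
  split_ifs with h1 h2 h2
  · exact le_rfl
  · linarith
  · exact min_le_right _ _
  · push Not at h1 h2
    exact min_le_min (by gcongr) le_rfl

lemma bb_eq_tau {φ : ℝ → ℝ} (hφ : Bump φ) (p q : ℕ) (D : ℝ) {d : ℕ} (hd : 0 < d) :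
    bb φ p q D d = Gt φ (-((p:ℝ) * d)) q (tau D q d) := by
  unfold bb tau
  have hd' : ¬ ((d:ℝ) ≤ 0) := by push Not; exact_mod_cast hd
  rw [if_neg hd']
  have := Gt_min hφ (-((p:ℤ) * d)) q (D / (q * d))
  push_cast at this
  exact this.symm

lemma W_eq_tau {φ : ℝ → ℝ} (hφ : Bump φ) {q : ℕ} (hq : 0 < q) {D u : ℝ} (hD : 0 < D) (hu : 0 ≤ u) :
    W φ (q * u / D) = Gt φ 0 1 (tau D q u) := by
  have hq' : (0:ℝ) < q := by exact_mod_cast hq
  rcases hu.eq_or_lt with h | h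
  · rw [← h]
    unfold tau
    rw [if_pos le_rfl, mul_zero, zero_div, W_zero' hφ le_rfl (by norm_num)]
    have := Gt_zero hφ 0 1 (t := 2) le_rfl
    push_cast at this
    exact this.symm
  · unfold tau
    rw [if_neg (by push Not; exact h), W_eq_Gt]
    have := Gt_min hφ 0 1 (D / (q * u))
    push_cast at this
    rw [this, one_div_div]

lemma Om_scale {φ : ℝ → ℝ} {q : ℕ} (hq : 0 < q) {D : ℝ} (hD : 0 < D) (x y : ℝ) :
    D / q ^ 2 * (∫ v in (q * x / D)..(q * y / D), W φ v) = ∫ u in x..y, (1 / q) * W φ (q * u / D) := by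
  have hq' : (0:ℝ) < q := by exact_mod_cast hq
  have h1 := intervalIntegral.integral_comp_mul_left (a := x) (b := y) (W φ) (c := q / D) (by positivity)
  rw [intervalIntegral.integral_const_mul]
  have h2 : ∫ u in x..y, W φ (q * u / D) = ∫ u in x..y, W φ (q / D * u) := by
    refine intervalIntegral.integral_congr fun u _ => ?_
    congr 1; ring
  rw [h2, h1, smul_eq_mul]
  have e1 : (q:ℝ) / D * x = q * x / D := by ring
  have e2 : (q:ℝ) / D * y = q * y / D := by ring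
  rw [e1, e2]
  field_simp

/-- increments of `rho` over a complete residue system -/
lemma rho_block {φ : ℝ → ℝ} (hφ : Bump φ) {p q : ℕ} (hq : 0 < q) (hpq : Nat.Coprime p q) :
    ∃ C > 0, ∀ D : ℝ, 0 < D → ∀ k : ℕ,
      |rho φ p q D ((q * (k + 1) : ℕ) : ℝ) - rho φ p q D ((q * k : ℕ) : ℝ)|
        ≤ C * (tau D q ((q * k : ℕ) : ℝ) - tau D q ((q * (k + 1) : ℕ) : ℝ)) := by
  obtain ⟨L, hL0, hL⟩ := Gt_lipschitz hφ
  refine ⟨L * (q ^ 2 + 1), by positivity, fun D hD k => ?_⟩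
  have hq' : (0:ℝ) < q := by exact_mod_cast hq
  set t1 := tau D q ((q * (k + 1) : ℕ) : ℝ) with ht1
  set t0 := tau D q ((q * k : ℕ) : ℝ) with ht0
  have ht1pos : 0 < t1 := tau_pos hD hq _
  have htle : t1 ≤ t0 := by
    apply tau_anti hD hq
    push_cast; nlinarith
  -- sum part
  have hsum : ∑ d ∈ Finset.Icc 1 ⌊((q * (k + 1) : ℕ) : ℝ)⌋₊, bb φ p q D d - ∑ d ∈ Finset.Icc 1 ⌊((q * k : ℕ) : ℝ)⌋₊, bb φ p q D d
      = ∑ i ∈ Finset.range q, bb φ p q D (q * k + 1 + i) := by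
    rw [Nat.floor_natCast, Nat.floor_natCast]
    have h1 : q * (k + 1) = q * k + q := by ring
    rw [h1]
    have h2 : ∀ N : ℕ, ∑ d ∈ Finset.Icc 1 N, bb φ p q D d = ∑ i ∈ Finset.range N, bb φ p q D (1 + i) := by
      intro N
      rw [Finset.range_eq_Ico, Finset.sum_Ico_add (fun i => bb φ p q D i) 0 N 1]
      rfl
    rw [h2, h2, Finset.sum_range_add]
    rw [add_sub_cancel_left]
    refine Finset.sum_congr rfl fun i _ => ?_
    congr 1; ring
  have hA : |∑ i ∈ Finset.range q, bb φ p q D (q * k + 1 + i) - Gt φ 0 1 t1| ≤ L * q ^ 2 * (t0 - t1) := by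
    have hres : ∑ i ∈ Finset.range q, Gt φ (-((p:ℝ) * (q * k + 1 + i : ℕ))) q t1 = Gt φ 0 1 t1 := by
      have h1 := tsum_residue (f := deriv φ) ht1pos (fun y hy => hφ.deriv.supp hy) (p := -(p:ℤ)) hq
        (by rw [IsCoprime.neg_left_iff]; exact Nat.isCoprime_iff_coprime.mpr hpq) (-((p:ℤ) * (q * k + 1)))
      have h2 : Gt φ 0 1 t1 = ∑' l : ℤ, deriv φ ((l : ℝ) * t1) := by
        rw [Gt_eq]; refine tsum_congr fun j => ?_; congr 1; ring
      rw [h2, ← h1]
      refine Finset.sum_congr rfl fun i _ => ?_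
      rw [Gt_eq]
      refine tsum_congr fun j => ?_
      congr 1
      push_cast; ring
    rw [← hres, ← Finset.sum_sub_distrib]
    calc |∑ i ∈ Finset.range q, (bb φ p q D (q * k + 1 + i) - Gt φ (-((p:ℝ) * (q * k + 1 + i : ℕ))) q t1)|
        ≤ ∑ i ∈ Finset.range q, |bb φ p q D (q * k + 1 + i) - Gt φ (-((p:ℝ) * (q * k + 1 + i : ℕ))) q t1| :=
          Finset.abs_sum_le_sum_abs _ _
      _ ≤ ∑ i ∈ Finset.range q, L * q * (t0 - t1) := by
          refine Finset.sum_le_sum fun i hi => ?_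
          rw [Finset.mem_range] at hi
          rw [bb_eq_tau hφ p q D (by omega : 0 < q * k + 1 + i)]
          have hle1 : t1 ≤ tau D q ((q * k + 1 + i : ℕ) : ℝ) := by
            apply tau_anti hD hq
            have : q * k + 1 + i ≤ q * (k + 1) := by ring_nf; omega
            exact_mod_cast this
          have hle2 : tau D q ((q * k + 1 + i : ℕ) : ℝ) ≤ t0 := by
            apply tau_anti hD hq
            have : q * k ≤ q * k + 1 + i := by omega
            exact_mod_cast this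
          refine (hL (-((p:ℝ) * (q * k + 1 + i : ℕ))) q t1 _ hq' ht1pos hle1).trans ?_
          gcongr
      _ = L * q ^ 2 * (t0 - t1) := by
          rw [Finset.sum_const, Finset.card_range, nsmul_eq_mul]; ring
  have hB : |D / q ^ 2 * (∫ v in (q * ((q * k : ℕ) : ℝ) / D)..(q * ((q * (k + 1) : ℕ) : ℝ) / D), W φ v) - Gt φ 0 1 t1|
      ≤ L * (t0 - t1) := by
    rw [Om_scale hq hD]
    have hle : ((q * k : ℕ) : ℝ) ≤ ((q * (k + 1) : ℕ) : ℝ) := by push_cast; nlinarith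
    have e1 : Gt φ 0 1 t1 = ∫ u in ((q * k : ℕ) : ℝ)..((q * (k + 1) : ℕ) : ℝ), (1 / q) * Gt φ 0 1 t1 := by
      rw [intervalIntegral.integral_const, smul_eq_mul]
      push_cast
      field_simp
      ring
    have hcont : Continuous (fun u : ℝ => (1 / (q:ℝ)) * W φ (q * u / D)) := by
      have := W_continuous hφ
      fun_prop
    rw [e1, ← intervalIntegral.integral_sub (hcont.intervalIntegrable _ _) intervalIntegrable_const]
    have h3 := intervalIntegral.norm_integral_le_of_norm_le_const (a := ((q * k : ℕ) : ℝ)) (b := ((q * (k + 1) : ℕ) : ℝ))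
      (f := fun u => 1 / (q:ℝ) * W φ (q * u / D) - 1 / q * Gt φ 0 1 t1) (C := L / q * (t0 - t1)) (by
        intro u hu
        rw [uIoc_of_le hle] at hu
        rw [← mul_sub, norm_mul, Real.norm_eq_abs, Real.norm_eq_abs, abs_of_pos (by positivity : (0:ℝ) < 1 / q)]
        have hu0 : 0 ≤ u := le_trans (by positivity) hu.1.le
        rw [W_eq_tau hφ hq hD hu0]
        have := hL 0 1 t1 (tau D q u) one_pos ht1pos (tau_anti hD hq hu.2)
        have h4 : tau D q u ≤ t0 := tau_anti hD hq hu.1.le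
        calc 1 / (q:ℝ) * |Gt φ 0 1 (tau D q u) - Gt φ 0 1 t1| ≤ 1 / q * (L * 1 * (tau D q u - t1)) := by gcongr
          _ ≤ 1 / q * (L * 1 * (t0 - t1)) := by gcongr
          _ = L / q * (t0 - t1) := by ring)
    rw [Real.norm_eq_abs] at h3
    refine h3.trans (le_of_eq ?_)
    rw [abs_of_nonneg (by linarith)]
    push_cast
    field_simp
    ring
  have e : rho φ p q D ((q * (k + 1) : ℕ) : ℝ) - rho φ p q D ((q * k : ℕ) : ℝ) =
      (∑ i ∈ Finset.range q, bb φ p q D (q * k + 1 + i) - Gt φ 0 1 t1) -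
      (D / q ^ 2 * (∫ v in (q * ((q * k : ℕ) : ℝ) / D)..(q * ((q * (k + 1) : ℕ) : ℝ) / D), W φ v) - Gt φ 0 1 t1) := by
    rw [← hsum, ← Om_sub hφ]
    unfold rho
    ring
  rw [e]
  calc |(∑ i ∈ Finset.range q, bb φ p q D (q * k + 1 + i) - Gt φ 0 1 t1) -
      (D / q ^ 2 * (∫ v in (q * ((q * k : ℕ) : ℝ) / D)..(q * ((q * (k + 1) : ℕ) : ℝ) / D), W φ v) - Gt φ 0 1 t1)|
      ≤ _ := abs_sub _ _
    _ ≤ L * q ^ 2 * (t0 - t1) + L * (t0 - t1) := add_le_add hA hB
    _ = L * (q ^ 2 + 1) * (t0 - t1) := by ring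

lemma rho_zero {φ : ℝ → ℝ} (hφ : Bump φ) {p q : ℕ} (hq : 0 < q) {D : ℝ} (hD : 0 < D) {y : ℝ} (hy0 : 0 ≤ y)
    (hy : y ≤ D / (2 * q)) : rho φ p q D y = 0 := by
  have hq' : (0:ℝ) < q := by exact_mod_cast hq
  unfold rho
  rw [Om_zero hφ (by positivity) (by
    rw [div_le_iff₀ hD]
    rw [le_div_iff₀ (by positivity)] at hy
    linarith), mul_zero, sub_zero]
  refine Finset.sum_eq_zero fun d hd => ?_
  rw [Finset.mem_Icc] at hd
  have hd0 : (0:ℝ) < d := by exact_mod_cast hd.1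
  have hdy : (d:ℝ) ≤ y := (Nat.le_floor_iff hy0).mp hd.2
  unfold bb
  have := Gt_zero hφ (-((p:ℤ) * d)) q (t := D / (q * d)) (by
    rw [le_div_iff₀ (by positivity)]
    rw [le_div_iff₀ (by positivity)] at hy
    nlinarith)
  push_cast at this
  exact this

lemma bb_bound {φ : ℝ → ℝ} (hφ : Bump φ) {p q : ℕ} (hq : 0 < q) :
    ∃ C > 0, ∀ D : ℝ, 0 < D → ∀ d : ℕ, 0 < d → |bb φ p q D d| ≤ C ∧
      |bb φ p q D d| ≤ if (d : ℝ) ≤ D / (2 * q) then 0 else C * (D / d) := by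
  obtain ⟨C, hC0, hC⟩ := Gt_bound2 hφ
  have hq' : (0:ℝ) < q := by exact_mod_cast hq
  have hq1 : (1:ℝ) ≤ q := by exact_mod_cast hq
  refine ⟨2 * C * q, by positivity, fun D hD d hd => ?_⟩
  have hd0 : (0:ℝ) < d := by exact_mod_cast hd
  have h1 := hC (-((p:ℤ) * d)) q (D / (q * d)) (by exact_mod_cast hq) (by positivity)
  push_cast at h1
  refine ⟨h1.2, ?_⟩
  split_ifs with h2
  · unfold bb
    have := Gt_zero hφ (-((p:ℤ) * d)) q (t := D / (q * d)) (by
      rw [le_div_iff₀ (by positivity)]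
      rw [le_div_iff₀ (by positivity)] at h2
      nlinarith)
    push_cast at this
    rw [this, abs_zero]
  · refine h1.1.trans ?_
    have e : (q:ℝ) * (D / (q * d)) = D / d := by field_simp
    rw [e]
    have : 0 < D / d := by positivity
    nlinarith [mul_pos hC0 this]

/-- `rho` is bounded, uniformly in `D`. -/
lemma rho_bounded {φ : ℝ → ℝ} (hφ : Bump φ) {p q : ℕ} (hq : 0 < q) (hpq : Nat.Coprime p q) :
    ∃ C > 0, ∀ D : ℝ, 0 < D → ∀ y : ℝ, 0 ≤ y → |rho φ p q D y| ≤ C := by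
  obtain ⟨C1, hC10, hC1⟩ := rho_block hφ hq hpq
  obtain ⟨C2, hC20, hC2⟩ := bb_bound hφ (p := p) hq
  obtain ⟨C3, hC30, hC3⟩ := W_bounded hφ
  have hq' : (0:ℝ) < q := by exact_mod_cast hq
  refine ⟨C1 * 2 + C2 * q + C3, by positivity, fun D hD y hy => ?_⟩
  have hblk : ∀ k : ℕ, |rho φ p q D ((q * k : ℕ) : ℝ)| ≤ C1 * (2 - tau D q ((q * k : ℕ) : ℝ)) := by
    intro k
    induction k with
    | zero =>
      rw [Nat.mul_zero, Nat.cast_zero, rho_zero hφ hq hD le_rfl (by positivity), abs_zero]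
      have := tau_le (D := D) (q := q) 0
      have : 0 ≤ 2 - tau D q 0 := by linarith
      positivity
    | succ k ih =>
      have h1 := hC1 D hD k
      have h2 : |rho φ p q D ((q * (k + 1) : ℕ) : ℝ)| ≤
          |rho φ p q D ((q * (k + 1) : ℕ) : ℝ) - rho φ p q D ((q * k : ℕ) : ℝ)| + |rho φ p q D ((q * k : ℕ) : ℝ)| := by
        have := abs_add_le (rho φ p q D ((q * (k + 1) : ℕ) : ℝ) - rho φ p q D ((q * k : ℕ) : ℝ)) (rho φ p q D ((q * k : ℕ) : ℝ))
        rwa [sub_add_cancel] at this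
      have h3 := tau_le (D := D) (q := q) ((q * k : ℕ) : ℝ)
      nlinarith
  set K : ℕ := ⌊y⌋₊ / q with hK
  have hKy : q * K ≤ ⌊y⌋₊ := Nat.mul_div_le _ _
  have hKy2 : ⌊y⌋₊ < q * K + q := by
    have := Nat.lt_mul_div_succ ⌊y⌋₊ hq
    rw [← hK] at this
    nlinarith
  have hKy' : ((q * K : ℕ) : ℝ) ≤ y := le_trans (by exact_mod_cast hKy) (Nat.floor_le hy)
  have hKy3 : y < ((q * K + q : ℕ) : ℝ) := by
    have := Nat.lt_floor_add_one y
    have h2 : ((⌊y⌋₊ + 1 : ℕ) : ℝ) ≤ ((q * K + q : ℕ) : ℝ) := by exact_mod_cast hKy2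
    push_cast at h2 ⊢
    linarith
  have hdiff : |rho φ p q D y - rho φ p q D ((q * K : ℕ) : ℝ)| ≤ C2 * q + C3 := by
    have hsub : Finset.Icc 1 (q * K) ⊆ Finset.Icc 1 ⌊y⌋₊ := Finset.Icc_subset_Icc_right hKy
    have e1 : rho φ p q D y - rho φ p q D ((q * K : ℕ) : ℝ) =
        ∑ d ∈ Finset.Icc 1 ⌊y⌋₊ \ Finset.Icc 1 (q * K), bb φ p q D d -
        ∫ u in ((q * K : ℕ) : ℝ)..y, (1 / q) * W φ (q * u / D) := by
      rw [← Om_scale hq hD, ← Om_sub hφ]
      have := Finset.sum_sdiff (f := fun d => bb φ p q D d) hsub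
      unfold rho
      rw [Nat.floor_natCast, ← this]
      ring
    have e2 : |∑ d ∈ Finset.Icc 1 ⌊y⌋₊ \ Finset.Icc 1 (q * K), bb φ p q D d| ≤ C2 * q := by
      calc |∑ d ∈ Finset.Icc 1 ⌊y⌋₊ \ Finset.Icc 1 (q * K), bb φ p q D d|
          ≤ ∑ d ∈ Finset.Icc 1 ⌊y⌋₊ \ Finset.Icc 1 (q * K), |bb φ p q D d| := Finset.abs_sum_le_sum_abs _ _
        _ ≤ ∑ d ∈ Finset.Icc 1 ⌊y⌋₊ \ Finset.Icc 1 (q * K), C2 := by
            refine Finset.sum_le_sum fun d hd => ?_
            rw [Finset.mem_sdiff, Finset.mem_Icc] at hd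
            exact (hC2 D hD d hd.1.1).1
        _ = ((Finset.Icc 1 ⌊y⌋₊ \ Finset.Icc 1 (q * K)).card : ℝ) * C2 := by rw [Finset.sum_const, nsmul_eq_mul]
        _ ≤ (q : ℝ) * C2 := by
            have : (Finset.Icc 1 ⌊y⌋₊ \ Finset.Icc 1 (q * K)).card ≤ q := by
              rw [Finset.card_sdiff_of_subset hsub, Nat.card_Icc, Nat.card_Icc]
              omega
            have : ((Finset.Icc 1 ⌊y⌋₊ \ Finset.Icc 1 (q * K)).card : ℝ) ≤ q := by exact_mod_cast this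
            gcongr
        _ = C2 * q := by ring
    have e3 : |∫ u in ((q * K : ℕ) : ℝ)..y, (1 / q) * W φ (q * u / D)| ≤ C3 := by
      have := intervalIntegral.norm_integral_le_of_norm_le_const (a := ((q * K : ℕ) : ℝ)) (b := y)
        (f := fun u => (1 / (q:ℝ)) * W φ (q * u / D)) (C := C3 / q) (by
          intro u _
          rw [norm_mul, Real.norm_eq_abs, Real.norm_eq_abs, abs_of_pos (by positivity : (0:ℝ) < 1 / q)]
          calc 1 / (q:ℝ) * |W φ (q * u / D)| ≤ 1 / q * C3 := by gcongr; exact (hC3 _).1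
            _ = C3 / q := by ring)
      rw [Real.norm_eq_abs, abs_of_nonneg (by linarith : 0 ≤ y - ((q * K : ℕ) : ℝ))] at this
      refine this.trans ?_
      have h5 : y - ((q * K : ℕ) : ℝ) ≤ q := by push_cast at hKy3 ⊢; linarith
      calc C3 / q * (y - ((q * K : ℕ) : ℝ)) ≤ C3 / q * q := by gcongr
        _ = C3 := by field_simp
    rw [e1]
    exact (abs_sub _ _).trans (add_le_add e2 e3)
  have h1 := hblk K
  have h2 : |rho φ p q D y| ≤
      |rho φ p q D y - rho φ p q D ((q * K : ℕ) : ℝ)| + |rho φ p q D ((q * K : ℕ) : ℝ)| := by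
    have := abs_add_le (rho φ p q D y - rho φ p q D ((q * K : ℕ) : ℝ)) (rho φ p q D ((q * K : ℕ) : ℝ))
    rwa [sub_add_cancel] at this
  have h3 := (tau_pos hD hq ((q * K : ℕ) : ℝ)).le
  nlinarith

end

end Pool.Agent.H295R2
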