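import Pool.Agent.H295R2.R

set_option autoImplicit false

open MeasureTheory Filter Topology Set
open scoped ContDiff ENNReal

namespace Pool.Agent.H295R2

noncomputable section

lemma tail_sum {A a : ℝ} (hA : 0 < A) (ha : 0 < a) :
    ∑' d : ℕ, ENNReal.ofReal (if (d : ℝ) ≤ A then 0 else (d : ℝ) ^ (-1 - a)) ≤
      ENNReal.ofReal (2 ^ (1 + a) * (A ^ (-a) / a)) := by
  have h1 : ∀ d : ℕ, ENNReal.ofReal (if (d : ℝ) ≤ A then 0 else (d : ℝ) ^ (-1 - a)) ≤
      ∫⁻ x in Ico (d:ℝ) (d + 1), (Ioi A).indicator (fun x => ENNReal.ofReal (2 ^ (1 + a) * x ^ (-1 - a))) x := by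
    intro d
    split_ifs with h
    · simp
    · push Not at h
      have hd1 : (1:ℝ) ≤ d := by
        have : (0:ℝ) < d := hA.trans h
        have : 0 < d := by exact_mod_cast this
        exact_mod_cast this
      have h2 : ∀ x ∈ Ico (d:ℝ) (d + 1), ENNReal.ofReal ((d : ℝ) ^ (-1 - a)) ≤
          (Ioi A).indicator (fun x => ENNReal.ofReal (2 ^ (1 + a) * x ^ (-1 - a))) x := by
        intro x hx
        have hxA : x ∈ Ioi A := lt_of_lt_of_le h hx.1
        rw [indicator_of_mem hxA]
        apply ENNReal.ofReal_le_ofReal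
        have hx2 : x ≤ 2 * d := by linarith [hx.2]
        have hx0 : 0 < x := by linarith [hx.1]
        have h3 : (2 * (d:ℝ)) ^ (-1 - a) ≤ x ^ (-1 - a) :=
          Real.rpow_le_rpow_of_nonpos hx0 hx2 (by linarith)
        rw [Real.mul_rpow (by norm_num) (by linarith)] at h3
        have h4 : (2:ℝ) ^ (1 + a) * 2 ^ (-1 - a) = 1 := by
          rw [← Real.rpow_add (by norm_num)]; norm_num
        calc (d : ℝ) ^ (-1 - a) = 2 ^ (1 + a) * (2 ^ (-1 - a) * (d:ℝ) ^ (-1 - a)) := by
              rw [← mul_assoc, h4, one_mul]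
          _ ≤ 2 ^ (1 + a) * x ^ (-1 - a) := by gcongr
      calc ENNReal.ofReal ((d : ℝ) ^ (-1 - a)) = ∫⁻ x in Ico (d:ℝ) (d + 1), ENNReal.ofReal ((d : ℝ) ^ (-1 - a)) := by
            rw [setLIntegral_const, Real.volume_Ico]; simp
        _ ≤ _ := setLIntegral_mono' measurableSet_Ico h2
  have hdisj : Pairwise (Function.onFun Disjoint (fun d : ℕ => Ico (d:ℝ) (d + 1))) := by
    intro i j hij
    simp only [Function.onFun]
    rw [Set.disjoint_iff]
    rintro x ⟨hx1, hx2⟩
    apply hij
    have h1 : (i:ℝ) < j + 1 := lt_of_le_of_lt hx1.1 hx2.2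
    have h2 : (j:ℝ) < i + 1 := lt_of_le_of_lt hx2.1 hx1.2
    have h3 : i < j + 1 := by exact_mod_cast h1
    have h4 : j < i + 1 := by exact_mod_cast h2
    omega
  calc ∑' d : ℕ, ENNReal.ofReal (if (d : ℝ) ≤ A then 0 else (d : ℝ) ^ (-1 - a))
      ≤ ∑' d : ℕ, ∫⁻ x in Ico (d:ℝ) (d + 1), (Ioi A).indicator (fun x => ENNReal.ofReal (2 ^ (1 + a) * x ^ (-1 - a))) x :=
        ENNReal.tsum_le_tsum h1
    _ = ∫⁻ x in ⋃ d : ℕ, Ico (d:ℝ) (d + 1), (Ioi A).indicator (fun x => ENNReal.ofReal (2 ^ (1 + a) * x ^ (-1 - a))) x :=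
        (lintegral_iUnion (fun _ => measurableSet_Ico) hdisj _).symm
    _ ≤ ∫⁻ x, (Ioi A).indicator (fun x => ENNReal.ofReal (2 ^ (1 + a) * x ^ (-1 - a))) x := setLIntegral_le_lintegral _ _
    _ = ∫⁻ x in Ioi A, ENNReal.ofReal (2 ^ (1 + a) * x ^ (-1 - a)) := lintegral_indicator measurableSet_Ioi _
    _ = ENNReal.ofReal (∫ x in Ioi A, 2 ^ (1 + a) * x ^ (-1 - a)) := by
        rw [ofReal_integral_eq_lintegral_ofReal]
        · exact ((integrableOn_Ioi_rpow_of_lt (by linarith) hA).const_mul _)
        · filter_upwards [ae_restrict_mem measurableSet_Ioi] with x hx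
          have : 0 < x := hA.trans hx
          positivity
    _ = ENNReal.ofReal (2 ^ (1 + a) * (A ^ (-a) / a)) := by
        congr 1
        rw [integral_const_mul, integral_Ioi_rpow_of_lt (by linarith) hA]
        have e : -1 - a + 1 = -a := by ring
        rw [e, neg_div_neg_eq]

/-- the abstract translation bound -/
lemma trans_bound {k : ℝ → ℝ} {C c₁ c₂ A σ h : ℝ} (hC : 0 ≤ C) (hc₁ : 0 ≤ c₁) (hc₂ : 0 ≤ c₂) (hA : 0 < A) (hσ : 0 < σ)
    (hh : 0 < h) (hk : Measurable k)
    (h1 : ∀ u, |k (u + h) - k u| ≤ C)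
    (h2 : ∀ u, |k (u + h) - k u| ≤ ∑ d ∈ Finset.Ioc ⌊Real.exp u⌋₊ ⌊Real.exp (u + h)⌋₊, (if (d : ℝ) ≤ A then 0 else c₁ / d)
      + (if Real.exp (u + h) ≤ A then 0 else c₂ * h)) :
    ∫ u, |k (u + h) - k u| ^ 2 * Real.exp (-(2 * σ * u)) ≤
      C * (c₁ * h * Real.exp (2 * σ * h) * (2 ^ (1 + 2 * σ) * (A ^ (-(2 * σ)) / (2 * σ))) +
        c₂ * h * (Real.exp (2 * σ * h) * A ^ (-(2 * σ)) / (2 * σ))) := by
  set R : ℝ := C * (c₁ * h * Real.exp (2 * σ * h) * (2 ^ (1 + 2 * σ) * (A ^ (-(2 * σ)) / (2 * σ))) +
        c₂ * h * (Real.exp (2 * σ * h) * A ^ (-(2 * σ)) / (2 * σ))) with hR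
  have hR0 : 0 ≤ R := by rw [hR]; positivity
  set E : ℝ → ℝ≥0∞ := fun u => ENNReal.ofReal (Real.exp (-(2 * σ * u))) with hE
  have hEm : Measurable E := by rw [hE]; fun_prop
  set S : ℕ → Set ℝ := fun d => Ico (Real.log d - h) (Real.log d) with hS
  set c : ℕ → ℝ := fun d => if (d : ℝ) ≤ A then 0 else c₁ / d with hc
  have hc0 : ∀ d, 0 ≤ c d := by
    intro d; rw [hc]; simp only; split_ifs <;> positivity
  -- pointwise bound
  have hpt : ∀ u, ENNReal.ofReal (|k (u + h) - k u| ^ 2 * Real.exp (-(2 * σ * u))) ≤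
      ENNReal.ofReal C * (∑' d : ℕ, ENNReal.ofReal (c d) * (S d).indicator E u +
        ENNReal.ofReal (c₂ * h) * (Ici (Real.log A - h)).indicator E u) := by
    intro u
    have e1 : ENNReal.ofReal (|k (u + h) - k u| ^ 2 * Real.exp (-(2 * σ * u))) ≤
        ENNReal.ofReal C * (ENNReal.ofReal |k (u + h) - k u| * E u) := by
      rw [hE]
      simp only
      rw [← ENNReal.ofReal_mul (abs_nonneg _), ← ENNReal.ofReal_mul hC]
      apply ENNReal.ofReal_le_ofReal
      have := h1 u
      have h0 := abs_nonneg (k (u + h) - k u)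
      have h3 := (Real.exp_pos (-(2 * σ * u))).le
      calc |k (u + h) - k u| ^ 2 * Real.exp (-(2 * σ * u)) = |k (u + h) - k u| * (|k (u + h) - k u| * Real.exp (-(2 * σ * u))) := by ring
        _ ≤ C * (|k (u + h) - k u| * Real.exp (-(2 * σ * u))) := by gcongr
    refine e1.trans ?_
    gcongr
    calc ENNReal.ofReal |k (u + h) - k u| * E u
        ≤ ENNReal.ofReal (∑ d ∈ Finset.Ioc ⌊Real.exp u⌋₊ ⌊Real.exp (u + h)⌋₊, c d
            + (if Real.exp (u + h) ≤ A then 0 else c₂ * h)) * E u := by
          gcongr; exact h2 u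
      _ ≤ (∑ d ∈ Finset.Ioc ⌊Real.exp u⌋₊ ⌊Real.exp (u + h)⌋₊, ENNReal.ofReal (c d)
            + ENNReal.ofReal (if Real.exp (u + h) ≤ A then 0 else c₂ * h)) * E u := by
          gcongr
          refine ENNReal.ofReal_add_le.trans ?_
          rw [ENNReal.ofReal_sum_of_nonneg (fun d _ => hc0 d)]
      _ = ∑ d ∈ Finset.Ioc ⌊Real.exp u⌋₊ ⌊Real.exp (u + h)⌋₊, ENNReal.ofReal (c d) * E u
            + ENNReal.ofReal (if Real.exp (u + h) ≤ A then 0 else c₂ * h) * E u := by
          rw [add_mul, Finset.sum_mul]
      _ ≤ _ := by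
          apply add_le_add
          · calc ∑ d ∈ Finset.Ioc ⌊Real.exp u⌋₊ ⌊Real.exp (u + h)⌋₊, ENNReal.ofReal (c d) * E u
                = ∑ d ∈ Finset.Ioc ⌊Real.exp u⌋₊ ⌊Real.exp (u + h)⌋₊, ENNReal.ofReal (c d) * (S d).indicator E u := by
                  refine Finset.sum_congr rfl fun d hd => ?_
                  rw [Finset.mem_Ioc] at hd
                  have hd0 : 0 < d := by omega
                  have hd0' : (0:ℝ) < d := by exact_mod_cast hd0
                  have hd1 : Real.exp u < d := (Nat.floor_lt (Real.exp_pos _).le).mp hd.1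
                  have hd2 : (d:ℝ) ≤ Real.exp (u + h) := (Nat.le_floor_iff (Real.exp_pos _).le).mp hd.2
                  have hmem : u ∈ S d := by
                    rw [hS]
                    refine ⟨?_, ?_⟩
                    · have := Real.log_le_log hd0' hd2
                      rw [Real.log_exp] at this
                      linarith
                    · have := Real.log_lt_log (Real.exp_pos _) hd1
                      rwa [Real.log_exp] at this
                  rw [indicator_of_mem hmem]
              _ ≤ ∑' d : ℕ, ENNReal.ofReal (c d) * (S d).indicator E u := ENNReal.sum_le_tsum _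
          · split_ifs with hcase
            · simp
            · push Not at hcase
              have hmem : u ∈ Ici (Real.log A - h) := by
                have := Real.log_le_log hA hcase.le
                rw [Real.log_exp] at this
                rw [mem_Ici]; linarith
              rw [indicator_of_mem hmem]
  have hSm : ∀ d, MeasurableSet (S d) := fun d => measurableSet_Ico
  have hIci : MeasurableSet (Ici (Real.log A - h)) := measurableSet_Ici
  have hmain : ∫⁻ u, ENNReal.ofReal (|k (u + h) - k u| ^ 2 * Real.exp (-(2 * σ * u))) ≤ ENNReal.ofReal R := by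
    calc ∫⁻ u, ENNReal.ofReal (|k (u + h) - k u| ^ 2 * Real.exp (-(2 * σ * u)))
        ≤ ∫⁻ u, ENNReal.ofReal C * (∑' d : ℕ, ENNReal.ofReal (c d) * (S d).indicator E u +
        ENNReal.ofReal (c₂ * h) * (Ici (Real.log A - h)).indicator E u) := lintegral_mono hpt
      _ = ENNReal.ofReal C * (∑' d : ℕ, ENNReal.ofReal (c d) * (∫⁻ u, (S d).indicator E u) +
        ENNReal.ofReal (c₂ * h) * ∫⁻ u, (Ici (Real.log A - h)).indicator E u) := by
          rw [lintegral_const_mul' _ _ ENNReal.ofReal_ne_top]
          congr 1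
          rw [lintegral_add_left, lintegral_tsum, lintegral_const_mul' _ _ ENNReal.ofReal_ne_top]
          · congr 1
            refine tsum_congr fun d => ?_
            rw [lintegral_const_mul' _ _ ENNReal.ofReal_ne_top]
          · intro d
            exact ((hEm.indicator (hSm d)).const_mul _).aemeasurable
          · exact Measurable.tsum fun d => (hEm.indicator (hSm d)).const_mul _
      _ ≤ ENNReal.ofReal C * (∑' d : ℕ, ENNReal.ofReal (c₁ * h * Real.exp (2 * σ * h)) *
            ENNReal.ofReal (if (d : ℝ) ≤ A then 0 else (d : ℝ) ^ (-1 - 2 * σ)) +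
        ENNReal.ofReal (c₂ * h) * ENNReal.ofReal (Real.exp (2 * σ * h) * A ^ (-(2 * σ)) / (2 * σ))) := by
          gcongr ENNReal.ofReal C * (?_ + ENNReal.ofReal (c₂ * h) * ?_)
          · -- each d
            refine ENNReal.tsum_le_tsum fun d => ?_
            rw [lintegral_indicator (hSm d)]
            rw [hc]
            simp only
            split_ifs with hdA
            · simp
            · push Not at hdA
              have hd0 : (0:ℝ) < d := hA.trans hdA
              have hb : ∫⁻ u in S d, E u ≤ ENNReal.ofReal (h * (Real.exp (2 * σ * h) * (d:ℝ) ^ (-(2 * σ)))) := by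
                calc ∫⁻ u in S d, E u ≤ ∫⁻ u in S d, ENNReal.ofReal (Real.exp (2 * σ * h) * (d:ℝ) ^ (-(2 * σ))) := by
                      refine setLIntegral_mono' (hSm d) fun u hu => ?_
                      rw [hE]
                      apply ENNReal.ofReal_le_ofReal
                      rw [Real.rpow_def_of_pos hd0, ← Real.exp_add]
                      apply Real.exp_le_exp.mpr
                      have := hu.1
                      nlinarith
                  _ = _ := by
                      rw [setLIntegral_const, hS, Real.volume_Ico, mul_comm, ← ENNReal.ofReal_mul (by linarith)]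
                      congr 1
                      ring
              calc ENNReal.ofReal (c₁ / d) * ∫⁻ u in S d, E u
                  ≤ ENNReal.ofReal (c₁ / d) * ENNReal.ofReal (h * (Real.exp (2 * σ * h) * (d:ℝ) ^ (-(2 * σ)))) := by gcongr
                _ = ENNReal.ofReal (c₁ * h * Real.exp (2 * σ * h)) * ENNReal.ofReal ((d : ℝ) ^ (-1 - 2 * σ)) := by
                    rw [← ENNReal.ofReal_mul (by positivity), ← ENNReal.ofReal_mul (by positivity)]
                    congr 1
                    have : (d:ℝ) ^ (-1 - 2 * σ) = (d:ℝ)⁻¹ * (d:ℝ) ^ (-(2 * σ)) := by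
                      rw [← Real.rpow_neg_one, ← Real.rpow_add hd0]; congr 1
                    rw [this]
                    field_simp
          · rw [lintegral_indicator hIci]
            have hb : IntegrableOn (fun u => Real.exp (-(2 * σ) * u)) (Ici (Real.log A - h)) := by
              rw [integrableOn_Ici_iff_integrableOn_Ioi]
              exact integrableOn_exp_mul_Ioi (by linarith) _
            have e1 : ∫⁻ u in Ici (Real.log A - h), E u = ENNReal.ofReal (∫ u in Ici (Real.log A - h), Real.exp (-(2 * σ) * u)) := by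
              rw [ofReal_integral_eq_lintegral_ofReal hb (Eventually.of_forall fun u => (Real.exp_pos _).le)]
              refine lintegral_congr fun u => ?_
              rw [hE]
              simp only
              congr 2; ring
            rw [e1, integral_Ici_eq_integral_Ioi, integral_exp_mul_Ioi (by linarith)]
            apply ENNReal.ofReal_le_ofReal
            apply le_of_eq
            rw [neg_div_neg_eq]
            congr 1
            rw [Real.rpow_def_of_pos hA, ← Real.exp_add]
            congr 1; ring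
      _ ≤ ENNReal.ofReal R := by
          rw [ENNReal.tsum_mul_left]
          calc ENNReal.ofReal C * (ENNReal.ofReal (c₁ * h * Real.exp (2 * σ * h)) *
                (∑' d : ℕ, ENNReal.ofReal (if (d : ℝ) ≤ A then 0 else (d : ℝ) ^ (-1 - 2 * σ))) +
                ENNReal.ofReal (c₂ * h) * ENNReal.ofReal (Real.exp (2 * σ * h) * A ^ (-(2 * σ)) / (2 * σ)))
              ≤ ENNReal.ofReal C * (ENNReal.ofReal (c₁ * h * Real.exp (2 * σ * h)) *
                ENNReal.ofReal (2 ^ (1 + 2 * σ) * (A ^ (-(2 * σ)) / (2 * σ))) +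
                ENNReal.ofReal (c₂ * h) * ENNReal.ofReal (Real.exp (2 * σ * h) * A ^ (-(2 * σ)) / (2 * σ))) := by
                gcongr
                exact tail_sum hA (by positivity)
            _ = ENNReal.ofReal R := by
                rw [← ENNReal.ofReal_mul (by positivity), ← ENNReal.ofReal_mul (by positivity),
                  ← ENNReal.ofReal_add (by positivity) (by positivity), ← ENNReal.ofReal_mul hC]
  rw [integral_eq_lintegral_of_nonneg_ae (Eventually.of_forall fun u => by positivity)
    (by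
      have : Measurable (fun u => |k (u + h) - k u| ^ 2 * Real.exp (-(2 * σ * u))) := by fun_prop
      exact this.aestronglyMeasurable)]
  exact ENNReal.toReal_le_of_le_ofReal hR0 hmain

end

end Pool.Agent.H295R2
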