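import Pool.Agent.H295R2.R2

set_option autoImplicit false

open MeasureTheory Filter Topology Set
open scoped ContDiff ENNReal

namespace Pool.Agent.H295R2

noncomputable section

/-- the kernel `k(u) = rho(e^u)` -/
def krho (φ : ℝ → ℝ) (p q : ℕ) (D : ℝ) (u : ℝ) : ℂ := ((rho φ p q D (Real.exp u) : ℝ) : ℂ)

lemma Om_diff_log {φ : ℝ → ℝ} (hφ : Bump φ) :
    ∃ C > 0, ∀ a b : ℝ, 0 < a → a ≤ b → |Om φ b - Om φ a| ≤ C * Real.log (b / a) := by
  obtain ⟨C, hC0, hC⟩ := W_bound' hφ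
  refine ⟨C, hC0, fun a b ha hab => ?_⟩
  rw [Om_sub hφ]
  have hb : 0 < b := ha.trans_le hab
  have hi : IntervalIntegrable (fun v : ℝ => C * v⁻¹) volume a b := by
    refine ContinuousOn.intervalIntegrable ?_
    refine continuousOn_const.mul (continuousOn_id.inv₀ ?_)
    intro x hx
    rw [uIcc_of_le hab] at hx
    simp only [id]
    linarith [hx.1]
  have h1 := intervalIntegral.norm_integral_le_of_norm_le (f := W φ) (g := fun v => C * v⁻¹) hab
    (Eventually.of_forall fun v hv => by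
      rw [Real.norm_eq_abs]
      have := hC v (ha.trans hv.1)
      rwa [div_eq_mul_inv] at this) hi
  rw [Real.norm_eq_abs, intervalIntegral.integral_const_mul, integral_inv_of_pos ha hb] at h1
  exact h1

lemma rho_measurable {φ : ℝ → ℝ} (hφ : Bump φ) (p q : ℕ) (D : ℝ) : Measurable (rho φ p q D) := by
  unfold rho
  refine Measurable.sub ?_ ?_
  · have h1 : Measurable (fun n : ℕ => ∑ d ∈ Finset.Icc 1 n, bb φ p q D d) := measurable_from_nat
    exact h1.comp Nat.measurable_floor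
  · have h2 := (Om_continuous hφ).measurable
    exact (h2.comp (by fun_prop : Measurable fun y : ℝ => (q:ℝ) * y / D)).const_mul _

lemma rho_diff {φ : ℝ → ℝ} (hφ : Bump φ) {p q : ℕ} (hq : 0 < q) :
    ∃ c₁ > 0, ∃ c₂ > 0, ∀ D : ℝ, 0 < D → ∀ y y' : ℝ, 0 < y → y ≤ y' →
      |rho φ p q D y' - rho φ p q D y| ≤
        ∑ d ∈ Finset.Ioc ⌊y⌋₊ ⌊y'⌋₊, (if (d : ℝ) ≤ D / (2 * q) then 0 else c₁ * D / d) +
          (if y' ≤ D / (2 * q) then 0 else c₂ * D * Real.log (y' / y)) := by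
  obtain ⟨C2, hC20, hC2⟩ := bb_bound hφ (p := p) hq
  obtain ⟨C3, hC30, hC3⟩ := Om_diff_log hφ
  have hq' : (0:ℝ) < q := by exact_mod_cast hq
  have hq1 : (1:ℝ) ≤ q := by exact_mod_cast hq
  refine ⟨C2, hC20, C3, hC30, fun D hD y y' hy hyy => ?_⟩
  have hy' : 0 < y' := hy.trans_le hyy
  have hfl : ⌊y⌋₊ ≤ ⌊y'⌋₊ := Nat.floor_le_floor hyy
  have hIcc : ∀ N : ℕ, Finset.Icc 1 N = Finset.Ioc 0 N := fun N => rfl
  have e1 : rho φ p q D y' - rho φ p q D y = ∑ d ∈ Finset.Ioc ⌊y⌋₊ ⌊y'⌋₊, bb φ p q D d -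
      D / q ^ 2 * (Om φ (q * y' / D) - Om φ (q * y / D)) := by
    unfold rho
    rw [hIcc, hIcc, ← Finset.sum_Ioc_consecutive (fun d => bb φ p q D d) (Nat.zero_le _) hfl]
    ring
  rw [e1]
  refine (abs_sub _ _).trans (add_le_add ?_ ?_)
  · refine (Finset.abs_sum_le_sum_abs _ _).trans (Finset.sum_le_sum fun d hd => ?_)
    rw [Finset.mem_Ioc] at hd
    have := (hC2 D hD d (by omega)).2
    rw [mul_div_assoc]
    exact this
  · split_ifs with hcase
    · have h2 : y ≤ D / (2 * q) := hyy.trans hcase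
      rw [le_div_iff₀ (by positivity)] at hcase h2
      rw [Om_zero hφ (y := q * y' / D) (by positivity) (by rw [div_le_iff₀ hD]; linarith),
        Om_zero hφ (y := q * y / D) (by positivity) (by rw [div_le_iff₀ hD]; linarith)]
      simp
    · have h3 := hC3 (q * y / D) (q * y' / D) (by positivity) (by gcongr)
      have e2 : q * y' / D / (q * y / D) = y' / y := by field_simp
      rw [e2] at h3
      rw [abs_mul, abs_of_pos (by positivity : (0:ℝ) < D / q ^ 2)]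
      have h4 : D / (q:ℝ) ^ 2 ≤ D := by
        rw [div_le_iff₀ (by positivity)]
        nlinarith [hD, mul_le_mul hq1 hq1 (by norm_num) hq'.le]
      have h5 : 0 ≤ Real.log (y' / y) := Real.log_nonneg (by rw [le_div_iff₀ hy]; linarith)
      calc D / (q:ℝ) ^ 2 * |Om φ (q * y' / D) - Om φ (q * y / D)| ≤ D * (C3 * Real.log (y' / y)) := by gcongr
        _ = C3 * D * Real.log (y' / y) := by ring

lemma krho_nice {φ : ℝ → ℝ} (hφ : Bump φ) {p q : ℕ} (hq : 0 < q) (hpq : Nat.Coprime p q) :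
    ∃ B₀ > 0, ∀ B ≥ B₀, ∀ D : ℝ, 1 ≤ D → Nice (krho φ p q D) B 0 (Real.log D - B) := by
  obtain ⟨C, hC0, hC⟩ := rho_bounded hφ hq hpq
  have hq' : (0:ℝ) < q := by exact_mod_cast hq
  refine ⟨max C (2 * q), by positivity, fun B hB D hD => ?_⟩
  have hB1 : C ≤ B := (le_max_left _ _).trans hB
  have hB2 : 2 * (q:ℝ) ≤ B := (le_max_right _ _).trans hB
  have hD0 : 0 < D := by linarith
  refine ⟨?_, ?_, ?_⟩
  · unfold krho
    exact Complex.measurable_ofReal.comp ((rho_measurable hφ p q D).comp Real.measurable_exp)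
  · intro u
    unfold krho
    rw [Complex.norm_real, Real.norm_eq_abs, zero_mul, Real.exp_zero, mul_one]
    exact (hC D hD0 _ (Real.exp_pos _).le).trans hB1
  · intro u hu
    unfold krho
    rw [rho_zero hφ hq hD0 (Real.exp_pos _).le]
    · simp
    · have h1 : Real.exp u ≤ Real.exp (Real.log D - B) := Real.exp_le_exp.mpr hu.le
      rw [Real.exp_sub, Real.exp_log hD0] at h1
      refine h1.trans ?_
      have h2 : 2 * (q:ℝ) ≤ Real.exp B := by
        have := Real.add_one_le_exp B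
        linarith
      gcongr

theorem krho_trans {φ : ℝ → ℝ} (hφ : Bump φ) {p q : ℕ} (hq : 0 < q) (hpq : Nat.Coprime p q) {σ : ℝ} (hσ : 0 < σ) :
    ∃ B₀ > 0, ∀ B ≥ B₀, ∀ D : ℝ, 1 ≤ D → ∀ h : ℝ, 0 < h → h ≤ 1 →
      ∫ u, ‖krho φ p q D (u + h) - krho φ p q D u‖ ^ 2 * Real.exp (-(2 * σ * u)) ≤ B * h * D ^ (1 - 2 * σ) := by
  obtain ⟨C, hC0, hC⟩ := rho_bounded hφ hq hpq
  obtain ⟨c₁, hc₁, c₂, hc₂, hdiff⟩ := rho_diff hφ (p := p) hq
  have hq' : (0:ℝ) < q := by exact_mod_cast hq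
  set K : ℝ := (2 * C) * (c₁ * Real.exp (2 * σ) * (2 ^ (1 + 2 * σ) * ((2 * q) ^ (2 * σ) / (2 * σ))) +
      c₂ * (Real.exp (2 * σ) * (2 * q) ^ (2 * σ) / (2 * σ))) with hK
  refine ⟨K, by positivity, fun B hB D hD h hh hh1 => ?_⟩
  have hD0 : 0 < D := by linarith
  have hm : Measurable (fun u => rho φ p q D (Real.exp u)) := (rho_measurable hφ p q D).comp Real.measurable_exp
  have h1 := trans_bound (k := fun u => rho φ p q D (Real.exp u)) (C := 2 * C) (c₁ := c₁ * D) (c₂ := c₂ * D)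
    (A := D / (2 * q)) (σ := σ) (h := h) (by positivity) (by positivity) (by positivity) (by positivity) hσ hh hm
    (fun u => by
      have e1 := hC D hD0 (Real.exp (u + h)) (Real.exp_pos _).le
      have e2 := hC D hD0 (Real.exp u) (Real.exp_pos _).le
      refine (abs_sub _ _).trans ?_
      linarith)
    (fun u => by
      have := hdiff D hD0 (Real.exp u) (Real.exp (u + h)) (Real.exp_pos _) (Real.exp_le_exp.mpr (by linarith))
      have e : Real.log (Real.exp (u + h) / Real.exp u) = h := by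
        rw [← Real.exp_sub, Real.log_exp]; ring
      rw [e] at this
      exact this)
  have h2 : ∫ u, ‖krho φ p q D (u + h) - krho φ p q D u‖ ^ 2 * Real.exp (-(2 * σ * u)) =
      ∫ u, |rho φ p q D (Real.exp (u + h)) - rho φ p q D (Real.exp u)| ^ 2 * Real.exp (-(2 * σ * u)) := by
    refine integral_congr_ae (Eventually.of_forall fun u => ?_)
    simp only
    unfold krho
    rw [← Complex.ofReal_sub, Complex.norm_real, Real.norm_eq_abs]
  rw [h2]
  refine h1.trans ?_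
  have hA : (D / (2 * q)) ^ (-(2 * σ)) = D ^ (-(2 * σ)) * (2 * q) ^ (2 * σ) := by
    rw [Real.div_rpow hD0.le (by positivity), Real.rpow_neg (by positivity : (0:ℝ) ≤ 2 * q)]
    field_simp
  have hDD : D ^ (1 - 2 * σ) = D * D ^ (-(2 * σ)) := by
    have : (1 - 2 * σ) = 1 + (-(2 * σ)) := by ring
    rw [this, Real.rpow_add hD0, Real.rpow_one]
  have hexp : Real.exp (2 * σ * h) ≤ Real.exp (2 * σ) := Real.exp_le_exp.mpr (by nlinarith)
  rw [hA]
  calc 2 * C * (c₁ * D * h * Real.exp (2 * σ * h) * (2 ^ (1 + 2 * σ) * (D ^ (-(2 * σ)) * (2 * q) ^ (2 * σ) / (2 * σ))) +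
        c₂ * D * h * (Real.exp (2 * σ * h) * (D ^ (-(2 * σ)) * (2 * q) ^ (2 * σ)) / (2 * σ)))
      ≤ 2 * C * (c₁ * D * h * Real.exp (2 * σ) * (2 ^ (1 + 2 * σ) * (D ^ (-(2 * σ)) * (2 * q) ^ (2 * σ) / (2 * σ))) +
        c₂ * D * h * (Real.exp (2 * σ) * (D ^ (-(2 * σ)) * (2 * q) ^ (2 * σ)) / (2 * σ))) := by gcongr
    _ = K * h * D ^ (1 - 2 * σ) := by
        rw [hDD, hK]; ring
    _ ≤ B * h * D ^ (1 - 2 * σ) := by gcongr

end

end Pool.Agent.H295R2
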