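import Pool.Agent.H295R2.Def
import Pool.Agent.H332R2.FL.SawQ

set_option autoImplicit false

open MeasureTheory Filter Topology Set
open H332.FL (sw)

namespace Pool.Agent.H295R2

noncomputable section

/-! Franel's `L²` argument (helper332) -/

lemma t1_one_mem {n : ℕ} (hn : 1 ≤ n) : (1 : ℚ) ∈ farey n := by
  rw [mem_farey]
  exact ⟨one_pos, le_rfl, by simpa using hn⟩

lemma t1_card_pos {n : ℕ} (hn : 1 ≤ n) : 0 < (farey n).card :=
  Finset.card_pos.2 ⟨1, t1_one_mem hn⟩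

lemma t1_sum_eq (n : ℕ) (G : ℚ → ℝ) :
    ∑ x ∈ farey n, G x = ∑ i : Fin (farey n).card, G ((farey n).orderEmbOfFin rfl i) := by
  conv_lhs => rw [← Finset.map_orderEmbOfFin_univ (farey n) rfl]
  rw [Finset.sum_map]
  rfl

lemma t1_sum_one {n : ℕ} (hn : 1 ≤ n) : ∑ d ∈ Finset.Icc 1 n, Mx ((n : ℝ) / d) = 1 := by
  have h1 := sum_farey_mertens n (fun x => if x = 1 then 1 else 0)
  rw [Finset.sum_ite_eq' (farey n) 1 (fun _ => (1 : ℝ)), if_pos (t1_one_mem hn)] at h1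
  rw [h1]
  refine Finset.sum_congr rfl fun d hd => ?_
  rw [Finset.mem_Icc] at hd
  have hd0 : (d : ℚ) ≠ 0 := by exact_mod_cast (show d ≠ 0 by omega)
  have h2 : ∀ h ∈ Finset.Icc 1 d, (if (h : ℚ) / (d : ℚ) = 1 then (1 : ℝ) else 0) = if h = d then 1 else 0 := by
    intro h _
    congr 1
    rw [div_eq_one_iff_eq hd0]
    simp
  rw [Finset.sum_congr rfl h2, Finset.sum_ite_eq' (Finset.Icc 1 d) d (fun _ => (1 : ℝ)),
    if_pos (Finset.mem_Icc.2 ⟨hd.1, le_rfl⟩), mul_one]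

lemma t1_card_eq (n : ℕ) : ((farey n).card : ℝ) = ∑ d ∈ Finset.Icc 1 n, Mx ((n : ℝ) / d) * d := by
  have h1 := sum_farey_mertens n (fun _ => 1)
  simpa using h1

/-- number of Farey fractions up to `t` -/
def cnt (n : ℕ) (t : ℝ) : ℝ := ∑ x ∈ farey n, if ((x : ℚ) : ℝ) ≤ t then 1 else 0

lemma cnt_eq_fl {n : ℕ} {t : ℝ} (h0 : 0 ≤ t) (h1 : t ≤ 1) :
    cnt n t = ∑ d ∈ Finset.Icc 1 n, Mx ((n : ℝ) / d) * (⌊(d : ℝ) * t⌋₊ : ℝ) := by
  unfold cnt
  rw [sum_farey_mertens n (fun x => if ((x : ℚ) : ℝ) ≤ t then 1 else 0)]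
  refine Finset.sum_congr rfl fun d hd => ?_
  rw [Finset.mem_Icc] at hd
  have hd0 : (0 : ℝ) < d := by exact_mod_cast hd.1
  congr 1
  have h2 : ∀ h ∈ Finset.Icc 1 d, (if (((h : ℚ) / (d : ℚ) : ℚ) : ℝ) ≤ t then (1 : ℝ) else 0) =
      if h ≤ ⌊(d : ℝ) * t⌋₊ then 1 else 0 := by
    intro h _
    congr 1
    rw [Nat.le_floor_iff (by positivity)]
    push_cast
    rw [div_le_iff₀ hd0, mul_comm t]
  rw [Finset.sum_congr rfl h2, ← Finset.sum_filter, Finset.sum_const, nsmul_eq_mul, mul_one]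
  have h3 : (Finset.Icc 1 d).filter (fun h => h ≤ ⌊(d : ℝ) * t⌋₊) = Finset.Icc 1 ⌊(d : ℝ) * t⌋₊ := by
    ext h
    simp only [Finset.mem_filter, Finset.mem_Icc]
    constructor
    · rintro ⟨⟨a, _⟩, b⟩; exact ⟨a, b⟩
    · rintro ⟨a, b⟩
      refine ⟨⟨a, b.trans ?_⟩, b⟩
      have : (d : ℝ) * t ≤ d := by nlinarith
      exact Nat.floor_le_of_le this
  rw [h3]
  simp

/-- the error function -/
def Ef (n : ℕ) (t : ℝ) : ℝ := -(∑ d ∈ Finset.Icc 1 n, Mx ((n : ℝ) / d) * sw ((d : ℝ) * t)) - 1 / 2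

lemma cnt_sub {n : ℕ} (hn : 1 ≤ n) {t : ℝ} (h0 : 0 ≤ t) (h1 : t ≤ 1) :
    cnt n t - ((farey n).card : ℝ) * t = Ef n t := by
  have hs := t1_sum_one hn
  unfold Ef
  rw [cnt_eq_fl h0 h1, t1_card_eq, Finset.sum_mul, ← Finset.sum_sub_distrib]
  have h2 : (1 : ℝ) / 2 = ∑ d ∈ Finset.Icc 1 n, Mx ((n : ℝ) / d) * (1 / 2) := by
    rw [← Finset.sum_mul, hs, one_mul]
  rw [h2, ← Finset.sum_neg_distrib, ← Finset.sum_sub_distrib]
  refine Finset.sum_congr rfl fun d _ => ?_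
  have h3 : sw ((d : ℝ) * t) = (d : ℝ) * t - (⌊(d : ℝ) * t⌋₊ : ℝ) - 1 / 2 := by
    unfold H332.FL.sw
    rw [← Int.self_sub_floor, ← natCast_floor_eq_intCast_floor (by positivity : 0 ≤ (d : ℝ) * t)]
  rw [h3]
  ring

lemma fareyNth_strictMono (n : ℕ) : StrictMono (fareyNth n) := by
  intro i j hij
  unfold fareyNth
  exact_mod_cast ((farey n).orderEmbOfFin rfl).strictMono hij

lemma fareyNth_pos (n : ℕ) (j) : 0 < fareyNth n j := by
  unfold fareyNth
  have := (mem_farey.1 ((farey n).orderEmbOfFin_mem rfl j)).1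
  exact_mod_cast this

lemma fareyNth_le_one (n : ℕ) (j) : fareyNth n j ≤ 1 := by
  unfold fareyNth
  have := (mem_farey.1 ((farey n).orderEmbOfFin_mem rfl j)).2.1
  exact_mod_cast this

/-- `g 0 = 0`, `g (j+1) = f_{j+1}` -/
def gg (n : ℕ) : ℕ → ℝ
  | 0 => 0
  | (j + 1) => if h : j < (farey n).card then fareyNth n ⟨j, h⟩ else 1

lemma gg_succ {n j : ℕ} (h : j < (farey n).card) : gg n (j + 1) = fareyNth n ⟨j, h⟩ := by
  simp [gg, h]

lemma gg_card {n : ℕ} (hn : 1 ≤ n) : gg n (farey n).card = 1 := by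
  have hA := t1_card_pos hn
  obtain ⟨m, hm⟩ : ∃ m, (farey n).card = m + 1 := ⟨(farey n).card - 1, by omega⟩
  have hlt : m < (farey n).card := by omega
  rw [hm, gg_succ hlt]
  refine le_antisymm (fareyNth_le_one n _) ?_
  have h1 := t1_one_mem hn
  rw [← Finset.map_orderEmbOfFin_univ (farey n) rfl, Finset.mem_map] at h1
  obtain ⟨i, _, hi⟩ := h1
  have h2 : fareyNth n i = 1 := by
    unfold fareyNth
    have : (farey n).orderEmbOfFin rfl i = 1 := hi
    rw [this]; simp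
  rw [← h2]
  apply (fareyNth_strictMono n).monotone
  rw [Fin.le_def]
  have := i.2
  simp only
  omega

lemma gg_nonneg {n j : ℕ} : 0 ≤ gg n j := by
  cases j with
  | zero => simp [gg]
  | succ j =>
    by_cases h : j < (farey n).card
    · rw [gg_succ h]; exact (fareyNth_pos n _).le
    · simp [gg, h]

lemma gg_le_one {n j : ℕ} : gg n j ≤ 1 := by
  cases j with
  | zero => simp [gg]
  | succ j =>
    by_cases h : j < (farey n).card
    · rw [gg_succ h]; exact fareyNth_le_one n _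
    · simp [gg, h]

lemma gg_lt {n j : ℕ} (h : j < (farey n).card) : gg n j < gg n (j + 1) := by
  rw [gg_succ h]
  cases j with
  | zero => exact fareyNth_pos n _
  | succ j =>
    have h' : j < (farey n).card := by omega
    rw [gg_succ h']
    apply fareyNth_strictMono
    rw [Fin.lt_def]
    simp

lemma cnt_on {n j : ℕ} (h : j < (farey n).card) {t : ℝ} (h1 : gg n j < t) (h2 : t < gg n (j + 1)) :
    cnt n t = j := by
  unfold cnt
  rw [t1_sum_eq n (fun x => if ((x : ℚ) : ℝ) ≤ t then 1 else 0)]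
  have h3 : ∀ i : Fin (farey n).card,
      (if ((((farey n).orderEmbOfFin rfl i : ℚ)) : ℝ) ≤ t then (1 : ℝ) else 0) =
      if i < (⟨j, h⟩ : Fin (farey n).card) then 1 else 0 := by
    intro i
    congr 1
    apply propext
    rw [Fin.lt_def]
    simp only
    constructor
    · intro h4
      by_contra hcon
      push Not at hcon
      have h5 : fareyNth n ⟨j, h⟩ ≤ fareyNth n i := (fareyNth_strictMono n).monotone hcon
      rw [gg_succ h] at h2
      have h6 : fareyNth n i ≤ t := h4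
      linarith
    · intro h4
      cases j with
      | zero => simp at h4
      | succ j =>
        have h' : j < (farey n).card := by omega
        rw [gg_succ h'] at h1
        have h5 : i ≤ (⟨j, h'⟩ : Fin (farey n).card) := by
          rw [Fin.le_def]; simp only; omega
        have h6 : fareyNth n i ≤ fareyNth n ⟨j, h'⟩ := (fareyNth_strictMono n).monotone h5
        have h7 : fareyNth n i ≤ t := by linarith
        exact h7
  rw [Finset.sum_congr rfl fun i _ => h3 i, ← Finset.sum_filter, Finset.sum_const, nsmul_eq_mul,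
    mul_one]
  have h4 : (Finset.univ.filter fun i : Fin (farey n).card => i < (⟨j, h⟩ : Fin (farey n).card)) =
      Finset.Iio (⟨j, h⟩ : Fin (farey n).card) := by
    ext i; simp
  rw [h4, Fin.card_Iio]

lemma Ef_measurable (n : ℕ) : Measurable (Ef n) := by
  unfold Ef
  refine Measurable.sub_const (Measurable.neg ?_) _
  refine Finset.measurable_sum _ fun d _ => Measurable.const_mul ?_ _
  exact H332.FL.measurable_sw_comp (by fun_prop)

lemma Ef_sq_ii (n : ℕ) (x y : ℝ) : IntervalIntegrable (fun t => Ef n t ^ 2) volume x y := by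
  set S : ℝ := ∑ d ∈ Finset.Icc 1 n, |Mx ((n : ℝ) / d)| with hS
  have hb : ∀ t, |Ef n t| ≤ S + 1 := by
    intro t
    unfold Ef
    have h1 : |∑ d ∈ Finset.Icc 1 n, Mx ((n : ℝ) / d) * sw ((d : ℝ) * t)| ≤ S := by
      refine (Finset.abs_sum_le_sum_abs _ _).trans (Finset.sum_le_sum fun d _ => ?_)
      rw [abs_mul]
      exact mul_le_of_le_one_right (abs_nonneg _) ((H332.FL.abs_sw_le _).trans (by norm_num))
    have h2 := abs_sub (-(∑ d ∈ Finset.Icc 1 n, Mx ((n : ℝ) / d) * sw ((d : ℝ) * t))) (1 / 2)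
    rw [abs_neg] at h2
    have h3 : |(1 : ℝ) / 2| = 1 / 2 := by norm_num
    linarith
  refine (intervalIntegrable_const (c := (S + 1) ^ 2)).mono_fun ?_ ?_
  · exact ((Ef_measurable n).pow_const 2).aestronglyMeasurable
  · refine Filter.Eventually.of_forall fun t => ?_
    have h0 : 0 ≤ S + 1 := by
      have := hb 0
      exact (abs_nonneg _).trans this
    show ‖Ef n t ^ 2‖ ≤ ‖(S + 1) ^ 2‖
    rw [Real.norm_of_nonneg (sq_nonneg _), Real.norm_of_nonneg (sq_nonneg _), ← sq_abs (Ef n t)]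
    exact pow_le_pow_left₀ (abs_nonneg _) (hb t) 2

lemma cube_integral (A j x y : ℝ) (hA : A ≠ 0) :
    ∫ t in x..y, (j - A * t) ^ 2 = ((A * y - j) ^ 3 - (A * x - j) ^ 3) / (3 * A) := by
  have h1 : ∀ t ∈ uIcc x y, HasDerivAt (fun t : ℝ => (A * t - j) ^ 3 / (3 * A)) ((j - A * t) ^ 2) t := by
    intro t _
    have h2 : HasDerivAt (fun t : ℝ => A * t - j) A t := by
      simpa using ((hasDerivAt_id t).const_mul A).sub_const j
    have h3 := (h2.pow 3).div_const (3 * A)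
    refine h3.congr_deriv ?_
    field_simp
    push_cast
    ring
  rw [intervalIntegral.integral_eq_sub_of_hasDerivAt h1]
  · ring
  · apply Continuous.intervalIntegrable
    fun_prop

lemma disp_sum_le {n : ℕ} (hn : 1 ≤ n) :
    (totalSum n) ^ 2 ≤ 4 * ∫ t in (0 : ℝ)..1, Ef n t ^ 2 := by
  set A := (farey n).card with hA
  have hApos : 0 < A := t1_card_pos hn
  have hA0 : (0 : ℝ) < A := by exact_mod_cast hApos
  set u : ℕ → ℝ := fun j => A * gg n j - j with hu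
  -- the integral
  have h1 : ∀ k < A, IntervalIntegrable (fun t => Ef n t ^ 2) volume (gg n k) (gg n (k + 1)) :=
    fun k _ => Ef_sq_ii n _ _
  have h2 := intervalIntegral.sum_integral_adjacent_intervals h1
  have hg0 : gg n 0 = 0 := rfl
  rw [hg0, gg_card hn] at h2
  have h3 : ∀ k ∈ Finset.range A, ∫ t in (gg n k)..(gg n (k + 1)), Ef n t ^ 2 =
      ((u (k + 1) + 1) ^ 3 - (u k) ^ 3) / (3 * A) := by
    intro k hk
    rw [Finset.mem_range] at hk
    have hlt := gg_lt hk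
    have h4 : ∫ t in (gg n k)..(gg n (k + 1)), Ef n t ^ 2 =
        ∫ t in (gg n k)..(gg n (k + 1)), ((k : ℝ) - A * t) ^ 2 := by
      rw [intervalIntegral.integral_of_le hlt.le, intervalIntegral.integral_of_le hlt.le,
        integral_Ioc_eq_integral_Ioo, integral_Ioc_eq_integral_Ioo]
      refine setIntegral_congr_fun measurableSet_Ioo fun t ht => ?_
      have ht0 : 0 ≤ t := gg_nonneg.trans ht.1.le
      have ht1 : t ≤ 1 := ht.2.le.trans gg_le_one
      rw [← cnt_sub hn ht0 ht1, cnt_on hk ht.1 ht.2]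
    rw [h4, cube_integral _ _ _ _ hA0.ne']
    simp only [hu]
    push_cast
    ring
  rw [Finset.sum_congr rfl h3] at h2
  have hu0 : u 0 = 0 := by simp [hu, hg0]
  have huA : u A = 0 := by simp [hu, gg_card hn, hA]
  have h5 : ∑ k ∈ Finset.range A, ((u (k + 1)) ^ 3 - (u k) ^ 3) = 0 := by
    rw [Finset.sum_range_sub (fun k => (u k) ^ 3) A, huA, hu0]; simp
  have h6 : ∑ k ∈ Finset.range A, ((u (k + 1) + 1) ^ 3 - (u k) ^ 3) / (3 * A) =
      (∑ k ∈ Finset.range A, (3 * (u (k + 1)) ^ 2 + 3 * u (k + 1) + 1)) / (3 * (A : ℝ)) := by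
    rw [← Finset.sum_div]
    congr 1
    have : ∑ k ∈ Finset.range A, ((u (k + 1) + 1) ^ 3 - (u k) ^ 3) =
        ∑ k ∈ Finset.range A, (3 * (u (k + 1)) ^ 2 + 3 * u (k + 1) + 1) +
        ∑ k ∈ Finset.range A, ((u (k + 1)) ^ 3 - (u k) ^ 3) := by
      rw [← Finset.sum_add_distrib]
      refine Finset.sum_congr rfl fun k _ => by ring
    rw [this, h5, add_zero]
  rw [h6] at h2
  have h7 : ∑ k ∈ Finset.range A, (u (k + 1)) ^ 2 ≤ 4 * A * ∫ t in (0 : ℝ)..1, Ef n t ^ 2 := by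
    rw [← h2]
    have h8 : (3 / 4 : ℝ) * ∑ k ∈ Finset.range A, (u (k + 1)) ^ 2 ≤
        ∑ k ∈ Finset.range A, (3 * (u (k + 1)) ^ 2 + 3 * u (k + 1) + 1) := by
      rw [Finset.mul_sum]
      refine Finset.sum_le_sum fun k _ => ?_
      nlinarith [sq_nonneg (3 * u (k + 1) / 2 + 1)]
    have h9 : 4 * (A : ℝ) * ((∑ k ∈ Finset.range A, (3 * (u (k + 1)) ^ 2 + 3 * u (k + 1) + 1)) / (3 * (A : ℝ))) =
        (4 / 3) * ∑ k ∈ Finset.range A, (3 * (u (k + 1)) ^ 2 + 3 * u (k + 1) + 1) := by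
      field_simp
    rw [h9]
    linarith
  have h10 : totalSum n = (∑ k ∈ Finset.range A, |u (k + 1)|) / A := by
    unfold totalSum disp
    rw [Finset.sum_range, Finset.sum_div]
    refine Finset.sum_congr rfl fun i _ => ?_
    have hi : (i : ℕ) < (farey n).card := i.2
    simp only [hu]
    rw [gg_succ hi]
    rw [← abs_of_pos hA0, ← abs_div, abs_of_pos hA0]
    congr 1
    push_cast
    field_simp
  have h11 : (∑ k ∈ Finset.range A, |u (k + 1)|) ^ 2 ≤ A * ∑ k ∈ Finset.range A, (u (k + 1)) ^ 2 := by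
    have := sq_sum_le_card_mul_sum_sq (s := Finset.range A) (f := fun k => |u (k + 1)|)
    simpa [sq_abs] using this
  rw [h10, div_pow, div_le_iff₀ (by positivity)]
  calc (∑ k ∈ Finset.range A, |u (k + 1)|) ^ 2 ≤ A * ∑ k ∈ Finset.range A, (u (k + 1)) ^ 2 := h11
    _ ≤ A * (4 * A * ∫ t in (0 : ℝ)..1, Ef n t ^ 2) := mul_le_mul_of_nonneg_left h7 hA0.le
    _ = 4 * (∫ t in (0 : ℝ)..1, Ef n t ^ 2) * (A : ℝ) ^ 2 := by ring

/-- (T1)  `|Mx y| ≤ C y^σ` implies `D(n) ≤ K n^σ` -/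
theorem T1 {σ C : ℝ} (hσ : 1/2 < σ) (hσ2 : σ ≤ 2) (hC : 0 < C)
    (h : ∀ y : ℝ, 1 ≤ y → |Mx y| ≤ C * y ^ σ) :
    ∃ K > 0, ∀ n : ℕ, 1 ≤ n → totalSum n ≤ K * (n : ℝ) ^ σ := by
  obtain ⟨K0, hK0, hq⟩ := H332.FL.quad_bound σ hσ
  refine ⟨Real.sqrt (8 * K0 * C ^ 2 + 2), by positivity, fun n hn => ?_⟩
  have hn0 : (0 : ℝ) < n := by exact_mod_cast hn
  have hn1 : (1 : ℝ) ≤ n := by exact_mod_cast hn
  have hb := hq n (fun d => Mx ((n : ℝ) / d)) (C * (n : ℝ) ^ σ) (by positivity) (by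
    intro d hd
    rw [Finset.mem_Icc] at hd
    have hd0 : (0 : ℝ) < d := by exact_mod_cast hd.1
    have h1 := h ((n : ℝ) / d) (by
      rw [one_le_div hd0]; exact_mod_cast hd.2)
    rw [Real.div_rpow hn0.le hd0.le] at h1
    rw [Real.rpow_neg hd0.le]
    calc _ ≤ _ := h1
      _ = _ := by ring)
  have h2 : ∫ t in (0 : ℝ)..1, Ef n t ^ 2 ≤
      ∫ t in (0 : ℝ)..1, (2 * (∑ d ∈ Finset.Icc 1 n, Mx ((n : ℝ) / d) * sw ((d : ℝ) * t)) ^ 2 + 1 / 2) := by
    apply intervalIntegral.integral_mono_on zero_le_one (Ef_sq_ii n 0 1)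
    · apply IntervalIntegrable.add _ intervalIntegrable_const
      apply IntervalIntegrable.const_mul
      have h3 : (fun t => (∑ d ∈ Finset.Icc 1 n, Mx ((n : ℝ) / d) * sw ((d : ℝ) * t)) ^ 2) =
          fun t => (-(Ef n t) - 1 / 2) ^ 2 := by
        ext t; unfold Ef; ring
      rw [h3]
      have h4 : (fun t => (-(Ef n t) - 1 / 2) ^ 2) = fun t => Ef n t ^ 2 + (Ef n t + 1 / 4) := by
        ext t; ring
      rw [h4]
      refine (Ef_sq_ii n 0 1).add (IntervalIntegrable.add ?_ intervalIntegrable_const)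
      have h5 : IntervalIntegrable (fun t => Ef n t ^ 2 + 1) volume 0 1 :=
        (Ef_sq_ii n 0 1).add intervalIntegrable_const
      refine h5.mono_fun (Ef_measurable n).aestronglyMeasurable (Eventually.of_forall fun t => ?_)
      show ‖Ef n t‖ ≤ ‖Ef n t ^ 2 + 1‖
      rw [Real.norm_eq_abs, Real.norm_of_nonneg (by positivity)]
      nlinarith [sq_nonneg (|Ef n t| - 1), sq_abs (Ef n t), abs_nonneg (Ef n t)]
    · intro t _
      unfold Ef
      nlinarith [sq_nonneg ((∑ d ∈ Finset.Icc 1 n, Mx ((n : ℝ) / d) * sw ((d : ℝ) * t)) - 1 / 2)]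
  have h3 : ∫ t in (0 : ℝ)..1, (2 * (∑ d ∈ Finset.Icc 1 n, Mx ((n : ℝ) / d) * sw ((d : ℝ) * t)) ^ 2 + 1 / 2) =
      2 * (∫ t in (0 : ℝ)..1, (∑ d ∈ Finset.Icc 1 n, Mx ((n : ℝ) / d) * sw ((d : ℝ) * t)) ^ 2) + 1 / 2 := by
    rw [intervalIntegral.integral_add, intervalIntegral.integral_const_mul]
    · simp
    · apply IntervalIntegrable.const_mul
      have h3 : (fun t => (∑ d ∈ Finset.Icc 1 n, Mx ((n : ℝ) / d) * sw ((d : ℝ) * t)) ^ 2) =
          fun t => (-(Ef n t) - 1 / 2) ^ 2 := by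
        ext t; unfold Ef; ring
      rw [h3]
      have h4 : (fun t => (-(Ef n t) - 1 / 2) ^ 2) = fun t => Ef n t ^ 2 + (Ef n t + 1 / 4) := by
        ext t; ring
      rw [h4]
      refine (Ef_sq_ii n 0 1).add (IntervalIntegrable.add ?_ intervalIntegrable_const)
      have h5 : IntervalIntegrable (fun t => Ef n t ^ 2 + 1) volume 0 1 :=
        (Ef_sq_ii n 0 1).add intervalIntegrable_const
      refine h5.mono_fun (Ef_measurable n).aestronglyMeasurable (Eventually.of_forall fun t => ?_)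
      show ‖Ef n t‖ ≤ ‖Ef n t ^ 2 + 1‖
      rw [Real.norm_eq_abs, Real.norm_of_nonneg (by positivity)]
      nlinarith [sq_nonneg (|Ef n t| - 1), sq_abs (Ef n t), abs_nonneg (Ef n t)]
    · exact intervalIntegrable_const
  have h4 := disp_sum_le hn
  have hpow : (1 : ℝ) ≤ ((n : ℝ) ^ σ) ^ 2 := by
    have : 1 ≤ (n : ℝ) ^ σ := Real.one_le_rpow hn1 (by linarith)
    nlinarith
  have h5 : (totalSum n) ^ 2 ≤ (8 * K0 * C ^ 2 + 2) * ((n : ℝ) ^ σ) ^ 2 := by
    calc (totalSum n) ^ 2 ≤ 4 * ∫ t in (0 : ℝ)..1, Ef n t ^ 2 := h4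
      _ ≤ 4 * (2 * (K0 * (C * (n : ℝ) ^ σ) ^ 2) + 1 / 2) := by
          rw [h3] at h2
          linarith
      _ = 8 * K0 * C ^ 2 * ((n : ℝ) ^ σ) ^ 2 + 2 := by ring
      _ ≤ (8 * K0 * C ^ 2 + 2) * ((n : ℝ) ^ σ) ^ 2 := by nlinarith
  have h6 : 0 ≤ totalSum n := Finset.sum_nonneg fun i _ => abs_nonneg _
  have h7 : Real.sqrt ((totalSum n) ^ 2) ≤ Real.sqrt ((8 * K0 * C ^ 2 + 2) * ((n : ℝ) ^ σ) ^ 2) :=
    Real.sqrt_le_sqrt h5
  rw [Real.sqrt_sq h6, Real.sqrt_mul (by positivity), Real.sqrt_sq (by positivity)] at h7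
  exact h7

end

end Pool.Agent.H295R2
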