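import Pool.Agent.H295R2.G2
import Pool.Agent.H295R2.T1loc

set_option autoImplicit false

open MeasureTheory Filter Topology Set
open H332.FL (sw)

namespace Pool.Agent.H295R2

noncomputable section

/-! Sharp localised upper bound (helper332) -/

/-- `G(e) = e|e|` -/
def GS (e : ℝ) : ℝ := e * |e|

lemma GS_hasDerivAt (e : ℝ) : HasDerivAt GS (2 * |e|) e := by
  rcases lt_trichotomy e 0 with h | h | h
  · have h1 : GS =ᶠ[𝓝 e] fun x => -(x ^ 2) := by
      filter_upwards [gt_mem_nhds h] with x hx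
      unfold GS
      rw [abs_of_neg hx]; ring
    rw [h1.hasDerivAt_iff, abs_of_neg h]
    have h2 := (hasDerivAt_pow 2 e).neg
    refine h2.congr_deriv ?_
    push_cast; ring
  · subst h
    rw [abs_zero, mul_zero, hasDerivAt_iff_tendsto_slope]
    have h1 : Tendsto (fun x : ℝ => |x|) (𝓝[≠] 0) (𝓝 0) := by
      have := (continuous_abs.tendsto (0 : ℝ)).mono_left (nhdsWithin_le_nhds (s := {0}ᶜ))
      simpa using this
    refine h1.congr' ?_
    filter_upwards [self_mem_nhdsWithin] with x hx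
    have hx0 : x ≠ 0 := hx
    rw [slope_def_field]
    unfold GS
    field_simp
    simp
  · have h1 : GS =ᶠ[𝓝 e] fun x => x ^ 2 := by
      filter_upwards [lt_mem_nhds h] with x hx
      unfold GS
      rw [abs_of_pos hx]; ring
    rw [h1.hasDerivAt_iff, abs_of_pos h]
    have h2 := hasDerivAt_pow 2 e
    refine h2.congr_deriv ?_
    push_cast; ring

lemma GS_continuous : Continuous GS := by unfold GS; fun_prop

lemma GS_neg (e : ℝ) : GS (-e) = -GS e := by unfold GS; rw [abs_neg]; ring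

lemma abs_GS (e : ℝ) : |GS e| = e ^ 2 := by
  unfold GS; rw [abs_mul, abs_abs, ← sq, sq_abs]

/-- the jump -/
lemma GS_jump (u : ℝ) : |u| / 2 ≤ GS (u + 1) - GS u := by
  unfold GS
  rcases le_or_gt 0 u with h | h
  · rw [abs_of_nonneg h, abs_of_nonneg (by linarith : 0 ≤ u + 1)]
    nlinarith
  · rw [abs_of_neg h]
    rcases le_or_gt 0 (u + 1) with h1 | h1
    · rw [abs_of_nonneg h1]
      nlinarith [sq_nonneg (2 * u + 1)]
    · rw [abs_of_neg h1]
      nlinarith

/-- summation formula with a smooth weight -/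
lemma weight_sum {n : ℕ} (hn : 1 ≤ n) {w w' : ℝ → ℝ} (hw : ∀ t, HasDerivAt w (w' t) t)
    (hw' : Continuous w') :
    ∑ k ∈ Finset.range (farey n).card, w (gg n (k + 1)) *
      (GS ((farey n).card * gg n (k + 1) - (k + 1 : ℕ) + 1) - GS ((farey n).card * gg n (k + 1) - (k + 1 : ℕ))) =
    ∫ t in (0 : ℝ)..1, (2 * (farey n).card * (w t * |Ef n t|) - w' t * GS (Ef n t)) := by
  set A := (farey n).card with hA
  have hwc : Continuous w := continuous_iff_continuousAt.mpr fun t => (hw t).continuousAt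
  set u : ℕ → ℝ := fun j => A * gg n j - j with hu
  have hg0 : gg n 0 = 0 := rfl
  have hu0 : u 0 = 0 := by simp [hu, hg0]
  have huA : u A = 0 := by simp [hu, gg_card hn, hA]
  have hGc := GS_continuous
  -- on each gap
  have hcongr : ∀ k < A, ∀ t ∈ Ioo (gg n k) (gg n (k + 1)),
      (2 * A * (w t * |Ef n t|) - w' t * GS (Ef n t)) =
      (2 * A * (w t * |(k : ℝ) - A * t|) - w' t * GS ((k : ℝ) - A * t)) := by
    intro k hk t ht
    have ht0 : 0 ≤ t := gg_nonneg.trans ht.1.le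
    have ht1 : t ≤ 1 := ht.2.le.trans gg_le_one
    rw [← cnt_sub hn ht0 ht1, cnt_on hk ht.1 ht.2]
  have hii : ∀ k < A, IntervalIntegrable (fun t => (2 * A * (w t * |Ef n t|) - w' t * GS (Ef n t)))
      volume (gg n k) (gg n (k + 1)) := by
    intro k hk
    have hlt := gg_lt hk
    have h1 : IntervalIntegrable (fun t => (2 * A * (w t * |(k : ℝ) - A * t|) - w' t * GS ((k : ℝ) - A * t)))
        volume (gg n k) (gg n (k + 1)) := by
      apply Continuous.intervalIntegrable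
      fun_prop
    rw [intervalIntegrable_iff_integrableOn_Ioo_of_le hlt.le] at h1 ⊢
    exact h1.congr_fun (fun t ht => (hcongr k hk t ht).symm) measurableSet_Ioo
  have h2 := intervalIntegral.sum_integral_adjacent_intervals hii
  rw [hg0, gg_card hn] at h2
  rw [← h2]
  have h3 : ∀ k ∈ Finset.range A, ∫ t in (gg n k)..(gg n (k + 1)), (2 * A * (w t * |Ef n t|) - w' t * GS (Ef n t)) =
      w (gg n (k + 1)) * GS (u (k + 1) + 1) - w (gg n k) * GS (u k) := by
    intro k hk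
    rw [Finset.mem_range] at hk
    have hlt := gg_lt hk
    have h4 : ∫ t in (gg n k)..(gg n (k + 1)), (2 * A * (w t * |Ef n t|) - w' t * GS (Ef n t)) =
        ∫ t in (gg n k)..(gg n (k + 1)), (2 * A * (w t * |(k : ℝ) - A * t|) - w' t * GS ((k : ℝ) - A * t)) := by
      rw [intervalIntegral.integral_of_le hlt.le, intervalIntegral.integral_of_le hlt.le,
        integral_Ioc_eq_integral_Ioo, integral_Ioc_eq_integral_Ioo]
      exact setIntegral_congr_fun measurableSet_Ioo fun t ht => hcongr k hk t ht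
    rw [h4]
    have h5 : ∀ t ∈ uIcc (gg n k) (gg n (k + 1)), HasDerivAt (fun t => -(w t * GS ((k : ℝ) - A * t)))
        (2 * A * (w t * |(k : ℝ) - A * t|) - w' t * GS ((k : ℝ) - A * t)) t := by
      intro t _
      have e1 : HasDerivAt (fun t : ℝ => (k : ℝ) - A * t) (-A) t := by
        simpa using ((hasDerivAt_id t).const_mul (A : ℝ)).const_sub (k : ℝ)
      have e2 := (GS_hasDerivAt ((k : ℝ) - A * t)).comp t e1
      have e3 := ((hw t).mul e2).neg
      refine e3.congr_deriv ?_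
      simp only [Function.comp]
      ring
    rw [intervalIntegral.integral_eq_sub_of_hasDerivAt h5 (by
      apply Continuous.intervalIntegrable
      fun_prop)]
    have e1 : (k : ℝ) - A * gg n (k + 1) = -(u (k + 1) + 1) := by simp only [hu]; push_cast; ring
    have e2 : (k : ℝ) - A * gg n k = -(u k) := by simp only [hu]; ring
    rw [e1, e2, GS_neg, GS_neg]
    ring
  rw [Finset.sum_congr rfl h3]
  have h5 : ∑ k ∈ Finset.range A, (w (gg n (k + 1)) * GS (u (k + 1)) - w (gg n k) * GS (u k)) = 0 := by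
    rw [Finset.sum_range_sub (fun k => w (gg n k) * GS (u k)) A, huA, hu0]
    simp [GS]
  have h6 : ∑ k ∈ Finset.range A, (w (gg n (k + 1)) * GS (u (k + 1) + 1) - w (gg n k) * GS (u k)) =
      ∑ k ∈ Finset.range A, w (gg n (k + 1)) * (GS (u (k + 1) + 1) - GS (u (k + 1))) +
      ∑ k ∈ Finset.range A, (w (gg n (k + 1)) * GS (u (k + 1)) - w (gg n k) * GS (u k)) := by
    rw [← Finset.sum_add_distrib]
    exact Finset.sum_congr rfl fun k _ => by ring
  rw [h6, h5, add_zero]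

/-- discrete sum versus integrals -/
lemma disp_weight_le {n : ℕ} (hn : 1 ≤ n) {w w' : ℝ → ℝ} (hw : ∀ t, HasDerivAt w (w' t) t)
    (hw' : Continuous w') (hw0 : ∀ t, 0 ≤ w t) :
    ((farey n).card : ℝ) * ∑ j : Fin (farey n).card, w (fareyNth n j) * disp n j ≤
      2 * ∫ t in (0 : ℝ)..1, (2 * (farey n).card * (w t * |Ef n t|) - w' t * GS (Ef n t)) := by
  rw [← weight_sum hn hw hw', Finset.sum_range, Finset.mul_sum, Finset.mul_sum]
  refine Finset.sum_le_sum fun j _ => ?_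
  have hA0 : (0 : ℝ) < (farey n).card := by exact_mod_cast t1_card_pos hn
  have hj : (j : ℕ) < (farey n).card := j.2
  have e := gg_succ hj
  have e' : fareyNth n ⟨(j : ℕ), hj⟩ = fareyNth n j := rfl
  rw [e'] at e
  rw [e]
  have h1 := GS_jump (((farey n).card : ℝ) * fareyNth n j - ((j : ℕ) + 1 : ℕ))
  have h2 : ((farey n).card : ℝ) * disp n j = |((farey n).card : ℝ) * fareyNth n j - ((j : ℕ) + 1 : ℕ)| := by
    unfold disp
    rw [← abs_of_pos hA0, ← abs_mul, abs_of_pos hA0]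
    congr 1
    push_cast
    field_simp
  calc ((farey n).card : ℝ) * (w (fareyNth n j) * disp n j) =
        w (fareyNth n j) * (((farey n).card : ℝ) * disp n j) := by ring
    _ ≤ w (fareyNth n j) * (2 * (GS (((farey n).card : ℝ) * fareyNth n j - ((j : ℕ) + 1 : ℕ) + 1) -
          GS (((farey n).card : ℝ) * fareyNth n j - ((j : ℕ) + 1 : ℕ)))) := by
        apply mul_le_mul_of_nonneg_left _ (hw0 _)
        rw [h2]
        linarith
    _ = _ := by ring

lemma quad_ii (n : ℕ) (c : ℕ → ℝ) (x y : ℝ) :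
    IntervalIntegrable (fun t => (∑ d ∈ Finset.Icc 1 n, c d * sw ((d : ℝ) * t)) ^ 2) volume x y := by
  set S : ℝ := ∑ d ∈ Finset.Icc 1 n, |c d| with hS
  have hS0 : 0 ≤ S := Finset.sum_nonneg fun _ _ => abs_nonneg _
  have hb : ∀ t, |∑ d ∈ Finset.Icc 1 n, c d * sw ((d : ℝ) * t)| ≤ S := by
    intro t
    refine (Finset.abs_sum_le_sum_abs _ _).trans (Finset.sum_le_sum fun d _ => ?_)
    rw [abs_mul]
    exact mul_le_of_le_one_right (abs_nonneg _) ((H332.FL.abs_sw_le _).trans (by norm_num))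
  refine (intervalIntegrable_const (c := S ^ 2)).mono_fun ?_ ?_
  · refine Measurable.aestronglyMeasurable (Measurable.pow_const ?_ 2)
    refine Finset.measurable_sum _ fun d _ => Measurable.const_mul ?_ _
    exact H332.FL.measurable_sw_comp (by fun_prop)
  · refine Filter.Eventually.of_forall fun t => ?_
    show ‖(∑ d ∈ Finset.Icc 1 n, c d * sw ((d : ℝ) * t)) ^ 2‖ ≤ ‖S ^ 2‖
    rw [Real.norm_of_nonneg (sq_nonneg _), Real.norm_of_nonneg (sq_nonneg _),
      ← sq_abs (∑ d ∈ Finset.Icc 1 n, c d * sw ((d : ℝ) * t))]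
    exact pow_le_pow_left₀ (abs_nonneg _) (hb t) 2

/-- small frequencies, pointwise -/
lemma E1_bound {σ C : ℝ} (hσ1 : σ ≤ 1) (hC : 0 < C)
    (h : ∀ y : ℝ, 1 ≤ y → |Mx y| ≤ C * y ^ σ) {n : ℕ} (hn : 1 ≤ n) {X : ℝ} (hX : 1 ≤ X) (t : ℝ) :
    |∑ d ∈ Finset.Icc 1 n, (if (d : ℝ) < X then Mx ((n : ℝ) / d) else 0) * sw ((d : ℝ) * t)| ≤
      C / 2 * (n : ℝ) ^ σ * X ^ (1 - σ) * (1 + Real.log n) := by
  have hn0 : (0 : ℝ) < n := by exact_mod_cast hn
  have hX0 : 0 < X := by linarith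
  refine (Finset.abs_sum_le_sum_abs _ _).trans ?_
  have h1 : ∀ d ∈ Finset.Icc 1 n, |(if (d : ℝ) < X then Mx ((n : ℝ) / d) else 0) * sw ((d : ℝ) * t)| ≤
      C / 2 * (n : ℝ) ^ σ * X ^ (1 - σ) * (1 / (d : ℝ)) := by
    intro d hd
    rw [Finset.mem_Icc] at hd
    have hd0 : (0 : ℝ) < d := by exact_mod_cast hd.1
    rw [abs_mul]
    split_ifs with hdX
    · have h1 := h ((n : ℝ) / d) (by rw [one_le_div hd0]; exact_mod_cast hd.2)
      rw [Real.div_rpow hn0.le hd0.le] at h1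
      have h2 : 1 / (d : ℝ) ^ σ ≤ X ^ (1 - σ) * (1 / d) := by
        have h3 : (d : ℝ) ^ (1 - σ) ≤ X ^ (1 - σ) :=
          Real.rpow_le_rpow hd0.le hdX.le (by linarith)
        have h4 : 1 / (d : ℝ) ^ σ = (d : ℝ) ^ (1 - σ) * (1 / d) := by
          rw [Real.rpow_sub hd0, Real.rpow_one]
          field_simp
        rw [h4]
        gcongr
      calc |Mx ((n : ℝ) / d)| * |sw ((d : ℝ) * t)| ≤ (C * ((n : ℝ) ^ σ / (d : ℝ) ^ σ)) * (1 / 2) :=
            mul_le_mul h1 (H332.FL.abs_sw_le _) (abs_nonneg _) (by positivity)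
        _ = C / 2 * (n : ℝ) ^ σ * (1 / (d : ℝ) ^ σ) := by ring
        _ ≤ C / 2 * (n : ℝ) ^ σ * (X ^ (1 - σ) * (1 / d)) := by gcongr
        _ = _ := by ring
    · rw [abs_zero, zero_mul]
      positivity
  refine (Finset.sum_le_sum h1).trans ?_
  rw [← Finset.mul_sum]
  gcongr
  exact harmonic_Icc_le hn

/-- large frequencies, in mean square -/
lemma E2_bound {σ s C : ℝ} (hs : 1 / 2 < s) (hsσ : s ≤ σ) (hC : 0 < C)
    (h : ∀ y : ℝ, 1 ≤ y → |Mx y| ≤ C * y ^ σ) :
    ∃ K0 > 0, ∀ n : ℕ, 1 ≤ n → ∀ X : ℝ, 1 ≤ X →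
      ∫ t in (0 : ℝ)..1, (∑ d ∈ Finset.Icc 1 n, (if (d : ℝ) < X then 0 else Mx ((n : ℝ) / d)) *
        sw ((d : ℝ) * t)) ^ 2 ≤ K0 * ((n : ℝ) ^ (2 * σ) * X ^ (2 * s - 2 * σ)) := by
  obtain ⟨K0, hK0, hq⟩ := H332.FL.quad_bound s hs
  refine ⟨K0 * C ^ 2, by positivity, fun n hn X hX => ?_⟩
  have hn0 : (0 : ℝ) < n := by exact_mod_cast hn
  have hX0 : 0 < X := by linarith
  have hb := hq n (fun d => if (d : ℝ) < X then 0 else Mx ((n : ℝ) / d))
    (C * (n : ℝ) ^ σ * X ^ (s - σ)) (by positivity) (by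
    intro d hd
    rw [Finset.mem_Icc] at hd
    have hd0 : (0 : ℝ) < d := by exact_mod_cast hd.1
    split_ifs with hdX
    · rw [abs_zero]; positivity
    · rw [not_lt] at hdX
      have h1 := h ((n : ℝ) / d) (by rw [one_le_div hd0]; exact_mod_cast hd.2)
      rw [Real.div_rpow hn0.le hd0.le] at h1
      have h2 : 1 / (d : ℝ) ^ σ ≤ X ^ (s - σ) * (d : ℝ) ^ (-s) := by
        have h3 : (d : ℝ) ^ (s - σ) ≤ X ^ (s - σ) :=
          Real.rpow_le_rpow_of_nonpos hX0 hdX (by linarith)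
        have h4 : 1 / (d : ℝ) ^ σ = (d : ℝ) ^ (s - σ) * (d : ℝ) ^ (-s) := by
          rw [← Real.rpow_add hd0, one_div, ← Real.rpow_neg hd0.le]
          congr 1; ring
        rw [h4]
        gcongr
      calc |Mx ((n : ℝ) / d)| ≤ C * ((n : ℝ) ^ σ / (d : ℝ) ^ σ) := h1
        _ = C * (n : ℝ) ^ σ * (1 / (d : ℝ) ^ σ) := by ring
        _ ≤ C * (n : ℝ) ^ σ * (X ^ (s - σ) * (d : ℝ) ^ (-s)) := by gcongr
        _ = _ := by ring)
  refine hb.trans (le_of_eq ?_)
  have e1 : (n : ℝ) ^ (2 * σ) = ((n : ℝ) ^ σ) ^ 2 := by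
    rw [mul_comm, Real.rpow_mul hn0.le, Real.rpow_two]
  have e2 : X ^ (2 * s - 2 * σ) = (X ^ (s - σ)) ^ 2 := by
    rw [← mul_sub, mul_comm, Real.rpow_mul hX0.le, Real.rpow_two]
  rw [e1, e2]; ring

lemma log_pow_le {ε : ℝ} (hε : 0 < ε) {n : ℕ} (hn : 1 ≤ n) :
    (1 + Real.log n) ^ 2 ≤ (1 + 2 / ε) ^ 2 * (n : ℝ) ^ ε := by
  have hn0 : (0 : ℝ) < n := by exact_mod_cast hn
  have hn1 : (1 : ℝ) ≤ n := by exact_mod_cast hn
  have hlog : 0 ≤ Real.log n := Real.log_nonneg hn1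
  have h1 := Real.log_le_rpow_div hn0.le (show 0 < ε / 2 by positivity)
  have h2 : 1 ≤ (n : ℝ) ^ (ε / 2) := Real.one_le_rpow hn1 (by positivity)
  have h3 : 1 + Real.log n ≤ (1 + 2 / ε) * (n : ℝ) ^ (ε / 2) := by
    have e : (n : ℝ) ^ (ε / 2) / (ε / 2) = 2 / ε * (n : ℝ) ^ (ε / 2) := by field_simp
    rw [e] at h1
    linarith
  have e2 : (n : ℝ) ^ ε = ((n : ℝ) ^ (ε / 2)) ^ 2 := by
    rw [← Real.rpow_natCast, ← Real.rpow_mul hn0.le]
    congr 1
    push_cast; ring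
  rw [e2, ← mul_pow]
  exact pow_le_pow_left₀ (by linarith) h3 2

/-- windowed second moment of the error function -/
lemma window_sq {σ ε C : ℝ} (hσ : 1/2 < σ) (hσ1 : σ ≤ 1) (hε : 0 < ε) (hC : 0 < C)
    (h : ∀ y : ℝ, 1 ≤ y → |Mx y| ≤ C * y ^ σ) :
    ∃ K > 0, ∀ n : ℕ, 1 ≤ n → ∀ L : ℝ, 1 / (n : ℝ) ≤ L → L ≤ 1 →
      ∀ v : ℝ → ℝ, Measurable v → (∀ t, 0 ≤ v t) → (∀ t, v t ≤ 1) →
        ∫ t in (0 : ℝ)..1, v t ≤ 3 * L →
        IntervalIntegrable (fun t => v t * Ef n t ^ 2) volume 0 1 ∧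
        ∫ t in (0 : ℝ)..1, v t * Ef n t ^ 2 ≤ K * (n : ℝ) ^ ε * ((n : ℝ) ^ (2 * σ) * L ^ (2 * σ - 1)) := by
  set s : ℝ := min (1 / 2 + ε / 4) σ with hs
  have hs1 : 1 / 2 < s := lt_min (by linarith) hσ
  have hs2 : s ≤ σ := min_le_right _ _
  have hs3 : s ≤ 1 / 2 + ε / 4 := min_le_left _ _
  obtain ⟨K0, hK0, hE2⟩ := E2_bound hs1 hs2 hC h
  refine ⟨6 * ((C / 2 + 1 / 2) ^ 2 * (1 + 2 / ε) ^ 2) + 2 * K0, by positivity,
    fun n hn L hnL hL v hvm hv0 hv1 hvI => ?_⟩
  have hn0 : (0 : ℝ) < n := by exact_mod_cast hn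
  have hn1 : (1 : ℝ) ≤ n := by exact_mod_cast hn
  have hL0 : 0 < L := lt_of_lt_of_le (by positivity) hnL
  have hlog : 0 ≤ Real.log n := Real.log_nonneg hn1
  set X : ℝ := 1 / L with hX
  have hX1 : 1 ≤ X := by rw [hX, one_le_div hL0]; exact hL
  have hX0 : 0 < X := by linarith
  have hXn : X ≤ n := by
    rw [hX, div_le_iff₀ hL0]
    rw [div_le_iff₀ hn0] at hnL
    linarith
  have hvii : IntervalIntegrable v volume 0 1 := by
    refine (intervalIntegrable_const (c := (1 : ℝ))).mono_fun hvm.aestronglyMeasurable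
      (Eventually.of_forall fun t => ?_)
    show ‖v t‖ ≤ ‖(1 : ℝ)‖
    rw [Real.norm_of_nonneg (hv0 t), norm_one]
    exact hv1 t
  have hvEii : IntervalIntegrable (fun t => v t * Ef n t ^ 2) volume 0 1 := by
    refine (Ef_sq_ii n 0 1).mono_fun (hvm.mul ((Ef_measurable n).pow_const 2)).aestronglyMeasurable
      (Eventually.of_forall fun t => ?_)
    show ‖v t * Ef n t ^ 2‖ ≤ ‖Ef n t ^ 2‖
    rw [norm_mul, Real.norm_of_nonneg (hv0 t)]
    exact mul_le_of_le_one_left (norm_nonneg _) (hv1 t)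
  refine ⟨hvEii, ?_⟩
  set S1 : ℝ := (C / 2 + 1 / 2) * ((n : ℝ) ^ σ * X ^ (1 - σ)) * (1 + Real.log n) with hS1
  set f2 : ℝ → ℝ := fun t => ∑ d ∈ Finset.Icc 1 n, (if (d : ℝ) < X then 0 else Mx ((n : ℝ) / d)) *
        sw ((d : ℝ) * t) with hf2
  have hP1 : 1 ≤ (n : ℝ) ^ σ * X ^ (1 - σ) := by
    have a1 : 1 ≤ (n : ℝ) ^ σ := Real.one_le_rpow hn1 (by linarith)
    have a2 : 1 ≤ X ^ (1 - σ) := Real.one_le_rpow hX1 (by linarith)
    nlinarith
  have hpt : ∀ t, Ef n t ^ 2 ≤ 2 * S1 ^ 2 + 2 * f2 t ^ 2 := by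
    intro t
    have h1 := E1_bound hσ1 hC h hn hX1 t
    set f1 : ℝ := ∑ d ∈ Finset.Icc 1 n, (if (d : ℝ) < X then Mx ((n : ℝ) / d) else 0) * sw ((d : ℝ) * t)
      with hf1
    have h2 : Ef n t = (-f1 - 1 / 2) + (-(f2 t)) := by
      unfold Ef
      rw [hf1, hf2]
      have : ∑ d ∈ Finset.Icc 1 n, Mx ((n : ℝ) / d) * sw ((d : ℝ) * t) =
          ∑ d ∈ Finset.Icc 1 n, (if (d : ℝ) < X then Mx ((n : ℝ) / d) else 0) * sw ((d : ℝ) * t) +
          ∑ d ∈ Finset.Icc 1 n, (if (d : ℝ) < X then 0 else Mx ((n : ℝ) / d)) * sw ((d : ℝ) * t) := by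
        rw [← Finset.sum_add_distrib]
        refine Finset.sum_congr rfl fun d _ => ?_
        split_ifs <;> ring
      rw [this]; ring
    have h3 : |-f1 - 1 / 2| ≤ S1 := by
      have h4 := abs_sub (-f1) (1 / 2)
      rw [abs_neg] at h4
      have h5 : |(1 : ℝ) / 2| = 1 / 2 := by norm_num
      rw [h5] at h4
      have h6 : (1 : ℝ) / 2 ≤ 1 / 2 * ((n : ℝ) ^ σ * X ^ (1 - σ)) * (1 + Real.log n) := by
        nlinarith
      calc |-f1 - 1 / 2| ≤ |f1| + 1 / 2 := h4
        _ ≤ C / 2 * (n : ℝ) ^ σ * X ^ (1 - σ) * (1 + Real.log n) +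
            1 / 2 * ((n : ℝ) ^ σ * X ^ (1 - σ)) * (1 + Real.log n) := add_le_add h1 h6
        _ = S1 := by rw [hS1]; ring
    have h4 : (-f1 - 1 / 2) ^ 2 ≤ S1 ^ 2 := by
      rw [← sq_abs (-f1 - 1 / 2)]
      exact pow_le_pow_left₀ (abs_nonneg _) h3 2
    rw [h2]
    nlinarith [sq_nonneg ((-f1 - 1 / 2) - (-(f2 t)))]
  have h1 : ∫ t in (0 : ℝ)..1, v t * Ef n t ^ 2 ≤ ∫ t in (0 : ℝ)..1, ((2 * S1 ^ 2) * v t + 2 * f2 t ^ 2) := by
    apply intervalIntegral.integral_mono_on zero_le_one hvEii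
    · exact (hvii.const_mul _).add ((quad_ii n _ 0 1).const_mul 2)
    · intro t _
      have h2 := mul_le_mul_of_nonneg_left (hpt t) (hv0 t)
      have h3 : v t * (2 * f2 t ^ 2) ≤ 2 * f2 t ^ 2 := mul_le_of_le_one_left (by positivity) (hv1 t)
      nlinarith
  rw [intervalIntegral.integral_add (hvii.const_mul _) ((quad_ii n _ 0 1).const_mul 2),
    intervalIntegral.integral_const_mul, intervalIntegral.integral_const_mul] at h1
  have h2 := hE2 n hn X hX1
  set P : ℝ := (n : ℝ) ^ (2 * σ) * L ^ (2 * σ - 1) with hP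
  have hP0 : 0 < P := by positivity
  -- first part
  have h3 : S1 ^ 2 * L ≤ (C / 2 + 1 / 2) ^ 2 * (1 + 2 / ε) ^ 2 * (n : ℝ) ^ ε * P := by
    have e1 : ((n : ℝ) ^ σ * X ^ (1 - σ)) ^ 2 * L = P := by
      rw [hX, hP, mul_pow, one_div, Real.inv_rpow hL0.le, ← Real.rpow_neg hL0.le]
      have a1 : ((n : ℝ) ^ σ) ^ 2 = (n : ℝ) ^ (2 * σ) := by
        rw [mul_comm 2 σ, Real.rpow_mul hn0.le, Real.rpow_two]
      have a2 : (L ^ (-(1 - σ))) ^ 2 = L ^ (2 * σ - 2) := by
        rw [← Real.rpow_natCast, ← Real.rpow_mul hL0.le]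
        congr 1
        push_cast; ring
      rw [a1, a2, mul_assoc]
      congr 1
      rw [show 2 * σ - 1 = (2 * σ - 2) + 1 by ring, Real.rpow_add_one hL0.ne']
    have h4 := log_pow_le hε hn
    calc S1 ^ 2 * L = (C / 2 + 1 / 2) ^ 2 * (1 + Real.log n) ^ 2 * (((n : ℝ) ^ σ * X ^ (1 - σ)) ^ 2 * L) := by
          rw [hS1]; ring
      _ = (C / 2 + 1 / 2) ^ 2 * (1 + Real.log n) ^ 2 * P := by rw [e1]
      _ ≤ (C / 2 + 1 / 2) ^ 2 * ((1 + 2 / ε) ^ 2 * (n : ℝ) ^ ε) * P := by gcongr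
      _ = _ := by ring
  -- second part
  have h4 : (n : ℝ) ^ (2 * σ) * X ^ (2 * s - 2 * σ) ≤ (n : ℝ) ^ ε * P := by
    have e1 : X ^ (2 * s - 2 * σ) = L ^ (2 * σ - 1) * X ^ (2 * s - 1) := by
      rw [hX, one_div, Real.inv_rpow hL0.le, Real.inv_rpow hL0.le, ← Real.rpow_neg hL0.le,
        ← Real.rpow_neg hL0.le, ← Real.rpow_add hL0]
      congr 1; ring
    have e2 : X ^ (2 * s - 1) ≤ (n : ℝ) ^ ε := by
      calc X ^ (2 * s - 1) ≤ (n : ℝ) ^ (2 * s - 1) := Real.rpow_le_rpow hX0.le hXn (by linarith)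
        _ ≤ (n : ℝ) ^ ε := Real.rpow_le_rpow_of_exponent_le hn1 (by linarith)
    calc (n : ℝ) ^ (2 * σ) * X ^ (2 * s - 2 * σ) = P * X ^ (2 * s - 1) := by rw [e1, hP]; ring
      _ ≤ P * (n : ℝ) ^ ε := by gcongr
      _ = _ := by ring
  have h5 : 2 * S1 ^ 2 * ∫ t in (0 : ℝ)..1, v t ≤ 2 * S1 ^ 2 * (3 * L) :=
    mul_le_mul_of_nonneg_left hvI (by positivity)
  calc ∫ t in (0 : ℝ)..1, v t * Ef n t ^ 2 ≤ 2 * S1 ^ 2 * (∫ t in (0 : ℝ)..1, v t) +
        2 * ∫ t in (0 : ℝ)..1, f2 t ^ 2 := h1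
    _ ≤ 2 * S1 ^ 2 * (3 * L) + 2 * (K0 * ((n : ℝ) ^ (2 * σ) * X ^ (2 * s - 2 * σ))) := by
        gcongr
    _ = 6 * (S1 ^ 2 * L) + 2 * K0 * ((n : ℝ) ^ (2 * σ) * X ^ (2 * s - 2 * σ)) := by ring
    _ ≤ 6 * ((C / 2 + 1 / 2) ^ 2 * (1 + 2 / ε) ^ 2 * (n : ℝ) ^ ε * P) + 2 * K0 * ((n : ℝ) ^ ε * P) := by
        gcongr
    _ = _ := by ring

lemma indicator_window (a b : ℝ) (hab : a ≤ b) :
    ∫ t in (0 : ℝ)..1, (Icc a b).indicator (fun _ => (1 : ℝ)) t ≤ b - a := by
  rw [intervalIntegral.integral_of_le zero_le_one, integral_indicator measurableSet_Icc,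
    Measure.restrict_restrict measurableSet_Icc, setIntegral_const, smul_eq_mul, mul_one]
  have h1 : volume.real (Icc a b ∩ Ioc 0 1) ≤ volume.real (Icc a b) :=
    measureReal_mono inter_subset_left (by rw [Real.volume_Icc]; exact ENNReal.ofReal_ne_top)
  refine h1.trans (le_of_eq ?_)
  rw [Real.volume_real_Icc_of_le hab]

/-- (T1loc, sharp form) `∑_{x < f_j < x+L} |f_j - j/A| ≤ K n^ε (nL)^σ` for `1/n ≤ L ≤ 1`. -/
theorem T1loc_sharp {σ ε C : ℝ} (hσ : 1/2 < σ) (hσ1 : σ ≤ 1) (hε : 0 < ε) (hC : 0 < C)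
    (h : ∀ y : ℝ, 1 ≤ y → |Mx y| ≤ C * y ^ σ) :
    ∃ K > 0, ∀ n : ℕ, 1 ≤ n → ∀ x L : ℝ, 1 / (n : ℝ) ≤ L → L ≤ 1 →
      localSum x (x + L) n ≤ K * (n : ℝ) ^ ε * ((n : ℝ) * L) ^ σ := by
  obtain ⟨K, hK0, hK⟩ := window_sq hσ hσ1 hε hC h
  -- the bump
  let ψ : ContDiffBump (1 / 2 : ℝ) := ⟨1 / 2, 3 / 2, by norm_num, by norm_num⟩
  have hψc : ContDiff ℝ 2 ψ := ψ.contDiff
  have hψd : Continuous (deriv ψ) := hψc.continuous_deriv (by norm_num)
  have hψs : HasCompactSupport (deriv ψ) := ψ.hasCompactSupport.deriv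
  obtain ⟨M, hM⟩ := hψd.bounded_above_of_compact_support hψs
  have hM0 : 0 ≤ M := (norm_nonneg _).trans (hM 0)
  refine ⟨4 * (3 / 2 + K / 2) + 24 * M * K, by positivity, fun n hn x L hnL hL => ?_⟩
  have hn0 : (0 : ℝ) < n := by exact_mod_cast hn
  have hn1 : (1 : ℝ) ≤ n := by exact_mod_cast hn
  have hL0 : 0 < L := lt_of_lt_of_le (by positivity) hnL
  have hnL1 : 1 ≤ (n : ℝ) * L := by
    rw [div_le_iff₀ hn0] at hnL; linarith
  set A : ℝ := ((farey n).card : ℝ) with hA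
  have hA0 : 0 < A := by rw [hA]; exact_mod_cast t1_card_pos hn
  have hAlow := farey_card_lower n
  set w : ℝ → ℝ := fun t => ψ ((t - x) / L) with hw
  set w' : ℝ → ℝ := fun t => deriv ψ ((t - x) / L) / L with hw'
  have hwd : ∀ t, HasDerivAt w (w' t) t := by
    intro t
    have e1 : HasDerivAt (fun t : ℝ => (t - x) / L) (1 / L) t :=
      ((hasDerivAt_id t).sub_const x).div_const L
    have e2 : HasDerivAt ψ (deriv ψ ((t - x) / L)) ((t - x) / L) :=
      (hψc.differentiable (by norm_num)).differentiableAt.hasDerivAt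
    have e3 := e2.comp t e1
    refine e3.congr_deriv ?_
    simp only [hw']
    ring
  have hw'c : Continuous w' := by
    simp only [hw']
    exact (hψd.comp (by fun_prop)).div_const _
  have hw0 : ∀ t, 0 ≤ w t := fun t => ψ.nonneg
  have hmain := disp_weight_le hn hwd hw'c hw0
  -- the window function
  set v : ℝ → ℝ := (Icc (x - L) (x + 2 * L)).indicator (fun _ => (1 : ℝ)) with hv
  have hvm : Measurable v := measurable_const.indicator measurableSet_Icc
  have hv0 : ∀ t, 0 ≤ v t := fun t => indicator_nonneg (fun _ _ => zero_le_one) t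
  have hv1 : ∀ t, v t ≤ 1 := fun t => by
    rw [hv]
    exact indicator_le_self' (fun _ _ => zero_le_one) t
  have hvI : ∫ t in (0 : ℝ)..1, v t ≤ 3 * L := by
    have := indicator_window (x - L) (x + 2 * L) (by linarith)
    calc _ ≤ _ := this
      _ = _ := by ring
  have hwin : ∀ t, t ∉ Icc (x - L) (x + 2 * L) → (t - x) / L ∉ Metric.closedBall (1 / 2 : ℝ) (3 / 2) := by
    intro t ht hb
    apply ht
    rw [Metric.mem_closedBall, Real.dist_eq, abs_le] at hb
    have e1 : (t - x) / L * L = t - x := div_mul_cancel₀ _ hL0.ne'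
    constructor
    · nlinarith [hb.1]
    · nlinarith [hb.2]
  have hwv : ∀ t, w t ≤ v t := by
    intro t
    by_cases ht : t ∈ Icc (x - L) (x + 2 * L)
    · rw [hv, indicator_of_mem ht]; exact ψ.le_one
    · rw [hv, indicator_of_notMem ht]
      have h1 : (t - x) / L ∉ Function.support ψ := by
        rw [ψ.support_eq]
        intro h2
        exact hwin t ht (Metric.ball_subset_closedBall h2)
      rw [Function.notMem_support] at h1
      exact h1.le
  have hw'v : ∀ t, |w' t| ≤ M / L * v t := by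
    intro t
    by_cases ht : t ∈ Icc (x - L) (x + 2 * L)
    · rw [hv, indicator_of_mem ht, mul_one]
      simp only [hw']
      rw [abs_div, abs_of_pos hL0]
      have := hM ((t - x) / L)
      rw [Real.norm_eq_abs] at this
      gcongr
    · rw [hv, indicator_of_notMem ht, mul_zero]
      have h1 : (t - x) / L ∉ tsupport ψ := by
        rw [ψ.tsupport_eq]
        exact hwin t ht
      have h2 : deriv ψ ((t - x) / L) = 0 := by
        by_contra hne
        exact h1 (support_deriv_subset (Function.mem_support.mpr hne))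
      simp only [hw']
      rw [h2]; simp
  obtain ⟨hii, hsq⟩ := hK n hn L hnL hL v hvm hv0 hv1 hvI
  set I2 : ℝ := ∫ t in (0 : ℝ)..1, v t * Ef n t ^ 2 with hI2
  have hvii : IntervalIntegrable v volume 0 1 := by
    refine (intervalIntegrable_const (c := (1 : ℝ))).mono_fun hvm.aestronglyMeasurable
      (Eventually.of_forall fun t => ?_)
    show ‖v t‖ ≤ ‖(1 : ℝ)‖
    rw [Real.norm_of_nonneg (hv0 t), norm_one]
    exact hv1 t
  -- main estimate of the integral
  set lam : ℝ := (n : ℝ) ^ σ * L ^ (σ - 1) with hlam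
  have hlam0 : 0 < lam := by positivity
  have hJii : IntervalIntegrable (fun t => 2 * A * (w t * |Ef n t|) - w' t * GS (Ef n t)) volume 0 1 := by
    set B : ℝ := n * (1 + Real.log n) with hB
    have hlog : 0 ≤ Real.log n := Real.log_nonneg hn1
    have hB0 : 0 ≤ B := by positivity
    refine (intervalIntegrable_const (c := 2 * A * B + M / L * B ^ 2)).mono_fun ?_
      (Eventually.of_forall fun t => ?_)
    · have hwm : Measurable w :=
        (continuous_iff_continuousAt.mpr fun t => (hwd t).continuousAt).measurable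
      have hEm := Ef_measurable n
      exact (((hwm.mul (continuous_abs.measurable.comp hEm)).const_mul _).sub
        (hw'c.measurable.mul (GS_continuous.measurable.comp hEm))).aestronglyMeasurable
    · show ‖2 * A * (w t * |Ef n t|) - w' t * GS (Ef n t)‖ ≤ ‖2 * A * B + M / L * B ^ 2‖
      rw [Real.norm_eq_abs, Real.norm_of_nonneg (by positivity)]
      have hE := abs_Ef_le hn t
      refine (abs_sub _ _).trans (add_le_add ?_ ?_)
      · rw [abs_mul, abs_of_pos (by positivity : 0 < 2 * A), abs_mul, abs_abs, abs_of_nonneg (hw0 t)]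
        apply mul_le_mul_of_nonneg_left _ (by positivity)
        calc w t * |Ef n t| ≤ 1 * B := mul_le_mul ((hwv t).trans (hv1 t)) hE (abs_nonneg _) zero_le_one
          _ = B := one_mul _
      · rw [abs_mul, abs_GS, ← sq_abs (Ef n t)]
        refine mul_le_mul ?_ (pow_le_pow_left₀ (abs_nonneg _) hE 2) (by positivity) (by positivity)
        refine (hw'v t).trans ?_
        calc M / L * v t ≤ M / L * 1 := mul_le_mul_of_nonneg_left (hv1 t) (by positivity)
          _ = M / L := mul_one _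
  have hJ : ∫ t in (0 : ℝ)..1, (2 * A * (w t * |Ef n t|) - w' t * GS (Ef n t)) ≤
      A * (lam * (3 * L) + (1 / lam) * I2) + M / L * I2 := by
    have h1 : ∫ t in (0 : ℝ)..1, (2 * A * (w t * |Ef n t|) - w' t * GS (Ef n t)) ≤
        ∫ t in (0 : ℝ)..1, ((A * lam) * v t + (A * (1 / lam) + M / L) * (v t * Ef n t ^ 2)) := by
      apply intervalIntegral.integral_mono_on zero_le_one hJii
        ((hvii.const_mul _).add (hii.const_mul _))
      intro t _
      have a1 : 2 * |Ef n t| ≤ lam + 1 / lam * Ef n t ^ 2 := by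
        have a2 : 0 ≤ (lam - |Ef n t|) ^ 2 := sq_nonneg _
        have a3 : lam + 1 / lam * Ef n t ^ 2 - 2 * |Ef n t| = (lam - |Ef n t|) ^ 2 / lam := by
          rw [← sq_abs (Ef n t)]
          field_simp
          ring
        have a4 : 0 ≤ (lam - |Ef n t|) ^ 2 / lam := div_nonneg a2 hlam0.le
        linarith
      have a5 : 2 * A * (w t * |Ef n t|) ≤ A * (v t * (lam + 1 / lam * Ef n t ^ 2)) := by
        calc 2 * A * (w t * |Ef n t|) = A * (w t * (2 * |Ef n t|)) := by ring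
          _ ≤ A * (v t * (lam + 1 / lam * Ef n t ^ 2)) := by
            apply mul_le_mul_of_nonneg_left _ hA0.le
            exact mul_le_mul (hwv t) a1 (by positivity) (hv0 t)
      have a6 : -(w' t * GS (Ef n t)) ≤ M / L * v t * Ef n t ^ 2 := by
        refine (neg_le_abs _).trans ?_
        rw [abs_mul, abs_GS]
        exact mul_le_mul_of_nonneg_right (hw'v t) (sq_nonneg _)
      calc 2 * A * (w t * |Ef n t|) - w' t * GS (Ef n t) ≤
            A * (v t * (lam + 1 / lam * Ef n t ^ 2)) + M / L * v t * Ef n t ^ 2 := by linarith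
        _ = _ := by ring
    rw [intervalIntegral.integral_add (hvii.const_mul _) (hii.const_mul _),
      intervalIntegral.integral_const_mul, intervalIntegral.integral_const_mul] at h1
    have h2 : A * lam * ∫ t in (0 : ℝ)..1, v t ≤ A * lam * (3 * L) :=
      mul_le_mul_of_nonneg_left hvI (by positivity)
    calc _ ≤ _ := h1
      _ ≤ A * lam * (3 * L) + (A * (1 / lam) + M / L) * I2 := by gcongr
      _ = _ := by ring
  -- the local sum
  have hloc : localSum x (x + L) n ≤ ∑ j : Fin (farey n).card, w (fareyNth n j) * disp n j := by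
    unfold localSum
    refine Finset.sum_le_sum fun j _ => ?_
    split_ifs with hj
    · have h1 : w (fareyNth n j) = 1 := by
        apply ψ.one_of_mem_closedBall
        rw [Metric.mem_closedBall, Real.dist_eq, abs_le]
        have e1 : (fareyNth n j - x) / L * L = fareyNth n j - x := div_mul_cancel₀ _ hL0.ne'
        constructor
        · show -(1 / 2 : ℝ) ≤ _
          have : 0 ≤ (fareyNth n j - x) / L := div_nonneg (by linarith [hj.1]) hL0.le
          linarith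
        · show _ ≤ (1 / 2 : ℝ)
          have : (fareyNth n j - x) / L ≤ 1 := by
            rw [div_le_one hL0]; linarith [hj.2]
          linarith
      rw [h1, one_mul]
    · exact mul_nonneg (hw0 _) (disp_nonneg n j)
  set S : ℝ := ∑ j : Fin (farey n).card, w (fareyNth n j) * disp n j with hS
  have h1 : A * S ≤ 2 * (A * (lam * (3 * L) + (1 / lam) * I2) + M / L * I2) := by
    refine hmain.trans ?_
    linarith
  set Q : ℝ := ((n : ℝ) * L) ^ σ with hQ
  have hQ0 : 0 < Q := by positivity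
  have hN0 : 0 < (n : ℝ) ^ ε := by positivity
  have hN1 : 1 ≤ (n : ℝ) ^ ε := Real.one_le_rpow hn1 hε.le
  have hlamL : lam * L = Q := by
    rw [hlam, hQ, Real.mul_rpow hn0.le hL0.le, mul_assoc]
    congr 1
    rw [← Real.rpow_add_one hL0.ne']
    congr 1; ring
  have hlamI : (1 / lam) * I2 ≤ K * (n : ℝ) ^ ε * Q := by
    rw [one_div, inv_mul_le_iff₀ hlam0]
    refine hsq.trans (le_of_eq ?_)
    rw [hlam, hQ, Real.mul_rpow hn0.le hL0.le]
    have e1 : (n : ℝ) ^ (2 * σ) = (n : ℝ) ^ σ * (n : ℝ) ^ σ := by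
      rw [← Real.rpow_add hn0]; congr 1; ring
    have e2 : L ^ (2 * σ - 1) = L ^ (σ - 1) * L ^ σ := by
      rw [← Real.rpow_add hL0]; congr 1; ring
    rw [e1, e2]; ring
  have hI2A : M / L * I2 ≤ A * (12 * M * K * (n : ℝ) ^ ε * Q) := by
    have e1 : (n : ℝ) ^ (2 * σ) * L ^ (2 * σ - 1) ≤ (n : ℝ) ^ 2 * L * Q := by
      have e2 : (n : ℝ) ^ (2 * σ) * L ^ (2 * σ - 1) = (n : ℝ) ^ 2 * L * ((n : ℝ) * L) ^ (2 * σ - 2) := by
        rw [Real.mul_rpow hn0.le hL0.le]
        have e3 : (n : ℝ) ^ (2 * σ) = (n : ℝ) ^ 2 * (n : ℝ) ^ (2 * σ - 2) := by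
          rw [← Real.rpow_two, ← Real.rpow_add hn0]; congr 1; ring
        have e4 : L ^ (2 * σ - 1) = L * L ^ (2 * σ - 2) := by
          rw [mul_comm L (L ^ (2 * σ - 2)), ← Real.rpow_add_one hL0.ne']; congr 1; ring
        rw [e3, e4]; ring
      rw [e2, hQ]
      apply mul_le_mul_of_nonneg_left _ (by positivity)
      exact Real.rpow_le_rpow_of_exponent_le hnL1 (by linarith)
    calc M / L * I2 ≤ M / L * (K * (n : ℝ) ^ ε * ((n : ℝ) ^ (2 * σ) * L ^ (2 * σ - 1))) := by gcongr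
      _ ≤ M / L * (K * (n : ℝ) ^ ε * ((n : ℝ) ^ 2 * L * Q)) := by gcongr
      _ = (n : ℝ) ^ 2 * (M * K * (n : ℝ) ^ ε * Q) := by field_simp
      _ ≤ (12 * A) * (M * K * (n : ℝ) ^ ε * Q) := by
          apply mul_le_mul_of_nonneg_right hAlow
          positivity
      _ = _ := by ring
  have h2 : A * S ≤ A * (6 * Q + 2 * (K * (n : ℝ) ^ ε * Q) + 2 * (12 * M * K * (n : ℝ) ^ ε * Q)) := by
    calc A * S ≤ 2 * (A * (lam * (3 * L) + (1 / lam) * I2) + M / L * I2) := h1
      _ ≤ 2 * (A * (3 * Q + K * (n : ℝ) ^ ε * Q) + A * (12 * M * K * (n : ℝ) ^ ε * Q)) := by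
          have e1 : lam * (3 * L) = 3 * Q := by rw [← hlamL]; ring
          rw [e1]
          gcongr
      _ = _ := by ring
  have h3 : S ≤ 6 * Q + 2 * (K * (n : ℝ) ^ ε * Q) + 2 * (12 * M * K * (n : ℝ) ^ ε * Q) :=
    le_of_mul_le_mul_left h2 hA0
  calc localSum x (x + L) n ≤ S := hloc
    _ ≤ _ := h3
    _ ≤ 6 * ((n : ℝ) ^ ε * Q) + 2 * (K * (n : ℝ) ^ ε * Q) + 2 * (12 * M * K * (n : ℝ) ^ ε * Q) := by
        have : Q ≤ (n : ℝ) ^ ε * Q := le_mul_of_one_le_left hQ0.le hN1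
        linarith
    _ = _ := by ring

end

end Pool.Agent.H295R2
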