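import Pool.Agent.H295R2.Def
import Pool.Agent.H332R2.FL.ZeroExists

set_option autoImplicit false

namespace Pool.Agent.H295R2

/-- a zero-free half plane `Re s > θ` forces `θ ≥ 1/2` -/
theorem T2 {θ : ℝ} (hz : ∀ s : ℂ, θ < s.re → Zs s ≠ 0) : 1/2 ≤ θ := by
  obtain ⟨ρ, h0, h1, h2, _, _⟩ := H332.FL.exists_zero_re_ge_half 0
  by_contra hcon
  push Not at hcon
  refine hz ρ (by linarith) ?_
  have hρ : ρ ≠ 1 := by
    rintro rfl
    simp at h2
  rw [← Zs_eq hρ, h0, mul_zero]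

end Pool.Agent.H295R2
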