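import Pool.Agent.H295R2.T4g

set_option autoImplicit false

open MeasureTheory Filter Topology Set
open scoped ContDiff

namespace Pool.Agent.H295R2

noncomputable section

/-- (T4)  Localised Omega result. -/
theorem T4 {Θ : ℝ} (h1 : 1/2 ≤ Θ) (h2 : Θ ≤ 1) (hfree : ∀ s : ℂ, Θ < s.re → Zs s ≠ 0)
    (hsup : ∀ κ > 0, ∃ s : ℂ, Θ - κ < s.re ∧ Zs s = 0) {δ : ℝ} (hδ : 0 < δ) (hδ1 : δ < 1) :
    ∃ φ : ℝ → ℝ, ContDiff ℝ ∞ φ ∧ tsupport φ ⊆ Icc 1 2 ∧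
      ∃ Y₀ : ℝ, ∀ Y ≥ Y₀, ∃ X : ℝ, Y ^ (1 - δ) ≤ X ∧ X ≤ Y ∧ Y ^ (Θ - 3 * δ) ≤ |mOm φ X| := by
  obtain ⟨ρ, hρ, hρz⟩ := hsup (δ / 8) (by positivity)
  have hρ14 : 1 / 4 < ρ.re := by linarith
  have hρ1 : ρ.re < 1 := by
    by_contra h
    push Not at h
    exact Zs_ne_zero_of_one_le h hρz
  have hρne : ρ ≠ 1 := by rintro rfl; simp at hρ1
  have hζ : riemannZeta ρ = 0 := by
    have := Zs_eq hρne
    rw [hρz] at this
    exact (mul_eq_zero.1 this).resolve_left (sub_ne_zero.2 hρne)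
  have hρΘ : ρ.re ≤ Θ := by
    by_contra h
    push Not at h
    exact hfree ρ h hρz
  obtain ⟨φ, hφ, hom⟩ := exists_bump hρ14 hρ1
  refine ⟨φ, hφ.1, hφ.2, ?_⟩
  set σ : ℝ := Θ + δ / 4 with hσ
  have hσ0 : 0 < σ := by linarith
  obtain ⟨CM, hCM0, hCM⟩ := mertens_bound (θ := Θ) (σ := σ) (by linarith) hfree (by linarith) (by linarith)
  obtain ⟨C', hC'⟩ := mOm_bound hφ hσ0 hCM
  obtain ⟨Cg, hCg⟩ := gOm_WG hφ
  obtain ⟨K, hK0, hK⟩ := abstract_omega hCg hρ14 hρ1 hζ hom hσ0 hC'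
  -- choose Y large
  have ht1 : ∀ᶠ Y : ℝ in atTop, 4 * K * Y ^ (1 / 4 : ℝ) < Y ^ ρ.re := by
    have h3 : Tendsto (fun Y : ℝ => Y ^ (ρ.re - 1 / 4)) atTop atTop := tendsto_rpow_atTop (by linarith)
    filter_upwards [h3.eventually_gt_atTop (4 * K), eventually_gt_atTop 0] with Y hY hY0
    have h5 : Y ^ ρ.re = Y ^ (ρ.re - 1 / 4) * Y ^ (1 / 4 : ℝ) := by
      rw [← Real.rpow_add hY0]; ring_nf
    rw [h5]
    exact mul_lt_mul_of_pos_right hY (by positivity)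
  have ht2 : ∀ᶠ Y : ℝ in atTop, 4 * K * Y ^ (σ * (1 - δ)) < Y ^ ρ.re := by
    have hneg : 0 < ρ.re - σ * (1 - δ) := by
      rw [hσ]
      nlinarith
    have h3 : Tendsto (fun Y : ℝ => Y ^ (ρ.re - σ * (1 - δ))) atTop atTop := tendsto_rpow_atTop hneg
    filter_upwards [h3.eventually_gt_atTop (4 * K), eventually_gt_atTop 0] with Y hY hY0
    have h5 : Y ^ ρ.re = Y ^ (ρ.re - σ * (1 - δ)) * Y ^ (σ * (1 - δ)) := by
      rw [← Real.rpow_add hY0]; ring_nf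
    rw [h5]
    exact mul_lt_mul_of_pos_right hY (by positivity)
  have ht3 : ∀ᶠ Y : ℝ in atTop, 4 * K * (Y ^ (Θ - 3 * δ) * (δ * Real.log Y)) < Y ^ ρ.re := by
    have h3 : Tendsto (fun Y : ℝ => Y ^ δ) atTop atTop := tendsto_rpow_atTop hδ
    filter_upwards [h3.eventually_gt_atTop (4 * K), eventually_gt_atTop 1] with Y hY hY1
    have hY0 : 0 < Y := by linarith
    have h5 : Y ^ ρ.re = Y ^ (Θ - 3 * δ) * (Y ^ (ρ.re - Θ + 3 * δ)) := by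
      rw [← Real.rpow_add hY0]; ring_nf
    have h6 : Y ^ δ * Y ^ δ ≤ Y ^ (ρ.re - Θ + 3 * δ) := by
      rw [← Real.rpow_add hY0]
      apply Real.rpow_le_rpow_of_exponent_le hY1.le
      linarith
    have h7 : δ * Real.log Y ≤ Y ^ δ := by
      rw [← Real.log_rpow hY0]
      have := Real.log_le_sub_one_of_pos (x := Y ^ δ) (by positivity)
      linarith
    have h8 : 0 < Y ^ δ := by positivity
    have h9 : 4 * K * (δ * Real.log Y) < Y ^ (ρ.re - Θ + 3 * δ) := by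
      calc 4 * K * (δ * Real.log Y) ≤ 4 * K * Y ^ δ := by gcongr
        _ < Y ^ δ * Y ^ δ := mul_lt_mul_of_pos_right hY h8
        _ ≤ _ := h6
    rw [h5]
    calc 4 * K * (Y ^ (Θ - 3 * δ) * (δ * Real.log Y)) = Y ^ (Θ - 3 * δ) * (4 * K * (δ * Real.log Y)) := by ring
      _ < _ := mul_lt_mul_of_pos_left h9 (by positivity)
  obtain ⟨Y₀, hY₀⟩ := eventually_atTop.1 (ht1.and (ht2.and (ht3.and (eventually_ge_atTop 1))))
  refine ⟨Y₀, fun Y hY => ?_⟩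
  obtain ⟨a1, a2, a3, hY1⟩ := hY₀ Y hY
  have hY0 : 0 < Y := by linarith
  by_contra hcon
  push Not at hcon
  have hA : 1 ≤ Y ^ δ := Real.one_le_rpow hY1 hδ.le
  have hYA : Y / Y ^ δ = Y ^ (1 - δ) := by
    rw [Real.rpow_sub hY0, Real.rpow_one]
  have h5 := hK Y (Y ^ δ) (Y ^ (Θ - 3 * δ)) hY1 hA (by positivity) (by
    intro X hX1 hX2
    rw [hYA] at hX1
    have hX0 : 0 < X := lt_of_lt_of_le (by positivity) hX1
    rw [GG_gOm hX0.le]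
    exact (hcon X hX1 hX2).le)
  rw [hYA, Real.log_rpow hY0, ← Real.rpow_mul hY0.le] at h5
  have e1 : (1 - δ) * σ = σ * (1 - δ) := by ring
  rw [e1] at h5
  have hpos : 0 < Y ^ ρ.re := by positivity
  nlinarith

end

end Pool.Agent.H295R2
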