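import Pool.Agent.H295R2.Def
import Pool.Agent.H307R2.LU

set_option autoImplicit false

open MeasureTheory Filter Topology Set

namespace Pool.Agent.H295R2

noncomputable section

/-- `RR ρ y = ∑_{j ≤ y} (y/j)^ρ`. -/
def RR (ρ : ℂ) (y : ℝ) : ℂ := (y : ℂ) ^ ρ * ∑ j ∈ Finset.Icc 1 ⌊y⌋₊, (j : ℂ) ^ (-ρ)

lemma cpow_sub_le {w : ℂ} {a b : ℝ} (ha : 0 < a) (hab : a ≤ b) (hw : w.re ≤ 1) :
    ‖(b : ℂ) ^ w - (a : ℂ) ^ w‖ ≤ ‖w‖ * a ^ (w.re - 1) * (b - a) := by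
  have hd : ∀ x ∈ Icc a b, HasDerivWithinAt (fun x : ℝ => (x : ℂ) ^ w) (w * (x : ℂ) ^ (w - 1)) (Icc a b) x := by
    intro x hx
    have hx0 : 0 < x := lt_of_lt_of_le ha hx.1
    have h1 : HasDerivAt (fun x : ℝ => (x : ℂ) ^ w) (w * (x : ℂ) ^ (w - 1)) x := by
      have h2 : HasDerivAt (fun z : ℂ => z ^ w) (w * (x : ℂ) ^ (w - 1) * 1) (x : ℂ) :=
        (hasDerivAt_id (x : ℂ)).cpow_const (Or.inl (by simpa using hx0))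
      rw [mul_one] at h2
      exact h2.comp_ofReal
    exact h1.hasDerivWithinAt
  have hb : ∀ x ∈ Icc a b, ‖w * (x : ℂ) ^ (w - 1)‖ ≤ ‖w‖ * a ^ (w.re - 1) := by
    intro x hx
    have hx0 : 0 < x := lt_of_lt_of_le ha hx.1
    rw [norm_mul, Complex.norm_cpow_eq_rpow_re_of_pos hx0]
    have : (w - 1).re = w.re - 1 := by simp
    rw [this]
    exact mul_le_mul_of_nonneg_left (Real.rpow_le_rpow_of_nonpos ha hx.1 (by linarith)) (norm_nonneg _)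
  have h := (convex_Icc a b).norm_image_sub_le_of_norm_hasDerivWithin_le hd hb
    (left_mem_Icc.2 hab) (right_mem_Icc.2 hab)
  rw [Real.norm_of_nonneg (by linarith : (0:ℝ) ≤ b - a)] at h
  exact h

/-- If `ζ(ρ) = 0` then `RR ρ y = y/(1-ρ) + O(1)`. -/
theorem RR_bound {ρ : ℂ} (h0 : 0 < ρ.re) (h1 : ρ.re < 1) (hz : riemannZeta ρ = 0) :
    ∃ C : ℝ, 0 < C ∧ ∀ y : ℝ, 1 ≤ y → ‖RR ρ y - y / (1 - ρ)‖ ≤ C := by
  have hρ1 : ρ ≠ 1 := by rintro rfl; simp at h1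
  have hρ1' : (1 : ℂ) - ρ ≠ 0 := sub_ne_zero.2 (Ne.symm hρ1)
  refine ⟨2 + ‖ρ‖ * (2 / ρ.re) + 1, by positivity, fun y hy => ?_⟩
  set N : ℕ := ⌊y⌋₊ with hN
  have hN1 : 1 ≤ N := Nat.le_floor (by exact_mod_cast hy)
  have hNr : (1 : ℝ) ≤ N := by exact_mod_cast hN1
  have hN0 : (0 : ℝ) < N := by linarith
  have hNy : (N : ℝ) ≤ y := Nat.floor_le (by linarith)
  have hyN : y < N + 1 := Nat.lt_floor_add_one y
  have hy0 : 0 < y := by linarith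
  have hy2 : y ≤ 2 * N := by linarith
  have hyc : (y : ℂ) ≠ 0 := by exact_mod_cast hy0.ne'
  have hsum : ∑ n ∈ Finset.Icc 1 N, (n : ℂ) ^ (-ρ) =
      (N : ℂ) ^ (1 - ρ) / (1 - ρ) - ρ * H307R2.TM N H307R2.Ez ρ := by
    have h := H307R2.zeta_eq hN1 h0 hρ1
    rw [hz] at h
    have h2 : (N : ℂ) ^ (1 - ρ) / (ρ - 1) = - ((N : ℂ) ^ (1 - ρ) / (1 - ρ)) := by
      rw [show ρ - 1 = -(1 - ρ) by ring, div_neg]
    rw [h2] at h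
    linear_combination -h
  have hTM := H307R2.TM_norm_le hN1 H307R2.Ez_norm_le h0
  rw [one_mul] at hTM
  have hratio : y ^ ρ.re * (N : ℝ) ^ (-ρ.re) ≤ 2 := by
    rw [Real.rpow_neg hN0.le, ← div_eq_mul_inv, ← Real.div_rpow hy0.le hN0.le]
    calc (y / N) ^ ρ.re ≤ (2:ℝ) ^ ρ.re := by
          apply Real.rpow_le_rpow (by positivity) _ h0.le
          rw [div_le_iff₀ hN0]; exact hy2
      _ ≤ (2:ℝ) ^ (1:ℝ) := Real.rpow_le_rpow_of_exponent_le (by norm_num) h1.le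
      _ = 2 := Real.rpow_one 2
  have e1 : RR ρ y - y / (1 - ρ) =
      (y : ℂ) ^ ρ * (((N : ℝ) : ℂ) ^ (1 - ρ) - (y : ℂ) ^ (1 - ρ)) / (1 - ρ) - (y : ℂ) ^ ρ * (ρ * H307R2.TM N H307R2.Ez ρ) := by
    unfold RR
    rw [← hN, hsum]
    have e2 : (y : ℂ) = (y : ℂ) ^ ρ * (y : ℂ) ^ (1 - ρ) := by
      rw [← Complex.cpow_add _ _ hyc]
      simp
    have e3 : (y : ℂ) / (1 - ρ) = (y : ℂ) ^ ρ * (y : ℂ) ^ (1 - ρ) / (1 - ρ) := by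
      rw [← e2]
    rw [e3, Complex.ofReal_natCast]
    ring
  have hb1 : ‖(y : ℂ) ^ ρ * (((N : ℝ) : ℂ) ^ (1 - ρ) - (y : ℂ) ^ (1 - ρ)) / (1 - ρ)‖ ≤ 2 := by
    have h3 := cpow_sub_le (w := 1 - ρ) hN0 hNy (by simp; linarith)
    have h4 : (1 - ρ).re - 1 = -ρ.re := by simp
    rw [h4] at h3
    rw [norm_div, norm_mul, norm_sub_rev, Complex.norm_cpow_eq_rpow_re_of_pos hy0]
    rw [div_le_iff₀ (norm_pos_iff.2 hρ1')]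
    calc y ^ ρ.re * ‖(y : ℂ) ^ (1 - ρ) - ((N : ℝ) : ℂ) ^ (1 - ρ)‖
        ≤ y ^ ρ.re * (‖1 - ρ‖ * (N : ℝ) ^ (-ρ.re) * (y - N)) := by gcongr
      _ ≤ y ^ ρ.re * (‖1 - ρ‖ * (N : ℝ) ^ (-ρ.re) * 1) := by
          gcongr
          linarith
      _ = (y ^ ρ.re * (N : ℝ) ^ (-ρ.re)) * ‖1 - ρ‖ := by ring
      _ ≤ 2 * ‖1 - ρ‖ := by gcongr
  have hb2 : ‖(y : ℂ) ^ ρ * (ρ * H307R2.TM N H307R2.Ez ρ)‖ ≤ ‖ρ‖ * (2 / ρ.re) := by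
    rw [norm_mul, norm_mul, Complex.norm_cpow_eq_rpow_re_of_pos hy0]
    calc y ^ ρ.re * (‖ρ‖ * ‖H307R2.TM N H307R2.Ez ρ‖)
        ≤ y ^ ρ.re * (‖ρ‖ * ((N : ℝ) ^ (-ρ.re) / ρ.re)) := by gcongr
      _ = ‖ρ‖ * ((y ^ ρ.re * (N : ℝ) ^ (-ρ.re)) / ρ.re) := by ring
      _ ≤ ‖ρ‖ * (2 / ρ.re) := by gcongr
  rw [e1]
  refine (norm_sub_le _ _).trans ?_
  linarith

end

end Pool.Agent.H295R2
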