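import Pool.Agent.H295R2.T4a

set_option autoImplicit false

open MeasureTheory Filter Topology Set

namespace Pool.Agent.H295R2

noncomputable section

lemma sum_divisors_swapC (n : ℕ) (g : ℕ → ℕ → ℂ) :
    ∑ k ∈ Finset.Icc 1 n, ∑ e ∈ k.divisors, g e (k / e) =
      ∑ e ∈ Finset.Icc 1 n, ∑ d ∈ Finset.Icc 1 (n / e), g e d := by
  rw [Finset.sum_sigma', Finset.sum_sigma']
  refine Finset.sum_nbij' (fun p => ⟨p.2, p.1 / p.2⟩) (fun p => ⟨p.1 * p.2, p.1⟩) ?_ ?_ ?_ ?_ ?_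
  · rintro ⟨k, e⟩ hp
    simp only [Finset.mem_sigma, Finset.mem_Icc, Nat.mem_divisors] at hp ⊢
    obtain ⟨⟨hk1, hk2⟩, ⟨d, rfl⟩, _⟩ := hp
    have he0 : 0 < e := by
      rcases Nat.eq_zero_or_pos e with h0 | h0
      · simp [h0] at hk1
      · exact h0
    have hd0 : 0 < d := by
      rcases Nat.eq_zero_or_pos d with h0 | h0
      · simp [h0] at hk1
      · exact h0
    rw [Nat.mul_div_cancel_left d he0]
    refine ⟨⟨he0, ?_⟩, hd0, ?_⟩
    · exact (Nat.le_mul_of_pos_right e hd0).trans hk2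
    · rw [Nat.le_div_iff_mul_le he0, mul_comm]; exact hk2
  · rintro ⟨e, d⟩ hp
    simp only [Finset.mem_sigma, Finset.mem_Icc, Nat.mem_divisors] at hp ⊢
    obtain ⟨⟨he1, he2⟩, hd1, hd2⟩ := hp
    rw [Nat.le_div_iff_mul_le he1, mul_comm] at hd2
    have hpos : 0 < e * d := Nat.mul_pos he1 hd1
    exact ⟨⟨hpos, hd2⟩, dvd_mul_right e d, hpos.ne'⟩
  · rintro ⟨k, e⟩ hp
    simp only [Finset.mem_sigma, Finset.mem_Icc, Nat.mem_divisors] at hp ⊢
    obtain ⟨_, hd, _⟩ := hp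
    rw [Nat.mul_div_cancel' hd]
  · rintro ⟨e, d⟩ hp
    simp only [Finset.mem_sigma, Finset.mem_Icc] at hp ⊢
    rw [Nat.mul_div_cancel_left d hp.1.1]
  · rintro ⟨k, e⟩ hp
    rfl

lemma sum_mu_divisors (k : ℕ) : ∑ e ∈ k.divisors, ((mu e : ℝ) : ℂ) = if k = 1 then 1 else 0 := by
  have := congrArg (fun f : ArithmeticFunction ℤ => f k) ArithmeticFunction.moebius_mul_coe_zeta
  simp only [ArithmeticFunction.coe_mul_zeta_apply, ArithmeticFunction.one_apply] at this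
  unfold mu
  have h2 : ((∑ e ∈ k.divisors, ArithmeticFunction.moebius e : ℤ) : ℂ) = ((if k = 1 then 1 else 0 : ℤ) : ℂ) := by
    rw [this]
  push_cast at h2 ⊢
  exact h2

/-- Möbius inversion for a finitely supported sequence. -/
lemma moebius_double (T : ℕ → ℂ) (N : ℕ) (hN : 1 ≤ N) (hT : ∀ m : ℕ, N < m → T m = 0) :
    ∑ k ∈ Finset.Icc 1 N, ∑ j ∈ Finset.Icc 1 N, ((mu k : ℝ) : ℂ) * T (k * j) = T 1 := by
  have h1 : ∀ k ∈ Finset.Icc 1 N, ∑ j ∈ Finset.Icc 1 N, ((mu k : ℝ) : ℂ) * T (k * j) =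
      ∑ j ∈ Finset.Icc 1 (N / k), ((mu k : ℝ) : ℂ) * T (k * j) := by
    intro k hk
    rw [Finset.mem_Icc] at hk
    symm
    apply Finset.sum_subset
    · intro j hj
      rw [Finset.mem_Icc] at hj ⊢
      exact ⟨hj.1, hj.2.trans (Nat.div_le_self _ _)⟩
    · intro j hj hj2
      rw [Finset.mem_Icc] at hj hj2
      have h3 : N / k < j := by
        by_contra h
        push Not at h
        exact hj2 ⟨hj.1, h⟩
      have h4 : N < k * j := by
        rw [Nat.div_lt_iff_lt_mul hk.1] at h3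
        rw [mul_comm]; exact h3
      rw [hT _ h4, mul_zero]
  rw [Finset.sum_congr rfl h1, ← sum_divisors_swapC N (fun k j => ((mu k : ℝ) : ℂ) * T (k * j))]
  have h2 : ∀ k ∈ Finset.Icc 1 N, ∑ e ∈ k.divisors, ((mu e : ℝ) : ℂ) * T (e * (k / e)) =
      if k = 1 then T 1 else 0 := by
    intro k hk
    have h3 : ∀ e ∈ k.divisors, ((mu e : ℝ) : ℂ) * T (e * (k / e)) = ((mu e : ℝ) : ℂ) * T k := by
      intro e he
      rw [Nat.mul_div_cancel' (Nat.dvd_of_mem_divisors he)]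
    rw [Finset.sum_congr rfl h3, ← Finset.sum_mul, sum_mu_divisors]
    split_ifs with h4
    · rw [h4, one_mul]
    · rw [zero_mul]
  rw [Finset.sum_congr rfl h2, Finset.sum_ite_eq' (Finset.Icc 1 N) 1 (fun _ => T 1)]
  simp [hN]

/-- hypotheses on the weight `g` -/
structure WG (g : ℝ → ℝ) (C : ℝ) : Prop where
  meas : Measurable g
  bound : ∀ y, 0 < y → |g y| ≤ C * y ^ (1 / 4 : ℝ)
  zero : ∀ y, y ≤ 1 / 2 → g y = 0

/-- the Möbius sum attached to `g` -/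
def GG (g : ℝ → ℝ) (X : ℝ) : ℝ := ∑' k : ℕ, mu k * g (X / k)

lemma GG_eq {g : ℝ → ℝ} {C : ℝ} (hg : WG g C) {X : ℝ} {N : ℕ} (hX : 2 * X ≤ N) :
    GG g X = ∑ k ∈ Finset.Icc 1 N, mu k * g (X / k) := by
  unfold GG
  apply tsum_eq_sum
  intro k hk
  rw [Finset.mem_Icc] at hk
  rcases Nat.eq_zero_or_pos k with h0 | h0
  · subst h0; simp [mu]
  · have h1 : N < k := by
      by_contra h
      push Not at h
      exact hk ⟨h0, h⟩
    have h2 : (N : ℝ) < k := by exact_mod_cast h1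
    rw [hg.zero, mul_zero]
    have hk0 : (0 : ℝ) < k := by exact_mod_cast h0
    rw [div_le_iff₀ hk0]
    linarith

/-- `TT g ρ Y m = ∫_1^∞ g(Y/(m y)) y^{ρ-1} dy` -/
def TT (g : ℝ → ℝ) (ρ : ℂ) (Y : ℝ) (m : ℕ) : ℂ :=
  ∫ y in Ioi (1:ℝ), ((g (Y / (m * y)) : ℝ) : ℂ) * (y : ℂ) ^ (ρ - 1)

lemma TT_zero {g : ℝ → ℝ} {C : ℝ} (hg : WG g C) (ρ : ℂ) {Y : ℝ} {m : ℕ} (hm : 2 * Y ≤ m) (hm0 : 1 ≤ m) :
    TT g ρ Y m = 0 := by
  unfold TT
  rw [← integral_zero ℝ ℂ (μ := volume.restrict (Ioi (1:ℝ)))]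
  apply setIntegral_congr_fun measurableSet_Ioi
  intro y hy
  have hy1 : (1:ℝ) < y := hy
  have hm1 : (1:ℝ) ≤ m := by exact_mod_cast hm0
  simp only
  rw [hg.zero]
  · simp
  · rw [div_le_iff₀ (by positivity)]
    nlinarith

lemma TT_integrable {g : ℝ → ℝ} {C : ℝ} (hg : WG g C) (ρ : ℂ) (Z : ℝ) {a : ℝ} (ha : 0 < a) :
    IntegrableOn (fun y : ℝ => ((g (Z / y) : ℝ) : ℂ) * (y : ℂ) ^ (ρ - 1)) (Ioi a) := by
  have hC : 0 ≤ C := by
    have := (abs_nonneg _).trans (hg.bound 1 one_pos)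
    simpa using this
  set b : ℝ := max a (2 * Z) with hb
  have hab : a ≤ b := le_max_left _ _
  have h1 : IntegrableOn (fun y : ℝ => ((g (Z / y) : ℝ) : ℂ) * (y : ℂ) ^ (ρ - 1)) (Icc a b) := by
    have hc : ContinuousOn (fun y : ℝ => (y : ℂ) ^ (ρ - 1)) (Icc a b) := by
      intro y hy
      have hy0 : 0 < y := lt_of_lt_of_le ha hy.1
      apply ContinuousAt.continuousWithinAt
      exact (Complex.continuousAt_ofReal_cpow_const y (ρ - 1) (Or.inr hy0.ne'))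
    have hi : IntegrableOn (fun y : ℝ => (y : ℂ) ^ (ρ - 1)) (Icc a b) := hc.integrableOn_Icc
    refine Integrable.bdd_mul (c := C * (|Z| / a) ^ (1 / 4 : ℝ)) hi ?_ ?_
    · refine (Complex.measurable_ofReal.comp (hg.meas.comp ?_)).aestronglyMeasurable
      fun_prop
    · refine (ae_restrict_mem measurableSet_Icc).mono fun y hy => ?_
      have hy0 : 0 < y := lt_of_lt_of_le ha hy.1
      rw [Complex.norm_real, Real.norm_eq_abs]
      rcases le_or_gt Z 0 with hZ | hZ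
      · rw [hg.zero _ ((div_nonpos_of_nonpos_of_nonneg hZ hy0.le).trans (by norm_num)), abs_zero]
        positivity
      · refine (hg.bound _ (by positivity)).trans ?_
        rw [abs_of_pos hZ]
        have := hy.1
        gcongr
  have h2 : IntegrableOn (fun y : ℝ => ((g (Z / y) : ℝ) : ℂ) * (y : ℂ) ^ (ρ - 1)) (Ioi b) := by
    have : IntegrableOn (fun y : ℝ => (0 : ℂ)) (Ioi b) := integrableOn_zero
    refine this.congr_fun ?_ measurableSet_Ioi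
    intro y hy
    have hy1 : b < y := hy
    have hy0 : 0 < y := by linarith
    simp only
    rw [hg.zero]
    · simp
    · rw [div_le_iff₀ hy0]
      have : 2 * Z ≤ b := le_max_right _ _
      linarith
  have h3 : Ioi a ⊆ Icc a b ∪ Ioi b := by
    intro y hy
    rcases le_or_gt y b with h | h
    · exact Or.inl ⟨le_of_lt hy, h⟩
    · exact Or.inr h
  exact (h1.union h2).mono_set h3

/-- scaling -/
lemma TT_scale (g : ℝ → ℝ) (ρ : ℂ) (Y : ℝ) {k j : ℕ} (hj : 1 ≤ j) :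
    ∫ y in Ioi (j:ℝ), ((g (Y / (k * y)) : ℝ) : ℂ) * ((y : ℂ) ^ (ρ - 1) * (j : ℂ) ^ (-ρ)) = TT g ρ Y (k * j) := by
  have hj0 : (0:ℝ) < j := by exact_mod_cast hj
  have hjc : (j : ℂ) ≠ 0 := by exact_mod_cast hj0.ne'
  have h := integral_comp_mul_left_Ioi
    (fun y : ℝ => ((g (Y / (k * y)) : ℝ) : ℂ) * ((y : ℂ) ^ (ρ - 1) * (j : ℂ) ^ (-ρ))) 1 hj0
  rw [mul_one] at h
  have h2 : ∫ y in Ioi (j:ℝ), ((g (Y / (k * y)) : ℝ) : ℂ) * ((y : ℂ) ^ (ρ - 1) * (j : ℂ) ^ (-ρ)) =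
      (j : ℝ) • ∫ y in Ioi (1:ℝ), ((g (Y / (k * (j * y))) : ℝ) : ℂ) * (((j * y : ℝ) : ℂ) ^ (ρ - 1) * (j : ℂ) ^ (-ρ)) := by
    rw [h, smul_smul, mul_inv_cancel₀ hj0.ne', one_smul]
  rw [h2]
  unfold TT
  rw [← integral_smul]
  apply setIntegral_congr_fun measurableSet_Ioi
  intro y hy
  have hy1 : (1:ℝ) < y := hy
  have hy0 : (0:ℝ) < y := by linarith
  simp only
  have e1 : (((j * y : ℝ)) : ℂ) ^ (ρ - 1) = (j : ℂ) ^ (ρ - 1) * (y : ℂ) ^ (ρ - 1) := by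
    rw [Complex.ofReal_mul, Complex.mul_cpow_ofReal_nonneg hj0.le hy0.le]
    simp
  have e2 : (j : ℂ) ^ (ρ - 1) * (j : ℂ) ^ (-ρ) = (j : ℂ)⁻¹ := by
    rw [← Complex.cpow_add _ _ hjc, show ρ - 1 + -ρ = -1 by ring, Complex.cpow_neg_one]
  have e3 : Y / ((k : ℝ) * (j * y)) = Y / (((k * j : ℕ) : ℝ) * y) := by
    push_cast; ring
  rw [e1, e3, Complex.real_smul]
  have e4 : ((j : ℝ) : ℂ) * ((((g (Y / (((k * j : ℕ) : ℝ) * y)) : ℝ)) : ℂ) *
      ((j : ℂ) ^ (ρ - 1) * (y : ℂ) ^ (ρ - 1) * (j : ℂ) ^ (-ρ))) =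
      ((g (Y / (((k * j : ℕ) : ℝ) * y)) : ℝ) : ℂ) * (y : ℂ) ^ (ρ - 1) * ((j : ℂ) * ((j : ℂ) ^ (ρ - 1) * (j : ℂ) ^ (-ρ))) := by
    push_cast; ring
  rw [e4, e2, mul_inv_cancel₀ hjc, mul_one]

/-- **Key identity.** -/
theorem key_identity {g : ℝ → ℝ} {C : ℝ} (hg : WG g C) {ρ : ℂ} (Y : ℝ) :
    IntegrableOn (fun y : ℝ => ((GG g (Y / y) : ℝ) : ℂ) * (RR ρ y / y)) (Ioi 1) ∧
    ∫ y in Ioi (1:ℝ), ((GG g (Y / y) : ℝ) : ℂ) * (RR ρ y / y) = TT g ρ Y 1 := by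
  obtain ⟨N, hN⟩ : ∃ N : ℕ, 2 * Y ≤ N := exists_nat_ge (2 * Y)
  set N' : ℕ := N + 1 with hN'
  have hN2 : 2 * Y ≤ N' := by rw [hN']; push_cast; linarith
  have hN1 : 1 ≤ N' := by omega
  rw [← moebius_double (fun m => TT g ρ Y m) N' hN1 (by
    intro m hm
    apply TT_zero hg
    · have : (N' : ℝ) < m := by exact_mod_cast hm
      linarith
    · omega)]
  -- expand the integrand
  have h1 : ∀ y ∈ Ioi (1:ℝ), ((GG g (Y / y) : ℝ) : ℂ) * (RR ρ y / y) =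
      ∑ k ∈ Finset.Icc 1 N', ∑ j ∈ Finset.Icc 1 N', ((mu k : ℝ) : ℂ) *
        (Ici (j:ℝ)).indicator (fun y : ℝ => ((g (Y / (k * y)) : ℝ) : ℂ) * ((y : ℂ) ^ (ρ - 1) * (j : ℂ) ^ (-ρ))) y := by
    intro y hy
    have hy1 : (1:ℝ) < y := hy
    have hy0 : (0:ℝ) < y := by linarith
    have hyc : (y : ℂ) ≠ 0 := by exact_mod_cast hy0.ne'
    have hYy : 2 * (Y / y) ≤ N' := by
      rcases le_or_gt Y 0 with hY | hY
      · have : Y / y ≤ 0 := div_nonpos_of_nonpos_of_nonneg hY hy0.le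
        have h3 : (0:ℝ) ≤ N' := Nat.cast_nonneg _
        linarith
      · have : Y / y ≤ Y := div_le_self hY.le hy1.le
        linarith
    rw [GG_eq hg hYy]
    rcases lt_or_ge y (N' + 1) with hyN | hyN
    · have hfl : ⌊y⌋₊ ≤ N' := by
        have : ⌊y⌋₊ < N' + 1 := (Nat.floor_lt hy0.le).2 (by exact_mod_cast hyN)
        omega
      have h2 : RR ρ y / y = ∑ j ∈ Finset.Icc 1 N', (Ici (j:ℝ)).indicator (fun y : ℝ => (y : ℂ) ^ (ρ - 1) * (j : ℂ) ^ (-ρ)) y := by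
        have h3 : ∑ j ∈ Finset.Icc 1 N', (Ici (j:ℝ)).indicator (fun y : ℝ => (y : ℂ) ^ (ρ - 1) * (j : ℂ) ^ (-ρ)) y =
            ∑ j ∈ Finset.Icc 1 ⌊y⌋₊, (y : ℂ) ^ (ρ - 1) * (j : ℂ) ^ (-ρ) := by
          symm
          rw [← Finset.sum_subset (Finset.Icc_subset_Icc_right hfl)]
          · refine Finset.sum_congr rfl fun j hj => ?_
            rw [Finset.mem_Icc] at hj
            rw [indicator_of_mem]
            exact (Nat.le_floor_iff hy0.le).1 hj.2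
          · intro j hj hj2
            rw [Finset.mem_Icc] at hj hj2
            rw [indicator_of_notMem]
            intro h4
            exact hj2 ⟨hj.1, (Nat.le_floor_iff hy0.le).2 h4⟩
        rw [h3, ← Finset.mul_sum]
        unfold RR
        rw [Complex.cpow_sub _ _ hyc, Complex.cpow_one]
        ring
      rw [h2]
      push_cast
      rw [Finset.sum_mul]
      refine Finset.sum_congr rfl fun k _ => ?_
      rw [Finset.mul_sum]
      refine Finset.sum_congr rfl fun j _ => ?_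
      have e5 : Y / y / (k : ℝ) = Y / (k * y) := by rw [div_div, mul_comm]
      by_cases h6 : y ∈ Ici (j:ℝ)
      · rw [indicator_of_mem h6, indicator_of_mem h6, e5]; ring
      · rw [indicator_of_notMem h6, indicator_of_notMem h6]; ring
    · -- everything vanishes
      have h4 : ∀ k : ℕ, 1 ≤ k → g (Y / (k * y)) = 0 := by
        intro k hk
        apply hg.zero
        have hk1 : (1:ℝ) ≤ k := by exact_mod_cast hk
        rw [div_le_iff₀ (by positivity)]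
        nlinarith
      have h5 : ∑ k ∈ Finset.Icc 1 N', mu k * g (Y / y / k) = 0 := by
        apply Finset.sum_eq_zero
        intro k hk
        rw [Finset.mem_Icc] at hk
        have e5 : Y / y / (k : ℝ) = Y / (k * y) := by rw [div_div, mul_comm]
        rw [e5, h4 k hk.1, mul_zero]
      rw [h5]
      symm
      rw [Complex.ofReal_zero, zero_mul]
      apply Finset.sum_eq_zero
      intro k hk
      rw [Finset.mem_Icc] at hk
      apply Finset.sum_eq_zero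
      intro j _
      by_cases h6 : y ∈ Ici (j:ℝ)
      · rw [indicator_of_mem h6, h4 k hk.1]; simp
      · rw [indicator_of_notMem h6, mul_zero]
  have hint : ∀ k j : ℕ, 1 ≤ k → 1 ≤ j → IntegrableOn (fun y : ℝ => ((mu k : ℝ) : ℂ) *
        (Ici (j:ℝ)).indicator (fun y : ℝ => ((g (Y / (k * y)) : ℝ) : ℂ) * ((y : ℂ) ^ (ρ - 1) * (j : ℂ) ^ (-ρ))) y) (Ioi 1) := by
    intro k j hk hj
    apply Integrable.const_mul
    apply Integrable.indicator _ measurableSet_Ici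
    have hk0 : (0:ℝ) < k := by exact_mod_cast hk
    have h3 := (TT_integrable hg ρ (Y / k) (a := 1) one_pos).mul_const ((j : ℂ) ^ (-ρ))
    refine h3.congr (Eventually.of_forall fun y => ?_)
    simp only
    rw [div_div]; ring
  have hI : IntegrableOn (fun y : ℝ => ∑ k ∈ Finset.Icc 1 N', ∑ j ∈ Finset.Icc 1 N', ((mu k : ℝ) : ℂ) *
        (Ici (j:ℝ)).indicator (fun y : ℝ => ((g (Y / (k * y)) : ℝ) : ℂ) * ((y : ℂ) ^ (ρ - 1) * (j : ℂ) ^ (-ρ))) y) (Ioi 1) :=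
    integrable_finsetSum _ (fun k hk => integrable_finsetSum _ (fun j hj =>
      hint k j (Finset.mem_Icc.1 hk).1 (Finset.mem_Icc.1 hj).1))
  refine ⟨hI.congr_fun (fun y hy => (h1 y hy).symm) measurableSet_Ioi, ?_⟩
  rw [setIntegral_congr_fun measurableSet_Ioi h1]
  rw [integral_finsetSum _ (fun k hk => integrable_finsetSum _ (fun j hj =>
    hint k j (Finset.mem_Icc.1 hk).1 (Finset.mem_Icc.1 hj).1))]
  refine Finset.sum_congr rfl fun k hk => ?_
  rw [integral_finsetSum _ (fun j hj => hint k j (Finset.mem_Icc.1 hk).1 (Finset.mem_Icc.1 hj).1)]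
  refine Finset.sum_congr rfl fun j hj => ?_
  rw [Finset.mem_Icc] at hk hj
  rw [integral_const_mul, integral_indicator measurableSet_Ici, Measure.restrict_restrict measurableSet_Ici]
  have hae : ((Ici (j:ℝ)) ∩ Ioi 1 : Set ℝ) =ᵐ[volume] Ioi (j:ℝ) := by
    have hj1 : (1:ℝ) ≤ j := by exact_mod_cast hj.1
    have h7 : Ioi (j:ℝ) ⊆ Ici (j:ℝ) ∩ Ioi 1 := by
      intro y hy
      have hy' : (j:ℝ) < y := hy
      exact ⟨hy'.le, lt_of_le_of_lt hj1 hy'⟩
    have h8 : Ici (j:ℝ) ∩ Ioi 1 ⊆ Ici (j:ℝ) := inter_subset_left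
    have h9 : Ici (j:ℝ) =ᵐ[volume] Ioi (j:ℝ) := Ioi_ae_eq_Ici.symm
    exact (h8.eventuallyLE.trans h9.le).antisymm h7.eventuallyLE
  rw [setIntegral_congr_set hae, TT_scale g ρ Y hj.1]

end

end Pool.Agent.H295R2
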