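import Pool.Agent.H295R2.T4b

set_option autoImplicit false

open MeasureTheory Filter Topology Set

namespace Pool.Agent.H295R2

noncomputable section

/-- Mellin-type integral of the weight -/
def om (g : ℝ → ℝ) (ρ : ℂ) : ℂ := ∫ w in Ioi (0:ℝ), ((g (1 / w) : ℝ) : ℂ) * (w : ℂ) ^ (ρ - 1)

lemma TT_one (g : ℝ → ℝ) (ρ : ℂ) {Y : ℝ} (hY : 0 < Y) :
    TT g ρ Y 1 = (Y : ℂ) ^ ρ * ∫ w in Ioi (1 / Y), ((g (1 / w) : ℝ) : ℂ) * (w : ℂ) ^ (ρ - 1) := by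
  have hYc : (Y : ℂ) ≠ 0 := by exact_mod_cast hY.ne'
  have h := integral_comp_mul_left_Ioi
    (fun y : ℝ => ((g (Y / ((1:ℕ) * y)) : ℝ) : ℂ) * (y : ℂ) ^ (ρ - 1)) (1 / Y) hY
  have h1 : Y * (1 / Y) = 1 := by field_simp
  rw [h1] at h
  have h2 : TT g ρ Y 1 = Y • ∫ w in Ioi (1 / Y), ((g (Y / ((1:ℕ) * (Y * w))) : ℝ) : ℂ) * ((Y * w : ℝ) : ℂ) ^ (ρ - 1) := by
    rw [h, smul_smul, mul_inv_cancel₀ hY.ne', one_smul]
    rfl
  rw [h2, ← integral_smul, ← integral_const_mul]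
  apply setIntegral_congr_fun measurableSet_Ioi
  intro w hw
  have hw0 : 0 < w := lt_trans (by positivity) hw
  simp only
  have e1 : ((Y * w : ℝ) : ℂ) ^ (ρ - 1) = (Y : ℂ) ^ (ρ - 1) * (w : ℂ) ^ (ρ - 1) := by
    rw [Complex.ofReal_mul, Complex.mul_cpow_ofReal_nonneg hY.le hw0.le]
  have e2 : Y / (((1:ℕ) : ℝ) * (Y * w)) = 1 / w := by
    push_cast; field_simp
  rw [e1, e2, Complex.real_smul, Complex.cpow_sub _ _ hYc, Complex.cpow_one]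
  field_simp

lemma om_bound_pointwise {g : ℝ → ℝ} {C : ℝ} (hg : WG g C) (ρ : ℂ) {w : ℝ} (hw : 0 < w) :
    ‖((g (1 / w) : ℝ) : ℂ) * (w : ℂ) ^ (ρ - 1)‖ ≤ C * w ^ (ρ.re - 1 / 4 - 1) := by
  rw [norm_mul, Complex.norm_real, Real.norm_eq_abs, Complex.norm_cpow_eq_rpow_re_of_pos hw]
  have h1 := hg.bound (1 / w) (by positivity)
  have h2 : (ρ - 1).re = ρ.re - 1 := by simp
  rw [h2]
  have h3 : (1 / w) ^ (1 / 4 : ℝ) = w ^ (-(1 / 4) : ℝ) := by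
    rw [one_div, Real.inv_rpow hw.le, Real.rpow_neg hw.le]
  rw [h3] at h1
  calc |g (1 / w)| * w ^ (ρ.re - 1) ≤ (C * w ^ (-(1 / 4) : ℝ)) * w ^ (ρ.re - 1) := by gcongr
    _ = C * (w ^ (-(1 / 4) : ℝ) * w ^ (ρ.re - 1)) := by ring
    _ = C * w ^ (ρ.re - 1 / 4 - 1) := by
      rw [← Real.rpow_add hw]
      ring_nf

lemma om_meas {g : ℝ → ℝ} {C : ℝ} (hg : WG g C) (ρ : ℂ) :
    Measurable (fun w : ℝ => ((g (1 / w) : ℝ) : ℂ) * (w : ℂ) ^ (ρ - 1)) := by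
  refine (Complex.measurable_ofReal.comp (hg.meas.comp ?_)).mul ?_
  · fun_prop
  · exact Complex.measurable_ofReal.pow_const _

lemma om_integrable {g : ℝ → ℝ} {C : ℝ} (hg : WG g C) {ρ : ℂ} (hρ : 1 / 4 < ρ.re) :
    IntegrableOn (fun w : ℝ => ((g (1 / w) : ℝ) : ℂ) * (w : ℂ) ^ (ρ - 1)) (Ioi 0) := by
  have h1 : IntegrableOn (fun w : ℝ => C * w ^ (ρ.re - 1 / 4 - 1)) (Ioc 0 2) := by
    have := (intervalIntegral.intervalIntegrable_rpow' (a := 0) (b := 2) (r := ρ.re - 1 / 4 - 1) (by linarith))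
    rw [intervalIntegrable_iff_integrableOn_Ioc_of_le (by norm_num)] at this
    exact this.const_mul C
  have h2 : IntegrableOn (fun w : ℝ => ((g (1 / w) : ℝ) : ℂ) * (w : ℂ) ^ (ρ - 1)) (Ioc 0 2) := by
    refine Integrable.mono' h1 (om_meas hg ρ).aestronglyMeasurable ?_
    refine (ae_restrict_mem measurableSet_Ioc).mono fun w hw => om_bound_pointwise hg ρ hw.1
  have h3 : IntegrableOn (fun w : ℝ => ((g (1 / w) : ℝ) : ℂ) * (w : ℂ) ^ (ρ - 1)) (Ioi 2) := by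
    have hz : IntegrableOn (fun _ : ℝ => (0 : ℂ)) (Ioi 2) := integrableOn_zero
    refine hz.congr_fun ?_ measurableSet_Ioi
    intro w hw
    have hw2 : (2:ℝ) < w := hw
    have h5 : g (1 / w) = 0 := by
      apply hg.zero
      rw [div_le_iff₀ (by linarith)]
      linarith
    simp only
    rw [h5]
    simp
  rw [← Ioc_union_Ioi_eq_Ioi (by norm_num : (0:ℝ) ≤ 2)]
  exact h2.union h3

lemma TT_one_approx {g : ℝ → ℝ} {C : ℝ} (hg : WG g C) {ρ : ℂ} (hρ : 1 / 4 < ρ.re) {Y : ℝ} (hY : 0 < Y) :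
    ‖TT g ρ Y 1 - (Y : ℂ) ^ ρ * om g ρ‖ ≤ C / (ρ.re - 1 / 4) * Y ^ (1 / 4 : ℝ) := by
  have hC : 0 ≤ C := by
    have := (abs_nonneg _).trans (hg.bound 1 one_pos)
    simpa using this
  have hi := om_integrable hg hρ
  have h1 : om g ρ = (∫ w in Ioc 0 (1 / Y), ((g (1 / w) : ℝ) : ℂ) * (w : ℂ) ^ (ρ - 1)) +
      ∫ w in Ioi (1 / Y), ((g (1 / w) : ℝ) : ℂ) * (w : ℂ) ^ (ρ - 1) := by
    unfold om
    rw [← setIntegral_union (Set.Ioc_disjoint_Ioi le_rfl) measurableSet_Ioi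
      (hi.mono_set Ioc_subset_Ioi_self) (hi.mono_set (Ioi_subset_Ioi (by positivity))),
      Ioc_union_Ioi_eq_Ioi (by positivity)]
  rw [TT_one g ρ hY, h1, ← mul_sub, sub_add_cancel_right, norm_mul, norm_neg,
    Complex.norm_cpow_eq_rpow_re_of_pos hY]
  have h2 : ‖∫ w in Ioc 0 (1 / Y), ((g (1 / w) : ℝ) : ℂ) * (w : ℂ) ^ (ρ - 1)‖ ≤
      ∫ w in Ioc 0 (1 / Y), C * w ^ (ρ.re - 1 / 4 - 1) := by
    have hii : IntegrableOn (fun w : ℝ => C * w ^ (ρ.re - 1 / 4 - 1)) (Ioc 0 (1 / Y)) := by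
      have := (intervalIntegral.intervalIntegrable_rpow' (a := 0) (b := 1 / Y) (r := ρ.re - 1 / 4 - 1) (by linarith))
      rw [intervalIntegrable_iff_integrableOn_Ioc_of_le (by positivity)] at this
      exact this.const_mul C
    refine norm_integral_le_of_norm_le hii ?_
    exact (ae_restrict_mem measurableSet_Ioc).mono fun w hw => om_bound_pointwise hg ρ hw.1
  have h3 : ∫ w in Ioc 0 (1 / Y), C * w ^ (ρ.re - 1 / 4 - 1) = C * ((1 / Y) ^ (ρ.re - 1 / 4) / (ρ.re - 1 / 4)) := by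
    rw [← intervalIntegral.integral_of_le (by positivity), intervalIntegral.integral_const_mul,
      integral_rpow (Or.inl (by linarith))]
    have e : ρ.re - 1 / 4 - 1 + 1 = ρ.re - 1 / 4 := by ring
    rw [e, Real.zero_rpow (by linarith), sub_zero]
  rw [h3] at h2
  have h4 : Y ^ ρ.re * (1 / Y) ^ (ρ.re - 1 / 4) = Y ^ (1 / 4 : ℝ) := by
    rw [one_div, Real.inv_rpow hY.le, ← Real.rpow_neg hY.le, ← Real.rpow_add hY]
    ring_nf
  calc Y ^ ρ.re * ‖∫ w in Ioc 0 (1 / Y), ((g (1 / w) : ℝ) : ℂ) * (w : ℂ) ^ (ρ - 1)‖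
      ≤ Y ^ ρ.re * (C * ((1 / Y) ^ (ρ.re - 1 / 4) / (ρ.re - 1 / 4))) := by gcongr
    _ = C / (ρ.re - 1 / 4) * (Y ^ ρ.re * (1 / Y) ^ (ρ.re - 1 / 4)) := by ring
    _ = _ := by rw [h4]

/-- `V = RR(y) - 2 RR(y/2) [y ≥ 2]` -/
def VV (ρ : ℂ) (y : ℝ) : ℂ := RR ρ y - (Ioi (2:ℝ)).indicator (fun y => 2 * RR ρ (y / 2)) y

lemma VV_bound {ρ : ℂ} (h0 : 0 < ρ.re) (h1 : ρ.re < 1) (hz : riemannZeta ρ = 0) :
    ∃ K : ℝ, 0 < K ∧ ∀ y : ℝ, 1 ≤ y → ‖VV ρ y‖ ≤ K := by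
  obtain ⟨C, hC0, hC⟩ := RR_bound h0 h1 hz
  have hρ1 : ρ ≠ 1 := by rintro rfl; simp at h1
  have hρ1' : (1 : ℂ) - ρ ≠ 0 := sub_ne_zero.2 (Ne.symm hρ1)
  refine ⟨3 * C + 2 / ‖1 - ρ‖, by positivity, fun y hy => ?_⟩
  unfold VV
  by_cases h : y ∈ Ioi (2:ℝ)
  · have hy2 : (2:ℝ) < y := h
    rw [indicator_of_mem h]
    have e : RR ρ y - 2 * RR ρ (y / 2) = (RR ρ y - y / (1 - ρ)) - 2 * (RR ρ (y / 2) - ((y / 2 : ℝ) : ℂ) / (1 - ρ)) := by
      push_cast; ring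
    rw [e]
    have h3 := hC y hy
    have h4 := hC (y / 2) (by linarith)
    calc ‖(RR ρ y - y / (1 - ρ)) - 2 * (RR ρ (y / 2) - ((y / 2 : ℝ) : ℂ) / (1 - ρ))‖
        ≤ ‖RR ρ y - y / (1 - ρ)‖ + ‖2 * (RR ρ (y / 2) - ((y / 2 : ℝ) : ℂ) / (1 - ρ))‖ := norm_sub_le _ _
      _ ≤ C + 2 * C := by
          rw [norm_mul, Complex.norm_ofNat]
          gcongr
      _ ≤ 3 * C + 2 / ‖1 - ρ‖ := by
          have : 0 ≤ 2 / ‖1 - ρ‖ := by positivity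
          linarith
  · rw [indicator_of_notMem h, sub_zero]
    have hy2 : y ≤ 2 := not_lt.1 h
    have h3 := hC y hy
    have h5 : ‖(y : ℂ) / (1 - ρ)‖ ≤ 2 / ‖1 - ρ‖ := by
      rw [norm_div, Complex.norm_real, Real.norm_of_nonneg (by linarith)]
      gcongr
    calc ‖RR ρ y‖ = ‖(RR ρ y - y / (1 - ρ)) + y / (1 - ρ)‖ := by ring_nf
      _ ≤ ‖RR ρ y - y / (1 - ρ)‖ + ‖(y : ℂ) / (1 - ρ)‖ := norm_add_le _ _
      _ ≤ C + 2 / ‖1 - ρ‖ := by linarith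
      _ ≤ _ := by linarith

/-- second identity -/
theorem VV_identity {g : ℝ → ℝ} {C : ℝ} (hg : WG g C) {ρ : ℂ} (Y : ℝ) :
    IntegrableOn (fun y : ℝ => ((GG g (Y / y) : ℝ) : ℂ) * (VV ρ y / y)) (Ioi 1) ∧
    ∫ y in Ioi (1:ℝ), ((GG g (Y / y) : ℝ) : ℂ) * (VV ρ y / y) = TT g ρ Y 1 - 2 * TT g ρ (Y / 2) 1 := by
  obtain ⟨i1, e1⟩ := key_identity hg (ρ := ρ) Y
  obtain ⟨i2, e2⟩ := key_identity hg (ρ := ρ) (Y / 2)
  -- scaling of the second integral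
  set F : ℝ → ℂ := fun y : ℝ => ((GG g (Y / y) : ℝ) : ℂ) * (RR ρ (y / 2) / y) with hF
  have hscale : ∀ y : ℝ, ((GG g (Y / 2 / y) : ℝ) : ℂ) * (RR ρ y / y) = (2:ℝ) • F (2 * y) := by
    intro y
    rw [hF, Complex.real_smul]
    simp only
    have a1 : Y / 2 / y = Y / (2 * y) := by rw [div_div]
    have a2 : 2 * y / 2 = y := by ring
    rw [a1, a2]
    rcases eq_or_ne y 0 with h0 | h0
    · subst h0; simp
    · have : (y : ℂ) ≠ 0 := by exact_mod_cast h0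
      push_cast
      field_simp
  have i3 : IntegrableOn F (Ioi 2) := by
    have h1 : IntegrableOn (fun y => (2:ℝ) • F (2 * y)) (Ioi 1) := by
      refine i2.congr_fun (fun y _ => hscale y) measurableSet_Ioi
    have h2 : IntegrableOn (fun y => F (2 * y)) (Ioi 1) := by
      have := h1.smul (2:ℝ)⁻¹
      refine this.congr (Eventually.of_forall fun y => ?_)
      simp
    have h3 := (integrableOn_Ioi_comp_mul_left_iff F 1 (a := 2) (by norm_num)).1 h2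
    simpa using h3
  have e3 : ∫ y in Ioi (2:ℝ), F y = TT g ρ (Y / 2) 1 := by
    rw [← e2]
    have h1 := integral_comp_mul_left_Ioi F 1 (b := 2) (by norm_num)
    rw [mul_one] at h1
    have h2 : ∫ y in Ioi (1:ℝ), ((GG g (Y / 2 / y) : ℝ) : ℂ) * (RR ρ y / y) = ∫ y in Ioi (1:ℝ), (2:ℝ) • F (2 * y) :=
      setIntegral_congr_fun measurableSet_Ioi fun y _ => hscale y
    rw [h2, integral_smul, h1, smul_smul]
    norm_num
  have hsplit : ∀ y : ℝ, ((GG g (Y / y) : ℝ) : ℂ) * (VV ρ y / y) =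
      ((GG g (Y / y) : ℝ) : ℂ) * (RR ρ y / y) - (Ioi (2:ℝ)).indicator (fun y => 2 * F y) y := by
    intro y
    unfold VV
    by_cases h : y ∈ Ioi (2:ℝ)
    · rw [indicator_of_mem h, indicator_of_mem h, hF]; ring
    · rw [indicator_of_notMem h, indicator_of_notMem h]; ring
  have i4 : IntegrableOn ((Ioi (2:ℝ)).indicator (fun y => 2 * F y)) (Ioi 1) := by
    rw [integrableOn_indicator_iff measurableSet_Ioi]
    have h6 : IntegrableOn (fun y => 2 * F y) (Ioi 2) := i3.const_mul 2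
    exact h6.mono_set inter_subset_left
  refine ⟨(i1.sub i4).congr (Eventually.of_forall fun y => (hsplit y).symm), ?_⟩
  rw [setIntegral_congr_fun measurableSet_Ioi (fun y _ => hsplit y), integral_sub i1 i4, e1,
    integral_indicator measurableSet_Ioi, Measure.restrict_restrict measurableSet_Ioi,
    inter_eq_left.2 (Ioi_subset_Ioi (by norm_num : (1:ℝ) ≤ 2)), integral_const_mul, e3]

end

end Pool.Agent.H295R2
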