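import Pool.Agent.H295R2.T4c

set_option autoImplicit false

open MeasureTheory Filter Topology Set

namespace Pool.Agent.H295R2

noncomputable section

/-- Abstract localised Omega result. -/
theorem abstract_omega {g : ℝ → ℝ} {C : ℝ} (hg : WG g C) {ρ : ℂ} (h0 : 1 / 4 < ρ.re) (h1 : ρ.re < 1)
    (hz : riemannZeta ρ = 0) (hω : om g ρ ≠ 0) {σ' C' : ℝ} (hσ : 0 < σ')
    (hG : ∀ X : ℝ, 0 < X → |GG g X| ≤ C' * X ^ σ') :
    ∃ K : ℝ, 0 < K ∧ ∀ Y A S : ℝ, 1 ≤ Y → 1 ≤ A → 0 ≤ S →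
      (∀ X : ℝ, Y / A ≤ X → X ≤ Y → |GG g X| ≤ S) →
      Y ^ ρ.re ≤ K * (Y ^ (1 / 4 : ℝ) + S * Real.log A + (Y / A) ^ σ') := by
  have hC : 0 ≤ C := by
    have := (abs_nonneg _).trans (hg.bound 1 one_pos)
    simpa using this
  have hC' : 0 ≤ C' := by
    have := (abs_nonneg _).trans (hG 1 one_pos)
    simpa using this
  have hρ0 : 0 < ρ.re := by linarith
  obtain ⟨KV, hKV0, hKV⟩ := VV_bound hρ0 h1 hz
  have hb : 0 < ρ.re - 1 / 4 := by linarith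
  -- the constant
  have h2ne : (1 : ℂ) - (2 : ℂ) ^ (1 - ρ) ≠ 0 := by
    intro h
    have h2 : ‖(2 : ℂ) ^ (1 - ρ)‖ = 1 := by
      rw [← sub_eq_zero.1 h, norm_one]
    have h3 : ‖((2 : ℝ) : ℂ) ^ (1 - ρ)‖ = (2:ℝ) ^ (1 - ρ).re := Complex.norm_cpow_eq_rpow_re_of_pos (by norm_num) _
    have h4 : (1:ℝ) < (2:ℝ) ^ (1 - ρ).re := by
      apply Real.one_lt_rpow (by norm_num)
      simp; linarith
    push_cast at h3
    rw [h2] at h3
    linarith
  set c : ℝ := ‖((1 : ℂ) - (2 : ℂ) ^ (1 - ρ)) * om g ρ‖ with hc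
  have hc0 : 0 < c := norm_pos_iff.2 (mul_ne_zero h2ne hω)
  set K1 : ℝ := 3 * (C / (ρ.re - 1 / 4)) with hK1
  have hK10 : 0 ≤ K1 := by positivity
  set K2 : ℝ := KV with hK2
  set K3 : ℝ := C' * K2 / σ' with hK3
  have hK30 : 0 ≤ K3 := by positivity
  refine ⟨(K1 + K2 + K3) / c, by positivity, fun Y A S hY hA hS hX => ?_⟩
  have hY0 : 0 < Y := by linarith
  have hA0 : 0 < A := by linarith
  have hYc : (Y : ℂ) ≠ 0 := by exact_mod_cast hY0.ne'
  obtain ⟨hI, hE⟩ := VV_identity hg (ρ := ρ) Y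
  -- bound of the integral
  have hint : ‖TT g ρ Y 1 - 2 * TT g ρ (Y / 2) 1‖ ≤ K2 * (S * Real.log A) + K3 * (Y / A) ^ σ' := by
    rw [← hE]
    have hsp : ∫ y in Ioi (1:ℝ), ((GG g (Y / y) : ℝ) : ℂ) * (VV ρ y / y) =
        (∫ y in Ioc (1:ℝ) A, ((GG g (Y / y) : ℝ) : ℂ) * (VV ρ y / y)) +
        ∫ y in Ioi A, ((GG g (Y / y) : ℝ) : ℂ) * (VV ρ y / y) := by
      rw [← setIntegral_union (Set.Ioc_disjoint_Ioi le_rfl) measurableSet_Ioi
        (hI.mono_set Ioc_subset_Ioi_self) (hI.mono_set (Ioi_subset_Ioi hA)), Ioc_union_Ioi_eq_Ioi hA]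
    rw [hsp]
    refine (norm_add_le _ _).trans (add_le_add ?_ ?_)
    · have hi : IntegrableOn (fun y : ℝ => K2 * S * y⁻¹) (Ioc 1 A) := by
        have : IntegrableOn (fun y : ℝ => y⁻¹) (Icc 1 A) := by
          apply ContinuousOn.integrableOn_Icc
          intro y hy
          exact (continuousAt_inv₀ (by linarith [hy.1] : (0:ℝ) < y).ne').continuousWithinAt
        exact (this.mono_set Ioc_subset_Icc_self).const_mul _
      have h2 : ‖∫ y in Ioc (1:ℝ) A, ((GG g (Y / y) : ℝ) : ℂ) * (VV ρ y / y)‖ ≤ ∫ y in Ioc (1:ℝ) A, K2 * S * y⁻¹ := by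
        refine norm_integral_le_of_norm_le hi ?_
        refine (ae_restrict_mem measurableSet_Ioc).mono fun y hy => ?_
        have hy0 : 0 < y := by linarith [hy.1]
        rw [norm_mul, Complex.norm_real, Real.norm_eq_abs, norm_div, Complex.norm_real, Real.norm_of_nonneg hy0.le]
        have h3 : |GG g (Y / y)| ≤ S := by
          apply hX
          · exact div_le_div_of_nonneg_left hY0.le hy0 hy.2
          · exact div_le_self hY0.le hy.1.le
        have h4 := hKV y hy.1.le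
        calc |GG g (Y / y)| * (‖VV ρ y‖ / y) ≤ S * (K2 / y) := by gcongr
          _ = K2 * S * y⁻¹ := by ring
      have h2' : ∫ y in Ioc (1:ℝ) A, K2 * S * y⁻¹ = K2 * S * Real.log A := by
        rw [← intervalIntegral.integral_of_le hA, intervalIntegral.integral_const_mul,
          integral_inv_of_pos one_pos hA0, div_one]
      rw [h2'] at h2
      linarith
    · have hi : IntegrableOn (fun y : ℝ => C' * K2 * Y ^ σ' * y ^ (-σ' - 1)) (Ioi A) :=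
        (integrableOn_Ioi_rpow_of_lt (by linarith) hA0).const_mul _
      have h2 : ‖∫ y in Ioi A, ((GG g (Y / y) : ℝ) : ℂ) * (VV ρ y / y)‖ ≤ ∫ y in Ioi A, C' * K2 * Y ^ σ' * y ^ (-σ' - 1) := by
        refine norm_integral_le_of_norm_le hi ?_
        refine (ae_restrict_mem measurableSet_Ioi).mono fun y hy => ?_
        have hyA : A < y := hy
        have hy0 : 0 < y := by linarith
        rw [norm_mul, Complex.norm_real, Real.norm_eq_abs, norm_div, Complex.norm_real, Real.norm_of_nonneg hy0.le]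
        have h3 := hG (Y / y) (by positivity)
        have h4 := hKV y (by linarith)
        have h5 : (Y / y) ^ σ' = Y ^ σ' * y ^ (-σ') := by
          rw [Real.div_rpow hY0.le hy0.le, Real.rpow_neg hy0.le]; ring
        have h6 : y ^ (-σ' - 1) = y ^ (-σ') * y⁻¹ := by
          rw [Real.rpow_sub hy0, Real.rpow_one]; ring
        calc |GG g (Y / y)| * (‖VV ρ y‖ / y) ≤ (C' * (Y / y) ^ σ') * (K2 / y) := by gcongr
          _ = C' * K2 * Y ^ σ' * y ^ (-σ' - 1) := by rw [h5, h6]; ring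
      rw [integral_const_mul, integral_Ioi_rpow_of_lt (by linarith) hA0] at h2
      refine h2.trans (le_of_eq ?_)
      have e : -σ' - 1 + 1 = -σ' := by ring
      have h5 : (Y / A) ^ σ' = Y ^ σ' * A ^ (-σ') := by
        rw [Real.div_rpow hY0.le hA0.le, Real.rpow_neg hA0.le]; ring
      rw [e, h5, hK3]
      field_simp
  have ha1 := TT_one_approx hg h0 hY0
  have ha2 := TT_one_approx hg h0 (Y := Y / 2) (by positivity)
  have e1 : (Y : ℂ) ^ ρ * (((1 : ℂ) - (2 : ℂ) ^ (1 - ρ)) * om g ρ) =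
      (TT g ρ Y 1 - 2 * TT g ρ (Y / 2) 1) - (TT g ρ Y 1 - (Y : ℂ) ^ ρ * om g ρ) +
        2 * (TT g ρ (Y / 2) 1 - ((Y / 2 : ℝ) : ℂ) ^ ρ * om g ρ) := by
    have e2 : ((Y / 2 : ℝ) : ℂ) ^ ρ = (Y : ℂ) ^ ρ * (2 : ℂ) ^ (-ρ) := by
      have : ((Y / 2 : ℝ) : ℂ) = (Y : ℂ) * (((1 / 2 : ℝ)) : ℂ) := by push_cast; ring
      rw [this, Complex.mul_cpow_ofReal_nonneg hY0.le (by norm_num)]
      congr 1
      rw [Complex.cpow_neg, ← Complex.inv_cpow]
      · push_cast; norm_num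
      · have : ((2:ℂ)).arg = 0 := by
          simp
        rw [this]; exact Real.pi_ne_zero.symm
    have e3 : (2 : ℂ) ^ (1 - ρ) = 2 * (2 : ℂ) ^ (-ρ) := by
      rw [sub_eq_add_neg, Complex.cpow_add _ _ two_ne_zero, Complex.cpow_one]
    rw [e2, e3]
    ring
  have h3 : Y ^ ρ.re * c ≤ (K1 + K2 + K3) * (Y ^ (1 / 4 : ℝ) + S * Real.log A + (Y / A) ^ σ') := by
    have h4 : ‖(Y : ℂ) ^ ρ * (((1 : ℂ) - (2 : ℂ) ^ (1 - ρ)) * om g ρ)‖ = Y ^ ρ.re * c := by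
      rw [norm_mul, Complex.norm_cpow_eq_rpow_re_of_pos hY0]
    rw [← h4, e1]
    have hlog : 0 ≤ Real.log A := Real.log_nonneg hA
    have hy4 : (Y / 2) ^ (1 / 4 : ℝ) ≤ Y ^ (1 / 4 : ℝ) :=
      Real.rpow_le_rpow (by positivity) (by linarith) (by norm_num)
    have hp1 : 0 ≤ Y ^ (1 / 4 : ℝ) := by positivity
    have hp2 : 0 ≤ (Y / A) ^ σ' := by positivity
    have hp3 : 0 ≤ S * Real.log A := by positivity
    have hcc : 0 ≤ C / (ρ.re - 1 / 4) := by positivity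
    calc ‖(TT g ρ Y 1 - 2 * TT g ρ (Y / 2) 1) - (TT g ρ Y 1 - (Y : ℂ) ^ ρ * om g ρ) +
        2 * (TT g ρ (Y / 2) 1 - ((Y / 2 : ℝ) : ℂ) ^ ρ * om g ρ)‖
        ≤ ‖TT g ρ Y 1 - 2 * TT g ρ (Y / 2) 1‖ + ‖TT g ρ Y 1 - (Y : ℂ) ^ ρ * om g ρ‖ +
          2 * ‖TT g ρ (Y / 2) 1 - ((Y / 2 : ℝ) : ℂ) ^ ρ * om g ρ‖ := by
          refine (norm_add_le _ _).trans ?_
          rw [norm_mul, Complex.norm_ofNat]
          gcongr
          exact norm_sub_le _ _
      _ ≤ (K2 * (S * Real.log A) + K3 * (Y / A) ^ σ') + C / (ρ.re - 1 / 4) * Y ^ (1 / 4 : ℝ) +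
          2 * (C / (ρ.re - 1 / 4) * Y ^ (1 / 4 : ℝ)) := by
          have h7 : C / (ρ.re - 1 / 4) * (Y / 2) ^ (1 / 4 : ℝ) ≤ C / (ρ.re - 1 / 4) * Y ^ (1 / 4 : ℝ) := by gcongr
          linarith
      _ = K1 * Y ^ (1 / 4 : ℝ) + K2 * (S * Real.log A) + K3 * (Y / A) ^ σ' := by rw [hK1]; ring
      _ ≤ _ := by
          have hK20 : 0 ≤ K2 := hKV0.le
          nlinarith [mul_nonneg hK20 hp1, mul_nonneg hK30 hp1, mul_nonneg hK10 hp3, mul_nonneg hK30 hp3,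
            mul_nonneg hK10 hp2, mul_nonneg hK20 hp2]
  rw [div_mul_eq_mul_div, le_div_iff₀ hc0]
  exact h3

end

end Pool.Agent.H295R2
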