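import Pool.Agent.H295R2.Def

set_option autoImplicit false

open MeasureTheory Filter Topology Set
open scoped ContDiff

namespace Pool.Agent.H295R2

noncomputable section

/-! ### sums over an arithmetic progression -/

/-- `SZ f x δ = ∑_{j ∈ ℤ} f (x + δ j)` -/
def SZ (f : ℝ → ℝ) (x δ : ℝ) : ℝ := ∑' j : ℤ, f (x + δ * j)

lemma int_supp_finite {x δ : ℝ} (hδ : 0 < δ) (a b : ℝ) (j : ℤ) (h1 : a ≤ x + δ * j) (h2 : x + δ * j ≤ b) :
    j ∈ Finset.Icc ⌈(a - x) / δ⌉ ⌊(b - x) / δ⌋ := by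
  rw [Finset.mem_Icc, Int.ceil_le, Int.le_floor, div_le_iff₀ hδ, le_div_iff₀ hδ]
  constructor <;> linarith

lemma int_card_le {x δ a b : ℝ} (hδ : 0 < δ) (hab : a ≤ b) :
    ((Finset.Icc ⌈(a - x) / δ⌉ ⌊(b - x) / δ⌋).card : ℝ) ≤ (b - a) / δ + 1 := by
  rw [Int.card_Icc]
  have h0 : 0 ≤ (b - a) / δ := div_nonneg (by linarith) hδ.le
  rcases le_or_gt (⌊(b - x) / δ⌋ + 1 - ⌈(a - x) / δ⌉) 0 with h | h
  · rw [Int.toNat_of_nonpos h]; push_cast; linarith
  · have h1 : (((⌊(b - x) / δ⌋ + 1 - ⌈(a - x) / δ⌉).toNat : ℤ) : ℝ) =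
        ((⌊(b - x) / δ⌋ + 1 - ⌈(a - x) / δ⌉ : ℤ) : ℝ) := by
      rw [Int.toNat_of_nonneg h.le]
    rw [Int.cast_natCast] at h1
    rw [h1]
    push_cast
    have h2 := Int.floor_le ((b - x) / δ)
    have h3 := Int.le_ceil ((a - x) / δ)
    have h4 : (b - a) / δ = (b - x) / δ - (a - x) / δ := by ring
    linarith

lemma abs_tsum_le_of_supp {f : ℤ → ℝ} {K a b x δ : ℝ} (hδ : 0 < δ) (hK : 0 ≤ K) (hab : a ≤ b)
    (h1 : ∀ j, |f j| ≤ K) (h2 : ∀ j : ℤ, f j ≠ 0 → a ≤ x + δ * j ∧ x + δ * j ≤ b) :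
    |∑' j, f j| ≤ K * ((b - a) / δ + 1) := by
  have h3 : ∑' j, f j = ∑ j ∈ Finset.Icc ⌈(a - x) / δ⌉ ⌊(b - x) / δ⌋, f j := by
    refine tsum_eq_sum fun j hj => ?_
    by_contra h
    exact hj (int_supp_finite hδ a b j (h2 j h).1 (h2 j h).2)
  rw [h3]
  calc |∑ j ∈ Finset.Icc ⌈(a - x) / δ⌉ ⌊(b - x) / δ⌋, f j|
      ≤ ∑ j ∈ Finset.Icc ⌈(a - x) / δ⌉ ⌊(b - x) / δ⌋, |f j| := Finset.abs_sum_le_sum_abs _ _
    _ ≤ ∑ j ∈ Finset.Icc ⌈(a - x) / δ⌉ ⌊(b - x) / δ⌋, K := Finset.sum_le_sum fun j _ => h1 j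
    _ = ((Finset.Icc ⌈(a - x) / δ⌉ ⌊(b - x) / δ⌋).card : ℝ) * K := by rw [Finset.sum_const, nsmul_eq_mul]
    _ ≤ ((b - a) / δ + 1) * K := by gcongr; exact int_card_le hδ hab
    _ = K * ((b - a) / δ + 1) := by ring

lemma SZ_summable {f : ℝ → ℝ} {x δ a b : ℝ} (hδ : 0 < δ) (hf : ∀ y, f y ≠ 0 → a ≤ y ∧ y ≤ b) :
    Summable (fun j : ℤ => f (x + δ * j)) := by
  refine summable_of_hasFiniteSupport ((Finset.Icc ⌈(a - x) / δ⌉ ⌊(b - x) / δ⌋).finite_toSet.subset ?_)
  intro j hj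
  rw [Function.mem_support] at hj
  have := hf _ hj
  exact int_supp_finite hδ a b j this.1 this.2

lemma SZ_shift (f : ℝ → ℝ) (x δ : ℝ) : SZ f (x + δ) δ = SZ f x δ := by
  unfold SZ
  rw [← (Equiv.addRight (1:ℤ)).tsum_eq (fun j : ℤ => f (x + δ * j))]
  refine tsum_congr fun j => ?_
  congr 1
  simp only [Equiv.coe_addRight]
  push_cast
  ring

/-- smooth functions supported in `[1,2]` -/
def Bump (g : ℝ → ℝ) : Prop := ContDiff ℝ ∞ g ∧ tsupport g ⊆ Icc 1 2

lemma Bump.deriv {g : ℝ → ℝ} (h : Bump g) : Bump (deriv g) :=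
  ⟨((contDiff_infty_iff_deriv (𝕜 := ℝ) (f := g)).mp h.1).2, tsupport_deriv_subset.trans h.2⟩

lemma Bump.hasDerivAt {g : ℝ → ℝ} (h : Bump g) (x : ℝ) : HasDerivAt g (_root_.deriv g x) x :=
  (h.1.differentiable (by simp)).differentiableAt.hasDerivAt

lemma Bump.supp {g : ℝ → ℝ} (h : Bump g) {x : ℝ} (hx : g x ≠ 0) : 1 ≤ x ∧ x ≤ 2 :=
  h.2 (subset_tsupport g hx)

lemma Bump.hasCompactSupport {g : ℝ → ℝ} (h : Bump g) : HasCompactSupport g :=
  HasCompactSupport.of_support_subset_isCompact isCompact_Icc ((subset_tsupport g).trans h.2)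

lemma Bump.bounded {g : ℝ → ℝ} (h : Bump g) : ∃ K > 0, ∀ x, |g x| ≤ K := by
  obtain ⟨K, hK⟩ := h.hasCompactSupport.exists_bound_of_continuous h.1.continuous
  refine ⟨max K 1, by positivity, fun x => ?_⟩
  have := hK x
  rw [Real.norm_eq_abs] at this
  exact this.trans (le_max_left _ _)

lemma Bump.at_two {g : ℝ → ℝ} (h : Bump g) : g 2 = 0 := by
  have h1 : Tendsto g (𝓝[>] 2) (𝓝 (g 2)) := (h.1.continuous.tendsto 2).mono_left nhdsWithin_le_nhds
  have h2 : Tendsto g (𝓝[>] 2) (𝓝 0) := by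
    refine tendsto_const_nhds.congr' ?_
    filter_upwards [self_mem_nhdsWithin] with y hy
    by_contra h'
    have := (h.supp (Ne.symm h')).2
    exact absurd this (not_le.mpr hy)
  exact tendsto_nhds_unique h1 h2

lemma Bump.at_one {g : ℝ → ℝ} (h : Bump g) : g 1 = 0 := by
  have h1 : Tendsto g (𝓝[<] 1) (𝓝 (g 1)) := (h.1.continuous.tendsto 1).mono_left nhdsWithin_le_nhds
  have h2 : Tendsto g (𝓝[<] 1) (𝓝 0) := by
    refine tendsto_const_nhds.congr' ?_
    filter_upwards [self_mem_nhdsWithin] with y hy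
    by_contra h'
    have := (h.supp (Ne.symm h')).1
    exact absurd this (not_le.mpr hy)
  exact tendsto_nhds_unique h1 h2

/-- third order Taylor bound for the central difference -/
lemma central_diff {g : ℝ → ℝ} (hg : Bump g) {K : ℝ} (hK' : ∀ x, |deriv (deriv (deriv g)) x| ≤ K)
    (x δ : ℝ) (hδ : 0 ≤ δ) : |2 * δ * deriv g x - (g (x + δ) - g (x - δ))| ≤ 2 * K * δ * δ * δ := by
  have d1 := hg.hasDerivAt
  have d2 := hg.deriv.hasDerivAt
  have d3 := hg.deriv.deriv.hasDerivAt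
  have hK0 : 0 ≤ K := (abs_nonneg _).trans (hK' 0)
  -- second derivative difference
  have b2 : ∀ t, 0 ≤ t → |deriv (deriv g) (x + t) - deriv (deriv g) (x - t)| ≤ 2 * K * t := by
    intro t ht
    have := Convex.norm_image_sub_le_of_norm_hasDerivWithin_le (f := deriv (deriv g))
      (f' := deriv (deriv (deriv g))) (s := univ) (C := K) (x := x - t) (y := x + t)
      (fun y _ => (d3 y).hasDerivWithinAt) (fun y _ => by rw [Real.norm_eq_abs]; exact hK' y) convex_univ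
      (mem_univ _) (mem_univ _)
    rw [Real.norm_eq_abs, Real.norm_eq_abs] at this
    have e : x + t - (x - t) = 2 * t := by ring
    rw [e, abs_of_nonneg (by linarith : (0:ℝ) ≤ 2 * t)] at this
    linarith
  -- first derivative of F : g'(x+t)+g'(x-t)-2g'(x)
  have b1 : ∀ t, 0 ≤ t → |deriv g (x + t) + deriv g (x - t) - 2 * deriv g x| ≤ 2 * K * t * t := by
    intro t ht
    have hd : ∀ s : ℝ, HasDerivAt (fun s => deriv g (x + s) + deriv g (x - s) - 2 * deriv g x)
        (deriv (deriv g) (x + s) - deriv (deriv g) (x - s)) s := by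
      intro s
      have e1 : HasDerivAt (fun s => deriv g (x + s)) (deriv (deriv g) (x + s)) s :=
        (d2 (x + s)).comp_const_add x s
      have e2 : HasDerivAt (fun s => deriv g (x - s)) (-(deriv (deriv g) (x - s))) s :=
        (d2 (x - s)).comp_const_sub x s
      exact ((e1.add e2).sub_const (2 * deriv g x)).congr_deriv (by ring)
    have := Convex.norm_image_sub_le_of_norm_hasDerivWithin_le
      (f := fun s => deriv g (x + s) + deriv g (x - s) - 2 * deriv g x)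
      (f' := fun s => deriv (deriv g) (x + s) - deriv (deriv g) (x - s)) (s := Icc 0 t) (C := 2 * K * t)
      (x := 0) (y := t) (fun y _ => (hd y).hasDerivWithinAt)
      (fun y hy => by
        rw [Real.norm_eq_abs]
        exact (b2 y hy.1).trans (by have := hy.2; gcongr)) (convex_Icc 0 t)
      ⟨le_refl 0, ht⟩ ⟨ht, le_refl t⟩
    rw [Real.norm_eq_abs, Real.norm_eq_abs] at this
    simp only [sub_zero, add_zero] at this
    have e : deriv g x + deriv g x - 2 * deriv g x = 0 := by ring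
    rw [e, sub_zero, abs_of_nonneg ht] at this
    exact this
  have hd : ∀ s : ℝ, HasDerivAt (fun s => g (x + s) - g (x - s) - s * (2 * deriv g x))
      (deriv g (x + s) + deriv g (x - s) - 2 * deriv g x) s := by
    intro s
    have e1 : HasDerivAt (fun s => g (x + s)) (deriv g (x + s)) s := (d1 (x + s)).comp_const_add x s
    have e2 : HasDerivAt (fun s => g (x - s)) (-(deriv g (x - s))) s := (d1 (x - s)).comp_const_sub x s
    have e3 : HasDerivAt (fun s : ℝ => s * (2 * deriv g x)) (1 * (2 * deriv g x)) s :=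
      (hasDerivAt_id' s).mul_const (2 * deriv g x)
    exact ((e1.sub e2).sub e3).congr_deriv (by ring)
  have := Convex.norm_image_sub_le_of_norm_hasDerivWithin_le
    (f := fun s => g (x + s) - g (x - s) - s * (2 * deriv g x))
    (f' := fun s => deriv g (x + s) + deriv g (x - s) - 2 * deriv g x) (s := Icc 0 δ) (C := 2 * K * δ * δ)
    (x := 0) (y := δ) (fun y _ => (hd y).hasDerivWithinAt)
    (fun y hy => by
      rw [Real.norm_eq_abs]
      refine (b1 y hy.1).trans ?_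
      have h0 := hy.1
      have := hy.2
      gcongr) (convex_Icc 0 δ)
    ⟨le_refl 0, hδ⟩ ⟨hδ, le_refl δ⟩
  rw [Real.norm_eq_abs, Real.norm_eq_abs] at this
  simp only [sub_zero, add_zero] at this
  have e : g x - g x - 0 * (2 * deriv g x) = 0 := by ring
  rw [e, sub_zero, abs_of_nonneg hδ] at this
  rw [← abs_neg]
  have e' : -(2 * δ * deriv g x - (g (x + δ) - g (x - δ))) = g (x + δ) - g (x - δ) - δ * (2 * deriv g x) := by ring
  rw [e']
  exact this

/-- **Riemann sum lemma**: `|∑_j g'(x+δ j)| ≤ C δ`. -/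
theorem SZ_deriv_bound {g : ℝ → ℝ} (hg : Bump g) :
    ∃ C > 0, ∀ x δ : ℝ, 0 < δ → |SZ (deriv g) x δ| ≤ C * δ := by
  obtain ⟨K1, hK10, hK1⟩ := hg.deriv.bounded
  obtain ⟨K3, hK30, hK3⟩ := hg.deriv.deriv.deriv.bounded
  refine ⟨2 * K1 + 4 * K3, by positivity, fun x δ hδ => ?_⟩
  rcases le_or_gt 1 δ with h1 | h1
  · -- large δ
    have h2 := abs_tsum_le_of_supp (f := fun j : ℤ => deriv g (x + δ * j)) (K := K1) (a := 1) (b := 2) (x := x)
      (δ := δ) hδ hK10.le (by norm_num) (fun j => hK1 _) (fun j hj => hg.deriv.supp hj)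
    unfold SZ
    refine h2.trans ?_
    have h3 : ((2:ℝ) - 1) / δ ≤ 1 := by rw [div_le_one hδ]; linarith
    have h4 : K1 * ((2 - 1) / δ + 1) ≤ K1 * (1 + 1) := by gcongr
    nlinarith [mul_pos hK30 hδ]
  · -- small δ
    have hs0 : Summable (fun j : ℤ => deriv g (x + δ * j)) := SZ_summable hδ (fun y hy => hg.deriv.supp hy)
    have hs1 : Summable (fun j : ℤ => g (x + δ + δ * j)) := SZ_summable hδ (fun y hy => hg.supp hy)
    have hs2 : Summable (fun j : ℤ => g (x - δ + δ * j)) := SZ_summable hδ (fun y hy => hg.supp hy)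
    have e1 : SZ g (x + δ) δ = SZ g (x - δ) δ := by
      rw [SZ_shift]
      have := SZ_shift g (x - δ) δ
      rw [sub_add_cancel] at this
      exact this
    have e2 : 2 * δ * SZ (deriv g) x δ =
        ∑' j : ℤ, (2 * δ * deriv g (x + δ * j) - (g (x + δ + δ * j) - g (x - δ + δ * j))) := by
      rw [Summable.tsum_sub (hs0.mul_left _) (hs1.sub hs2), Summable.tsum_sub hs1 hs2, tsum_mul_left]
      have : ∑' j : ℤ, g (x + δ + δ * j) - ∑' j : ℤ, g (x - δ + δ * j) = 0 := by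
        have := e1; unfold SZ at this; rw [this, sub_self]
      rw [this, sub_zero]; rfl
    have h2 := abs_tsum_le_of_supp
      (f := fun j : ℤ => (2 * δ * deriv g (x + δ * j) - (g (x + δ + δ * j) - g (x - δ + δ * j))))
      (K := 2 * K3 * δ * δ * δ) (a := 1 - δ) (b := 2 + δ) (x := x)
      (δ := δ) hδ (by positivity) (by linarith)
      (fun j => by
        have := central_diff hg hK3 (x + δ * j) δ hδ.le
        have e : x + δ * j + δ = x + δ + δ * j := by ring
        have e' : x + δ * j - δ = x - δ + δ * j := by ring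
        rw [e, e'] at this
        exact this)
      (fun j hj => by
        by_contra hcon
        apply hj
        have c1 : deriv g (x + δ * j) = 0 := by
          by_contra h'; have := hg.deriv.supp h'
          exact hcon ⟨by linarith [this.1], by linarith [this.2]⟩
        have c2 : g (x + δ + δ * j) = 0 := by
          by_contra h'; have := hg.supp h'
          exact hcon ⟨by linarith [this.1], by linarith [this.2]⟩
        have c3 : g (x - δ + δ * j) = 0 := by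
          by_contra h'; have := hg.supp h'
          exact hcon ⟨by linarith [this.1], by linarith [this.2]⟩
        rw [c1, c2, c3]; ring)
    rw [← e2, abs_mul, abs_of_pos (by positivity : (0:ℝ) < 2 * δ)] at h2
    have h3 : (2 + δ - (1 - δ)) / δ + 1 ≤ 4 / δ := by
      rw [← sub_nonneg]
      have : 4 / δ - ((2 + δ - (1 - δ)) / δ + 1) = 3 * (1 - δ) / δ := by
        rw [eq_div_iff hδ.ne']
        field_simp
        ring
      rw [this]
      exact div_nonneg (by linarith) hδ.le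
    have h4 : 2 * K3 * δ * δ * δ * ((2 + δ - (1 - δ)) / δ + 1) ≤ 2 * K3 * δ * δ * δ * (4 / δ) := by gcongr
    have h5 : 2 * K3 * δ * δ * δ * (4 / δ) = (2 * δ) * (4 * K3 * δ) := by
      field_simp
    have h6 : 2 * δ * |SZ (deriv g) x δ| ≤ (2 * δ) * (4 * K3 * δ) := by rw [← h5]; exact h2.trans h4
    have h7 : |SZ (deriv g) x δ| ≤ 4 * K3 * δ := le_of_mul_le_mul_left h6 (by positivity)
    nlinarith [mul_pos hK10 hδ]

lemma Bump.mul_deriv_sub {g : ℝ → ℝ} (h : Bump g) : Bump (fun x => x * _root_.deriv g x - g x) := by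
  refine ⟨(contDiff_id.mul h.deriv.1).sub h.1, ?_⟩
  refine closure_minimal ?_ isClosed_Icc
  intro x hx
  rw [Function.mem_support] at hx
  by_contra hcon
  apply hx
  have c1 : _root_.deriv g x = 0 := by
    by_contra h'; exact hcon (h.deriv.supp h')
  have c2 : g x = 0 := by
    by_contra h'; exact hcon (h.supp h')
  rw [c1, c2]; ring

lemma Bump.deriv_mul_deriv_sub {g : ℝ → ℝ} (h : Bump g) (x : ℝ) :
    _root_.deriv (fun x => x * _root_.deriv g x - g x) x = x * _root_.deriv (_root_.deriv g) x := by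
  have h1 := ((hasDerivAt_id' x).mul (h.deriv.hasDerivAt x)).sub (h.hasDerivAt x)
  have h2 : HasDerivAt (fun x => x * _root_.deriv g x - g x) (x * _root_.deriv (_root_.deriv g) x) x :=
    h1.congr_deriv (by ring)
  exact h2.deriv

/-- `Gt φ c q t = ∑_j φ'((c + q j) t)` -/
def Gt (φ : ℝ → ℝ) (c q t : ℝ) : ℝ := SZ (deriv φ) (c * t) (q * t)

lemma Gt_eq (φ : ℝ → ℝ) (c q t : ℝ) : Gt φ c q t = ∑' j : ℤ, deriv φ ((c + q * j) * t) := by
  unfold Gt SZ
  refine tsum_congr fun j => ?_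
  congr 1; ring

lemma Gt_bound {φ : ℝ → ℝ} (hφ : Bump φ) :
    ∃ C > 0, ∀ c q t : ℝ, 0 < q → 0 < t → |Gt φ c q t| ≤ C * (q * t) := by
  obtain ⟨C, hC0, hC⟩ := SZ_deriv_bound hφ
  exact ⟨C, hC0, fun c q t hq ht => hC _ _ (mul_pos hq ht)⟩

lemma Gt_lipschitz {φ : ℝ → ℝ} (hφ : Bump φ) :
    ∃ C > 0, ∀ c q t t' : ℝ, 0 < q → 0 < t → t ≤ t' → |Gt φ c q t' - Gt φ c q t| ≤ C * q * (t' - t) := by
  obtain ⟨C, hC0, hC⟩ := SZ_deriv_bound hφ.mul_deriv_sub
  refine ⟨C, hC0, fun c q t t' hq ht htt => ?_⟩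
  have ht' : 0 < t' := ht.trans_le htt
  set J : Finset ℤ := Finset.Icc ⌈(1 / t' - c) / q⌉ ⌊(2 / t - c) / q⌋ with hJ
  have hmem : ∀ s ∈ Icc t t', ∀ j : ℤ, 1 ≤ (c + q * j) * s → (c + q * j) * s ≤ 2 → j ∈ J := by
    intro s hs j h1 h2
    have hs0 : 0 < s := ht.trans_le hs.1
    have hpos : 0 < c + q * j := by
      by_contra hneg
      have := mul_nonpos_of_nonpos_of_nonneg (not_lt.mp hneg) hs0.le
      linarith
    refine int_supp_finite hq (1 / t') (2 / t) j ?_ ?_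
    · rw [div_le_iff₀ ht']
      exact h1.trans (by gcongr; exact hs.2)
    · rw [le_div_iff₀ ht]
      exact le_trans (by gcongr; exact hs.1) h2
  have hsum : ∀ (f : ℝ → ℝ), (∀ x, f x ≠ 0 → 1 ≤ x ∧ x ≤ 2) → ∀ s ∈ Icc t t',
      ∑' j : ℤ, f ((c + q * j) * s) = ∑ j ∈ J, f ((c + q * j) * s) := by
    intro f hf s hs
    refine tsum_eq_sum fun j hj => ?_
    by_contra h
    exact hj (hmem s hs j (hf _ h).1 (hf _ h).2)
  have hG : ∀ s ∈ Icc t t', Gt φ c q s = ∑ j ∈ J, deriv φ ((c + q * j) * s) := by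
    intro s hs
    rw [Gt_eq]
    exact hsum _ (fun x hx => hφ.deriv.supp hx) s hs
  have hd : ∀ s : ℝ, HasDerivAt (fun s => ∑ j ∈ J, deriv φ ((c + q * j) * s))
      (∑ j ∈ J, (c + q * j) * deriv (deriv φ) ((c + q * j) * s)) s := by
    intro s
    refine HasDerivAt.fun_sum fun j _ => ?_
    have h1 : HasDerivAt (fun s : ℝ => (c + q * j) * s) ((c + q * j) * 1) s :=
      (hasDerivAt_id' s).const_mul _
    have h2 := (hφ.deriv.hasDerivAt ((c + q * j) * s)).comp s h1
    exact h2.congr_deriv (by ring)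
  have hb : ∀ s ∈ Icc t t', ‖∑ j ∈ J, (c + q * j) * deriv (deriv φ) ((c + q * j) * s)‖ ≤ C * q := by
    intro s hs
    have hs0 : 0 < s := ht.trans_le hs.1
    have h1 : s * ∑ j ∈ J, (c + q * j) * deriv (deriv φ) ((c + q * j) * s) =
        SZ (deriv (fun x => x * deriv φ x - φ x)) (c * s) (q * s) := by
      have h2 : SZ (deriv (fun x => x * deriv φ x - φ x)) (c * s) (q * s) =
          ∑' j : ℤ, deriv (fun x => x * deriv φ x - φ x) ((c + q * j) * s) := by
        unfold SZ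
        refine tsum_congr fun j => ?_
        congr 1; ring
      rw [h2, hsum _ (fun x hx => hφ.mul_deriv_sub.deriv.supp hx) s hs, Finset.mul_sum]
      refine Finset.sum_congr rfl fun j _ => ?_
      rw [hφ.deriv_mul_deriv_sub]; ring
    have h3 := hC (c * s) (q * s) (mul_pos hq hs0)
    rw [← h1, abs_mul, abs_of_pos hs0] at h3
    rw [Real.norm_eq_abs]
    have h4 : s * |∑ j ∈ J, (c + q * j) * deriv (deriv φ) ((c + q * j) * s)| ≤ s * (C * q) := by
      refine h3.trans (le_of_eq (by ring))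
    exact le_of_mul_le_mul_left h4 hs0
  have := Convex.norm_image_sub_le_of_norm_hasDerivWithin_le
    (f := fun s => ∑ j ∈ J, deriv φ ((c + q * j) * s))
    (f' := fun s => ∑ j ∈ J, (c + q * j) * deriv (deriv φ) ((c + q * j) * s)) (s := Icc t t') (C := C * q)
    (x := t) (y := t') (fun y _ => (hd y).hasDerivWithinAt) hb (convex_Icc t t')
    ⟨le_refl _, htt⟩ ⟨htt, le_refl _⟩
  rw [Real.norm_eq_abs, Real.norm_eq_abs, abs_of_nonneg (by linarith : 0 ≤ t' - t)] at this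
  rw [hG t ⟨le_refl _, htt⟩, hG t' ⟨htt, le_refl _⟩]
  exact this

lemma Gt_zero {φ : ℝ → ℝ} (hφ : Bump φ) (c q : ℤ) {t : ℝ} (ht : 2 ≤ t) : Gt φ c q t = 0 := by
  rw [Gt_eq]
  have : ∀ j : ℤ, deriv φ (((c : ℝ) + q * j) * t) = 0 := by
    intro j
    by_contra h
    have h1 := hφ.deriv.supp h
    have e : ((c : ℝ) + q * j) = ((c + q * j : ℤ) : ℝ) := by push_cast; ring
    rw [e] at h h1
    have h2 : (0 : ℝ) < ((c + q * j : ℤ) : ℝ) := by
      by_contra hneg
      have := mul_nonpos_of_nonpos_of_nonneg (not_lt.mp hneg) (by linarith : (0:ℝ) ≤ t)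
      linarith [h1.1]
    have h3 : (1 : ℝ) ≤ ((c + q * j : ℤ) : ℝ) := by
      have : (0:ℤ) < c + q * j := by exact_mod_cast h2
      exact_mod_cast this
    have h4 : ((c + q * j : ℤ) : ℝ) * t = 2 := by
      apply le_antisymm h1.2
      nlinarith
    rw [h4] at h
    exact h hφ.deriv.at_two
  rw [tsum_congr this, tsum_zero]

lemma Gt_bound2 {φ : ℝ → ℝ} (hφ : Bump φ) :
    ∃ C > 0, ∀ (c q : ℤ) (t : ℝ), 0 < q → 0 < t → |Gt φ c q t| ≤ C * (q * t) ∧ |Gt φ c q t| ≤ 2 * C * q := by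
  obtain ⟨C, hC0, hC⟩ := Gt_bound hφ
  refine ⟨C, hC0, fun c q t hq ht => ?_⟩
  have hq' : (0:ℝ) < q := by exact_mod_cast hq
  refine ⟨hC _ _ _ hq' ht, ?_⟩
  rcases le_or_gt 2 t with h | h
  · rw [Gt_zero hφ c q h, abs_zero]; positivity
  · refine (hC c q t hq' ht).trans ?_
    calc C * (q * t) ≤ C * (q * 2) := by gcongr
      _ = 2 * C * q := by ring

/-- residue classes -/
lemma tsum_residue {f : ℝ → ℝ} {t : ℝ} (ht : 0 < t) (hf : ∀ y, f y ≠ 0 → 1 ≤ y ∧ y ≤ 2) {p : ℤ} {q : ℕ} (hq : 0 < q)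
    (hpq : IsCoprime p (q : ℤ)) (b : ℤ) :
    ∑ i ∈ Finset.range q, ∑' j : ℤ, f ((((p * (i : ℤ) + b : ℤ) : ℝ) + q * j) * t) = ∑' l : ℤ, f ((l : ℝ) * t) := by
  have : NeZero q := ⟨hq.ne'⟩
  set P : ℤ → ℝ := fun a => ∑' j : ℤ, f (((a : ℝ) + q * j) * t) with hP
  have hper : ∀ a m : ℤ, P (a + q * m) = P a := by
    intro a m
    rw [hP]
    simp only
    rw [← (Equiv.addLeft m).tsum_eq (fun j : ℤ => f (((a : ℝ) + q * j) * t))]
    refine tsum_congr fun j => ?_
    congr 2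
    simp only [Equiv.coe_addLeft]
    push_cast; ring
  set Q : ZMod q → ℝ := fun x => P (x.val : ℤ) with hQ
  have hPQ : ∀ a : ℤ, P a = Q (a : ZMod q) := by
    intro a
    rw [hQ]
    simp only
    rw [ZMod.val_intCast]
    conv_lhs => rw [← Int.emod_add_mul_ediv a q]
    exact hper _ _
  have hsumQ : ∀ g : ZMod q → ℝ, ∑ i ∈ Finset.range q, g ((i : ℕ) : ZMod q) = ∑ x : ZMod q, g x := by
    intro g
    refine Finset.sum_nbij' (fun i => ((i : ℕ) : ZMod q)) (fun x => x.val) ?_ ?_ ?_ ?_ ?_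
    · intro i _; exact Finset.mem_univ _
    · intro x _; exact Finset.mem_range.mpr (ZMod.val_lt x)
    · intro i hi; exact ZMod.val_cast_of_lt (Finset.mem_range.mp hi)
    · intro x _; exact ZMod.natCast_zmod_val x
    · intro i _; rfl
  have hunit : IsUnit ((p : ℤ) : ZMod q) := by
    obtain ⟨u, v, huv⟩ := hpq
    have := congrArg (fun z : ℤ => (z : ZMod q)) huv
    push_cast at this
    rw [ZMod.natCast_self, mul_zero, add_zero] at this
    exact IsUnit.of_mul_eq_one _ (by rw [mul_comm]; exact this)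
  have e1 : ∑ i ∈ Finset.range q, ∑' j : ℤ, f ((((p * (i : ℤ) + b : ℤ) : ℝ) + q * j) * t) =
      ∑ i ∈ Finset.range q, Q ((p : ZMod q) * ((i : ℕ) : ZMod q) + (b : ZMod q)) := by
    refine Finset.sum_congr rfl fun i _ => ?_
    have := hPQ (p * (i : ℤ) + b)
    push_cast at this
    rw [← this, hP]
  have e2 : ∑' l : ℤ, f ((l : ℝ) * t) = ∑ i ∈ Finset.range q, Q ((i : ℕ) : ZMod q) := by
    have h1 : ∀ i ∈ Finset.range q, Q ((i : ℕ) : ZMod q) = ∑' j : ℤ, f (((i : ℝ) + q * j) * t) := by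
      intro i hi
      rw [hQ]
      simp only
      rw [ZMod.val_cast_of_lt (Finset.mem_range.mp hi)]
      rfl
    rw [Finset.sum_congr rfl h1]
    have hs : ∀ i : ℕ, Summable (fun j : ℤ => f (((i : ℝ) + q * j) * t)) := by
      intro i
      have hqt : 0 < (q:ℝ) * t := mul_pos (by exact_mod_cast hq) ht
      have := SZ_summable (x := i * t) hqt hf
      refine this.congr fun j => ?_
      congr 1; ring
    have hS : Summable (fun z : ℤ × Fin q => f (((z.2 : ℕ) + q * (z.1 : ℝ)) * t)) := by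
      have h0 : Summable (fun l : ℤ => f ((l : ℝ) * t)) := by
        have := SZ_summable (x := 0) ht hf
        refine this.congr fun j => ?_
        congr 1; ring
      have := (Int.divModEquiv q).symm.summable_iff.mpr h0
      refine this.congr fun z => ?_
      simp only [Function.comp]
      congr 2
      rw [Int.divModEquiv_symm_apply]
      push_cast
      ring
    rw [← (Int.divModEquiv q).symm.tsum_eq (fun l : ℤ => f ((l : ℝ) * t))]
    have e3 : ∀ z : ℤ × Fin q, f ((((Int.divModEquiv q).symm z : ℤ) : ℝ) * t) =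
        f (((z.2 : ℕ) + q * (z.1 : ℝ)) * t) := by
      intro z
      congr 2
      rw [Int.divModEquiv_symm_apply]
      push_cast
      ring
    rw [tsum_congr e3, hS.tsum_prod]
    have e4 : ∀ b : ℤ, ∑' c : Fin q, f ((((b, c) : ℤ × Fin q).2 + q * (((b, c) : ℤ × Fin q).1 : ℝ)) * t) =
        ∑ i ∈ Finset.range q, f (((i : ℝ) + q * b) * t) := by
      intro b
      rw [tsum_fintype, Finset.sum_range]
    rw [tsum_congr e4]
    exact Summable.tsum_finsetSum (fun i _ => hs i)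
  rw [e1, e2, hsumQ Q, hsumQ (fun x => Q ((p : ZMod q) * x + (b : ZMod q)))]
  have hbij : Function.Bijective (fun x : ZMod q => (p : ZMod q) * x + (b : ZMod q)) := by
    rw [← Finite.injective_iff_bijective]
    intro x y hxy
    simp only [add_left_inj] at hxy
    exact hunit.mul_left_cancel hxy
  exact Function.Bijective.sum_comp hbij Q

lemma W_eq_Gt (φ : ℝ → ℝ) (v : ℝ) : W φ v = Gt φ 0 1 (1 / v) := by
  rw [Gt_eq]
  unfold W
  refine tsum_congr fun j => ?_
  congr 1; ring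

lemma W_neg (φ : ℝ → ℝ) (v : ℝ) : W φ (-v) = W φ v := by
  unfold W
  rw [← (Equiv.neg ℤ).tsum_eq (fun l : ℤ => deriv φ ((l : ℝ) / v))]
  refine tsum_congr fun j => ?_
  congr 1
  simp only [Equiv.neg_apply]
  push_cast
  rw [div_neg, neg_div]

theorem W_bound' {φ : ℝ → ℝ} (hφ : Bump φ) : ∃ C > 0, ∀ v : ℝ, 0 < v → |W φ v| ≤ C / v := by
  obtain ⟨C, hC0, hC⟩ := Gt_bound hφ
  refine ⟨C, hC0, fun v hv => ?_⟩
  rw [W_eq_Gt]
  refine (hC 0 1 (1 / v) one_pos (by positivity)).trans (le_of_eq (by ring))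

theorem W_zero' {φ : ℝ → ℝ} (hφ : Bump φ) {v : ℝ} (hv0 : 0 ≤ v) (hv : v ≤ 1 / 2) : W φ v = 0 := by
  rcases hv0.eq_or_lt with h | h
  · rw [← h]
    unfold W
    have : ∀ l : ℤ, deriv φ ((l : ℝ) / 0) = 0 := by
      intro l
      rw [div_zero]
      by_contra h'
      have := hφ.deriv.supp h'
      linarith [this.1]
    rw [tsum_congr this, tsum_zero]
  · rw [W_eq_Gt]
    have := Gt_zero hφ 0 1 (t := 1 / v) (by rw [le_div_iff₀ h]; linarith)
    simpa using this

lemma W_zero_abs {φ : ℝ → ℝ} (hφ : Bump φ) {v : ℝ} (hv : |v| ≤ 1 / 2) : W φ v = 0 := by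
  rcases le_or_gt 0 v with h | h
  · rw [abs_of_nonneg h] at hv; exact W_zero' hφ h hv
  · rw [abs_of_neg h] at hv
    rw [← W_neg]; exact W_zero' hφ (by linarith) hv

lemma Gt_continuousOn {φ : ℝ → ℝ} (hφ : Bump φ) (c : ℝ) {q : ℝ} (hq : 0 < q) : ContinuousOn (Gt φ c q) (Ioi 0) := by
  obtain ⟨C, hC0, hC⟩ := Gt_lipschitz hφ
  have : LipschitzOnWith (Real.toNNReal (C * q)) (Gt φ c q) (Ioi 0) := by
    refine LipschitzOnWith.of_dist_le_mul fun x hx y hy => ?_
    rw [Real.coe_toNNReal _ (by positivity), Real.dist_eq, Real.dist_eq]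
    rcases le_total x y with h | h
    · rw [abs_sub_comm, abs_sub_comm x y, abs_of_nonneg (by linarith : 0 ≤ y - x)]
      exact hC c q x y hq hx h
    · rw [abs_of_nonneg (by linarith : 0 ≤ x - y)]
      exact hC c q y x hq hy h
  exact this.continuousOn

theorem W_continuous {φ : ℝ → ℝ} (hφ : Bump φ) : Continuous (W φ) := by
  have hpos : ∀ v : ℝ, 0 < v → ContinuousAt (W φ) v := by
    intro v hv
    have h1 : ContinuousAt (Gt φ 0 1) (1 / v) :=
      (Gt_continuousOn hφ 0 one_pos).continuousAt (Ioi_mem_nhds (by positivity))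
    have h2 : ContinuousAt (fun v : ℝ => 1 / v) v := by
      refine ContinuousAt.div continuousAt_const continuousAt_id hv.ne'
    have h3 : W φ = (Gt φ 0 1) ∘ (fun v : ℝ => 1 / v) := by
      funext x; exact W_eq_Gt φ x
    rw [h3]
    exact ContinuousAt.comp h1 h2
  rw [continuous_iff_continuousAt]
  intro v
  rcases lt_trichotomy v 0 with h | h | h
  · have h1 := hpos (-v) (by linarith)
    have h3 : W φ = (W φ) ∘ (fun v : ℝ => -v) := by
      funext x; exact (W_neg φ x).symm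
    rw [h3]
    exact ContinuousAt.comp h1 continuous_neg.continuousAt
  · rw [h]
    have : W φ =ᶠ[𝓝 0] fun _ => 0 := by
      have : Ioo (-(1/2) : ℝ) (1/2) ∈ 𝓝 (0:ℝ) := Ioo_mem_nhds (by norm_num) (by norm_num)
      filter_upwards [this] with x hx
      exact W_zero_abs hφ (abs_le.mpr ⟨hx.1.le, hx.2.le⟩)
    exact (continuousAt_const.congr this.symm)
  · exact hpos v h

lemma W_bounded {φ : ℝ → ℝ} (hφ : Bump φ) : ∃ C > 0, ∀ v : ℝ, |W φ v| ≤ C ∧ |v| * |W φ v| ≤ C := by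
  obtain ⟨C, hC0, hC⟩ := W_bound' hφ
  have key : ∀ v : ℝ, 0 ≤ v → |W φ v| ≤ 2 * C ∧ v * |W φ v| ≤ 2 * C := by
    intro v hv0
    rcases le_or_gt v (1/2) with h | h
    · rw [W_zero' hφ hv0 h, abs_zero]; constructor <;> nlinarith
    · have hv : 0 < v := by linarith
      have h1 := hC v hv
      constructor
      · refine h1.trans ?_
        rw [div_le_iff₀ hv]; nlinarith
      · rw [le_div_iff₀ hv] at h1
        nlinarith
  refine ⟨2 * C, by positivity, fun v => ?_⟩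
  rcases le_total 0 v with h | h
  · rw [abs_of_nonneg h]; exact key v h
  · rw [abs_of_nonpos h, ← W_neg]; exact key (-v) (by linarith)

theorem W_bound {φ : ℝ → ℝ} (hφ : ContDiff ℝ ∞ φ) (hs : tsupport φ ⊆ Icc 1 2) :
    ∃ C > 0, ∀ v : ℝ, 0 < v → |W φ v| ≤ C / v := W_bound' ⟨hφ, hs⟩

theorem W_zero {φ : ℝ → ℝ} (hφ : ContDiff ℝ ∞ φ) (hs : tsupport φ ⊆ Icc 1 2) {v : ℝ} (hv0 : 0 ≤ v)
    (hv : v ≤ 1/2) : W φ v = 0 := W_zero' ⟨hφ, hs⟩ hv0 hv

theorem W_measurable {φ : ℝ → ℝ} (hφ : ContDiff ℝ ∞ φ) (hs : tsupport φ ⊆ Icc 1 2) :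
    Measurable (W φ) := (W_continuous ⟨hφ, hs⟩).measurable

lemma Om_zero {φ : ℝ → ℝ} (hφ : Bump φ) {y : ℝ} (hy0 : 0 ≤ y) (hy : y ≤ 1/2) : Om φ y = 0 := by
  unfold Om
  rw [intervalIntegral.integral_congr (g := fun _ => (0:ℝ)), intervalIntegral.integral_zero]
  intro v hv
  rw [uIcc_of_le hy0] at hv
  exact W_zero' hφ hv.1 (hv.2.trans hy)

lemma Om_continuous {φ : ℝ → ℝ} (hφ : Bump φ) : Continuous (Om φ) := by
  unfold Om
  exact intervalIntegral.continuous_primitive (fun a b => (W_continuous hφ).intervalIntegrable a b) 0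

lemma Om_sub {φ : ℝ → ℝ} (hφ : Bump φ) (x y : ℝ) : Om φ y - Om φ x = ∫ v in x..y, W φ v := by
  unfold Om
  rw [intervalIntegral.integral_interval_sub_left ((W_continuous hφ).intervalIntegrable _ _)
    ((W_continuous hφ).intervalIntegrable _ _)]

lemma mOm_eq_sum {φ : ℝ → ℝ} (hφ : Bump φ) {X : ℝ} (hX : 0 ≤ X) {N : ℕ} (hN : 2 * X ≤ N + 1) :
    mOm φ X = ∑ k ∈ Finset.Icc 1 N, mu k * Om φ (X / k) := by
  unfold mOm
  refine tsum_eq_sum fun k hk => ?_
  rw [Finset.mem_Icc, not_and_or] at hk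
  rcases hk with hk | hk
  · have : k = 0 := by omega
    subst this
    unfold mu
    simp
  · have h1 : ((N:ℝ) + 1) ≤ k := by
      have : N + 1 ≤ k := by omega
      exact_mod_cast this
    have hk0 : (0:ℝ) < k := by
      have : 0 < k := by omega
      exact_mod_cast this
    rw [Om_zero hφ (by positivity) (by rw [div_le_iff₀ hk0]; linarith), mul_zero]

end

end Pool.Agent.H295R2
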