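import Pool.Agent.H295R2.T4d
import Pool.Agent.H295R2.W

set_option autoImplicit false

open MeasureTheory Filter Topology Set
open scoped ContDiff

namespace Pool.Agent.H295R2

noncomputable section

/-- `u ↦ W(e^u) e^u` -/
def K0 (φ : ℝ → ℝ) (u : ℝ) : ℂ := ((W φ (Real.exp u) * Real.exp u : ℝ) : ℂ)

/-- `u ↦ Om(e^u)` -/
def K1 (φ : ℝ → ℝ) (u : ℝ) : ℂ := ((Om φ (Real.exp u) : ℝ) : ℂ)

/-- `u ↦ φ'(e^{-u}) e^u` -/
def Kp (φ : ℝ → ℝ) (u : ℝ) : ℂ := ((deriv φ (Real.exp (-u)) * Real.exp u : ℝ) : ℂ)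

/-- The weight used in the abstract Omega theorem -/
def gOm (φ : ℝ → ℝ) (y : ℝ) : ℝ := Om φ (max y 0)

lemma exp_lt_half {u : ℝ} (hu : u < Real.log (1 / 2)) : Real.exp u < 1 / 2 := by
  have := Real.exp_lt_exp.2 hu
  rwa [Real.exp_log (by norm_num)] at this

lemma K0_nice {φ : ℝ → ℝ} (hφ : Bump φ) : ∃ C : ℝ, Nice (K0 φ) C 0 (Real.log (1 / 2)) := by
  obtain ⟨C, hC0, hC⟩ := W_bounded hφ
  refine ⟨C, ?_, ?_, ?_⟩
  · unfold K0
    exact Complex.measurable_ofReal.comp
      (((W_continuous hφ).measurable.comp Real.measurable_exp).mul Real.measurable_exp)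
  · intro u
    unfold K0
    rw [Complex.norm_real, Real.norm_eq_abs, abs_mul, zero_mul, Real.exp_zero, mul_one, mul_comm]
    exact (hC _).2
  · intro u hu
    unfold K0
    rw [W_zero' hφ (Real.exp_pos u).le (exp_lt_half hu).le]
    simp

lemma Om_bound {φ : ℝ → ℝ} (hφ : Bump φ) : ∃ C : ℝ, 0 < C ∧ ∀ y : ℝ, 0 < y → |Om φ y| ≤ C * y ^ (1 / 4 : ℝ) := by
  obtain ⟨C, hC0, hC⟩ := W_bound' hφ
  refine ⟨C * 8, by positivity, fun y hy => ?_⟩
  rcases le_or_gt y (1 / 2) with h | h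
  · rw [Om_zero hφ hy.le h, abs_zero]; positivity
  · have h1 : Om φ y = ∫ v in (1 / 2 : ℝ)..y, W φ v := by
      rw [← Om_sub hφ, Om_zero hφ (by norm_num) le_rfl, sub_zero]
    rw [h1, ← Real.norm_eq_abs]
    have h2 : ‖∫ v in (1 / 2 : ℝ)..y, W φ v‖ ≤ ∫ v in (1 / 2 : ℝ)..y, C * v⁻¹ := by
      apply intervalIntegral.norm_integral_le_of_norm_le h.le
      · refine Eventually.of_forall fun v hv => ?_
        rw [Real.norm_eq_abs, ← div_eq_mul_inv]
        exact hC v (by linarith [hv.1])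
      · apply ContinuousOn.intervalIntegrable
        intro v hv
        rw [uIcc_of_le h.le] at hv
        exact (continuousAt_const.mul (continuousAt_inv₀ (by linarith [hv.1] : (0:ℝ) < v).ne')).continuousWithinAt
    rw [intervalIntegral.integral_const_mul, integral_inv_of_pos (by norm_num) hy] at h2
    refine h2.trans ?_
    have h3 : Real.log (y / (1 / 2)) = 4 * Real.log ((2 * y) ^ (1 / 4 : ℝ)) := by
      rw [Real.log_rpow (by positivity)]
      have : y / (1 / 2) = 2 * y := by ring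
      rw [this]; ring
    have h4 : Real.log ((2 * y) ^ (1 / 4 : ℝ)) ≤ (2 * y) ^ (1 / 4 : ℝ) := by
      have := Real.log_le_sub_one_of_pos (x := (2 * y) ^ (1 / 4 : ℝ)) (by positivity)
      linarith
    have h5 : (2 * y) ^ (1 / 4 : ℝ) ≤ 2 * y ^ (1 / 4 : ℝ) := by
      rw [Real.mul_rpow (by norm_num) hy.le]
      have : (2:ℝ) ^ (1 / 4 : ℝ) ≤ 2 ^ (1:ℝ) := Real.rpow_le_rpow_of_exponent_le (by norm_num) (by norm_num)
      rw [Real.rpow_one] at this
      gcongr
    rw [h3]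
    calc C * (4 * Real.log ((2 * y) ^ (1 / 4 : ℝ))) ≤ C * (4 * (2 * y ^ (1 / 4 : ℝ))) := by
          have := h4.trans h5
          gcongr
      _ = C * 8 * y ^ (1 / 4 : ℝ) := by ring

lemma K1_nice {φ : ℝ → ℝ} (hφ : Bump φ) : ∃ C : ℝ, Nice (K1 φ) C (1 / 4) (Real.log (1 / 2)) := by
  obtain ⟨C, hC0, hC⟩ := Om_bound hφ
  refine ⟨C, ?_, ?_, ?_⟩
  · unfold K1
    exact Complex.measurable_ofReal.comp ((Om_continuous hφ).measurable.comp Real.measurable_exp)
  · intro u
    unfold K1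
    rw [Complex.norm_real, Real.norm_eq_abs]
    have := hC (Real.exp u) (Real.exp_pos u)
    rw [← Real.exp_mul, mul_comm u] at this
    exact this
  · intro u hu
    unfold K1
    rw [Om_zero hφ (Real.exp_pos u).le (exp_lt_half hu).le]
    simp

lemma gOm_WG {φ : ℝ → ℝ} (hφ : Bump φ) : ∃ C : ℝ, WG (gOm φ) C := by
  obtain ⟨C, hC0, hC⟩ := Om_bound hφ
  refine ⟨C, ?_, ?_, ?_⟩
  · unfold gOm
    exact (Om_continuous hφ).measurable.comp (by fun_prop)
  · intro y hy
    unfold gOm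
    rw [max_eq_left hy.le]
    exact hC y hy
  · intro y hy
    unfold gOm
    exact Om_zero hφ (le_max_right _ _) (max_le hy (by norm_num))

lemma GG_gOm {φ : ℝ → ℝ} {X : ℝ} (hX : 0 ≤ X) : GG (gOm φ) X = mOm φ X := by
  unfold GG mOm gOm
  refine tsum_congr fun k => ?_
  rw [max_eq_left (by positivity)]

lemma hasDerivAt_K1 {φ : ℝ → ℝ} (hφ : Bump φ) (u : ℝ) : HasDerivAt (K1 φ) (K0 φ u) u := by
  unfold K1 K0
  have h1 : HasDerivAt (Om φ) (W φ (Real.exp u)) (Real.exp u) := by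
    unfold Om
    exact (W_continuous hφ).integral_hasStrictDerivAt 0 _ |>.hasDerivAt
  have h2 : HasDerivAt (fun u => Om φ (Real.exp u)) (W φ (Real.exp u) * Real.exp u) u :=
    HasDerivAt.comp u h1 (Real.hasDerivAt_exp u)
  exact h2.ofReal_comp

/-- `Lap K0 = s Lap K1` -/
lemma Lap_K0 {φ : ℝ → ℝ} (hφ : Bump φ) {s : ℂ} (hs : 1 / 4 < s.re) : Lap (K0 φ) s = s * Lap (K1 φ) s := by
  obtain ⟨C0, h0⟩ := K0_nice hφ
  obtain ⟨C1, h1⟩ := K1_nice hφ
  have i0 := h0.integrable (s := s) (by linarith)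
  have i1 := h1.integrable (s := s) hs
  have hv : ∀ x : ℝ, HasDerivAt (fun x : ℝ => Complex.exp (-(s * x))) (-s * Complex.exp (-(s * x))) x := by
    intro x
    have h3 : HasDerivAt (fun z : ℂ => -(s * z)) (-s) (x : ℂ) := by
      have := ((hasDerivAt_id (x : ℂ)).const_mul s).neg
      rw [mul_one] at this
      exact this
    have h4 := (h3.cexp).comp_ofReal
    refine h4.congr_deriv ?_
    ring
  have key := integral_mul_deriv_eq_deriv_mul_of_integrable
    (u := K1 φ) (v := fun x : ℝ => Complex.exp (-(s * x))) (u' := K0 φ)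
    (v' := fun x : ℝ => -s * Complex.exp (-(s * x)))
    (fun x _ => hasDerivAt_K1 hφ x) (fun x _ => hv x) ?_ i0 i1
  · unfold Lap
    have e1 : ∫ x : ℝ, K1 φ x * (-s * Complex.exp (-(s * x))) = -s * ∫ x : ℝ, K1 φ x * Complex.exp (-(s * x)) := by
      rw [← integral_const_mul]
      congr 1
      ext x; ring
    rw [e1] at key
    linear_combination key
  · refine (i1.const_mul (-s)).congr (Eventually.of_forall fun x => ?_)
    simp only [Pi.mul_apply]
    ring

lemma change_exp_neg (F : ℝ → ℂ) : ∫ x in Ioi (0:ℝ), F x = ∫ u : ℝ, (Real.exp (-u) : ℂ) * F (Real.exp (-u)) := by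
  have himg : (fun u : ℝ => Real.exp (-u)) '' univ = Ioi 0 := by
    ext x
    simp only [image_univ, mem_range, mem_Ioi]
    constructor
    · rintro ⟨u, rfl⟩; exact Real.exp_pos _
    · intro hx
      exact ⟨-Real.log x, by simp [Real.exp_log hx]⟩
  have hd : ∀ u ∈ (univ : Set ℝ), HasDerivWithinAt (fun u : ℝ => Real.exp (-u)) (-Real.exp (-u)) univ u := by
    intro u _
    have : HasDerivAt (fun u : ℝ => Real.exp (-u)) (Real.exp (-u) * (-1)) u :=
      (hasDerivAt_id u).neg.exp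
    refine (this.congr_deriv (by ring)).hasDerivWithinAt
  have hinj : InjOn (fun u : ℝ => Real.exp (-u)) univ := by
    intro a _ b _ hab
    have := Real.exp_injective hab
    linarith
  have h := integral_image_eq_integral_abs_deriv_smul MeasurableSet.univ hd hinj F
  rw [himg] at h
  rw [h, setIntegral_univ]
  congr 1
  ext u
  rw [abs_neg, abs_of_pos (Real.exp_pos _), Complex.real_smul]

lemma om_eq_Lap {φ : ℝ → ℝ} (s : ℂ) : om (gOm φ) s = Lap (K1 φ) s := by
  unfold om Lap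
  rw [change_exp_neg]
  congr 1
  ext u
  have e1 : 1 / Real.exp (-u) = Real.exp u := by rw [Real.exp_neg]; simp
  rw [e1]
  unfold gOm K1
  rw [max_eq_left (Real.exp_pos u).le]
  have e2 : ((Real.exp (-u) : ℝ) : ℂ) ^ (s - 1) = Complex.exp (-(s * u)) * Complex.exp u := by
    rw [Complex.ofReal_exp, ← Complex.exp_add]
    rw [show ((-u : ℝ) : ℂ) = -(u : ℂ) by push_cast; ring]
    rw [← Complex.exp_log (Complex.exp_ne_zero (-(u:ℂ))), ← Complex.ofReal_neg, ← Complex.ofReal_exp,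
      ← Complex.ofReal_log (Real.exp_pos _).le, Real.log_exp, ← Complex.ofReal_exp,
      Complex.cpow_def_of_ne_zero (by exact_mod_cast (Real.exp_pos _).ne'),
      ← Complex.ofReal_log (Real.exp_pos _).le, Real.log_exp]
    congr 1
    push_cast
    ring
  rw [e2]
  have e3 : ((Real.exp (-u) : ℝ) : ℂ) * Complex.exp u = 1 := by
    rw [Complex.ofReal_exp, ← Complex.exp_add]
    push_cast
    simp
  calc ((Real.exp (-u) : ℝ) : ℂ) * (((Om φ (Real.exp u) : ℝ) : ℂ) * (Complex.exp (-(s * u)) * Complex.exp u))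
      = ((Om φ (Real.exp u) : ℝ) : ℂ) * Complex.exp (-(s * u)) * (((Real.exp (-u) : ℝ) : ℂ) * Complex.exp u) := by ring
    _ = _ := by rw [e3, mul_one]

end

end Pool.Agent.H295R2
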