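import Pool.Agent.H295R2.T4e

set_option autoImplicit false

open MeasureTheory Filter Topology Set
open scoped ContDiff

namespace Pool.Agent.H295R2

noncomputable section

lemma Kp_nice {φ : ℝ → ℝ} (hφ : Bump φ) : ∃ C : ℝ, Nice (Kp φ) C 0 (-1) := by
  obtain ⟨K, hK0, hK⟩ := hφ.deriv.bounded
  refine ⟨K, ?_, ?_, ?_⟩
  · unfold Kp
    exact Complex.measurable_ofReal.comp
      ((hφ.deriv.1.continuous.measurable.comp (Real.measurable_exp.comp measurable_neg)).mul Real.measurable_exp)
  · intro u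
    unfold Kp
    rw [Complex.norm_real, Real.norm_eq_abs, abs_mul, zero_mul, Real.exp_zero, mul_one,
      abs_of_pos (Real.exp_pos u)]
    by_cases h : deriv φ (Real.exp (-u)) = 0
    · rw [h, abs_zero, zero_mul]; exact hK0.le
    · have h1 := hφ.deriv.supp h
      have h2 : Real.exp u ≤ 1 := by
        rw [Real.exp_le_one_iff]
        have := h1.1
        rw [Real.one_le_exp_iff] at this
        linarith
      calc |deriv φ (Real.exp (-u))| * Real.exp u ≤ K * 1 := by
            gcongr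
            exact hK _
        _ = K := mul_one K
  · intro u hu
    unfold Kp
    have h : deriv φ (Real.exp (-u)) = 0 := by
      by_contra h
      have h1 := (hφ.deriv.supp h).2
      have h2 : (2:ℝ) < Real.exp 1 := by
        have := Real.exp_one_gt_d9
        linarith
      have h3 : Real.exp 1 < Real.exp (-u) := Real.exp_lt_exp.2 (by linarith)
      linarith
    rw [h]; simp

lemma W_exp_eq {φ : ℝ → ℝ} (hφ : Bump φ) (u : ℝ) :
    W φ (Real.exp u) = ∑' n : ℕ, deriv φ ((n : ℝ) / Real.exp u) := by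
  unfold W
  have h := Function.Injective.tsum_eq (g := fun n : ℕ => (n : ℤ)) (f := fun l : ℤ => deriv φ ((l : ℝ) / Real.exp u))
    Nat.cast_injective ?_
  · rw [← h]
    simp
  · intro l hl
    rw [Function.mem_support] at hl
    have h1 := (hφ.deriv.supp hl).1
    have h2 : (0:ℝ) < l := by
      rw [le_div_iff₀ (Real.exp_pos u)] at h1
      have := Real.exp_pos u
      linarith
    have h3 : 0 < l := by exact_mod_cast h2
    exact ⟨l.toNat, by simp [h3.le]⟩

/-- terms of the Dirichlet series -/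
def Fn (φ : ℝ → ℝ) (s : ℂ) (n : ℕ) (u : ℝ) : ℂ :=
  ((deriv φ ((n : ℝ) / Real.exp u) * Real.exp u : ℝ) : ℂ) * Complex.exp (-(s * u))

lemma Fn_zero {φ : ℝ → ℝ} (hφ : Bump φ) (s : ℂ) (u : ℝ) : Fn φ s 0 u = 0 := by
  unfold Fn
  have h : deriv φ (((0:ℕ) : ℝ) / Real.exp u) = 0 := by
    by_contra h
    have h1 := (hφ.deriv.supp h).1
    simp at h1
    linarith
  rw [h]; simp

lemma Fn_eq {φ : ℝ → ℝ} (s : ℂ) {n : ℕ} (hn : 1 ≤ n) (u : ℝ) :
    Fn φ s n u = (1 / (n : ℂ) ^ (s - 1)) * (Kp φ (u - Real.log n) * Complex.exp (-(s * ((u - Real.log n : ℝ) : ℂ)))) := by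
  have hn0 : (0:ℝ) < n := by exact_mod_cast hn
  have hnc : (n : ℂ) ≠ 0 := by exact_mod_cast hn0.ne'
  unfold Fn Kp
  have e1 : Real.exp (-(u - Real.log n)) = n / Real.exp u := by
    rw [neg_sub, Real.exp_sub, Real.exp_log hn0]
  have e2 : Real.exp (u - Real.log n) = Real.exp u / n := by
    rw [Real.exp_sub, Real.exp_log hn0]
  have e3 : Complex.exp (-(s * ((u - Real.log n : ℝ) : ℂ))) = Complex.exp (-(s * u)) * (n : ℂ) ^ s := by
    rw [Complex.cpow_def_of_ne_zero hnc, ← Complex.exp_add]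
    congr 1
    rw [← Complex.ofReal_natCast, ← Complex.ofReal_log hn0.le]
    push_cast
    ring
  rw [e1, e2, e3]
  have e4 : (n : ℂ) ^ s = (n : ℂ) ^ (s - 1) * n := by
    rw [Complex.cpow_sub _ _ hnc, Complex.cpow_one]
    field_simp
  rw [e4]
  have hne : (n : ℂ) ^ (s - 1) ≠ 0 := by
    rw [Complex.cpow_ne_zero_iff]
    exact Or.inl hnc
  push_cast
  field_simp

lemma cn_norm {s : ℂ} (n : ℕ) (hs : 2 < s.re) : ‖(1 / (n : ℂ) ^ (s - 1))‖ = (n : ℝ) ^ (1 - s.re) := by
  rcases Nat.eq_zero_or_pos n with h0 | h0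
  · subst h0
    have h1 : s - 1 ≠ 0 := by
      intro h
      have := congrArg Complex.re h
      simp at this
      linarith
    rw [Nat.cast_zero, Complex.zero_cpow h1, Nat.cast_zero, Real.zero_rpow (by linarith)]
    simp
  · have hn0 : (0:ℝ) < n := by exact_mod_cast h0
    rw [norm_div, norm_one, Complex.norm_natCast_cpow_of_pos h0, Complex.sub_re, Complex.one_re,
      one_div, ← Real.rpow_neg hn0.le]
    ring_nf

theorem Lap_K0_series {φ : ℝ → ℝ} (hφ : Bump φ) {s : ℂ} (hs : 2 < s.re) :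
    Lap (K0 φ) s = riemannZeta (s - 1) * Lap (Kp φ) s := by
  obtain ⟨C, hN⟩ := Kp_nice hφ
  have hH : Integrable (fun u : ℝ => Kp φ u * Complex.exp (-(s * u))) := hN.integrable (by linarith)
  have hshift : ∀ a : ℝ, Integrable (fun u : ℝ => Kp φ (u - a) * Complex.exp (-(s * ((u - a : ℝ) : ℂ)))) :=
    fun a => hH.comp_sub_right a
  have hint : ∀ n : ℕ, Integrable (Fn φ s n) := by
    intro n
    rcases Nat.eq_zero_or_pos n with h0 | h0
    · subst h0
      have : Fn φ s 0 = fun _ => 0 := funext fun u => Fn_zero hφ s u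
      rw [this]; exact integrable_zero _ _ _
    · have : Fn φ s n = fun u => (1 / (n : ℂ) ^ (s - 1)) * (Kp φ (u - Real.log n) * Complex.exp (-(s * ((u - Real.log n : ℝ) : ℂ)))) :=
        funext fun u => Fn_eq s h0 u
      rw [this]
      exact (hshift _).const_mul _
  have hval : ∀ n : ℕ, ∫ u, Fn φ s n u = (1 / (n : ℂ) ^ (s - 1)) * Lap (Kp φ) s := by
    intro n
    rcases Nat.eq_zero_or_pos n with h0 | h0
    · subst h0
      have : Fn φ s 0 = fun _ => 0 := funext fun u => Fn_zero hφ s u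
      rw [this, integral_zero]
      have h1 : s - 1 ≠ 0 := by
        intro h
        have := congrArg Complex.re h
        simp at this
        linarith
      rw [Nat.cast_zero, Complex.zero_cpow h1]
      simp
    · have : Fn φ s n = fun u => (1 / (n : ℂ) ^ (s - 1)) * (Kp φ (u - Real.log n) * Complex.exp (-(s * ((u - Real.log n : ℝ) : ℂ)))) :=
        funext fun u => Fn_eq s h0 u
      rw [this, integral_const_mul]
      congr 1
      exact integral_sub_right_eq_self (fun u : ℝ => Kp φ u * Complex.exp (-(s * u))) (Real.log n)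
  have hnorm : ∀ n : ℕ, ∫ u, ‖Fn φ s n u‖ = (n : ℝ) ^ (1 - s.re) * ∫ u : ℝ, ‖Kp φ u * Complex.exp (-(s * u))‖ := by
    intro n
    rcases Nat.eq_zero_or_pos n with h0 | h0
    · subst h0
      have : Fn φ s 0 = fun _ => 0 := funext fun u => Fn_zero hφ s u
      rw [this]
      simp only [norm_zero, integral_zero, Nat.cast_zero]
      rw [Real.zero_rpow (by linarith), zero_mul]
    · have : ∀ u, ‖Fn φ s n u‖ = (n : ℝ) ^ (1 - s.re) * ‖Kp φ (u - Real.log n) * Complex.exp (-(s * ((u - Real.log n : ℝ) : ℂ)))‖ := by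
        intro u
        rw [Fn_eq s h0 u, norm_mul, cn_norm n hs]
      simp_rw [this]
      rw [integral_const_mul]
      congr 1
      exact integral_sub_right_eq_self (fun u : ℝ => ‖Kp φ u * Complex.exp (-(s * u))‖) (Real.log n)
  have hsum : Summable (fun n : ℕ => ∫ u, ‖Fn φ s n u‖) := by
    simp_rw [hnorm]
    exact (Real.summable_nat_rpow.2 (by linarith)).mul_right _
  have h1 := integral_tsum_of_summable_integral_norm hint hsum
  have h2 : Lap (K0 φ) s = ∫ u, ∑' n : ℕ, Fn φ s n u := by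
    unfold Lap
    congr 1
    ext u
    unfold K0 Fn
    rw [tsum_mul_right, W_exp_eq hφ, ← tsum_mul_right]
    congr 1
    exact Complex.ofReal_tsum _
  rw [h2, ← h1]
  simp_rw [hval]
  rw [tsum_mul_right, zeta_eq_tsum_one_div_nat_cpow (by simp; linarith)]

/-- analytic continuation to `Re s > 0` -/
theorem Lap_K0_eq {φ : ℝ → ℝ} (hφ : Bump φ) {s : ℂ} (hs : 0 < s.re) :
    (s - 2) * Lap (K0 φ) s = Zs (s - 1) * Lap (Kp φ) s := by
  obtain ⟨C, hN⟩ := Kp_nice hφ
  obtain ⟨C0, h0⟩ := K0_nice hφ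
  have hU : IsOpen {z : ℂ | 0 < z.re} := halfplane_open 0
  have hpre : IsPreconnected {z : ℂ | 0 < z.re} := halfplane_preconnected 0
  have h1 : AnalyticOnNhd ℂ (fun s => (s - 2) * Lap (K0 φ) s) {z : ℂ | 0 < z.re} := by
    apply DifferentiableOn.analyticOnNhd _ hU
    intro z hz
    apply DifferentiableAt.differentiableWithinAt
    exact (by fun_prop : DifferentiableAt ℂ (fun s : ℂ => s - 2) z).mul (h0.Lap_differentiableAt hz)
  have h2 : AnalyticOnNhd ℂ (fun s => Zs (s - 1) * Lap (Kp φ) s) {z : ℂ | 0 < z.re} := by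
    apply DifferentiableOn.analyticOnNhd _ hU
    intro z hz
    apply DifferentiableAt.differentiableWithinAt
    refine DifferentiableAt.mul ?_ (hN.Lap_differentiableAt hz)
    exact DifferentiableAt.comp z (Zs_differentiable.differentiableAt) (by fun_prop : DifferentiableAt ℂ (fun s : ℂ => s - 1) z)
  have h3 : (fun s => (s - 2) * Lap (K0 φ) s) =ᶠ[𝓝 (3 : ℂ)] (fun s => Zs (s - 1) * Lap (Kp φ) s) := by
    have h4 : {z : ℂ | 2 < z.re} ∈ 𝓝 (3 : ℂ) :=
      (isOpen_lt continuous_const Complex.continuous_re).mem_nhds (by simp; norm_num)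
    filter_upwards [h4] with z hz
    have hz' : 2 < z.re := hz
    have hz1 : z - 1 ≠ 1 := by
      intro h
      have := congrArg Complex.re h
      simp at this
      linarith
    rw [Lap_K0_series hφ hz', ← Zs_eq hz1]
    ring
  exact h1.eqOn_of_preconnected_of_eventuallyEq h2 hpre (show (3 : ℂ) ∈ {z : ℂ | 0 < z.re} by simp) h3 hs

/-- `Lap Kp ρ = (2 - ρ) ∫ φ(x) x^(ρ-3) dx` -/
lemma Lap_Kp_eq {φ : ℝ → ℝ} (hφ : Bump φ) (s : ℂ) (hs : 0 < s.re) :
    Lap (Kp φ) s = (2 - s) * ∫ x in Ioi (0:ℝ), ((φ x : ℝ) : ℂ) * (x : ℂ) ^ (s - 3) := by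
  obtain ⟨C, hN⟩ := Kp_nice hφ
  obtain ⟨K, hK0, hK⟩ := hφ.bounded
  have hcont : Continuous (fun u : ℝ => ((φ (Real.exp (-u)) : ℝ) : ℂ) * Complex.exp ((2 - s) * u)) := by
    have := hφ.1.continuous
    fun_prop
  have hsupp : HasCompactSupport (fun u : ℝ => ((φ (Real.exp (-u)) : ℝ) : ℂ) * Complex.exp ((2 - s) * u)) := by
    apply HasCompactSupport.of_support_subset_isCompact (isCompact_Icc (a := (-1:ℝ)) (b := 0))
    intro u hu
    rw [Function.mem_support] at hu
    have h1 : φ (Real.exp (-u)) ≠ 0 := by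
      intro h
      apply hu
      rw [h]; simp
    have h2 := hφ.supp h1
    constructor
    · by_contra h
      push Not at h
      have h3 : Real.exp 1 < Real.exp (-u) := Real.exp_lt_exp.2 (by linarith)
      have h4 := Real.exp_one_gt_d9
      linarith [h2.2]
    · have := h2.1
      rw [Real.one_le_exp_iff] at this
      linarith
  have hi : Integrable (fun u : ℝ => ((φ (Real.exp (-u)) : ℝ) : ℂ) * Complex.exp ((2 - s) * u)) :=
    hcont.integrable_of_hasCompactSupport hsupp
  have hu : ∀ x : ℝ, HasDerivAt (fun u : ℝ => ((φ (Real.exp (-u)) : ℝ) : ℂ)) ((-(deriv φ (Real.exp (-x)) * Real.exp (-x)) : ℝ) : ℂ) x := by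
    intro x
    have h1 : HasDerivAt (fun u : ℝ => Real.exp (-u)) (-Real.exp (-x)) x := by
      have : HasDerivAt (fun u : ℝ => Real.exp (-u)) (Real.exp (-x) * (-1)) x :=
        (hasDerivAt_id x).neg.exp
      exact this.congr_deriv (by ring)
    have h2 := (hφ.hasDerivAt (Real.exp (-x))).comp x h1
    refine (h2.congr_deriv ?_).ofReal_comp
    ring
  have hv : ∀ x : ℝ, HasDerivAt (fun x : ℝ => Complex.exp ((2 - s) * x)) ((2 - s) * Complex.exp ((2 - s) * x)) x := by
    intro x
    have h3 : HasDerivAt (fun z : ℂ => (2 - s) * z) (2 - s) (x : ℂ) := by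
      have := ((hasDerivAt_id (x : ℂ)).const_mul (2 - s))
      rw [mul_one] at this
      exact this
    have h4 := (h3.cexp).comp_ofReal
    refine h4.congr_deriv ?_
    ring
  have hKpe : ∀ x : ℝ, ((-(deriv φ (Real.exp (-x)) * Real.exp (-x)) : ℝ) : ℂ) * Complex.exp ((2 - s) * x) =
      - (Kp φ x * Complex.exp (-(s * x))) := by
    intro x
    unfold Kp
    have e1 : Complex.exp ((2 - s) * x) = Complex.exp (-(s * x)) * ((Real.exp x : ℝ) : ℂ) * ((Real.exp x : ℝ) : ℂ) := by
      rw [Complex.ofReal_exp, ← Complex.exp_add, ← Complex.exp_add]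
      congr 1; ring
    have e2 : ((Real.exp (-x) : ℝ) : ℂ) * ((Real.exp x : ℝ) : ℂ) = 1 := by
      rw [← Complex.ofReal_mul, ← Real.exp_add]; simp
    rw [e1]
    push_cast at e2 ⊢
    linear_combination (-(((deriv φ (Real.exp (-x))) : ℝ) : ℂ) * Complex.exp (-(s * x)) * Complex.exp x) * e2
  have key := integral_mul_deriv_eq_deriv_mul_of_integrable
    (u := fun u : ℝ => ((φ (Real.exp (-u)) : ℝ) : ℂ)) (v := fun x : ℝ => Complex.exp ((2 - s) * x))
    (u' := fun x : ℝ => ((-(deriv φ (Real.exp (-x)) * Real.exp (-x)) : ℝ) : ℂ))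
    (v' := fun x : ℝ => (2 - s) * Complex.exp ((2 - s) * x))
    (fun x _ => hu x) (fun x _ => hv x) ?_ ?_ hi
  · have e1 : ∫ x : ℝ, ((φ (Real.exp (-x)) : ℝ) : ℂ) * ((2 - s) * Complex.exp ((2 - s) * x)) =
        (2 - s) * ∫ x : ℝ, ((φ (Real.exp (-x)) : ℝ) : ℂ) * Complex.exp ((2 - s) * x) := by
      rw [← integral_const_mul]
      congr 1
      ext x; ring
    simp_rw [hKpe] at key
    rw [e1, integral_neg, neg_neg] at key
    unfold Lap
    rw [← key, change_exp_neg]
    congr 2
    ext u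
    have e2 : ((Real.exp (-u) : ℝ) : ℂ) ^ (s - 3) = Complex.exp (-(u * (s - 3))) := by
      rw [Complex.cpow_def_of_ne_zero (by exact_mod_cast (Real.exp_pos _).ne'),
        ← Complex.ofReal_log (Real.exp_pos _).le, Real.log_exp]
      congr 1
      push_cast
      ring
    rw [e2]
    have e3 : Complex.exp ((2 - s) * u) = ((Real.exp (-u) : ℝ) : ℂ) * Complex.exp (-(u * (s - 3))) := by
      rw [Complex.ofReal_exp, ← Complex.exp_add]
      congr 1
      push_cast
      ring
    rw [e3]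
    ring
  · refine (hi.const_mul (2 - s)).congr (Eventually.of_forall fun x => ?_)
    simp only [Pi.mul_apply]
    ring
  · refine ((hN.integrable (s := s) hs).neg).congr (Eventually.of_forall fun x => ?_)
    simp only [Pi.mul_apply, Pi.neg_apply]
    exact (hKpe x).symm

end

end Pool.Agent.H295R2
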