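import Pool.Agent.H295R2.T4f

set_option autoImplicit false

open MeasureTheory Filter Topology Set
open scoped ContDiff

namespace Pool.Agent.H295R2

noncomputable section

lemma Zs_sub_one_ne {ρ : ℂ} (h0 : 0 < ρ.re) (h1 : ρ.re < 1) : Zs (ρ - 1) ≠ 0 := by
  have hne : ρ - 1 ≠ 1 := by
    intro h
    have := congrArg Complex.re h
    simp at this
    linarith
  rw [← Zs_eq hne]
  have h2 : (ρ - 1 - 1 : ℂ) ≠ 0 := by
    intro h
    have := congrArg Complex.re h
    simp at this
    linarith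
  refine mul_ne_zero h2 ?_
  have hfe := riemannZeta_one_sub (s := 2 - ρ) (by
    intro n h
    have := congrArg Complex.re h
    simp at this
    have : (0:ℝ) ≤ n := Nat.cast_nonneg n
    linarith) (by
    intro h
    have := congrArg Complex.re h
    simp at this
    linarith)
  have e1 : (1 : ℂ) - (2 - ρ) = ρ - 1 := by ring
  rw [e1] at hfe
  rw [hfe]
  have hpi : (2 * (Real.pi : ℂ)) ≠ 0 := by
    simp
  refine mul_ne_zero (mul_ne_zero (mul_ne_zero (mul_ne_zero two_ne_zero ?_) ?_) ?_) ?_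
  · rw [Complex.cpow_ne_zero_iff]
    exact Or.inl hpi
  · apply Complex.Gamma_ne_zero_of_re_pos
    simp; linarith
  · rw [Ne, Complex.cos_eq_zero_iff]
    rintro ⟨k, hk⟩
    have hpc : (Real.pi : ℂ) ≠ 0 := by exact_mod_cast Real.pi_ne_zero
    have h3 : ρ = 1 - 2 * k := by
      have h4 : (Real.pi : ℂ) * (2 - ρ) = (Real.pi : ℂ) * (2 * k + 1) := by linear_combination 2 * hk
      have h5 := mul_left_cancel₀ hpc h4
      linear_combination -h5
    have h4 := congrArg Complex.re h3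
    simp at h4
    have h5 : (0:ℝ) < 1 - 2 * (k:ℝ) := by linarith
    have h6 : 1 - 2 * (k:ℝ) < 1 := by linarith
    have h7 : (0:ℤ) < 1 - 2 * k := by exact_mod_cast h5
    have h8 : 1 - 2 * k < (1:ℤ) := by exact_mod_cast h6
    omega
  · apply riemannZeta_ne_zero_of_one_le_re
    simp; linarith

/-- there is a bump for which the main constant does not vanish -/
lemma exists_bump {ρ : ℂ} (h0 : 1 / 4 < ρ.re) (h1 : ρ.re < 1) :
    ∃ φ : ℝ → ℝ, Bump φ ∧ om (gOm φ) ρ ≠ 0 := by
  by_contra hcon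
  push Not at hcon
  have hz : ∀ φ : ℝ → ℝ, ContDiff ℝ ∞ φ → HasCompactSupport φ → tsupport φ ⊆ Ioo (1:ℝ) 2 →
      ∫ x, φ x • ((x : ℂ) ^ (ρ - 3)) = 0 := by
    intro φ hφ _ hsup
    have hB : Bump φ := ⟨hφ, hsup.trans Ioo_subset_Icc_self⟩
    have h2 := hcon φ hB
    rw [om_eq_Lap] at h2
    have h3 := Lap_K0 hB (s := ρ) h0
    rw [h2, mul_zero] at h3
    have h4 := Lap_K0_eq hB (s := ρ) (by linarith)
    rw [h3, mul_zero] at h4
    have h5 : Lap (Kp φ) ρ = 0 := by
      rcases mul_eq_zero.1 h4.symm with h | h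
      · exact absurd h (Zs_sub_one_ne (by linarith) h1)
      · exact h
    rw [Lap_Kp_eq hB ρ (by linarith)] at h5
    have h6 : (2 - ρ : ℂ) ≠ 0 := by
      intro h
      have := congrArg Complex.re h
      simp at this
      linarith
    have h7 := (mul_eq_zero.1 h5).resolve_left h6
    have h8 : ∫ x, φ x • ((x : ℂ) ^ (ρ - 3)) = ∫ x in Ioi (0:ℝ), ((φ x : ℝ) : ℂ) * (x : ℂ) ^ (ρ - 3) := by
      have h9 : ∫ x in Ioi (0:ℝ), ((φ x : ℝ) : ℂ) * (x : ℂ) ^ (ρ - 3) = ∫ x in Ioi (0:ℝ), φ x • ((x : ℂ) ^ (ρ - 3)) := by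
        congr 1
      rw [h9, setIntegral_eq_integral_of_forall_compl_eq_zero]
      intro x hx
      have : φ x = 0 := by
        by_contra h
        have := (hB.supp h).1
        apply hx
        show (0:ℝ) < x
        linarith
      rw [this, zero_smul]
    rw [h8, h7]
  have hae := (isOpen_Ioo (a := (1:ℝ)) (b := 2)).ae_eq_zero_of_integral_contDiff_smul_eq_zero (μ := volume)
    (f := fun x : ℝ => (x : ℂ) ^ (ρ - 3)) (E := ℝ) ?_ hz
  · have h2 : ∀ x ∈ Ioo (1:ℝ) 2, (x : ℂ) ^ (ρ - 3) ≠ 0 := by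
      intro x hx
      rw [Complex.cpow_ne_zero_iff]
      left
      have : (0:ℝ) < x := by linarith [hx.1]
      exact_mod_cast this.ne'
    have h3 : ∀ᵐ x : ℝ, x ∉ Ioo (1:ℝ) 2 := by
      filter_upwards [hae] with x hx hx2
      exact h2 x hx2 (hx hx2)
    have h4 : volume (Ioo (1:ℝ) 2) = 0 := by
      have h5 := h3
      rw [ae_iff] at h5
      have h6 : {a : ℝ | ¬ a ∉ Ioo (1:ℝ) 2} = Ioo (1:ℝ) 2 := by
        ext a
        simp only [Set.mem_setOf_eq, not_not]
      rw [h6] at h5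
      exact h5
    rw [Real.volume_Ioo] at h4
    norm_num at h4
  · apply ContinuousOn.locallyIntegrableOn _ measurableSet_Ioo
    intro x hx
    have hx0 : (0:ℝ) < x := by linarith [hx.1]
    exact (Complex.continuousAt_ofReal_cpow_const x (ρ - 3) (Or.inr hx0.ne')).continuousWithinAt

/-- Upper bound for the Möbius sums of `Om`. -/
lemma mOm_bound {φ : ℝ → ℝ} (hφ : Bump φ) {σ CM : ℝ} (hσ : 0 < σ)
    (hM : ∀ y : ℝ, 1 ≤ y → |Mx y| ≤ CM * y ^ σ) :
    ∃ C : ℝ, ∀ X : ℝ, 0 < X → |GG (gOm φ) X| ≤ C * X ^ σ := by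
  obtain ⟨C, hC0, hC⟩ := W_bound' hφ
  have hCM : 0 ≤ CM := by
    have := (abs_nonneg _).trans (hM 1 le_rfl)
    simpa using this
  refine ⟨C * CM * ((1 / 2 : ℝ) ^ (-σ) / σ), fun X hX => ?_⟩
  rw [GG_gOm hX.le]
  obtain ⟨N, hN⟩ : ∃ N : ℕ, 2 * X ≤ N := exists_nat_ge (2 * X)
  rw [mOm_eq_sum hφ hX.le (N := N) (by linarith)]
  have hWc := W_continuous hφ
  have h1 : ∀ k ∈ Finset.Icc 1 N, mu k * Om φ (X / k) =
      ∫ v in Ioc 0 X, (mu k * (Iic (X / k)).indicator (W φ) v) := by
    intro k hk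
    rw [Finset.mem_Icc] at hk
    have hk1 : (1:ℝ) ≤ k := by exact_mod_cast hk.1
    rw [integral_const_mul]
    congr 1
    unfold Om
    have hXk : X / k ≤ X := div_le_self hX.le hk1
    rw [intervalIntegral.integral_of_le (by positivity), integral_indicator measurableSet_Iic,
      Measure.restrict_restrict measurableSet_Iic]
    congr 2
    ext v
    simp only [mem_Ioc, mem_inter_iff, mem_Iic]
    constructor
    · rintro ⟨a, b⟩; exact ⟨b, a, b.trans hXk⟩
    · rintro ⟨a, b, _⟩; exact ⟨b, a⟩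
  have hint : ∀ k : ℕ, IntegrableOn (fun v => mu k * (Iic (X / k)).indicator (W φ) v) (Ioc 0 X) := by
    intro k
    apply Integrable.const_mul
    apply Integrable.indicator _ measurableSet_Iic
    exact (hWc.integrableOn_Icc (a := 0) (b := X)).mono_set Ioc_subset_Icc_self
  rw [Finset.sum_congr rfl h1, ← integral_finsetSum _ (fun k _ => hint k)]
  have h2 : ∀ v ∈ Ioc 0 X, ‖∑ k ∈ Finset.Icc 1 N, mu k * (Iic (X / k)).indicator (W φ) v‖ ≤
      (Ioi (1 / 2 : ℝ)).indicator (fun v => C * CM * X ^ σ * v ^ (-σ - 1)) v := by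
    intro v hv
    have hv0 : 0 < v := hv.1
    by_cases h : v ∈ Ioi (1 / 2 : ℝ)
    · rw [indicator_of_mem h]
      have hv2 : 1 / 2 < v := h
      have hXv : 1 ≤ X / v := by
        rw [le_div_iff₀ hv0, one_mul]; exact hv.2
      have h3 : ∑ k ∈ Finset.Icc 1 N, mu k * (Iic (X / k)).indicator (W φ) v = Mx (X / v) * W φ v := by
        unfold Mx
        rw [Finset.sum_mul]
        have hfl : ⌊X / v⌋₊ ≤ N := by
          have : X / v < N + 1 := by
            rw [div_lt_iff₀ hv0]
            nlinarith [Nat.cast_nonneg (α := ℝ) N]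
          have h5 := (Nat.floor_lt (by positivity)).2 (show X / v < ((N + 1 : ℕ) : ℝ) by push_cast; exact this)
          omega
        symm
        rw [← Finset.sum_subset (Finset.Icc_subset_Icc_right hfl)]
        · refine Finset.sum_congr rfl fun k hk => ?_
          rw [Finset.mem_Icc] at hk
          have hk0 : (0:ℝ) < k := by exact_mod_cast hk.1
          rw [indicator_of_mem]
          have := (Nat.le_floor_iff (by positivity)).1 hk.2
          rw [mem_Iic, le_div_iff₀ hk0]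
          rw [le_div_iff₀ hv0] at this
          linarith
        · intro k hk hk2
          rw [Finset.mem_Icc] at hk hk2
          have hk0 : (0:ℝ) < k := by exact_mod_cast hk.1
          rw [indicator_of_notMem, mul_zero]
          intro h6
          apply hk2
          refine ⟨hk.1, (Nat.le_floor_iff (by positivity)).2 ?_⟩
          rw [mem_Iic, le_div_iff₀ hk0] at h6
          rw [le_div_iff₀ hv0]
          linarith
      rw [h3, Real.norm_eq_abs, abs_mul]
      have h4 := hM _ hXv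
      have h5 := hC v hv0
      have e1 : (X / v) ^ σ = X ^ σ * v ^ (-σ) := by
        rw [Real.div_rpow hX.le hv0.le, Real.rpow_neg hv0.le]; ring
      have e2 : v ^ (-σ - 1) = v ^ (-σ) * v⁻¹ := by
        rw [Real.rpow_sub hv0, Real.rpow_one]; ring
      calc |Mx (X / v)| * |W φ v| ≤ (CM * (X / v) ^ σ) * (C / v) := by gcongr
        _ = C * CM * X ^ σ * v ^ (-σ - 1) := by rw [e1, e2]; ring
    · rw [indicator_of_notMem h]
      have hv2 : v ≤ 1 / 2 := not_lt.1 h
      have h3 : ∀ k ∈ Finset.Icc 1 N, mu k * (Iic (X / k)).indicator (W φ) v = 0 := by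
        intro k _
        by_cases h4 : v ∈ Iic (X / k)
        · rw [indicator_of_mem h4, W_zero' hφ hv0.le hv2, mul_zero]
        · rw [indicator_of_notMem h4, mul_zero]
      rw [Finset.sum_eq_zero h3, norm_zero]
  have hI : IntegrableOn (fun v : ℝ => C * CM * X ^ σ * v ^ (-σ - 1)) (Ioi (1 / 2)) :=
    (integrableOn_Ioi_rpow_of_lt (by linarith) (by norm_num)).const_mul _
  have hI2 : Integrable ((Ioi (1 / 2 : ℝ)).indicator (fun v => C * CM * X ^ σ * v ^ (-σ - 1))) :=
    (integrable_indicator_iff measurableSet_Ioi).2 hI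
  have h3 : ‖∫ v in Ioc 0 X, ∑ k ∈ Finset.Icc 1 N, mu k * (Iic (X / k)).indicator (W φ) v‖ ≤
      ∫ v in Ioc 0 X, (Ioi (1 / 2 : ℝ)).indicator (fun v => C * CM * X ^ σ * v ^ (-σ - 1)) v := by
    refine norm_integral_le_of_norm_le hI2.integrableOn ?_
    exact (ae_restrict_mem measurableSet_Ioc).mono fun v hv => h2 v hv
  rw [← Real.norm_eq_abs]
  refine h3.trans ?_
  have h4 : ∫ v in Ioc 0 X, (Ioi (1 / 2 : ℝ)).indicator (fun v => C * CM * X ^ σ * v ^ (-σ - 1)) v ≤
      ∫ v, (Ioi (1 / 2 : ℝ)).indicator (fun v => C * CM * X ^ σ * v ^ (-σ - 1)) v := by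
    apply setIntegral_le_integral hI2
    refine Eventually.of_forall fun v => ?_
    apply indicator_nonneg
    intro v hv
    have : 0 < v := lt_trans (by norm_num) hv
    positivity
  refine h4.trans (le_of_eq ?_)
  rw [integral_indicator measurableSet_Ioi, integral_const_mul, integral_Ioi_rpow_of_lt (by linarith) (by norm_num)]
  have e : -σ - 1 + 1 = -σ := by ring
  rw [e, neg_div_neg_eq]
  ring

end

end Pool.Agent.H295R2
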