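import Pool.Agent.H295R2.M

set_option autoImplicit false

open MeasureTheory Filter Topology Set

namespace Pool.Agent.H295R2

noncomputable section

/-! Error bound by Perron and Plancherel (helper332) -/

lemma t5_shift_nice {k : ℝ → ℂ} {B u₀ h : ℝ} (hk : Nice k B 0 u₀) (h0 : 0 < h) :
    Nice (fun u => k (u + h) - k u) (2 * B) 0 (u₀ - h) where
  meas := (hk.meas.comp (measurable_id.add_const h)).sub hk.meas
  bound := by
    intro u
    have h1 := hk.bound (u + h)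
    have h2 := hk.bound u
    simp only [zero_mul, Real.exp_zero, mul_one] at h1 h2 ⊢
    refine (norm_sub_le _ _).trans ?_
    linarith
  zero := by
    intro u hu
    rw [hk.zero (u + h) (by linarith), hk.zero u (by linarith), sub_zero]

lemma t5_shift_Lap {k : ℝ → ℂ} {B u₀ h : ℝ} (hk : Nice k B 0 u₀) {s : ℂ} (hs : 0 < s.re) :
    Lap (fun u => k (u + h) - k u) s = (Complex.exp (s * h) - 1) * Lap k s := by
  have h1 := hk.Lap_shift s h
  have h2 : Lap (fun u => k (u + h) - k u) s =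
      (∫ u : ℝ, k (u + h) * Complex.exp (-(s * u))) - ∫ u : ℝ, k u * Complex.exp (-(s * u)) := by
    unfold Lap
    rw [← integral_sub (hk.shift_integrable hs h) (hk.integrable hs)]
    refine integral_congr_ae (Eventually.of_forall fun u => ?_)
    simp only
    ring
  rw [h2, h1]
  unfold Lap
  ring

/-- the region `R < |2πξ| ≤ 2R` -/
def tband (R : ℝ) : Set ℝ := {ξ | R < |2 * Real.pi * ξ| ∧ |2 * Real.pi * ξ| ≤ 2 * R}

/-- the region `|2πξ| ≤ R` -/
def tball (R : ℝ) : Set ℝ := {ξ | |2 * Real.pi * ξ| ≤ R}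

lemma tball_meas (R : ℝ) : MeasurableSet (tball R) :=
  measurableSet_le (by fun_prop) measurable_const

lemma tband_meas (R : ℝ) : MeasurableSet (tband R) := by
  have h1 : MeasurableSet {ξ : ℝ | R < |2 * Real.pi * ξ|} :=
    measurableSet_lt measurable_const (by fun_prop)
  have h2 : MeasurableSet {ξ : ℝ | |2 * Real.pi * ξ| ≤ 2 * R} :=
    measurableSet_le (by fun_prop) measurable_const
  exact h1.inter h2

lemma tball_subset (R : ℝ) : tball R ⊆ Icc (-R) R := by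
  intro ξ hξ
  have h1 : |2 * Real.pi * ξ| ≤ R := hξ
  rw [abs_mul, abs_of_pos (by positivity : (0:ℝ) < 2 * Real.pi)] at h1
  have h2 := Real.pi_gt_three
  have h3 : |ξ| ≤ R := by nlinarith [abs_nonneg ξ]
  exact abs_le.1 h3

lemma tball_volume {R : ℝ} (_hR : 0 ≤ R) : volume (tball R) ≤ ENNReal.ofReal (2 * R) := by
  refine (measure_mono (tball_subset R)).trans ?_
  rw [Real.volume_Icc]
  apply ENNReal.ofReal_le_ofReal
  linarith

lemma tband_subset {R : ℝ} : tband R ⊆ tball (2 * R) := fun _ h => h.2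

lemma tball_double {R : ℝ} (hR : 0 ≤ R) : tball (2 * R) = tball R ∪ tband R := by
  ext ξ
  constructor
  · intro h
    by_cases h1 : |2 * Real.pi * ξ| ≤ R
    · exact Or.inl h1
    · exact Or.inr ⟨not_le.1 h1, h⟩
  · rintro (h | h)
    · have : |2 * Real.pi * ξ| ≤ R := h
      show |2 * Real.pi * ξ| ≤ 2 * R
      linarith
    · exact h.2

lemma tball_disj {R : ℝ} : Disjoint (tball R) (tband R) := by
  rw [Set.disjoint_left]
  intro ξ h1 h2
  exact absurd h2.1 (not_lt.2 h1)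

lemma t5_exp_lower {σ R ξ : ℝ} (hσ : 0 < σ) (hR : 1 ≤ R) (hξ : ξ ∈ tband R) :
    1 / 16 ≤ ‖Complex.exp ((σ + 2 * Real.pi * ξ * Complex.I) * ((1 / (2 * R) : ℝ) : ℂ)) - 1‖ ^ 2 := by
  set h : ℝ := 1 / (2 * R) with hh
  have hh0 : 0 < h := by rw [hh]; positivity
  set t : ℝ := 2 * Real.pi * ξ with ht
  set z : ℂ := ((σ : ℂ) + 2 * Real.pi * ξ * Complex.I) * (h : ℂ) with hz
  have hzre : z.re = σ * h := by simp [hz]
  have hzim : z.im = t * h := by simp [hz, ht]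
  have hRpos : 0 < R := by linarith
  have h1 : 1 / 2 ≤ |t * h| := by
    rw [abs_mul, abs_of_pos hh0, hh, mul_one_div, div_le_div_iff₀ (by norm_num) (by positivity)]
    have := hξ.1
    linarith
  have h2 : |t * h| ≤ 1 := by
    rw [abs_mul, abs_of_pos hh0, hh, mul_one_div, div_le_one (by positivity)]
    exact hξ.2
  have h3 : 1 / 4 ≤ |Real.sin (t * h)| := by
    have h4 : |Real.sin (t * h)| = Real.sin |t * h| := by
      rcases abs_cases (t * h) with ⟨h5, h6⟩ | ⟨h5, h6⟩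
      · rw [h5, abs_of_nonneg]
        apply Real.sin_nonneg_of_nonneg_of_le_pi h6
        have := Real.pi_gt_three
        rw [h5] at h2
        linarith
      · rw [h5, Real.sin_neg, abs_of_nonpos]
        apply Real.sin_nonpos_of_nonpos_of_neg_pi_le h6.le
        have := Real.pi_gt_three
        rw [h5] at h2
        linarith
    rw [h4]
    have h5 := Real.mul_le_sin (abs_nonneg (t * h)) (by have := Real.pi_gt_three; linarith)
    refine le_trans ?_ h5
    have h6 : (1 / 2 : ℝ) ≤ 2 / Real.pi := by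
      rw [div_le_div_iff₀ (by norm_num) Real.pi_pos]
      have := Real.pi_lt_four
      linarith
    nlinarith
  have h4 : 1 / 4 ≤ ‖Complex.exp z - 1‖ := by
    have h5 := Complex.abs_im_le_norm (Complex.exp z - 1)
    rw [Complex.sub_im, Complex.one_im, sub_zero, Complex.exp_im, hzre, hzim, abs_mul,
      abs_of_pos (Real.exp_pos _)] at h5
    have h6 : 1 ≤ Real.exp (σ * h) := Real.one_le_exp (by positivity)
    nlinarith [abs_nonneg (Real.sin (t * h))]
  nlinarith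

lemma t5_band {k : ℝ → ℂ} {B u₀ σ R : ℝ} (hk : Nice k B 0 u₀) (hσ : 0 < σ) (hR : 1 ≤ R) :
    ∫ ξ in tband R, ‖Lap k (σ + 2 * Real.pi * ξ * Complex.I)‖ ^ 2 ≤
      16 * ∫ u, ‖k (u + 1 / (2 * R)) - k u‖ ^ 2 * Real.exp (-(2 * σ * u)) := by
  have hh0 : 0 < 1 / (2 * R) := by positivity
  have hn := t5_shift_nice hk hh0
  obtain ⟨p1, p2⟩ := plancherel_Lap hn hσ
  obtain ⟨q1, _⟩ := plancherel_Lap hk hσ
  rw [← p2]
  calc ∫ ξ in tband R, ‖Lap k (σ + 2 * Real.pi * ξ * Complex.I)‖ ^ 2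
      ≤ ∫ ξ in tband R, 16 * ‖Lap (fun u => k (u + 1 / (2 * R)) - k u) (σ + 2 * Real.pi * ξ * Complex.I)‖ ^ 2 := by
        apply setIntegral_mono_on q1.integrableOn (p1.const_mul 16).integrableOn (tband_meas R)
        intro ξ hξ
        rw [t5_shift_Lap hk (by rw [line_re]; exact hσ), norm_mul, mul_pow]
        have h1 := t5_exp_lower hσ hR hξ
        have h2 : 0 ≤ ‖Lap k (σ + 2 * Real.pi * ξ * Complex.I)‖ ^ 2 := by positivity
        nlinarith
    _ ≤ ∫ ξ : ℝ, 16 * ‖Lap (fun u => k (u + 1 / (2 * R)) - k u) (σ + 2 * Real.pi * ξ * Complex.I)‖ ^ 2 :=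
        setIntegral_le_integral (p1.const_mul 16) (Eventually.of_forall fun ξ => by positivity)
    _ = 16 * ∫ ξ : ℝ, ‖Lap (fun u => k (u + 1 / (2 * R)) - k u) (σ + 2 * Real.pi * ξ * Complex.I)‖ ^ 2 := by
        rw [integral_const_mul]

lemma t5_full {k : ℝ → ℂ} {B u₀ σ : ℝ} (hk : Nice k B 0 u₀) (hσ : 0 < σ) :
    ∫ ξ : ℝ, ‖Lap k (σ + 2 * Real.pi * ξ * Complex.I)‖ ^ 2 ≤
      B ^ 2 * Real.exp (-(2 * σ * u₀)) / (2 * σ) := by
  obtain ⟨_, p2⟩ := plancherel_Lap hk hσ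
  rw [p2]
  have hb : -(2 * σ) < 0 := by linarith
  have h1 := integral_ind_exp hb (B ^ 2) u₀
  have h2 : ∫ u : ℝ, ‖k u‖ ^ 2 * Real.exp (-(2 * σ * u)) ≤
      ∫ u, (Ici u₀).indicator (fun u => B ^ 2 * Real.exp (-(2 * σ) * u)) u := by
    apply integral_mono_of_nonneg (Eventually.of_forall fun u => by positivity)
      (integrable_ind_exp hb (B ^ 2) u₀)
    refine Eventually.of_forall fun u => ?_
    simp only
    by_cases hu : u ∈ Ici u₀
    · rw [indicator_of_mem hu]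
      have h3 := hk.bound u
      simp only [zero_mul, Real.exp_zero, mul_one] at h3
      have h4 : ‖k u‖ ^ 2 ≤ B ^ 2 := pow_le_pow_left₀ (norm_nonneg _) h3 2
      have h5 : -(2 * σ * u) = -(2 * σ) * u := by ring
      rw [h5]
      exact mul_le_mul_of_nonneg_right h4 (Real.exp_pos _).le
    · rw [indicator_of_notMem hu, hk.zero u (by simpa using hu)]
      simp
  refine h2.trans (le_of_eq ?_)
  rw [h1]
  have h3 : -(2 * σ) * u₀ = -(2 * σ * u₀) := by ring
  rw [h3, div_neg, neg_div, neg_neg]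
  ring

/-- arithmetic-geometric mean replaces Cauchy-Schwarz -/
lemma t5_amgm {L w : ℝ → ℝ} {S : Set ℝ} {W P V lam : ℝ} (hS : MeasurableSet S)
    (hL0 : ∀ ξ, 0 ≤ L ξ) (hL : Integrable (fun ξ => L ξ ^ 2)) (hw : ∀ ξ ∈ S, w ξ ≤ W)
    (hW : 0 ≤ W) (hf : IntegrableOn (fun ξ => L ξ * w ξ) S) (hP : ∫ ξ in S, L ξ ^ 2 ≤ P)
    (hV0 : 0 ≤ V) (hV : volume S ≤ ENNReal.ofReal V) (hlam : 0 < lam) :
    ∫ ξ in S, L ξ * w ξ ≤ W * (lam * P + V / lam) / 2 := by
  have hfin : volume S < ⊤ := lt_of_le_of_lt hV ENNReal.ofReal_lt_top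
  have h1 : ∀ ξ ∈ S, L ξ * w ξ ≤ W / 2 * (lam * L ξ ^ 2 + 1 / lam) := by
    intro ξ hξ
    have h2 : L ξ * w ξ ≤ L ξ * W := mul_le_mul_of_nonneg_left (hw ξ hξ) (hL0 ξ)
    have h3 : 2 * L ξ ≤ lam * L ξ ^ 2 + 1 / lam := by
      have h4 : 0 ≤ (lam * L ξ - 1) ^ 2 / lam := by positivity
      have h5 : (lam * L ξ - 1) ^ 2 / lam = lam * L ξ ^ 2 + 1 / lam - 2 * L ξ := by
        field_simp
        ring
      linarith
    nlinarith
  have hint : IntegrableOn (fun ξ => W / 2 * (lam * L ξ ^ 2 + 1 / lam)) S := by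
    apply Integrable.const_mul
    apply Integrable.add
    · exact (hL.integrableOn).const_mul lam
    · exact integrableOn_const (hs := hfin.ne)
  calc ∫ ξ in S, L ξ * w ξ ≤ ∫ ξ in S, W / 2 * (lam * L ξ ^ 2 + 1 / lam) :=
        setIntegral_mono_on hf hint hS h1
    _ = W / 2 * (lam * (∫ ξ in S, L ξ ^ 2) + (volume S).toReal * (1 / lam)) := by
        rw [integral_const_mul, integral_add, integral_const_mul, setIntegral_const]
        · rfl
        · exact (hL.integrableOn).const_mul lam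
        · exact integrableOn_const (hs := hfin.ne)
    _ ≤ W / 2 * (lam * P + V * (1 / lam)) := by
        have h2 : (volume S).toReal ≤ V := ENNReal.toReal_le_of_le_ofReal hV0 hV
        gcongr
    _ = W * (lam * P + V / lam) / 2 := by ring

lemma t5_w_band {η σ ε Cf R ξ : ℝ} (hη : 0 < η) (hη1 : η ≤ 1) (hσ : 1 / 4 ≤ σ) (hσ2 : σ ≤ 2)
    (hε : 0 < ε) (hε1 : ε ≤ 1 / 4) (hCf0 : 0 < Cf)
    (hCf : ∀ s : ℂ, σ ≤ s.re → s.re ≤ 2 → ‖fz s‖ ≤ Cf * (1 + |s.im|) ^ ε) (hR : 1 ≤ R)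
    (hξ : ξ ∈ tband R) :
    ‖phi η (σ + 2 * Real.pi * ξ * Complex.I)‖ ^ 2 * ‖fz (σ + 2 * Real.pi * ξ * Complex.I)‖ ≤
      1650 * Cf * R ^ (-ε) * η ^ (-(2 * ε)) := by
  have hR0 : 0 < R := by linarith
  have h1 := norm_phi_pow (a := 2 * ε) (s := σ + 2 * Real.pi * ξ * Complex.I) hη hη1
    (by rw [line_re]; exact hσ) (by rw [line_re]; exact hσ2) (by positivity) (by linarith)
  have h2 := hCf (σ + 2 * Real.pi * ξ * Complex.I) (by rw [line_re]) (by rw [line_re]; exact hσ2)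
  rw [line_im] at h1 h2
  have h3 : (η * (1 + |2 * Real.pi * ξ|)) ^ (-(2 * ε)) ≤ (η * R) ^ (-(2 * ε)) := by
    apply Real.rpow_le_rpow_of_nonpos (by positivity) _ (by linarith)
    apply mul_le_mul_of_nonneg_left _ hη.le
    have := hξ.1
    linarith
  have h4 : (1 + |2 * Real.pi * ξ|) ^ ε ≤ 3 * R ^ ε := by
    have h5 : 1 + |2 * Real.pi * ξ| ≤ 3 * R := by
      have := hξ.2
      linarith
    calc (1 + |2 * Real.pi * ξ|) ^ ε ≤ (3 * R) ^ ε := Real.rpow_le_rpow (by positivity) h5 hε.le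
      _ = 3 ^ ε * R ^ ε := Real.mul_rpow (by norm_num) hR0.le
      _ ≤ 3 * R ^ ε := by
          have : (3:ℝ) ^ ε ≤ 3 ^ (1:ℝ) := Real.rpow_le_rpow_of_exponent_le (by norm_num) (by linarith)
          rw [Real.rpow_one] at this
          gcongr
  have h6 : (η * R) ^ (-(2 * ε)) = η ^ (-(2 * ε)) * (R ^ (-ε) * R ^ (-ε)) := by
    rw [Real.mul_rpow hη.le hR0.le, ← Real.rpow_add hR0]
    congr 2
    ring
  have h7 : R ^ (-ε) * R ^ ε = 1 := by
    rw [← Real.rpow_add hR0]; simp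
  calc _ ≤ (550 * (η * R) ^ (-(2 * ε))) * (Cf * (3 * R ^ ε)) := by
        apply mul_le_mul (h1.trans (by gcongr)) (h2.trans (by gcongr)) (norm_nonneg _) (by positivity)
    _ = 1650 * Cf * R ^ (-ε) * η ^ (-(2 * ε)) * (R ^ (-ε) * R ^ ε) := by rw [h6]; ring
    _ = _ := by rw [h7, mul_one]

lemma t5_w_ball {η σ ε Cf T ξ : ℝ} (hη : 0 < η) (hη1 : η ≤ 1) (hσ : 1 / 4 ≤ σ) (hσ2 : σ ≤ 2)
    (hε : 0 < ε) (hε1 : ε ≤ 1 / 4) (hCf0 : 0 < Cf)
    (hCf : ∀ s : ℂ, σ ≤ s.re → s.re ≤ 2 → ‖fz s‖ ≤ Cf * (1 + |s.im|) ^ ε) (hT : 1 ≤ T)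
    (hξ : ξ ∈ tball T) :
    ‖phi η (σ + 2 * Real.pi * ξ * Complex.I)‖ ^ 2 * ‖fz (σ + 2 * Real.pi * ξ * Complex.I)‖ ≤
      200 * Cf * T ^ ε := by
  have hT0 : 0 < T := by linarith
  have h1 := norm_phi_le (s := σ + 2 * Real.pi * ξ * Complex.I) hη hη1
    (by rw [line_re]; linarith) (by rw [line_re]; exact hσ2)
  have h2 := hCf (σ + 2 * Real.pi * ξ * Complex.I) (by rw [line_re]) (by rw [line_re]; exact hσ2)
  rw [line_im] at h2
  have h4 : (1 + |2 * Real.pi * ξ|) ^ ε ≤ 2 * T ^ ε := by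
    have h5 : 1 + |2 * Real.pi * ξ| ≤ 2 * T := by
      have : |2 * Real.pi * ξ| ≤ T := hξ
      linarith
    calc (1 + |2 * Real.pi * ξ|) ^ ε ≤ (2 * T) ^ ε := Real.rpow_le_rpow (by positivity) h5 hε.le
      _ = 2 ^ ε * T ^ ε := Real.mul_rpow (by norm_num) hT0.le
      _ ≤ 2 * T ^ ε := by
          have : (2:ℝ) ^ ε ≤ 2 ^ (1:ℝ) := Real.rpow_le_rpow_of_exponent_le (by norm_num) (by linarith)
          rw [Real.rpow_one] at this
          gcongr
  have h3 : ‖phi η (σ + 2 * Real.pi * ξ * Complex.I)‖ ^ 2 ≤ 100 := by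
    nlinarith [norm_nonneg (phi η (σ + 2 * Real.pi * ξ * Complex.I))]
  calc _ ≤ 100 * (Cf * (2 * T ^ ε)) := by
        apply mul_le_mul h3 (h2.trans (by gcongr)) (norm_nonneg _) (by norm_num)
    _ = _ := by ring

/-- (T5)  Error bound by Perron + Plancherel. -/
theorem T5 {θ σ ε B : ℝ} (hθ : 1/4 ≤ θ) (hz : ∀ s : ℂ, θ < s.re → Zs s ≠ 0) (hσ : θ < σ)
    (hσ2 : σ ≤ 2) (hε : 0 < ε) (hε1 : ε ≤ 1/4) (hB : 0 < B) :
    ∃ C > 0, ∀ (k : ℝ → ℂ) (T : ℝ), 1 ≤ T → Nice k B 0 (Real.log T - B) →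
      (∀ h : ℝ, 0 < h → h ≤ 1 → ∫ u, ‖k (u + h) - k u‖ ^ 2 * Real.exp (-(2 * σ * u)) ≤ B * h * T ^ (1 - 2 * σ)) →
      ∀ η x : ℝ, 0 < η → η * T ≤ 1 →
        ‖∑' m : ℕ, (ArithmeticFunction.moebius m : ℂ) * avg η (avg η k) (x - Real.log m)‖
          ≤ C * Real.exp (σ * x) * η ^ (-(3 * ε)) * T ^ (1/2 - σ) := by
  obtain ⟨Cf, hCf0, hCf⟩ := fz_bound hθ hz hσ hε
  obtain ⟨Cf2, hCf20, hCf2⟩ := fz_bound hθ hz hσ (ε := 1 / 2) (by norm_num)
  have hσ4 : 1 / 4 ≤ σ := by linarith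
  have hσ0 : 0 < σ := by linarith
  set r : ℝ := (2:ℝ) ^ (-ε) with hr
  have hr0 : 0 < r := by rw [hr]; positivity
  have hr1 : r < 1 := by
    rw [hr]; exact Real.rpow_lt_one_of_one_lt_of_neg (by norm_num) (by linarith)
  have hr1' : 0 < 1 - r := by linarith
  set K0 : ℝ := 200 * Cf * (B ^ 2 * Real.exp (4 * B) + 1) with hK0
  set K1 : ℝ := 1650 * Cf * (4 * B + 2) with hK1
  have hK0' : 0 < K0 := by rw [hK0]; positivity
  have hK1' : 0 < K1 := by rw [hK1]; positivity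
  refine ⟨K0 + K1 / (1 - r), by positivity, fun k T hT hk hdiff η x hη hηT => ?_⟩
  have hT0 : 0 < T := by linarith
  have hη1 : η ≤ 1 := by nlinarith
  have hper := perron (x := x) hθ hz hσ hσ2 hk hη hη1
  rw [hper.tsum_eq]
  -- notation
  set L : ℝ → ℝ := fun ξ => ‖Lap k (σ + 2 * Real.pi * ξ * Complex.I)‖ with hL
  set w : ℝ → ℝ := fun ξ => ‖phi η (σ + 2 * Real.pi * ξ * Complex.I)‖ ^ 2 *
    ‖fz (σ + 2 * Real.pi * ξ * Complex.I)‖ with hw
  have hL0 : ∀ ξ, 0 ≤ L ξ := fun ξ => norm_nonneg _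
  have hw0 : ∀ ξ, 0 ≤ w ξ := fun ξ => by simp only [hw]; positivity
  have hPH : ∀ ξ : ℝ, ‖PH η x k (σ + 2 * Real.pi * ξ * Complex.I)‖ = Real.exp (σ * x) * (L ξ * w ξ) := by
    intro ξ
    unfold PH
    rw [norm_mul, norm_mul, norm_mul, norm_pow]
    have h1 : ‖Complex.exp (((σ : ℂ) + 2 * Real.pi * ξ * Complex.I) * x)‖ = Real.exp (σ * x) := by
      rw [Complex.norm_exp]
      congr 1
      simp
    rw [h1]
    simp only [hL, hw]
    ring
  -- integrability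
  have hPHint : Integrable (fun ξ : ℝ => PH η x k (σ + 2 * Real.pi * ξ * Complex.I)) := by
    obtain ⟨Bd, hBd⟩ := PH_bound (x := x) hk hη hη1 hσ0 hCf2
    refine scale_integrable (vertical_integrable (B := Bd) ?_ ?_)
    · intro s hs
      have hs0 : s ≠ 0 := by rintro rfl; simp at hs; linarith
      have e1 : DifferentiableAt ℂ (Lap k) s := hk.Lap_differentiableAt (by linarith)
      have e2 := phi_differentiableAt hη hs0
      have e3 := fz_differentiableAt (hz s (by linarith))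
      have : DifferentiableAt ℂ (PH η x k) s := by
        unfold PH
        fun_prop
      exact this.continuousAt
    · intro s hs
      exact hBd s hs.ge (hs.le.trans hσ2)
  have hLw : Integrable (fun ξ => L ξ * w ξ) := by
    have h1 := hPHint.norm.const_mul (Real.exp (-(σ * x)))
    refine h1.congr (Eventually.of_forall fun ξ => ?_)
    simp only
    rw [hPH ξ, ← mul_assoc, ← Real.exp_add]
    simp
  have hL2 : Integrable (fun ξ => L ξ ^ 2) := (plancherel_Lap hk hσ0).1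
  have hηε : (1:ℝ) ≤ η ^ (-ε) := Real.one_le_rpow_of_pos_of_le_one_of_nonpos hη hη1 (by linarith)
  have hTη : T ^ ε ≤ η ^ (-ε) := by
    rw [Real.rpow_neg hη.le, ← Real.inv_rpow hη.le]
    apply Real.rpow_le_rpow hT0.le _ hε.le
    rw [← one_div, le_div_iff₀ hη]
    linarith
  set E : ℝ := η ^ (-(3 * ε)) * T ^ (1 / 2 - σ) with hE
  have hE0 : 0 < E := by rw [hE]; positivity
  have hTs : 0 < T ^ (1 / 2 - σ) := by positivity
  have hη3 : η ^ (-ε) ≤ η ^ (-(3 * ε)) := by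
    apply Real.rpow_le_rpow_of_exponent_ge hη hη1
    linarith
  have hη2 : η ^ (-(2 * ε)) ≤ η ^ (-(3 * ε)) := by
    apply Real.rpow_le_rpow_of_exponent_ge hη hη1
    linarith
  -- the ball
  have hball : ∫ ξ in tball T, L ξ * w ξ ≤ K0 * E := by
    have h1 : ∫ ξ in tball T, L ξ ^ 2 ≤ 2 * B ^ 2 * Real.exp (4 * B) * T ^ (-(2 * σ)) := by
      refine (setIntegral_le_integral hL2 (Eventually.of_forall fun ξ => by positivity)).trans ?_
      refine (t5_full hk hσ0).trans ?_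
      have h2 : Real.exp (-(2 * σ * (Real.log T - B))) = T ^ (-(2 * σ)) * Real.exp (2 * σ * B) := by
        rw [Real.rpow_def_of_pos hT0, ← Real.exp_add]
        ring_nf
      rw [h2]
      have h3 : Real.exp (2 * σ * B) ≤ Real.exp (4 * B) := by
        apply Real.exp_le_exp.2
        nlinarith
      have h4 : 1 / (2 * σ) ≤ 2 := by
        rw [div_le_iff₀ (by positivity)]
        linarith
      calc B ^ 2 * (T ^ (-(2 * σ)) * Real.exp (2 * σ * B)) / (2 * σ)
          = B ^ 2 * (T ^ (-(2 * σ)) * Real.exp (2 * σ * B)) * (1 / (2 * σ)) := by ring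
        _ ≤ B ^ 2 * (T ^ (-(2 * σ)) * Real.exp (4 * B)) * 2 := by gcongr
        _ = _ := by ring
    have h2 := t5_amgm (W := 200 * Cf * T ^ ε) (V := 2 * T) (lam := T ^ (σ + 1 / 2)) (tball_meas T) hL0 hL2
      (fun ξ hξ => t5_w_ball hη hη1 hσ4 hσ2 hε hε1 hCf0 hCf hT hξ) (by positivity)
      hLw.integrableOn h1 (by positivity) (tball_volume hT0.le) (by positivity)
    refine h2.trans ?_
    have e1 : T ^ (σ + 1 / 2) * (2 * B ^ 2 * Real.exp (4 * B) * T ^ (-(2 * σ))) =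
        2 * B ^ 2 * Real.exp (4 * B) * T ^ (1 / 2 - σ) := by
      have : T ^ (σ + 1 / 2) * T ^ (-(2 * σ)) = T ^ (1 / 2 - σ) := by
        rw [← Real.rpow_add hT0]; congr 1; ring
      rw [← this]; ring
    have e2 : 2 * T / T ^ (σ + 1 / 2) = 2 * T ^ (1 / 2 - σ) := by
      have : T / T ^ (σ + 1 / 2) = T ^ (1 / 2 - σ) := by
        conv_lhs => rw [← Real.rpow_one T]
        rw [← Real.rpow_mul hT0.le, one_mul, ← Real.rpow_sub hT0]
        congr 1; ring
      rw [← this]; ring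
    rw [e1, e2]
    calc 200 * Cf * T ^ ε * (2 * B ^ 2 * Real.exp (4 * B) * T ^ (1 / 2 - σ) + 2 * T ^ (1 / 2 - σ)) / 2
        = K0 * (T ^ ε * T ^ (1 / 2 - σ)) := by rw [hK0]; ring
      _ ≤ K0 * (η ^ (-(3 * ε)) * T ^ (1 / 2 - σ)) := by
          have : T ^ ε ≤ η ^ (-(3 * ε)) := hTη.trans hη3
          gcongr
  -- the bands
  have hband : ∀ j : ℕ, ∫ ξ in tband (2 ^ j * T), L ξ * w ξ ≤ K1 * E * r ^ j := by
    intro j
    set R : ℝ := 2 ^ j * T with hR
    have hR1 : 1 ≤ R := by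
      rw [hR]
      have : (1:ℝ) ≤ 2 ^ j := one_le_pow₀ (by norm_num)
      nlinarith
    have hR0 : 0 < R := by linarith
    have h1 : ∫ ξ in tband R, L ξ ^ 2 ≤ 8 * B / R * T ^ (1 - 2 * σ) := by
      refine (t5_band hk hσ0 hR1).trans ?_
      have h2 := hdiff (1 / (2 * R)) (by positivity) (by
        rw [div_le_one (by positivity)]; linarith)
      calc 16 * ∫ u, ‖k (u + 1 / (2 * R)) - k u‖ ^ 2 * Real.exp (-(2 * σ * u))
          ≤ 16 * (B * (1 / (2 * R)) * T ^ (1 - 2 * σ)) := mul_le_mul_of_nonneg_left h2 (by norm_num)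
        _ = _ := by field_simp; ring
    have hV : volume (tband R) ≤ ENNReal.ofReal (4 * R) := by
      refine (measure_mono tband_subset).trans ((tball_volume (by positivity)).trans ?_)
      apply ENNReal.ofReal_le_ofReal
      linarith
    have h2 := t5_amgm (W := 1650 * Cf * R ^ (-ε) * η ^ (-(2 * ε))) (V := 4 * R)
      (lam := R * T ^ (σ - 1 / 2)) (tband_meas R) hL0 hL2
      (fun ξ hξ => t5_w_band hη hη1 hσ4 hσ2 hε hε1 hCf0 hCf hR1 hξ) (by positivity)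
      hLw.integrableOn h1 (by positivity) hV (by positivity)
    refine h2.trans ?_
    have e1 : R * T ^ (σ - 1 / 2) * (8 * B / R * T ^ (1 - 2 * σ)) = 8 * B * T ^ (1 / 2 - σ) := by
      have : T ^ (σ - 1 / 2) * T ^ (1 - 2 * σ) = T ^ (1 / 2 - σ) := by
        rw [← Real.rpow_add hT0]; congr 1; ring
      rw [← this]; field_simp
    have e2 : 4 * R / (R * T ^ (σ - 1 / 2)) = 4 * T ^ (1 / 2 - σ) := by
      have : (T ^ (σ - 1 / 2))⁻¹ = T ^ (1 / 2 - σ) := by
        rw [← Real.rpow_neg hT0.le]; congr 1; ring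
      rw [← this]; field_simp
    rw [e1, e2]
    have e3 : R ^ (-ε) ≤ r ^ j := by
      rw [hR, Real.mul_rpow (by positivity) hT0.le, hr, ← Real.rpow_natCast ((2:ℝ) ^ (-ε)) j,
        ← Real.rpow_mul (by norm_num), mul_comm (-ε) (j:ℝ), Real.rpow_mul (by norm_num), Real.rpow_natCast]
      have : T ^ (-ε) ≤ 1 := Real.rpow_le_one_of_one_le_of_nonpos hT (by linarith)
      exact mul_le_of_le_one_right (by positivity) this
    calc 1650 * Cf * R ^ (-ε) * η ^ (-(2 * ε)) * (8 * B * T ^ (1 / 2 - σ) + 4 * T ^ (1 / 2 - σ)) / 2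
        = K1 * (η ^ (-(2 * ε)) * T ^ (1 / 2 - σ)) * R ^ (-ε) := by rw [hK1]; ring
      _ ≤ K1 * (η ^ (-(3 * ε)) * T ^ (1 / 2 - σ)) * r ^ j := by gcongr
  -- induction
  have hind : ∀ J : ℕ, ∫ ξ in tball (2 ^ J * T), L ξ * w ξ ≤
      K0 * E + K1 * E * ∑ j ∈ Finset.range J, r ^ j := by
    intro J
    induction J with
    | zero => simpa using hball
    | succ J ih =>
      have h1 : (2:ℝ) ^ (J + 1) * T = 2 * (2 ^ J * T) := by ring
      rw [h1, tball_double (by positivity), setIntegral_union tball_disj (tband_meas _)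
        hLw.integrableOn hLw.integrableOn, Finset.sum_range_succ, mul_add]
      linarith [hband J]
  have hgeom : ∀ J : ℕ, ∑ j ∈ Finset.range J, r ^ j ≤ 1 / (1 - r) := by
    intro J
    have h1 := (summable_geometric_of_lt_one hr0.le hr1).sum_le_tsum (Finset.range J)
      (fun j _ => by positivity)
    rw [tsum_geometric_of_lt_one hr0.le hr1] at h1
    rwa [one_div]
  have hbound : ∀ J : ℕ, ∫ ξ in tball (2 ^ J * T), L ξ * w ξ ≤ (K0 + K1 / (1 - r)) * E := by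
    intro J
    refine (hind J).trans ?_
    calc K0 * E + K1 * E * ∑ j ∈ Finset.range J, r ^ j ≤ K0 * E + K1 * E * (1 / (1 - r)) := by
          gcongr
          exact hgeom J
      _ = _ := by ring
  -- the limit
  have hmono : Monotone fun J : ℕ => tball (2 ^ J * T) := by
    intro a b hab ξ hξ
    have h1 : |2 * Real.pi * ξ| ≤ 2 ^ a * T := hξ
    show |2 * Real.pi * ξ| ≤ 2 ^ b * T
    have h2 : (2:ℝ) ^ a ≤ 2 ^ b := pow_le_pow_right₀ (by norm_num) hab
    nlinarith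
  have hunion : (⋃ J : ℕ, tball (2 ^ J * T)) = univ := by
    rw [eq_univ_iff_forall]
    intro ξ
    rw [mem_iUnion]
    obtain ⟨J, hJ⟩ := pow_unbounded_of_one_lt |2 * Real.pi * ξ| (one_lt_two (α := ℝ))
    refine ⟨J, ?_⟩
    show |2 * Real.pi * ξ| ≤ 2 ^ J * T
    have : (0:ℝ) < 2 ^ J := by positivity
    nlinarith
  have hlim := tendsto_setIntegral_of_monotone (μ := volume) (f := fun ξ => L ξ * w ξ)
    (fun J : ℕ => tball_meas (2 ^ J * T)) hmono hLw.integrableOn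
  rw [hunion, setIntegral_univ] at hlim
  have hfin : ∫ ξ, L ξ * w ξ ≤ (K0 + K1 / (1 - r)) * E :=
    le_of_tendsto' hlim hbound
  calc ‖∫ ξ : ℝ, PH η x k (σ + 2 * Real.pi * ξ * Complex.I)‖
      ≤ ∫ ξ : ℝ, ‖PH η x k (σ + 2 * Real.pi * ξ * Complex.I)‖ := norm_integral_le_integral_norm _
    _ = Real.exp (σ * x) * ∫ ξ, L ξ * w ξ := by
        simp_rw [hPH]
        rw [integral_const_mul]
    _ ≤ Real.exp (σ * x) * ((K0 + K1 / (1 - r)) * E) :=
        mul_le_mul_of_nonneg_left hfin (Real.exp_pos _).le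
    _ = _ := by rw [hE]; ring

end

end Pool.Agent.H295R2
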