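import Pool.Agent.H295R2.G2
import Pool.Agent.H295R2.T4
import Pool.Agent.H295R2.T5
import Pool.Agent.H295R2.T2

set_option autoImplicit false

open MeasureTheory Filter Topology Set
open scoped ContDiff

namespace Pool.Agent.H295R2

noncomputable section

lemma bb_identity {φ : ℝ → ℝ} (hφ : Bump φ) {p q : ℕ} (hq : 0 < q) {D : ℝ} (hD : 2 * (q:ℝ) ≤ D) (n : ℕ) :
    ∑ d ∈ Finset.Icc 1 n, Mx ((n:ℝ) / d) * bb φ p q D d =
      ∑ e ∈ Finset.Icc 1 n, mu e * rho φ p q D ((n:ℝ) / e) + D / q ^ 2 * mOm φ (q * n / D) := by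
  have hq' : (0:ℝ) < q := by exact_mod_cast hq
  have hD0 : 0 < D := by linarith
  rw [mOm_eq_sum hφ (X := q * n / D) (N := n) (by positivity) (by
    rw [mul_div_assoc']
    rw [div_le_iff₀ hD0]
    have : (0:ℝ) ≤ n := Nat.cast_nonneg n
    nlinarith)]
  have h1 := sum_swap_div n mu (fun d => bb φ p q D d)
  have h2 : ∑ d ∈ Finset.Icc 1 n, Mx ((n:ℝ) / d) * bb φ p q D d =
      ∑ e ∈ Finset.Icc 1 n, mu e * ∑ d ∈ Finset.Icc 1 (n / e), bb φ p q D d := by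
    rw [h1]
    refine Finset.sum_congr rfl fun d _ => ?_
    rw [Mx_div]; ring
  rw [h2, Finset.mul_sum, ← Finset.sum_add_distrib]
  refine Finset.sum_congr rfl fun e he => ?_
  rw [Finset.mem_Icc] at he
  have he' : (0:ℝ) < e := by exact_mod_cast he.1
  unfold rho
  rw [Nat.floor_div_natCast, Nat.floor_natCast]
  have h2 : (q:ℝ) * (n / e) / D = q * n / D / e := by field_simp
  rw [h2]
  ring

lemma farey_eq_bb {φ : ℝ → ℝ} (hφ : Bump φ) {p q : ℕ} (hpq : p < q) {D : ℝ} (hD : 2 * (q:ℝ) ≤ D) (n : ℕ) :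
    ∑ x ∈ farey n, deriv φ (D * ((x : ℝ) - p / q)) = ∑ d ∈ Finset.Icc 1 n, Mx ((n:ℝ) / d) * bb φ p q D d := by
  rw [farey_local_sum hφ hpq hD, bb_identity hφ (by omega) hD]

lemma rpow_eventually_ge {a : ℝ} (ha : 0 < a) (M : ℝ) : ∀ᶠ n : ℕ in atTop, M ≤ (n:ℝ) ^ a :=
  ((tendsto_rpow_atTop ha).comp tendsto_natCast_atTop_atTop).eventually_ge_atTop M

/-- **Core lower bound.** -/
theorem core {Θ : ℝ} (h1 : 1/2 ≤ Θ) (h2 : Θ ≤ 1) (hfree : ∀ s : ℂ, Θ < s.re → Zs s ≠ 0)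
    (hsup : ∀ κ > 0, ∃ s : ℂ, Θ - κ < s.re ∧ Zs s = 0) {p q : ℕ} (hq : 0 < q) (hpq : Nat.Coprime p q)
    {γ τ : ℝ} (hγ : 0 < γ) (hγ1 : γ < 1) (hτ : 0 < τ) (hτ1 : τ ≤ γ / 16) (hτ2 : τ ≤ (1 - γ) / 8) :
    ∃ φ : ℝ → ℝ, Bump φ ∧ ∀ᶠ n : ℕ in atTop, ∃ D : ℝ, (n:ℝ) ^ γ ≤ D ∧ 4 * (q:ℝ) ≤ D ∧ D ≤ (n:ℝ) ^ (γ + 2 * τ) ∧
      D * (n:ℝ) ^ ((1 - γ) * Θ - 4 * τ) ≤ |∑ d ∈ Finset.Icc 1 n, Mx ((n:ℝ) / d) * bb φ p q D d| := by
  obtain ⟨φ, hφ1, hφ2, Y₀, hY⟩ := T4 h1 h2 hfree hsup hτ (by linarith : τ < 1)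
  have hφ : Bump φ := ⟨hφ1, hφ2⟩
  refine ⟨φ, hφ, ?_⟩
  have hq' : (0:ℝ) < q := by exact_mod_cast hq
  have hq1 : (1:ℝ) ≤ q := by exact_mod_cast hq
  set σ : ℝ := Θ + τ with hσ
  have hσ0 : 0 < σ := by linarith
  obtain ⟨B₁, hB₁, hnice⟩ := krho_nice hφ hq hpq
  obtain ⟨B₂, hB₂, htrans⟩ := krho_trans hφ hq hpq hσ0
  obtain ⟨C5, hC50, hC5⟩ := T5 (θ := Θ) (σ := σ) (ε := τ) (B := max B₁ B₂) (by linarith) hfree (by linarith) (by linarith)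
    hτ (by linarith) (by positivity)
  obtain ⟨C6, hC60, hC6⟩ := perron_side hφ hq hpq
  filter_upwards [rpow_eventually_ge hτ (q ^ 2 * (4 * C5 + C6 + 1)), rpow_eventually_ge hτ q, rpow_eventually_ge hγ 4,
    rpow_eventually_ge (by linarith : 0 < 1 - γ) Y₀, eventually_ge_atTop 1] with n e1 e2 e3 e4 hn
  have hn1 : (1:ℝ) ≤ n := by exact_mod_cast hn
  have hn0 : (0:ℝ) < n := by linarith
  obtain ⟨X, hX1, hX2, hX3⟩ := hY _ e4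
  rw [← Real.rpow_mul hn0.le] at hX1 hX3
  have hX0 : 0 < X := lt_of_lt_of_le (by positivity) hX1
  set D : ℝ := q * n / X with hDdef
  have hD0 : 0 < D := by positivity
  have hXD : q * n / D = X := by rw [hDdef]; field_simp
  have hDlow : q * (n:ℝ) ^ γ ≤ D := by
    rw [hDdef, le_div_iff₀ hX0]
    calc q * (n:ℝ) ^ γ * X ≤ q * (n:ℝ) ^ γ * (n:ℝ) ^ (1 - γ) := by gcongr
      _ = q * n := by
        rw [mul_assoc, ← Real.rpow_add hn0]; norm_num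
  have hDγ : (n:ℝ) ^ γ ≤ D := by
    refine le_trans ?_ hDlow
    have : 0 ≤ (n:ℝ) ^ γ := by positivity
    nlinarith
  have h4q : 4 * (q:ℝ) ≤ D := by
    refine le_trans ?_ hDlow
    nlinarith
  have hDup : D ≤ (n:ℝ) ^ (γ + 2 * τ) := by
    rw [hDdef, div_le_iff₀ hX0]
    calc (q:ℝ) * n ≤ (n:ℝ) ^ τ * n := by gcongr
      _ = (n:ℝ) ^ (τ + 1) := by rw [Real.rpow_add hn0, Real.rpow_one]
      _ ≤ (n:ℝ) ^ (γ + 2 * τ + (1 - γ) * (1 - τ)) := by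
          apply Real.rpow_le_rpow_of_exponent_le hn1
          nlinarith
      _ = (n:ℝ) ^ (γ + 2 * τ) * (n:ℝ) ^ ((1 - γ) * (1 - τ)) := Real.rpow_add hn0 _ _
      _ ≤ (n:ℝ) ^ (γ + 2 * τ) * X := by gcongr
  have hD1 : 1 ≤ D := by linarith
  refine ⟨D, hDγ, h4q, hDup, ?_⟩
  -- the error
  have hDn : D ≤ n := by
    refine hDup.trans ?_
    calc (n:ℝ) ^ (γ + 2 * τ) ≤ (n:ℝ) ^ (1:ℝ) := by
          apply Real.rpow_le_rpow_of_exponent_le hn1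
          linarith
      _ = n := Real.rpow_one _
  have herr0 := hC5 (krho φ p q D) D hD1 (hnice _ (le_max_left _ _) D hD1)
    (fun h hh hh1 => htrans _ (le_max_right _ _) D hD1 h hh hh1) (1 / (4 * n)) (Real.log n) (by positivity)
    (by rw [div_mul_eq_mul_div, div_le_one (by positivity)]; linarith)
  have herr1 := hC6 n hn D h4q
  have hexp : Real.exp (σ * Real.log n) = (n:ℝ) ^ σ := by
    rw [Real.rpow_def_of_pos hn0, mul_comm]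
  have heta : (1 / (4 * (n:ℝ))) ^ (-(3 * τ)) ≤ 4 * (n:ℝ) ^ (3 * τ) := by
    rw [one_div, Real.inv_rpow (by positivity), Real.rpow_neg (by positivity), inv_inv, Real.mul_rpow (by norm_num) hn0.le]
    gcongr
    calc (4:ℝ) ^ (3 * τ) ≤ 4 ^ (1:ℝ) := by
          apply Real.rpow_le_rpow_of_exponent_le (by norm_num)
          linarith
      _ = 4 := Real.rpow_one _
  have hDpow : D ^ (1/2 - σ) ≤ D * (n:ℝ) ^ (-(γ / 2) - γ * σ) := by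
    have e5 : D ^ (1/2 - σ) = D * D ^ (-(1/2) - σ) := by
      rw [← Real.rpow_one_add' hD0.le (by linarith)]
      congr 1; ring
    rw [e5]
    gcongr
    calc D ^ (-(1/2) - σ) ≤ ((n:ℝ) ^ γ) ^ (-(1/2) - σ) :=
          Real.rpow_le_rpow_of_nonpos (by positivity) hDγ (by linarith)
      _ = (n:ℝ) ^ (-(γ / 2) - γ * σ) := by
          rw [← Real.rpow_mul hn0.le]; congr 1; ring
  set E : ℝ := ∑ e ∈ Finset.Icc 1 n, mu e * rho φ p q D ((n:ℝ) / e) with hE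
  have hE1 : |E| ≤ 4 * C5 * (D * (n:ℝ) ^ ((1 - γ) * Θ - 4 * τ)) + C6 := by
    have h3 : |E| = ‖((E : ℝ) : ℂ)‖ := by rw [Complex.norm_real, Real.norm_eq_abs]
    rw [h3]
    set S := ∑' m : ℕ, ((ArithmeticFunction.moebius m : ℤ) : ℂ) *
          avg (1 / (4 * n)) (avg (1 / (4 * n)) (krho φ p q D)) (Real.log n - Real.log m) with hS
    have h4 : ‖((E : ℝ) : ℂ)‖ ≤ ‖S‖ + ‖S - ((E : ℝ) : ℂ)‖ := by
      have := norm_sub_le S (S - ((E : ℝ) : ℂ))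
      rwa [sub_sub_cancel] at this
    refine h4.trans (add_le_add ?_ herr1)
    refine herr0.trans ?_
    rw [hexp]
    calc C5 * (n:ℝ) ^ σ * (1 / (4 * (n:ℝ))) ^ (-(3 * τ)) * D ^ (1 / 2 - σ)
        ≤ C5 * (n:ℝ) ^ σ * (4 * (n:ℝ) ^ (3 * τ)) * (D * (n:ℝ) ^ (-(γ / 2) - γ * σ)) := by gcongr
      _ = 4 * C5 * (D * ((n:ℝ) ^ σ * (n:ℝ) ^ (3 * τ) * (n:ℝ) ^ (-(γ / 2) - γ * σ))) := by ring
      _ = 4 * C5 * (D * (n:ℝ) ^ (σ + 3 * τ + (-(γ / 2) - γ * σ))) := by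
          rw [← Real.rpow_add hn0, ← Real.rpow_add hn0]
      _ ≤ 4 * C5 * (D * (n:ℝ) ^ ((1 - γ) * Θ - 4 * τ)) := by
          gcongr
          rw [hσ]; nlinarith
  have hmain : (q ^ 2 : ℝ)⁻¹ * (D * ((n:ℝ) ^ τ * (n:ℝ) ^ ((1 - γ) * Θ - 4 * τ))) ≤ |D / q ^ 2 * mOm φ (q * n / D)| := by
    rw [hXD, abs_mul, abs_of_pos (by positivity : (0:ℝ) < D / q ^ 2)]
    calc (q ^ 2 : ℝ)⁻¹ * (D * ((n:ℝ) ^ τ * (n:ℝ) ^ ((1 - γ) * Θ - 4 * τ)))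
        = D / q ^ 2 * (n:ℝ) ^ (τ + ((1 - γ) * Θ - 4 * τ)) := by
          rw [Real.rpow_add hn0]; field_simp
      _ ≤ D / q ^ 2 * (n:ℝ) ^ ((1 - γ) * (Θ - 3 * τ)) := by
          gcongr
          nlinarith
      _ ≤ D / q ^ 2 * |mOm φ X| := by gcongr
  rw [bb_identity hφ hq (by linarith) n]
  have h5 : |D / q ^ 2 * mOm φ (q * n / D)| ≤ |E + D / q ^ 2 * mOm φ (q * n / D)| + |E| := by
    have := abs_sub (E + D / q ^ 2 * mOm φ (q * n / D)) E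
    rwa [add_sub_cancel_left] at this
  set P : ℝ := (n:ℝ) ^ ((1 - γ) * Θ - 4 * τ) with hP
  have hP1 : 1 ≤ P := by
    rw [hP]
    apply Real.one_le_rpow hn1
    nlinarith
  have hDP : 1 ≤ D * P := by nlinarith
  have h6 : (q ^ 2 : ℝ)⁻¹ * (D * ((n:ℝ) ^ τ * P)) ≥ (4 * C5 + C6 + 1) * (D * P) := by
    calc (q ^ 2 : ℝ)⁻¹ * (D * ((n:ℝ) ^ τ * P)) ≥ (q ^ 2 : ℝ)⁻¹ * (D * ((q ^ 2 * (4 * C5 + C6 + 1)) * P)) := by gcongr
      _ = (4 * C5 + C6 + 1) * (D * P) := by field_simp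
  have h7 : C6 ≤ C6 * (D * P) := by nlinarith
  nlinarith

end

end Pool.Agent.H295R2
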