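import Pool.Agent.H295R2.T6a

set_option autoImplicit false

open MeasureTheory Filter Topology Set
open scoped ContDiff

namespace Pool.Agent.H295R2

noncomputable section

/-- The supremum of the real parts of the zeros of the Riemann zeta function in the critical strip. -/
def zetaSup : ℝ := sSup (Complex.re '' {s : ℂ | riemannZeta s = 0 ∧ 0 < s.re ∧ s.re < 1})

lemma zset_bdd : BddAbove (Complex.re '' {s : ℂ | riemannZeta s = 0 ∧ 0 < s.re ∧ s.re < 1}) := by
  refine ⟨1, ?_⟩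
  rintro x ⟨s, hs, rfl⟩
  exact hs.2.2.le

lemma zeta_of_Zs {s : ℂ} (hs : Zs s = 0) (h0 : 0 < s.re) : riemannZeta s = 0 ∧ 0 < s.re ∧ s.re < 1 := by
  have h1 : s.re < 1 := by
    by_contra h
    exact Zs_ne_zero_of_one_le (not_lt.mp h) hs
  have hne : s ≠ 1 := by
    rintro rfl
    simp at h1
  refine ⟨?_, h0, h1⟩
  rw [← Zs_eq hne] at hs
  rcases mul_eq_zero.mp hs with h | h
  · exact absurd (sub_eq_zero.mp h) hne
  · exact h

lemma zset_nonempty : (Complex.re '' {s : ℂ | riemannZeta s = 0 ∧ 0 < s.re ∧ s.re < 1}).Nonempty := by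
  by_contra hne
  rw [Set.not_nonempty_iff_eq_empty] at hne
  have : (1:ℝ) / 2 ≤ 1 / 4 := by
    apply T2
    intro s hs hz
    have h1 := zeta_of_Zs hz (by linarith)
    have : s.re ∈ (Complex.re '' {s : ℂ | riemannZeta s = 0 ∧ 0 < s.re ∧ s.re < 1}) := ⟨s, h1, rfl⟩
    rw [hne] at this
    exact this
  norm_num at this

lemma zetaSup_pos : 0 < zetaSup := by
  obtain ⟨x, s, hs, rfl⟩ := zset_nonempty
  exact lt_of_lt_of_le hs.2.1 (le_csSup zset_bdd ⟨s, hs, rfl⟩)

lemma zetaSup_le_one : zetaSup ≤ 1 := by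
  apply csSup_le zset_nonempty
  rintro x ⟨s, hs, rfl⟩
  exact hs.2.2.le

lemma zetaSup_free : ∀ s : ℂ, zetaSup < s.re → Zs s ≠ 0 := by
  intro s hs hz
  have h1 := zeta_of_Zs hz (zetaSup_pos.trans hs)
  have : s.re ≤ zetaSup := le_csSup zset_bdd ⟨s, h1, rfl⟩
  linarith

lemma half_le_zetaSup : 1 / 2 ≤ zetaSup := T2 zetaSup_free

lemma zetaSup_sup : ∀ κ > 0, ∃ s : ℂ, zetaSup - κ < s.re ∧ Zs s = 0 := by
  intro κ hκ
  obtain ⟨x, ⟨s, hs, rfl⟩, h⟩ := exists_lt_of_lt_csSup zset_nonempty (show zetaSup - κ < zetaSup by linarith)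
  refine ⟨s, h, ?_⟩
  have hne : s ≠ 1 := by
    rintro rfl
    have := hs.2.2
    simp at this
  rw [← Zs_eq hne, hs.1, mul_zero]

/-- For every large `n` a weighted sum of `M(n/d)`, `d ≤ n`, is large. -/
theorem weighted_lower {γ τ : ℝ} (hγ : 0 < γ) (hγ1 : γ < 1) (hτ : 0 < τ) (hτ1 : τ ≤ γ / 16) (hτ2 : τ ≤ (1 - γ) / 8) :
    ∃ φ : ℝ → ℝ, Bump φ ∧ ∀ᶠ n : ℕ in atTop, ∃ D : ℝ, (n:ℝ) ^ γ ≤ D ∧ 4 ≤ D ∧ D ≤ (n:ℝ) ^ (γ + 2 * τ) ∧
      D * (n:ℝ) ^ ((1 - γ) * zetaSup - 4 * τ) ≤ |∑ d ∈ Finset.Icc 1 n, Mx ((n:ℝ) / d) * W φ (d / D)| := by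
  obtain ⟨φ, hφ, h⟩ := core half_le_zetaSup zetaSup_le_one zetaSup_free zetaSup_sup (p := 0) (q := 1) one_pos
    (by simp) hγ hγ1 hτ hτ1 hτ2
  refine ⟨φ, hφ, ?_⟩
  filter_upwards [h] with n hn
  obtain ⟨D, h1, h2, h3, h4⟩ := hn
  have hD0 : 0 < D := by
    have : (0:ℝ) < ((1:ℕ):ℝ) := by norm_num
    linarith
  refine ⟨D, h1, by simpa using h2, h3, ?_⟩
  have e : ∀ d ∈ Finset.Icc 1 n, Mx ((n:ℝ) / d) * bb φ 0 1 D d = Mx ((n:ℝ) / d) * W φ (d / D) := by
    intro d _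
    congr 1
    rw [W_eq_Gt]
    unfold bb
    congr 1
    · simp
    · simp
    · rw [Nat.cast_one, one_mul, one_div_div]
  rw [Finset.sum_congr rfl e] at h4
  exact h4

/-- **Lower bound in shrinking windows.** -/
theorem window_lower {p q : ℕ} (hpq : p < q) (hco : Nat.Coprime p q) {c : ℝ} (hc : 0 ≤ c) (hc1 : c < 1)
    {ε : ℝ} (hε : 0 < ε) :
    ∀ᶠ n : ℕ in atTop, (n:ℝ) ^ ((1 - c) * zetaSup - ε) ≤ localSum (p / q) (p / q + (n:ℝ) ^ (-c)) n := by
  have hq : 0 < q := by omega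
  have hΘ1 := half_le_zetaSup
  have hΘ2 := zetaSup_le_one
  set s : ℝ := min (ε / 4) ((1 - c) / 4) with hs
  have hs0 : 0 < s := by rw [hs]; apply lt_min <;> linarith
  have hs1 : s ≤ ε / 4 := min_le_left _ _
  have hs2 : s ≤ (1 - c) / 4 := min_le_right _ _
  set γ : ℝ := c + s with hγdef
  have hγ : 0 < γ := by linarith
  have hγ1 : γ < 1 := by linarith
  set τ : ℝ := min (γ / 16) (min ((1 - γ) / 20) (ε / 20)) with hτdef
  have hτ : 0 < τ := by rw [hτdef]; refine lt_min (by linarith) (lt_min (by linarith) (by linarith))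
  have hτ1 : τ ≤ γ / 16 := min_le_left _ _
  have hτ2 : τ ≤ (1 - γ) / 20 := (min_le_right _ _).trans (min_le_left _ _)
  have hτ3 : τ ≤ ε / 20 := (min_le_right _ _).trans (min_le_right _ _)
  obtain ⟨φ, hφ, hcore⟩ := core hΘ1 hΘ2 zetaSup_free zetaSup_sup hq hco hγ hγ1 hτ hτ1 (by linarith)
  obtain ⟨C, hC0, hfun⟩ := functional_window hφ hpq (η := (1 - γ) / 2) (by linarith)
  have hP0 : 0 < (1 - γ) * zetaSup - 4 * τ := by nlinarith
  filter_upwards [hcore, hfun, rpow_eventually_ge hP0 (2 * C), rpow_eventually_ge hτ (2 * C),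
    rpow_eventually_ge hs0 3, eventually_ge_atTop 1] with n h1 h2 h3 h4 h5 hn
  have hn1 : (1:ℝ) ≤ n := by exact_mod_cast hn
  have hn0 : (0:ℝ) < n := by linarith
  obtain ⟨D, hD1, hD2, hD3, hD4⟩ := h1
  have hq' : (0:ℝ) < q := by exact_mod_cast hq
  have hD0 : 0 < D := by linarith
  have h6 := h2 D (by linarith) (hD3.trans (Real.rpow_le_rpow_of_exponent_le hn1 (by linarith)))
  rw [farey_eq_bb hφ hpq (by linarith) n] at h6
  have h7 := hD4.trans h6
  set P : ℝ := (n:ℝ) ^ ((1 - γ) * zetaSup - 4 * τ) with hP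
  have hPpos : 0 < P := by positivity
  have h8 : P ≤ C * (localSum (p / q) (p / q + 3 / D) n + 1) := by
    have : D * P ≤ D * (C * (localSum (p / q) (p / q + 3 / D) n + 1)) := by
      refine h7.trans (le_of_eq (by ring))
    exact le_of_mul_le_mul_left this hD0
  -- final comparison
  have h9 : (n:ℝ) ^ ((1 - c) * zetaSup - ε) ≤ P / (2 * C) := by
    rw [le_div_iff₀ (by positivity)]
    calc (n:ℝ) ^ ((1 - c) * zetaSup - ε) * (2 * C) ≤ (n:ℝ) ^ ((1 - c) * zetaSup - ε) * (n:ℝ) ^ τ := by gcongr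
      _ = (n:ℝ) ^ ((1 - c) * zetaSup - ε + τ) := by rw [← Real.rpow_add hn0]
      _ ≤ P := by
        rw [hP]
        apply Real.rpow_le_rpow_of_exponent_le hn1
        rw [hγdef]
        nlinarith
  have h10 : P / (2 * C) ≤ localSum (p / q) (p / q + 3 / D) n := by
    have h11 : 1 ≤ P / (2 * C) := by rw [one_le_div (by positivity)]; exact h3
    have h12 : P / (2 * C) + P / (2 * C) = P / C := by field_simp; ring
    have h13 : P / C ≤ localSum (p / q) (p / q + 3 / D) n + 1 := by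
      rw [div_le_iff₀ hC0]; linarith
    linarith
  refine h9.trans (h10.trans (localSum_mono le_rfl ?_ n))
  have h14 : 3 / D ≤ (n:ℝ) ^ (-c) := by
    rw [div_le_iff₀ hD0]
    calc (3:ℝ) ≤ (n:ℝ) ^ s := h5
      _ = (n:ℝ) ^ (-c) * (n:ℝ) ^ γ := by rw [← Real.rpow_add hn0]; congr 1; rw [hγdef]; ring
      _ ≤ (n:ℝ) ^ (-c) * D := by gcongr
  linarith

/-- **Lower bound in fixed intervals.** -/
theorem interval_lower {α β : ℝ} (hαβ : α < β) (hα : α < 1) (hβ : 0 < β) {ε : ℝ} (hε : 0 < ε) :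
    ∀ᶠ n : ℕ in atTop, (n:ℝ) ^ (zetaSup - ε) ≤ localSum α β n := by
  have hlt : max α 0 < min β 1 := by
    rw [max_lt_iff, lt_min_iff, lt_min_iff]
    exact ⟨⟨hαβ, hα⟩, ⟨hβ, one_pos⟩⟩
  obtain ⟨r, hr1, hr2⟩ := exists_rat_btwn hlt
  rw [max_lt_iff] at hr1
  rw [lt_min_iff] at hr2
  have hr0 : 0 < r := by exact_mod_cast hr1.2
  have hr1' : r < 1 := by exact_mod_cast hr2.2
  have hnum : 0 < r.num := Rat.num_pos.mpr hr0
  set p : ℕ := r.num.natAbs with hp
  set q : ℕ := r.den with hq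
  have hq0 : 0 < q := r.den_pos
  have hpnum : ((p : ℕ) : ℤ) = r.num := by rw [hp]; omega
  have hrr : (r : ℝ) = (p:ℝ) / q := by
    have h1 : (r : ℚ) = (r.num : ℚ) / (r.den : ℚ) := (Rat.num_div_den r).symm
    have h2 : (r : ℝ) = (r.num : ℝ) / (r.den : ℝ) := by exact_mod_cast h1
    rw [h2, ← hpnum]
    push_cast
    rfl
  have hpq : p < q := by
    have h1 : (p:ℝ) / q < 1 := by rw [← hrr]; exact_mod_cast hr1'
    rw [div_lt_one (by exact_mod_cast hq0)] at h1
    exact_mod_cast h1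
  have hco : Nat.Coprime p q := r.reduced
  set c : ℝ := min (ε / 2) (1 / 2) with hc
  have hc0 : 0 < c := by rw [hc]; apply lt_min <;> linarith
  have hc1 : c ≤ ε / 2 := min_le_left _ _
  have hc2 : c ≤ 1 / 2 := min_le_right _ _
  have hΘ2 := zetaSup_le_one
  have hw := window_lower hpq hco hc0.le (by linarith) (ε := ε / 2) (by linarith)
  have hgap : 0 < β - p / q := by rw [← hrr]; linarith [hr2.1]
  filter_upwards [hw, rpow_eventually_ge hc0 (1 / (β - p / q)), eventually_ge_atTop 1] with n h1 h2 hn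
  have hn1 : (1:ℝ) ≤ n := by exact_mod_cast hn
  have hn0 : (0:ℝ) < n := by linarith
  calc (n:ℝ) ^ (zetaSup - ε) ≤ (n:ℝ) ^ ((1 - c) * zetaSup - ε / 2) := by
        apply Real.rpow_le_rpow_of_exponent_le hn1
        nlinarith
    _ ≤ localSum (p / q) (p / q + (n:ℝ) ^ (-c)) n := h1
    _ ≤ localSum α β n := by
        apply localSum_mono
        · rw [← hrr]; exact hr1.1.le
        · have : (n:ℝ) ^ (-c) ≤ β - p / q := by
            rw [Real.rpow_neg hn0.le]
            rw [one_div] at h2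
            rw [inv_le_comm₀ (by positivity) hgap]
            exact h2
          linarith

theorem total_upper {ε : ℝ} (hε : 0 < ε) (hε1 : ε ≤ 1) :
    ∃ K > 0, ∀ n : ℕ, 1 ≤ n → totalSum n ≤ K * (n:ℝ) ^ (zetaSup + ε) := by
  have hΘ1 := half_le_zetaSup
  have hΘ2 := zetaSup_le_one
  obtain ⟨C, hC0, hC⟩ := mertens_bound (θ := zetaSup) (σ := zetaSup + ε) (by linarith) zetaSup_free (by linarith) (by linarith)
  exact T1 (by linarith) (by linarith) hC0 hC

/-- **The limit theorem.** -/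
theorem limit_theorem {α β : ℝ} (hαβ : α < β) (hα : α < 1) (hβ : 0 < β) :
    Tendsto (fun n : ℕ => Real.log (localSum α β n) / Real.log n) atTop (𝓝 zetaSup) := by
  rw [Metric.tendsto_nhds]
  intro ε hε
  set e : ℝ := min (ε / 4) 1 with he
  have he0 : 0 < e := by rw [he]; apply lt_min <;> linarith
  have he1 : e ≤ ε / 4 := min_le_left _ _
  have he2 : e ≤ 1 := min_le_right _ _
  obtain ⟨K, hK0, hK⟩ := total_upper he0 he2
  filter_upwards [interval_lower hαβ hα hβ (ε := e) he0, rpow_eventually_ge he0 K, eventually_ge_atTop 2] with n h1 h2 hn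
  have hn1 : 1 ≤ n := by omega
  have hn2 : (1:ℝ) < n := by exact_mod_cast hn
  have hn0 : (0:ℝ) < n := by linarith
  have hlog : 0 < Real.log n := Real.log_pos hn2
  have hS0 : 0 < localSum α β n := lt_of_lt_of_le (by positivity) h1
  have h3 : localSum α β n ≤ (n:ℝ) ^ (zetaSup + 2 * e) := by
    calc localSum α β n ≤ totalSum n := localSum_le_total _ _ _
      _ ≤ K * (n:ℝ) ^ (zetaSup + e) := hK n hn1
      _ ≤ (n:ℝ) ^ e * (n:ℝ) ^ (zetaSup + e) := by gcongr
      _ = (n:ℝ) ^ (zetaSup + 2 * e) := by rw [← Real.rpow_add hn0]; congr 1; ring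
  have h4 : (zetaSup - e) * Real.log n ≤ Real.log (localSum α β n) := by
    rw [← Real.log_rpow hn0]
    exact Real.log_le_log (by positivity) h1
  have h5 : Real.log (localSum α β n) ≤ (zetaSup + 2 * e) * Real.log n := by
    rw [← Real.log_rpow hn0]
    exact Real.log_le_log hS0 h3
  rw [Real.dist_eq, abs_lt]
  constructor
  · have : zetaSup - e ≤ Real.log (localSum α β n) / Real.log n := by rw [le_div_iff₀ hlog]; exact h4
    linarith
  · have : Real.log (localSum α β n) / Real.log n ≤ zetaSup + 2 * e := by rw [div_le_iff₀ hlog]; exact h5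
    linarith

/-- **Reduction of the Franel-Landau bound** to a window near one rational number and to infinitely many `n`. -/
theorem reduction {p q : ℕ} (hpq : p < q) (hco : Nat.Coprime p q) {c : ℝ} (hc : 0 ≤ c) (hc1 : c < 1)
    (h : ∀ r : ℝ, (1 - c) / 2 < r → ∃ᶠ n : ℕ in atTop, localSum (p / q) (p / q + (n:ℝ) ^ (-c)) n ≤ (n:ℝ) ^ r) :
    ∀ r : ℝ, 1 / 2 < r → ∃ C : ℝ, ∀ n : ℕ, 1 ≤ n → totalSum n < C * (n:ℝ) ^ r := by
  have hΘ : zetaSup ≤ 1 / 2 := by
    by_contra hcon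
    push Not at hcon
    set ε : ℝ := (1 - c) * (zetaSup - 1 / 2) / 4 with hε
    have hε0 : 0 < ε := by
      rw [hε]
      have : 0 < (1 - c) * (zetaSup - 1 / 2) := mul_pos (by linarith) (by linarith)
      linarith
    have h1 := window_lower hpq hco hc hc1 hε0
    have h2 := h ((1 - c) / 2 + ε) (by linarith)
    obtain ⟨n, h3, h4, h5⟩ := (h2.and_eventually (h1.and (eventually_ge_atTop 2))).exists
    have hn2 : (1:ℝ) < n := by exact_mod_cast h5
    have h6 := h4.trans h3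
    rw [Real.rpow_le_rpow_left_iff hn2] at h6
    have : (1 - c) * (zetaSup - 1 / 2) = 4 * ε := by rw [hε]; ring
    nlinarith
  intro r hr
  obtain ⟨K, hK0, hK⟩ := total_upper (ε := min (r - 1 / 2) 1) (lt_min (by linarith) one_pos) (min_le_right _ _)
  refine ⟨K + 1, fun n hn => ?_⟩
  have hn1 : (1:ℝ) ≤ n := by exact_mod_cast hn
  calc totalSum n ≤ K * (n:ℝ) ^ (zetaSup + min (r - 1 / 2) 1) := hK n hn
    _ ≤ K * (n:ℝ) ^ r := by
        have : min (r - 1 / 2) 1 ≤ r - 1 / 2 := min_le_left _ _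
        gcongr
        linarith
    _ < (K + 1) * (n:ℝ) ^ r := by
        have : 0 < (n:ℝ) ^ r := by positivity
        nlinarith

end

end Pool.Agent.H295R2
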