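import Pool.Agent.H295R2.T7

set_option autoImplicit false

open MeasureTheory Filter Topology Set
open scoped ContDiff

namespace Pool.Agent.H295R2

noncomputable section

lemma one_add_log_eventually_le {a : ℝ} (ha : 0 < a) : ∀ᶠ n : ℕ in atTop, 1 + Real.log n ≤ (n:ℝ) ^ a := by
  have h3 := (isLittleO_log_rpow_atTop ha).bound (show (0:ℝ) < 1 / 2 by norm_num)
  have h4 := tendsto_natCast_atTop_atTop.eventually h3
  filter_upwards [h4, rpow_eventually_ge ha 2, eventually_ge_atTop 1] with n h5 h6 hn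
  have hn1 : (1:ℝ) ≤ n := by exact_mod_cast hn
  rw [Real.norm_of_nonneg (Real.log_nonneg hn1), Real.norm_of_nonneg (by positivity)] at h5
  linarith

/-- `M` is large at one of the points `n/h`, `h ≤ n^δ`, for EVERY large `n`. -/
theorem mertens_local_lower {δ ε : ℝ} (hδ : 0 < δ) (hδ1 : δ ≤ 1) (hε : 0 < ε) :
    ∀ᶠ n : ℕ in atTop, ∃ h : ℕ, 1 ≤ h ∧ (h:ℝ) ≤ (n:ℝ) ^ δ ∧ (n:ℝ) ^ (zetaSup - ε) ≤ |Mx ((n:ℝ) / h)| := by
  have hΘ1 := half_le_zetaSup
  have hΘ2 := zetaSup_le_one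
  set γ : ℝ := min δ ε / 8 with hγdef
  have hmin : 0 < min δ ε := lt_min hδ hε
  have hγ : 0 < γ := by rw [hγdef]; linarith
  have hγδ : 8 * γ ≤ δ := by rw [hγdef]; have := min_le_left δ ε; linarith
  have hγε : 8 * γ ≤ ε := by rw [hγdef]; have := min_le_right δ ε; linarith
  obtain ⟨φ, hφ, hw⟩ := weighted_lower (γ := γ) (τ := γ / 16) hγ (by linarith) (by linarith) le_rfl (by linarith)
  obtain ⟨σ, hσ1, hσ2, hσ3, hσ4, C, hC0, hC⟩ := mertens_sup hγ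
  obtain ⟨CW, hCW0, hCW⟩ := W_bounded hφ
  filter_upwards [hw, one_add_log_eventually_le (a := γ / 4) (by linarith),
    rpow_eventually_ge (a := γ / 4) (by linarith) (CW * (1 + C) + 1), eventually_ge_atTop 2] with n h1 h2 h3 hn
  have hn1 : (1:ℝ) ≤ n := by
    have : 1 ≤ n := by omega
    exact_mod_cast this
  have hn0 : (0:ℝ) < n := by linarith
  obtain ⟨D, hD1, hD2, hD3, hD4⟩ := h1
  have hD0 : 0 < D := by linarith
  by_contra hcon
  push Not at hcon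
  have hterm : ∀ d ∈ Finset.Icc 1 n, |Mx ((n:ℝ) / d) * W φ (d / D)| ≤
      (1 / (d:ℝ)) * (CW * D * ((1 + C) * (n:ℝ) ^ (zetaSup - 3 * γ))) := by
    intro d hd
    rw [Finset.mem_Icc] at hd
    have hd0 : (0:ℝ) < d := by exact_mod_cast hd.1
    have hW : |W φ (d / D)| ≤ CW * D / d := by
      have := (hCW ((d:ℝ) / D)).2
      rw [abs_of_pos (by positivity : (0:ℝ) < (d:ℝ) / D)] at this
      rw [le_div_iff₀ hd0]
      calc |W φ (d / D)| * d = (d / D * |W φ (d / D)|) * D := by field_simp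
        _ ≤ CW * D := by gcongr
    have hM : |Mx ((n:ℝ) / d)| ≤ (1 + C) * (n:ℝ) ^ (zetaSup - 3 * γ) := by
      have hpos : 0 < (n:ℝ) ^ (zetaSup - 3 * γ) := by positivity
      rcases le_or_gt (d:ℝ) ((n:ℝ) ^ δ) with hcase | hcase
      · have h4 := (hcon d hd.1 hcase).le
        have h5 : (n:ℝ) ^ (zetaSup - ε) ≤ (n:ℝ) ^ (zetaSup - 3 * γ) :=
          Real.rpow_le_rpow_of_exponent_le hn1 (by linarith)
        nlinarith
      · have h4 := hC ((n:ℝ) / d) (by rw [one_le_div hd0]; exact_mod_cast hd.2)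
        have h5 : ((n:ℝ) / d) ^ σ ≤ (n:ℝ) ^ (zetaSup - 3 * γ) := by
          calc ((n:ℝ) / d) ^ σ ≤ ((n:ℝ) ^ (1 - δ)) ^ σ := by
                apply Real.rpow_le_rpow (by positivity) _ (by linarith)
                rw [div_le_iff₀ hd0]
                calc (n:ℝ) = (n:ℝ) ^ (1 - δ) * (n:ℝ) ^ δ := by rw [← Real.rpow_add hn0]; norm_num
                  _ ≤ (n:ℝ) ^ (1 - δ) * d := by gcongr
            _ = (n:ℝ) ^ ((1 - δ) * σ) := by rw [← Real.rpow_mul hn0.le]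
            _ ≤ (n:ℝ) ^ (zetaSup - 3 * γ) := by
                apply Real.rpow_le_rpow_of_exponent_le hn1
                nlinarith
        nlinarith
    rw [abs_mul]
    calc |Mx ((n:ℝ) / d)| * |W φ (d / D)| ≤ ((1 + C) * (n:ℝ) ^ (zetaSup - 3 * γ)) * (CW * D / d) := by gcongr
      _ = (1 / (d:ℝ)) * (CW * D * ((1 + C) * (n:ℝ) ^ (zetaSup - 3 * γ))) := by ring
  have hsum : |∑ d ∈ Finset.Icc 1 n, Mx ((n:ℝ) / d) * W φ (d / D)| ≤
      (1 + Real.log n) * (CW * D * ((1 + C) * (n:ℝ) ^ (zetaSup - 3 * γ))) := by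
    refine (Finset.abs_sum_le_sum_abs _ _).trans ((Finset.sum_le_sum hterm).trans ?_)
    rw [← Finset.sum_mul]
    gcongr
    exact harmonic_Icc_le (by omega)
  have h6 := hD4.trans hsum
  have hP : 0 < (n:ℝ) ^ (zetaSup - 3 * γ) := by positivity
  have h7 : (1 + Real.log n) * (CW * D * ((1 + C) * (n:ℝ) ^ (zetaSup - 3 * γ))) <
      D * (n:ℝ) ^ ((1 - γ) * zetaSup - 4 * (γ / 16)) := by
    have hg : 0 < (n:ℝ) ^ (γ / 4) := by positivity
    calc (1 + Real.log n) * (CW * D * ((1 + C) * (n:ℝ) ^ (zetaSup - 3 * γ)))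
        ≤ (n:ℝ) ^ (γ / 4) * (CW * D * ((1 + C) * (n:ℝ) ^ (zetaSup - 3 * γ))) := by gcongr
      _ = D * ((CW * (1 + C)) * ((n:ℝ) ^ (γ / 4) * (n:ℝ) ^ (zetaSup - 3 * γ))) := by ring
      _ < D * ((n:ℝ) ^ (γ / 4) * ((n:ℝ) ^ (γ / 4) * (n:ℝ) ^ (zetaSup - 3 * γ))) := by
          have : CW * (1 + C) < (n:ℝ) ^ (γ / 4) := by linarith
          gcongr
      _ = D * (n:ℝ) ^ (γ / 4 + (γ / 4 + (zetaSup - 3 * γ))) := by rw [← Real.rpow_add hn0, ← Real.rpow_add hn0]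
      _ ≤ D * (n:ℝ) ^ ((1 - γ) * zetaSup - 4 * (γ / 16)) := by
          gcongr
          nlinarith
  linarith

/-- the maximum of `|M(x/h)|` over the integers `1 ≤ h ≤ x^δ` -/
def maxM (δ x : ℝ) : ℝ := sSup {y : ℝ | ∃ h : ℕ, 1 ≤ h ∧ (h:ℝ) ≤ x ^ δ ∧ y = |Mx (x / h)|}

theorem mertens_limit {δ : ℝ} (hδ : 0 < δ) (hδ1 : δ ≤ 1) :
    Tendsto (fun x : ℝ => Real.log (maxM δ x) / Real.log x) atTop (𝓝 zetaSup) := by
  have hΘ1 := half_le_zetaSup
  have hΘ2 := zetaSup_le_one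
  rw [Metric.tendsto_nhds]
  intro ε hε
  set e : ℝ := min (ε / 8) (1 / 8) with he
  have he0 : 0 < e := by rw [he]; apply lt_min <;> linarith
  have he1 : e ≤ ε / 8 := min_le_left _ _
  have he2 : e ≤ 1 / 8 := min_le_right _ _
  have hlow := tendsto_nat_floor_atTop.eventually (mertens_local_lower hδ hδ1 he0) (α := ℝ)
  obtain ⟨σ, hσ1, hσ2, hσ3, hσ4, C, hC0, hC⟩ := mertens_sup he0
  have hbig : ∀ᶠ x : ℝ in atTop, C ≤ x ^ e := (tendsto_rpow_atTop he0).eventually_ge_atTop C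
  have hbig2 : ∀ᶠ x : ℝ in atTop, 2 ≤ x ^ e := (tendsto_rpow_atTop he0).eventually_ge_atTop 2
  filter_upwards [hlow, hbig, hbig2, eventually_ge_atTop (2:ℝ)] with x h1 h2 h3 hx
  have hx1 : (1:ℝ) ≤ x := by linarith
  have hx0 : (0:ℝ) < x := by linarith
  obtain ⟨h, hh1, hh2, hh3⟩ := h1
  have hupper : ∀ y ∈ {y : ℝ | ∃ h : ℕ, 1 ≤ h ∧ (h:ℝ) ≤ x ^ δ ∧ y = |Mx (x / h)|}, y ≤ x ^ (zetaSup + 2 * e) := by
    rintro y ⟨h, hh1, hh2, rfl⟩
    have hh0 : (1:ℝ) ≤ h := by exact_mod_cast hh1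
    have hhx : (h:ℝ) ≤ x := hh2.trans (by
      calc x ^ δ ≤ x ^ (1:ℝ) := Real.rpow_le_rpow_of_exponent_le hx1 hδ1
        _ = x := Real.rpow_one x)
    calc |Mx (x / h)| ≤ C * (x / h) ^ σ := hC _ (by rw [one_le_div (by linarith)]; exact hhx)
      _ ≤ x ^ e * x ^ σ := by
          gcongr
          exact div_le_self hx0.le hh0
      _ = x ^ (e + σ) := by rw [← Real.rpow_add hx0]
      _ ≤ x ^ (zetaSup + 2 * e) := Real.rpow_le_rpow_of_exponent_le hx1 (by linarith)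
  have hbdd : BddAbove {y : ℝ | ∃ h : ℕ, 1 ≤ h ∧ (h:ℝ) ≤ x ^ δ ∧ y = |Mx (x / h)|} := ⟨_, hupper⟩
  have hfl : (⌊x⌋₊ : ℝ) ≤ x := Nat.floor_le hx0.le
  have hfl1 : (1:ℝ) ≤ ⌊x⌋₊ := by
    have : 1 ≤ ⌊x⌋₊ := Nat.le_floor (by simpa using hx1)
    exact_mod_cast this
  have hfl2 : x / 2 ≤ ⌊x⌋₊ := by
    have := Nat.lt_floor_add_one x
    linarith
  have hMx : Mx ((⌊x⌋₊ : ℝ) / h) = Mx (x / h) := by
    unfold Mx
    rw [Nat.floor_div_natCast, Nat.floor_natCast, Nat.floor_div_natCast]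
  have hmem : |Mx (x / h)| ∈ {y : ℝ | ∃ h : ℕ, 1 ≤ h ∧ (h:ℝ) ≤ x ^ δ ∧ y = |Mx (x / h)|} := by
    refine ⟨h, hh1, hh2.trans ?_, rfl⟩
    gcongr
  have hlo : x ^ (zetaSup - 2 * e) ≤ maxM δ x := by
    refine le_trans ?_ (le_csSup hbdd hmem)
    rw [← hMx]
    refine le_trans ?_ hh3
    calc x ^ (zetaSup - 2 * e) ≤ (x / 2) ^ (zetaSup - e) := by
          rw [Real.div_rpow hx0.le (by norm_num), le_div_iff₀ (by positivity)]
          have e1 : (2:ℝ) ^ (zetaSup - e) ≤ 2 := by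
            calc (2:ℝ) ^ (zetaSup - e) ≤ 2 ^ (1:ℝ) := Real.rpow_le_rpow_of_exponent_le (by norm_num) (by linarith)
              _ = 2 := Real.rpow_one 2
          calc x ^ (zetaSup - 2 * e) * 2 ^ (zetaSup - e) ≤ x ^ (zetaSup - 2 * e) * x ^ e := by
                gcongr
                exact e1.trans h3
            _ = x ^ (zetaSup - e) := by rw [← Real.rpow_add hx0]; congr 1; ring
      _ ≤ (⌊x⌋₊ : ℝ) ^ (zetaSup - e) := by
          apply Real.rpow_le_rpow (by positivity) hfl2 (by linarith)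
  have hhi : maxM δ x ≤ x ^ (zetaSup + 2 * e) := csSup_le ⟨_, hmem⟩ hupper
  have hlog : 0 < Real.log x := Real.log_pos (by linarith)
  have hS0 : 0 < maxM δ x := lt_of_lt_of_le (by positivity) hlo
  have h4 : (zetaSup - 2 * e) * Real.log x ≤ Real.log (maxM δ x) := by
    rw [← Real.log_rpow hx0]
    exact Real.log_le_log (by positivity) hlo
  have h5 : Real.log (maxM δ x) ≤ (zetaSup + 2 * e) * Real.log x := by
    rw [← Real.log_rpow hx0]
    exact Real.log_le_log hS0 hhi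
  rw [Real.dist_eq, abs_lt]
  constructor
  · have : zetaSup - 2 * e ≤ Real.log (maxM δ x) / Real.log x := by rw [le_div_iff₀ hlog]; exact h4
    linarith
  · have : Real.log (maxM δ x) / Real.log x ≤ zetaSup + 2 * e := by rw [div_le_iff₀ hlog]; exact h5
    linarith

end

end Pool.Agent.H295R2
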