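import Pool.Agent.H295R2.T4d

set_option autoImplicit false

open MeasureTheory Filter Topology Set

namespace Pool.Agent.H295R2

noncomputable section

/-- indicator of `[1, ∞)` -/
def g1 (y : ℝ) : ℝ := if 1 ≤ y then 1 else 0

lemma g1_WG : WG g1 1 where
  meas := Measurable.ite measurableSet_Ici measurable_const measurable_const
  bound := by
    intro y hy
    unfold g1
    split_ifs with h
    · rw [abs_one, one_mul]
      exact Real.one_le_rpow h (by norm_num)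
    · rw [abs_zero]; positivity
  zero := by
    intro y hy
    unfold g1
    rw [if_neg (by linarith)]

lemma GG_g1 (X : ℝ) : GG g1 X = Mx X := by
  rcases le_or_gt X 0 with hX | hX
  · unfold GG
    have h1 : ∀ k : ℕ, mu k * g1 (X / k) = 0 := by
      intro k
      unfold g1
      rw [if_neg, mul_zero]
      have : X / k ≤ 0 := div_nonpos_of_nonpos_of_nonneg hX (Nat.cast_nonneg _)
      linarith
    rw [tsum_congr h1, tsum_zero]
    unfold Mx
    rw [Nat.floor_of_nonpos hX]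
    simp
  · obtain ⟨N, hN⟩ := exists_nat_ge (2 * X)
    rw [GG_eq g1_WG hN]
    unfold Mx
    have hfl : ⌊X⌋₊ ≤ N := by
      have h1 : (⌊X⌋₊ : ℝ) ≤ X := Nat.floor_le hX.le
      have h2 : (⌊X⌋₊ : ℝ) ≤ N := by linarith
      exact_mod_cast h2
    rw [← Finset.sum_subset (Finset.Icc_subset_Icc_right hfl)]
    · refine Finset.sum_congr rfl fun k hk => ?_
      rw [Finset.mem_Icc] at hk
      have hk0 : (0:ℝ) < k := by exact_mod_cast hk.1
      unfold g1
      rw [if_pos, mul_one]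
      rw [le_div_iff₀ hk0, one_mul]
      exact (Nat.le_floor_iff hX.le).1 hk.2
    · intro k hk hk2
      rw [Finset.mem_Icc] at hk hk2
      have hk0 : (0:ℝ) < k := by exact_mod_cast hk.1
      unfold g1
      rw [if_neg, mul_zero]
      rw [le_div_iff₀ hk0, one_mul]
      intro h
      exact hk2 ⟨hk.1, (Nat.le_floor_iff hX.le).2 h⟩

lemma om_g1 {ρ : ℂ} (hρ : 0 < ρ.re) : om g1 ρ = 1 / ρ := by
  unfold om
  have h1 : ∫ w in Ioi (0:ℝ), ((g1 (1 / w) : ℝ) : ℂ) * (w : ℂ) ^ (ρ - 1) =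
      ∫ w in Ioi (0:ℝ), (Ioc (0:ℝ) 1).indicator (fun w : ℝ => (w : ℂ) ^ (ρ - 1)) w := by
    apply setIntegral_congr_fun measurableSet_Ioi
    intro w hw
    have hw0 : (0:ℝ) < w := hw
    simp only
    unfold g1
    by_cases h : w ≤ 1
    · have hmem : w ∈ Ioc (0:ℝ) 1 := ⟨hw0, h⟩
      rw [indicator_of_mem hmem, if_pos (by rw [le_div_iff₀ hw0]; linarith)]
      simp
    · rw [indicator_of_notMem (fun h' => h h'.2), if_neg (by rw [le_div_iff₀ hw0]; linarith)]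
      simp
  rw [h1, setIntegral_indicator measurableSet_Ioc, inter_eq_right.2 Ioc_subset_Ioi_self,
    ← intervalIntegral.integral_of_le zero_le_one, integral_cpow (Or.inl (by simp; linarith))]
  have hρ0 : ρ ≠ 0 := by rintro rfl; simp at hρ
  simp [hρ0]

/-- `m(s) = M(e^s) e^{-ρ s}` -/
def mf (ρ : ℂ) (s : ℝ) : ℂ := ((Mx (Real.exp s) : ℝ) : ℂ) * Complex.exp (-(ρ * s))

/-- `a(u) = ∑_{j ≤ e^u} (-1)^{j-1} j^{-ρ}` -/
def af (ρ : ℂ) (u : ℝ) : ℂ := VV ρ (Real.exp u) * Complex.exp (-(ρ * u))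

lemma Mx_meas : Measurable Mx := by
  unfold Mx
  exact (measurable_from_top (f := fun n : ℕ => ∑ k ∈ Finset.Icc 1 n, mu k)).comp Nat.measurable_floor

lemma RR_meas (ρ : ℂ) : Measurable (RR ρ) := by
  unfold RR
  refine (Complex.measurable_ofReal.pow_const _).mul ?_
  exact (measurable_from_top (f := fun n : ℕ => ∑ j ∈ Finset.Icc 1 n, (j : ℂ) ^ (-ρ))).comp Nat.measurable_floor

lemma VV_meas (ρ : ℂ) : Measurable (VV ρ) := by
  unfold VV
  refine (RR_meas ρ).sub (Measurable.indicator ?_ measurableSet_Ioi)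
  exact ((RR_meas ρ).comp (measurable_id.div_const 2)).const_mul 2

lemma mf_meas (ρ : ℂ) : Measurable (mf ρ) := by
  unfold mf
  refine (Complex.measurable_ofReal.comp (Mx_meas.comp Real.measurable_exp)).mul ?_
  exact Continuous.measurable (by fun_prop)

lemma af_meas (ρ : ℂ) : Measurable (af ρ) := by
  unfold af
  refine ((VV_meas ρ).comp Real.measurable_exp).mul ?_
  exact Continuous.measurable (by fun_prop)

lemma mf_zero {ρ : ℂ} {s : ℝ} (hs : s < 0) : mf ρ s = 0 := by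
  unfold mf Mx
  have h1 : ⌊Real.exp s⌋₊ = 0 := by
    rw [Nat.floor_eq_zero]
    rw [← Real.exp_zero]; exact Real.exp_lt_exp.2 hs
  rw [h1]; simp

lemma af_zero {ρ : ℂ} {u : ℝ} (hu : u < 0) : af ρ u = 0 := by
  unfold af VV RR
  have h0 : Real.exp u < 1 := by rw [← Real.exp_zero]; exact Real.exp_lt_exp.2 hu
  have h1 : ⌊Real.exp u⌋₊ = 0 := by
    rw [Nat.floor_eq_zero]
    exact h0
  rw [h1, indicator_of_notMem]
  · simp
  · intro h
    have : (2:ℝ) < Real.exp u := h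
    linarith

lemma af_nice {ρ : ℂ} (h0 : 0 < ρ.re) (h1 : ρ.re < 1) (hz : riemannZeta ρ = 0) :
    ∃ K : ℝ, 0 < K ∧ Nice (af ρ) K (-ρ.re) 0 := by
  obtain ⟨K, hK0, hK⟩ := VV_bound h0 h1 hz
  refine ⟨K, hK0, af_meas ρ, ?_, fun u hu => af_zero hu⟩
  intro u
  rcases lt_or_ge u 0 with hu | hu
  · rw [af_zero hu, norm_zero]; positivity
  · unfold af
    rw [norm_mul, norm_exp_neg_mul]
    have h2 := hK (Real.exp u) (Real.one_le_exp hu)
    have e : -(ρ.re * u) = -ρ.re * u := by ring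
    rw [e]
    gcongr

lemma integral_Ioi_exp (F : ℝ → ℂ) : ∫ y in Ioi (1:ℝ), F y = ∫ u in Ioi (0:ℝ), (Real.exp u : ℂ) * F (Real.exp u) := by
  have h := integral_image_eq_integral_abs_deriv_smul (s := Ioi (0:ℝ)) (f := Real.exp) (f' := Real.exp)
    measurableSet_Ioi (fun x _ => (Real.hasDerivAt_exp x).hasDerivWithinAt) (Real.exp_injective.injOn) F
  have himg : Real.exp '' Ioi (0:ℝ) = Ioi 1 := by
    ext y
    simp only [mem_image, mem_Ioi]
    constructor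
    · rintro ⟨x, hx, rfl⟩
      exact Real.one_lt_exp_iff.2 hx
    · intro hy
      exact ⟨Real.log y, Real.log_pos hy, Real.exp_log (by linarith)⟩
  rw [himg] at h
  rw [h]
  apply setIntegral_congr_fun measurableSet_Ioi
  intro u _
  simp only
  rw [abs_of_pos (Real.exp_pos u), Complex.real_smul]

/-- the constant `c₀ = (1 - 2^{1-ρ})/ρ` -/
def c0 (ρ : ℂ) : ℂ := (1 - (2 : ℂ) ^ (1 - ρ)) / ρ

lemma two_pow_ne {ρ : ℂ} (h1 : ρ.re < 1) : (1 : ℂ) - (2 : ℂ) ^ (1 - ρ) ≠ 0 := by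
  intro h
  have h2 : ‖(2 : ℂ) ^ (1 - ρ)‖ = 1 := by
    rw [← sub_eq_zero.1 h, norm_one]
  have h3 : ‖((2 : ℝ) : ℂ) ^ (1 - ρ)‖ = (2:ℝ) ^ (1 - ρ).re := Complex.norm_cpow_eq_rpow_re_of_pos (by norm_num) _
  have h4 : (1:ℝ) < (2:ℝ) ^ (1 - ρ).re := by
    apply Real.one_lt_rpow (by norm_num)
    simp; linarith
  push_cast at h3
  rw [h2] at h3
  linarith

lemma c0_ne {ρ : ℂ} (h0 : 0 < ρ.re) (h1 : ρ.re < 1) : c0 ρ ≠ 0 := by
  unfold c0
  refine div_ne_zero (two_pow_ne h1) ?_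
  rintro rfl; simp at h0

/-- the convolution identity, at every `t` -/
theorem conv_bound {ρ : ℂ} (h0 : 1 / 4 < ρ.re) (h1 : ρ.re < 1) :
    ∃ C : ℝ, 0 < C ∧ ∀ t : ℝ, ‖(∫ u, mf ρ (t - u) * af ρ u) - c0 ρ‖ ≤ C * Real.exp (-((ρ.re - 1 / 4) * t)) := by
  have hb : 0 < ρ.re - 1 / 4 := by linarith
  refine ⟨3 * (1 / (ρ.re - 1 / 4)), by positivity, fun t => ?_⟩
  have hρ0 : ρ ≠ 0 := by rintro rfl; norm_num at h0
  obtain ⟨-, hE⟩ := VV_identity g1_WG (ρ := ρ) (Real.exp t)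
  have e1 : ∫ u, mf ρ (t - u) * af ρ u = Complex.exp (-(ρ * t)) *
      ∫ y in Ioi (1:ℝ), ((GG g1 (Real.exp t / y) : ℝ) : ℂ) * (VV ρ y / y) := by
    rw [integral_Ioi_exp, ← integral_const_mul]
    have e2 : ∫ u, mf ρ (t - u) * af ρ u = ∫ u in Ioi (0:ℝ), mf ρ (t - u) * af ρ u := by
      rw [← integral_Ici_eq_integral_Ioi, setIntegral_eq_integral_of_forall_compl_eq_zero]
      intro u hu
      have : u < 0 := by simpa using hu
      rw [af_zero this, mul_zero]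
    rw [e2]
    apply setIntegral_congr_fun measurableSet_Ioi
    intro u _
    simp only
    rw [GG_g1]
    unfold mf af
    have h3 : Real.exp t / Real.exp u = Real.exp (t - u) := by rw [Real.exp_sub]
    have h4 : Complex.exp (-(ρ * ((t - u : ℝ) : ℂ))) * Complex.exp (-(ρ * u)) = Complex.exp (-(ρ * t)) := by
      rw [← Complex.exp_add]; push_cast; ring_nf
    have h5 : ((Real.exp u : ℝ) : ℂ) ≠ 0 := by exact_mod_cast (Real.exp_pos u).ne'
    rw [h3]
    calc ((Mx (Real.exp (t - u)) : ℝ) : ℂ) * Complex.exp (-(ρ * ((t - u : ℝ) : ℂ))) * (VV ρ (Real.exp u) * Complex.exp (-(ρ * u)))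
        = ((Mx (Real.exp (t - u)) : ℝ) : ℂ) * VV ρ (Real.exp u) * (Complex.exp (-(ρ * ((t - u : ℝ) : ℂ))) * Complex.exp (-(ρ * u))) := by ring
      _ = _ := by
        rw [h4]
        field_simp
  have hY : 0 < Real.exp t := Real.exp_pos t
  have a1 := TT_one_approx g1_WG h0 hY
  have a2 := TT_one_approx g1_WG h0 (Y := Real.exp t / 2) (by positivity)
  rw [om_g1 (by linarith)] at a1 a2
  have hYc : ((Real.exp t : ℝ) : ℂ) ^ ρ = Complex.exp (ρ * t) := by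
    rw [Complex.cpow_def_of_ne_zero (by exact_mod_cast hY.ne'), ← Complex.ofReal_log hY.le, Real.log_exp, mul_comm]
  have hY2 : (((Real.exp t / 2 : ℝ)) : ℂ) ^ ρ = Complex.exp (ρ * t) * (2 : ℂ) ^ (-ρ) := by
    rw [div_eq_mul_inv, Complex.ofReal_mul, Complex.mul_cpow_ofReal_nonneg hY.le (by norm_num), hYc]
    congr 1
    push_cast
    have harg : Complex.arg (2:ℂ) ≠ Real.pi := by
      have : Complex.arg (2:ℂ) = 0 := by
        have := Complex.arg_ofReal_of_nonneg (x := 2) (by norm_num)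
        simpa using this
      rw [this]
      exact Real.pi_pos.ne
    rw [Complex.inv_cpow _ _ harg, Complex.cpow_neg]
  have h22 : (2:ℂ) * (2:ℂ) ^ (-ρ) = (2:ℂ) ^ (1 - ρ) := by
    rw [sub_eq_add_neg, Complex.cpow_add _ _ (by norm_num), Complex.cpow_one]
  rw [e1, hE]
  have e6 : Complex.exp (-(ρ * t)) * (TT g1 ρ (Real.exp t) 1 - 2 * TT g1 ρ (Real.exp t / 2) 1) - c0 ρ =
      Complex.exp (-(ρ * t)) * ((TT g1 ρ (Real.exp t) 1 - ((Real.exp t : ℝ) : ℂ) ^ ρ * (1 / ρ)) -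
        2 * (TT g1 ρ (Real.exp t / 2) 1 - ((Real.exp t / 2 : ℝ) : ℂ) ^ ρ * (1 / ρ))) := by
    rw [hYc, hY2]
    have h7 : Complex.exp (-(ρ * t)) * Complex.exp (ρ * t) = 1 := by
      rw [← Complex.exp_add]; simp
    unfold c0
    rw [← h22]
    linear_combination ((1 - 2 * (2:ℂ) ^ (-ρ)) / ρ) * h7
  rw [e6, norm_mul, norm_exp_neg_mul]
  have h8 : (Real.exp t / 2) ^ (1 / 4 : ℝ) ≤ (Real.exp t) ^ (1 / 4 : ℝ) := by
    apply Real.rpow_le_rpow (by positivity) (by linarith) (by norm_num)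
  have h9 : ‖(TT g1 ρ (Real.exp t) 1 - ((Real.exp t : ℝ) : ℂ) ^ ρ * (1 / ρ)) -
        2 * (TT g1 ρ (Real.exp t / 2) 1 - ((Real.exp t / 2 : ℝ) : ℂ) ^ ρ * (1 / ρ))‖ ≤
      3 * (1 / (ρ.re - 1 / 4)) * (Real.exp t) ^ (1 / 4 : ℝ) := by
    refine (norm_sub_le _ _).trans ?_
    rw [norm_mul, Complex.norm_ofNat]
    have h10 : 1 / (ρ.re - 1 / 4) * (Real.exp t / 2) ^ (1 / 4 : ℝ) ≤ 1 / (ρ.re - 1 / 4) * (Real.exp t) ^ (1 / 4 : ℝ) := by
      gcongr
    linarith
  calc Real.exp (-(ρ.re * t)) * _ ≤ Real.exp (-(ρ.re * t)) * (3 * (1 / (ρ.re - 1 / 4)) * (Real.exp t) ^ (1 / 4 : ℝ)) := by gcongr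
    _ = 3 * (1 / (ρ.re - 1 / 4)) * (Real.exp (-(ρ.re * t)) * (Real.exp t) ^ (1 / 4 : ℝ)) := by ring
    _ = _ := by
      rw [← Real.exp_mul, ← Real.exp_add]
      ring_nf

end

end Pool.Agent.H295R2
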