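import Pool.Agent.H295R2.WM1

set_option autoImplicit false

open MeasureTheory Filter Topology Set

namespace Pool.Agent.H295R2

noncomputable section

/-- Cauchy-Schwarz -/
lemma cs_ineq {α : Type*} [MeasurableSpace α] {μ : Measure α} {f g : α → ℝ}
    (hf : Integrable (fun x => f x ^ 2) μ) (hg : Integrable (fun x => g x ^ 2) μ)
    (hfg : Integrable (fun x => f x * g x) μ) :
    (∫ x, f x * g x ∂μ) ^ 2 ≤ (∫ x, f x ^ 2 ∂μ) * ∫ x, g x ^ 2 ∂μ := by
  set A := ∫ x, f x ^ 2 ∂μ
  set B := ∫ x, f x * g x ∂μ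
  set C := ∫ x, g x ^ 2 ∂μ
  have h1 : ∀ l : ℝ, 0 ≤ A * (l * l) + (-2 * B) * l + C := by
    intro l
    have h2 : 0 ≤ ∫ x, (l * f x - g x) ^ 2 ∂μ := integral_nonneg fun x => sq_nonneg _
    have h3 : ∫ x, (l * f x - g x) ^ 2 ∂μ = l ^ 2 * A - 2 * l * B + C := by
      have e : ∀ x, (l * f x - g x) ^ 2 = (l ^ 2 * f x ^ 2 - 2 * l * (f x * g x)) + g x ^ 2 := fun x => by ring
      simp only [e]
      have i1 : Integrable (fun x => l ^ 2 * f x ^ 2) μ := hf.const_mul _
      have i2 : Integrable (fun x => 2 * l * (f x * g x)) μ := hfg.const_mul _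
      have i3 : Integrable (fun x => l ^ 2 * f x ^ 2 - 2 * l * (f x * g x)) μ := i1.sub i2
      have e1 := integral_add i3 hg
      have e2 := integral_sub i1 i2
      rw [e1, e2, integral_const_mul, integral_const_mul]
    rw [h3] at h2
    nlinarith
  have h4 := discrim_le_zero h1
  unfold discrim at h4
  nlinarith

/-- `J(L) = ∫_0^L M(e^s)² e^{-s} ds` -/
def JJ (L : ℝ) : ℝ := ∫ s in Ioc (0:ℝ) L, Mx (Real.exp s) ^ 2 * Real.exp (-s)

lemma JJ_integrand_le (s : ℝ) : Mx (Real.exp s) ^ 2 * Real.exp (-s) ≤ Real.exp s := by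
  have h1 := abs_Mx_le (Real.exp_pos s).le
  have h2 : Mx (Real.exp s) ^ 2 ≤ Real.exp s ^ 2 := by
    rw [← sq_abs]; gcongr
  calc Mx (Real.exp s) ^ 2 * Real.exp (-s) ≤ Real.exp s ^ 2 * Real.exp (-s) := by gcongr
    _ = Real.exp s := by
      rw [sq, mul_assoc, ← Real.exp_add]; simp

lemma JJ_meas : Measurable (fun s : ℝ => Mx (Real.exp s) ^ 2 * Real.exp (-s)) := by
  refine ((Mx_meas.comp Real.measurable_exp).pow_const 2).mul ?_
  exact Continuous.measurable (by fun_prop)

lemma integrableOn_of_le {f : ℝ → ℝ} (hf : Measurable f) {L B : ℝ} (h : ∀ s ∈ Ioc 0 L, |f s| ≤ B) :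
    IntegrableOn f (Ioc 0 L) := by
  refine Integrable.mono' (g := fun _ => B) (integrableOn_const (by simp)) hf.aestronglyMeasurable ?_
  exact (ae_restrict_mem measurableSet_Ioc).mono fun s hs => h s hs

lemma JJ_integrable (L : ℝ) : IntegrableOn (fun s : ℝ => Mx (Real.exp s) ^ 2 * Real.exp (-s)) (Ioc 0 L) := by
  refine integrableOn_of_le JJ_meas (B := Real.exp L) fun s hs => ?_
  rw [abs_of_nonneg (by positivity)]
  exact (JJ_integrand_le s).trans (Real.exp_le_exp.2 hs.2)

lemma JJ_nonneg (L : ℝ) : 0 ≤ JJ L := integral_nonneg fun s => by positivity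

lemma JJ_mono {a b : ℝ} (h : a ≤ b) : JJ a ≤ JJ b :=
  setIntegral_mono_set (JJ_integrable b) (Eventually.of_forall fun s => by positivity)
    (Eventually.of_forall (Ioc_subset_Ioc_right h))

lemma norm_mf (ρ : ℂ) (s : ℝ) : ‖mf ρ s‖ = |Mx (Real.exp s)| * Real.exp (-(ρ.re * s)) := by
  unfold mf
  rw [norm_mul, Complex.norm_real, Real.norm_eq_abs, norm_exp_neg_mul]

lemma norm_mf_le {ρ : ℂ} (h0 : 0 ≤ ρ.re) {s : ℝ} (hs : 0 ≤ s) : ‖mf ρ s‖ ≤ Real.exp s := by
  rw [norm_mf]
  have h1 := abs_Mx_le (Real.exp_pos s).le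
  have h2 : Real.exp (-(ρ.re * s)) ≤ 1 := by
    rw [Real.exp_le_one_iff]
    have := mul_nonneg h0 hs
    linarith
  calc |Mx (Real.exp s)| * Real.exp (-(ρ.re * s)) ≤ Real.exp s * 1 := by gcongr
    _ = _ := mul_one _

lemma norm_mf_le' {ρ : ℂ} (h0 : 0 ≤ ρ.re) {s L : ℝ} (hs : s ≤ L) : ‖mf ρ s‖ ≤ Real.exp L := by
  rcases lt_or_ge s 0 with h | h
  · rw [mf_zero h, norm_zero]; positivity
  · exact (norm_mf_le h0 h).trans (Real.exp_le_exp.2 hs)

/-- Cauchy-Schwarz for the `L¹` norm on `(a, b]` -/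
lemma mf_L1 {ρ : ℂ} (h0 : 1 / 2 ≤ ρ.re) {a b : ℝ} (ha : 0 ≤ a) (hab : a ≤ b) :
    (∫ s in Ioc a b, ‖mf ρ s‖) ^ 2 ≤ JJ b * (b - a) := by
  have hf : IntegrableOn (fun s : ℝ => (|Mx (Real.exp s)| * Real.exp (-(s / 2))) ^ 2) (Ioc a b) := by
    refine ((JJ_integrable b).mono_set (Ioc_subset_Ioc_left ha)).congr (Eventually.of_forall fun s => ?_)
    simp only
    rw [mul_pow, sq_abs, sq (Real.exp _), ← Real.exp_add]; ring_nf
  have hg : IntegrableOn (fun s : ℝ => (Real.exp (-((ρ.re - 1 / 2) * s))) ^ 2) (Ioc a b) := by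
    exact (Continuous.integrableOn_Icc (by fun_prop)).mono_set Ioc_subset_Icc_self
  have hfg : IntegrableOn (fun s : ℝ => (|Mx (Real.exp s)| * Real.exp (-(s / 2))) * (Real.exp (-((ρ.re - 1 / 2) * s)))) (Ioc a b) := by
    refine Integrable.mono' (g := fun _ => Real.exp b) (integrableOn_const (by simp)) ?_ ?_
    · refine Measurable.aestronglyMeasurable ?_
      refine (Measurable.mul ?_ (Continuous.measurable (by fun_prop))).mul (Continuous.measurable (by fun_prop))
      exact (continuous_abs.measurable).comp (Mx_meas.comp Real.measurable_exp)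
    · refine (ae_restrict_mem measurableSet_Ioc).mono fun s hs => ?_
      have hs0 : 0 ≤ s := ha.trans hs.1.le
      have e : |Mx (Real.exp s)| * Real.exp (-(s / 2)) * Real.exp (-((ρ.re - 1 / 2) * s)) = ‖mf ρ s‖ := by
        rw [norm_mf, mul_assoc, ← Real.exp_add]; ring_nf
      rw [e, norm_norm]
      exact norm_mf_le' (by linarith) hs.2
  have h1 := cs_ineq hf hg hfg
  have e1 : ∫ s in Ioc a b, ‖mf ρ s‖ =
      ∫ s in Ioc a b, (|Mx (Real.exp s)| * Real.exp (-(s / 2))) * (Real.exp (-((ρ.re - 1 / 2) * s))) := by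
    refine integral_congr_ae (Eventually.of_forall fun s => ?_)
    simp only
    rw [norm_mf, mul_assoc, ← Real.exp_add]; ring_nf
  rw [e1]
  refine h1.trans ?_
  have h2 : ∫ s in Ioc a b, (|Mx (Real.exp s)| * Real.exp (-(s / 2))) ^ 2 ≤ JJ b := by
    have e2 : ∫ s in Ioc a b, (|Mx (Real.exp s)| * Real.exp (-(s / 2))) ^ 2 =
        ∫ s in Ioc a b, Mx (Real.exp s) ^ 2 * Real.exp (-s) := by
      refine integral_congr_ae (Eventually.of_forall fun s => ?_)
      simp only
      rw [mul_pow, sq_abs, sq (Real.exp _), ← Real.exp_add]; ring_nf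
    rw [e2]
    exact setIntegral_mono_set (JJ_integrable b) (Eventually.of_forall fun s => by positivity)
      (Eventually.of_forall (Ioc_subset_Ioc_left ha))
  have h3 : ∫ s in Ioc a b, (Real.exp (-((ρ.re - 1 / 2) * s))) ^ 2 ≤ b - a := by
    calc ∫ s in Ioc a b, (Real.exp (-((ρ.re - 1 / 2) * s))) ^ 2 ≤ ∫ s in Ioc a b, (1:ℝ) := by
          refine setIntegral_mono_on hg (integrableOn_const (by simp)) measurableSet_Ioc fun s hs => ?_
          have hs0 : 0 ≤ s := ha.trans hs.1.le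
          have h4 : Real.exp (-((ρ.re - 1 / 2) * s)) ≤ 1 := by
            rw [Real.exp_le_one_iff]
            have := mul_nonneg (by linarith : 0 ≤ ρ.re - 1 / 2) hs0
            linarith
          exact pow_le_one₀ (Real.exp_pos _).le h4
      _ = b - a := by
          simp [hab]
  have h5 : 0 ≤ ∫ s in Ioc a b, (Real.exp (-((ρ.re - 1 / 2) * s))) ^ 2 := integral_nonneg fun s => by positivity
  exact mul_le_mul h2 h3 h5 (JJ_nonneg b)

/-- `x₊^p` -/
def xp (p : ℕ) (x : ℝ) : ℝ := if 0 ≤ x then x ^ p else 0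

lemma xp_meas (p : ℕ) : Measurable (xp p) :=
  Measurable.ite measurableSet_Ici (measurable_id.pow_const p) measurable_const

lemma xp_nonneg (p : ℕ) (x : ℝ) : 0 ≤ xp p x := by
  unfold xp; split_ifs with h
  · positivity
  · exact le_rfl

lemma xp_le {p : ℕ} {x L : ℝ} (h : x ≤ L) (hL : 0 ≤ L) : xp p x ≤ L ^ p := by
  unfold xp; split_ifs with h1
  · gcongr
  · positivity

lemma xp_neg {p : ℕ} {x : ℝ} (h : x < 0) : xp p x = 0 := by
  unfold xp; rw [if_neg (by linarith)]

/-- `R_p(x) = ∫ (x-u)₊^p a(u) du` -/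
def RA (p : ℕ) (ρ : ℂ) (x : ℝ) : ℂ := ∫ u, ((xp p (x - u) : ℝ) : ℂ) * af ρ u

lemma prod_integrable {F : ℝ × ℝ → ℂ} (hF : Measurable F) {L B : ℝ} (hB : ∀ z, ‖F z‖ ≤ B)
    (hz : ∀ z : ℝ × ℝ, z ∉ Icc (0:ℝ) L ×ˢ Icc (0:ℝ) L → F z = 0) : Integrable F (volume.prod volume) := by
  have h1 : Integrable ((Icc (0:ℝ) L ×ˢ Icc (0:ℝ) L).indicator (fun _ => B)) ((volume : Measure ℝ).prod volume) := by
    rw [integrable_indicator_iff (measurableSet_Icc.prod measurableSet_Icc)]
    refine integrableOn_const ?_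
    rw [Measure.prod_prod]
    simp [ENNReal.mul_eq_top]
  refine h1.mono' hF.aestronglyMeasurable (Eventually.of_forall fun z => ?_)
  by_cases h : z ∈ Icc (0:ℝ) L ×ˢ Icc (0:ℝ) L
  · rw [indicator_of_mem h]; exact hB z
  · rw [indicator_of_notMem h, hz z h, norm_zero]

/-- Fubini -/
theorem fub {ρ : ℂ} (h0 : 0 < ρ.re) (h1 : ρ.re < 1) (hz : riemannZeta ρ = 0) (p : ℕ) {L : ℝ} (hL : 0 ≤ L) :
    Integrable (fun t : ℝ => ((xp p (L - t) : ℝ) : ℂ) * ∫ u, mf ρ (t - u) * af ρ u) ∧
    ∫ t, ((xp p (L - t) : ℝ) : ℂ) * ∫ u, mf ρ (t - u) * af ρ u = ∫ s, mf ρ s * RA p ρ (L - s) := by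
  obtain ⟨K, hK0, hK⟩ := af_nice h0 h1 hz
  have haf : ∀ u, ‖af ρ u‖ ≤ K := by
    intro u
    rcases lt_or_ge u 0 with h | h
    · rw [af_zero h, norm_zero]; exact hK0.le
    · refine (hK.bound u).trans ?_
      have : Real.exp (-ρ.re * u) ≤ 1 := by
        rw [Real.exp_le_one_iff]; nlinarith
      nlinarith
  have hm1 : Measurable (fun z : ℝ × ℝ => ((xp p (L - z.1) : ℝ) : ℂ) * (mf ρ (z.1 - z.2) * af ρ z.2)) := by
    refine (Complex.measurable_ofReal.comp ((xp_meas p).comp (measurable_const.sub measurable_fst))).mul ?_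
    exact ((mf_meas ρ).comp (measurable_fst.sub measurable_snd)).mul ((af_meas ρ).comp measurable_snd)
  have hm2 : Measurable (fun z : ℝ × ℝ => ((xp p (L - (z.2 + z.1)) : ℝ) : ℂ) * (mf ρ z.2 * af ρ z.1)) := by
    refine (Complex.measurable_ofReal.comp ((xp_meas p).comp (measurable_const.sub (measurable_snd.add measurable_fst)))).mul ?_
    exact ((mf_meas ρ).comp measurable_snd).mul ((af_meas ρ).comp measurable_fst)
  have hBpos : 0 ≤ L ^ p * (Real.exp L * K) := by positivity
  have hi1 : Integrable (fun z : ℝ × ℝ => ((xp p (L - z.1) : ℝ) : ℂ) * (mf ρ (z.1 - z.2) * af ρ z.2)) (volume.prod volume) := by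
    refine prod_integrable hm1 (L := L) (B := L ^ p * (Real.exp L * K)) ?_ ?_
    · rintro ⟨t, u⟩
      simp only
      rcases lt_or_ge t 0 with h2 | h2
      · rcases lt_or_ge u 0 with h3 | h3
        · rw [af_zero h3]; simpa using hBpos
        · rw [mf_zero (by linarith : t - u < 0)]; simpa using hBpos
      rcases lt_or_ge (L - t) 0 with h3 | h3
      · rw [xp_neg h3]; simpa using hBpos
      rcases lt_or_ge u 0 with h4 | h4
      · rw [af_zero h4]; simpa using hBpos
      rw [norm_mul, norm_mul, Complex.norm_real, Real.norm_of_nonneg (xp_nonneg _ _)]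
      have a1 := xp_le (p := p) (x := L - t) (L := L) (by linarith) hL
      have a2 := norm_mf_le' h0.le (s := t - u) (L := L) (by linarith)
      have a3 := haf u
      have := xp_nonneg p (L - t)
      gcongr
    · rintro ⟨t, u⟩ hz'
      simp only
      rw [mem_prod, not_and_or] at hz'
      simp only [mem_Icc, not_and_or, not_le] at hz'
      rcases lt_or_ge u 0 with h4 | h4
      · rw [af_zero h4]; simp
      rcases lt_or_ge (L - t) 0 with h3 | h3
      · rw [xp_neg h3]; simp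
      rw [mf_zero (by rcases hz' with (h | h) | (h | h) <;> linarith : t - u < 0)]
      simp
  have hi2 : Integrable (fun z : ℝ × ℝ => ((xp p (L - (z.2 + z.1)) : ℝ) : ℂ) * (mf ρ z.2 * af ρ z.1)) (volume.prod volume) := by
    refine prod_integrable hm2 (L := L) (B := L ^ p * (Real.exp L * K)) ?_ ?_
    · rintro ⟨u, s⟩
      simp only
      rcases lt_or_ge u 0 with h4 | h4
      · rw [af_zero h4]; simpa using hBpos
      rcases lt_or_ge s 0 with h3 | h3
      · rw [mf_zero h3]; simpa using hBpos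
      rcases lt_or_ge (L - (s + u)) 0 with h5 | h5
      · rw [xp_neg h5]; simpa using hBpos
      rw [norm_mul, norm_mul, Complex.norm_real, Real.norm_of_nonneg (xp_nonneg _ _)]
      have a1 := xp_le (p := p) (x := L - (s + u)) (L := L) (by linarith) hL
      have a2 := norm_mf_le' h0.le (s := s) (L := L) (by linarith)
      have a3 := haf u
      have := xp_nonneg p (L - (s + u))
      gcongr
    · rintro ⟨u, s⟩ hz'
      simp only
      rw [mem_prod, not_and_or] at hz'
      simp only [mem_Icc, not_and_or, not_le] at hz'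
      rcases lt_or_ge u 0 with h4 | h4
      · rw [af_zero h4]; simp
      rcases lt_or_ge s 0 with h3 | h3
      · rw [mf_zero h3]; simp
      rw [xp_neg (by rcases hz' with (h | h) | (h | h) <;> linarith : L - (s + u) < 0)]
      simp
  have hpull : ∀ t : ℝ, ((xp p (L - t) : ℝ) : ℂ) * ∫ u, mf ρ (t - u) * af ρ u =
      ∫ u, ((xp p (L - t) : ℝ) : ℂ) * (mf ρ (t - u) * af ρ u) := fun t => (integral_const_mul _ _).symm
  refine ⟨?_, ?_⟩
  · have := hi1.integral_prod_left
    refine this.congr (Eventually.of_forall fun t => ?_)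
    simp only
    rw [hpull]
  · simp only [hpull]
    rw [integral_integral_swap (f := fun t u => ((xp p (L - t) : ℝ) : ℂ) * (mf ρ (t - u) * af ρ u)) hi1]
    have h3 : ∀ u : ℝ, ∫ t, ((xp p (L - t) : ℝ) : ℂ) * (mf ρ (t - u) * af ρ u) =
        ∫ s, ((xp p (L - (s + u)) : ℝ) : ℂ) * (mf ρ s * af ρ u) := by
      intro u
      have := integral_sub_right_eq_self (μ := (volume : Measure ℝ))
        (fun s : ℝ => ((xp p (L - (s + u)) : ℝ) : ℂ) * (mf ρ s * af ρ u)) u
      rw [← this]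
      refine integral_congr_ae (Eventually.of_forall fun t => ?_)
      simp only [sub_add_cancel]
    simp only [h3]
    rw [integral_integral_swap (f := fun u s => ((xp p (L - (s + u)) : ℝ) : ℂ) * (mf ρ s * af ρ u)) hi2]
    refine integral_congr_ae (Eventually.of_forall fun s => ?_)
    simp only
    unfold RA
    rw [← integral_const_mul]
    refine integral_congr_ae (Eventually.of_forall fun u => ?_)
    simp only
    have : L - (s + u) = L - s - u := by ring
    rw [this]; ring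

end

end Pool.Agent.H295R2
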