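import Pool.Agent.H295R2.WM2

set_option autoImplicit false

open MeasureTheory Filter Topology Set

namespace Pool.Agent.H295R2

noncomputable section

/-- the convolution -/
def Cv (ρ : ℂ) (t : ℝ) : ℂ := ∫ u, mf ρ (t - u) * af ρ u

lemma Cv_neg {ρ : ℂ} {t : ℝ} (ht : t < 0) : Cv ρ t = 0 := by
  unfold Cv
  have : ∀ u, mf ρ (t - u) * af ρ u = 0 := by
    intro u
    rcases lt_or_ge u 0 with h | h
    · rw [af_zero h, mul_zero]
    · rw [mf_zero (by linarith), zero_mul]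
  simp [this]

lemma Mx_exp_L1 (t : ℝ) : (∫ s in Ioc (0:ℝ) t, |Mx (Real.exp s)|) ^ 2 ≤ JJ t * Real.exp t := by
  rcases le_or_gt t 0 with ht | ht
  · rw [Ioc_eq_empty (by linarith)]
    have h1 := JJ_nonneg t
    have h2 : 0 ≤ JJ t * Real.exp t := by positivity
    simpa using h2
  have hf : IntegrableOn (fun s : ℝ => (|Mx (Real.exp s)| * Real.exp (-(s / 2))) ^ 2) (Ioc 0 t) := by
    refine (JJ_integrable t).congr (Eventually.of_forall fun s => ?_)
    simp only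
    rw [mul_pow, sq_abs, sq (Real.exp _), ← Real.exp_add]; ring_nf
  have hg : IntegrableOn (fun s : ℝ => (Real.exp (s / 2)) ^ 2) (Ioc 0 t) :=
    (Continuous.integrableOn_Icc (by fun_prop)).mono_set Ioc_subset_Icc_self
  have hfg : IntegrableOn (fun s : ℝ => (|Mx (Real.exp s)| * Real.exp (-(s / 2))) * (Real.exp (s / 2))) (Ioc 0 t) := by
    refine integrableOn_of_le (B := Real.exp t) ?_ ?_
    · refine (Measurable.mul ?_ (Continuous.measurable (by fun_prop))).mul (Continuous.measurable (by fun_prop))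
      exact (continuous_abs.measurable).comp (Mx_meas.comp Real.measurable_exp)
    · intro s hs
      rw [mul_assoc, ← Real.exp_add, neg_add_cancel, Real.exp_zero, mul_one, abs_abs]
      exact (abs_Mx_le (Real.exp_pos s).le).trans (Real.exp_le_exp.2 hs.2)
  have h1 := cs_ineq hf hg hfg
  have e1 : ∫ s in Ioc (0:ℝ) t, |Mx (Real.exp s)| =
      ∫ s in Ioc (0:ℝ) t, (|Mx (Real.exp s)| * Real.exp (-(s / 2))) * (Real.exp (s / 2)) := by
    refine integral_congr_ae (Eventually.of_forall fun s => ?_)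
    simp only
    rw [mul_assoc, ← Real.exp_add, neg_add_cancel, Real.exp_zero, mul_one]
  have e2 : ∫ s in Ioc (0:ℝ) t, (|Mx (Real.exp s)| * Real.exp (-(s / 2))) ^ 2 = JJ t := by
    unfold JJ
    refine integral_congr_ae (Eventually.of_forall fun s => ?_)
    simp only
    rw [mul_pow, sq_abs, sq (Real.exp _), ← Real.exp_add]; ring_nf
  have e3 : ∫ s in Ioc (0:ℝ) t, (Real.exp (s / 2)) ^ 2 = Real.exp t - 1 := by
    have : ∀ s : ℝ, (Real.exp (s / 2)) ^ 2 = Real.exp s := by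
      intro s; rw [sq, ← Real.exp_add]; ring_nf
    simp only [this]
    rw [← intervalIntegral.integral_of_le ht.le, integral_exp, Real.exp_zero]
  rw [e1]
  refine h1.trans ?_
  rw [e2, e3]
  have := JJ_nonneg t
  nlinarith

/-- estimate of the convolution by `J` -/
lemma Cv_le_JJ {ρ : ℂ} (h0 : 0 < ρ.re) (h1 : ρ.re < 1) (hz : riemannZeta ρ = 0) :
    ∃ K : ℝ, 0 < K ∧ ∀ t : ℝ, ‖Cv ρ t‖ ^ 2 ≤ K * Real.exp (-((2 * ρ.re - 1) * t)) * JJ t := by
  obtain ⟨K, hK0, hK⟩ := af_nice h0 h1 hz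
  refine ⟨K ^ 2, by positivity, fun t => ?_⟩
  rcases lt_or_ge t 0 with ht0 | ht0
  · rw [Cv_neg ht0]
    have h1 := JJ_nonneg t
    have h2 : 0 ≤ K ^ 2 * Real.exp (-((2 * ρ.re - 1) * t)) * JJ t := by positivity
    simpa using h2
  have hsub : Cv ρ t = ∫ s, mf ρ s * af ρ (t - s) := by
    unfold Cv
    rw [← integral_sub_left_eq_self (fun s => mf ρ s * af ρ (t - s)) volume t]
    simp
  have hint : IntegrableOn (fun s : ℝ => |Mx (Real.exp s)|) (Icc 0 t) := by
    rw [integrableOn_Icc_iff_integrableOn_Ioc]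
    refine integrableOn_of_le (B := Real.exp t) ?_ ?_
    · exact (continuous_abs.measurable).comp (Mx_meas.comp Real.measurable_exp)
    · intro s hs
      rw [abs_abs]
      exact (abs_Mx_le (Real.exp_pos s).le).trans (Real.exp_le_exp.2 hs.2)
  have hb : ‖Cv ρ t‖ ≤ K * Real.exp (-(ρ.re * t)) * ∫ s in Ioc (0:ℝ) t, |Mx (Real.exp s)| := by
    rw [hsub, ← integral_Icc_eq_integral_Ioc, ← integral_const_mul, ← integral_indicator measurableSet_Icc]
    refine norm_integral_le_of_norm_le ?_ (Eventually.of_forall fun s => ?_)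
    · rw [integrable_indicator_iff measurableSet_Icc]
      exact hint.const_mul _
    · by_cases hs : s ∈ Icc 0 t
      · rw [indicator_of_mem hs, norm_mul, norm_mf]
        calc |Mx (Real.exp s)| * Real.exp (-(ρ.re * s)) * ‖af ρ (t - s)‖
            ≤ |Mx (Real.exp s)| * Real.exp (-(ρ.re * s)) * (K * Real.exp (-ρ.re * (t - s))) := by
              gcongr; exact hK.bound _
          _ = K * (Real.exp (-(ρ.re * s)) * Real.exp (-ρ.re * (t - s))) * |Mx (Real.exp s)| := by ring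
          _ = _ := by
            rw [← Real.exp_add]; ring_nf
      · rw [indicator_of_notMem hs]
        rw [mem_Icc, not_and_or, not_le, not_le] at hs
        rcases hs with hs | hs
        · rw [mf_zero hs]; simp
        · rw [af_zero (by linarith)]; simp
  have hI0 : 0 ≤ ∫ s in Ioc (0:ℝ) t, |Mx (Real.exp s)| := integral_nonneg fun s => abs_nonneg _
  calc ‖Cv ρ t‖ ^ 2 ≤ (K * Real.exp (-(ρ.re * t)) * ∫ s in Ioc (0:ℝ) t, |Mx (Real.exp s)|) ^ 2 := by gcongr
    _ = K ^ 2 * Real.exp (-(ρ.re * t)) ^ 2 * (∫ s in Ioc (0:ℝ) t, |Mx (Real.exp s)|) ^ 2 := by ring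
    _ ≤ K ^ 2 * Real.exp (-(ρ.re * t)) ^ 2 * (JJ t * Real.exp t) := by
      gcongr; exact Mx_exp_L1 t
    _ = K ^ 2 * (Real.exp (-(ρ.re * t)) * Real.exp (-(ρ.re * t)) * Real.exp t) * JJ t := by ring
    _ = _ := by
      rw [← Real.exp_add, ← Real.exp_add]; ring_nf

lemma Cv_lower {ρ : ℂ} (h0 : 1 / 4 < ρ.re) (h1 : ρ.re < 1) :
    ∃ t₀ : ℝ, ∀ t ≥ t₀, ‖c0 ρ‖ / 2 ≤ ‖Cv ρ t‖ := by
  obtain ⟨C, hC, hb⟩ := conv_bound h0 h1
  have hc := norm_pos_iff.2 (c0_ne (by linarith) h1)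
  have hlim : Tendsto (fun t : ℝ => C * Real.exp (-((ρ.re - 1 / 4) * t))) atTop (𝓝 0) := by
    have h2 : Tendsto (fun t : ℝ => (ρ.re - 1 / 4) * t) atTop atTop :=
      Tendsto.const_mul_atTop (by linarith) tendsto_id
    have := (Real.tendsto_exp_neg_atTop_nhds_zero.comp h2).const_mul C
    simpa using this
  have hev := hlim.eventually (gt_mem_nhds (half_pos hc))
  obtain ⟨t₀, ht₀⟩ := eventually_atTop.1 hev
  refine ⟨t₀, fun t ht => ?_⟩
  have h3 := hb t
  have h4 := ht₀ t ht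
  have h5 : ‖c0 ρ‖ ≤ ‖Cv ρ t‖ + ‖Cv ρ t - c0 ρ‖ := by
    have := norm_sub_norm_le (c0 ρ) (Cv ρ t)
    rw [norm_sub_rev] at this
    linarith
  have h6 : ‖Cv ρ t - c0 ρ‖ ≤ C * Real.exp (-((ρ.re - 1 / 4) * t)) := h3
  linarith

/-- **Part (a).** -/
theorem partA {ρ : ℂ} (h0 : 1 / 4 < ρ.re) (h1 : ρ.re < 1) (hz : riemannZeta ρ = 0) :
    ∃ c : ℝ, 0 < c ∧ ∃ t₀ : ℝ, ∀ t ≥ t₀, c * Real.exp ((2 * ρ.re - 1) * t) ≤ JJ t := by
  obtain ⟨K, hK0, hK⟩ := Cv_le_JJ (by linarith) h1 hz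
  obtain ⟨t₀, ht₀⟩ := Cv_lower h0 h1
  have hc := norm_pos_iff.2 (c0_ne (by linarith : 0 < ρ.re) h1)
  refine ⟨(‖c0 ρ‖ / 2) ^ 2 / K, by positivity, t₀, fun t ht => ?_⟩
  have h2 := ht₀ t ht
  have h3 := hK t
  have h4 : (‖c0 ρ‖ / 2) ^ 2 ≤ K * Real.exp (-((2 * ρ.re - 1) * t)) * JJ t := by
    refine le_trans ?_ h3
    gcongr
  rw [div_mul_eq_mul_div, div_le_iff₀ hK0]
  have h5 : Real.exp (-((2 * ρ.re - 1) * t)) * Real.exp ((2 * ρ.re - 1) * t) = 1 := by
    rw [← Real.exp_add]; simp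
  calc (‖c0 ρ‖ / 2) ^ 2 * Real.exp ((2 * ρ.re - 1) * t)
      ≤ K * Real.exp (-((2 * ρ.re - 1) * t)) * JJ t * Real.exp ((2 * ρ.re - 1) * t) := by gcongr
    _ = K * JJ t * (Real.exp (-((2 * ρ.re - 1) * t)) * Real.exp ((2 * ρ.re - 1) * t)) := by ring
    _ = _ := by rw [h5]; ring

/-- weighted integral of the convolution -/
theorem Cv_weighted {ρ : ℂ} (h0 : 1 / 4 < ρ.re) (h1 : ρ.re < 1) (hz : riemannZeta ρ = 0) (p : ℕ) :
    ∃ C : ℝ, 0 < C ∧ ∀ L : ℝ, 0 ≤ L →
      ‖(∫ t, ((xp p (L - t) : ℝ) : ℂ) * Cv ρ t) - c0 ρ * ((L ^ (p + 1) / (p + 1) : ℝ) : ℂ)‖ ≤ C * L ^ p := by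
  obtain ⟨C, hC, hb⟩ := conv_bound h0 h1
  have hb0 : 0 < ρ.re - 1 / 4 := by linarith
  refine ⟨C / (ρ.re - 1 / 4), by positivity, fun L hL => ?_⟩
  obtain ⟨hint, -⟩ := fub (by linarith) h1 hz p hL
  have hint' : Integrable (fun t : ℝ => ((xp p (L - t) : ℝ) : ℂ) * Cv ρ t) := hint
  have e1 : ∫ t, ((xp p (L - t) : ℝ) : ℂ) * Cv ρ t = ∫ t in Icc 0 L, ((xp p (L - t) : ℝ) : ℂ) * Cv ρ t := by
    rw [setIntegral_eq_integral_of_forall_compl_eq_zero]
    intro t ht
    rw [mem_Icc, not_and_or, not_le, not_le] at ht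
    rcases ht with ht | ht
    · rw [Cv_neg ht, mul_zero]
    · rw [xp_neg (by linarith)]; simp
  have e2 : ∫ t in Icc 0 L, ((xp p (L - t) : ℝ) : ℂ) * c0 ρ = c0 ρ * ((L ^ (p + 1) / (p + 1) : ℝ) : ℂ) := by
    rw [integral_mul_const, mul_comm]
    congr 1
    have e3 : ∫ t in Icc 0 L, ((xp p (L - t) : ℝ) : ℂ) = ((∫ t in Icc 0 L, (L - t) ^ p : ℝ) : ℂ) := by
      rw [← integral_complex_ofReal]
      apply setIntegral_congr_fun measurableSet_Icc
      intro t ht
      simp only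
      unfold xp
      rw [if_pos (by linarith [ht.2])]
    rw [e3, integral_Icc_eq_integral_Ioc, ← intervalIntegral.integral_of_le hL,
      intervalIntegral.integral_comp_sub_left (fun x => x ^ p) L, integral_pow]
    congr 2
    simp
  have hi3 : IntegrableOn (fun t : ℝ => ((xp p (L - t) : ℝ) : ℂ) * c0 ρ) (Icc 0 L) := by
    have h5 : IntegrableOn (fun t : ℝ => (((L - t) ^ p : ℝ) : ℂ) * c0 ρ) (Icc 0 L) :=
      Continuous.integrableOn_Icc (by fun_prop)
    refine h5.congr_fun (fun t ht => ?_) measurableSet_Icc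
    simp only
    unfold xp
    rw [if_pos (by linarith [ht.2])]
  rw [e1, ← e2, ← integral_sub hint'.integrableOn hi3]
  have hdom : IntegrableOn (fun t : ℝ => L ^ p * (C * Real.exp (-(ρ.re - 1 / 4) * t))) (Ioi 0) :=
    ((integrableOn_exp_mul_Ioi (by linarith : -(ρ.re - 1 / 4) < 0) 0).const_mul C).const_mul _
  calc ‖∫ t in Icc 0 L, (((xp p (L - t) : ℝ) : ℂ) * Cv ρ t - ((xp p (L - t) : ℝ) : ℂ) * c0 ρ)‖
      ≤ ∫ t in Ioc 0 L, L ^ p * (C * Real.exp (-(ρ.re - 1 / 4) * t)) := by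
        rw [integral_Icc_eq_integral_Ioc]
        refine norm_integral_le_of_norm_le (hdom.mono_set Ioc_subset_Ioi_self) ?_
        refine (ae_restrict_mem measurableSet_Ioc).mono fun t ht => ?_
        rw [← mul_sub, norm_mul, Complex.norm_real, Real.norm_of_nonneg (xp_nonneg _ _)]
        have a1 := xp_le (p := p) (x := L - t) (L := L) (by linarith [ht.1]) hL
        have a2 : ‖Cv ρ t - c0 ρ‖ ≤ C * Real.exp (-(ρ.re - 1 / 4) * t) := by
          have := hb t
          rw [neg_mul]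
          exact this
        gcongr
    _ ≤ ∫ t in Ioi 0, L ^ p * (C * Real.exp (-(ρ.re - 1 / 4) * t)) :=
        setIntegral_mono_set hdom (Eventually.of_forall fun t => by positivity)
          (Eventually.of_forall Ioc_subset_Ioi_self)
    _ = C / (ρ.re - 1 / 4) * L ^ p := by
        rw [integral_const_mul, integral_const_mul, integral_exp_mul_Ioi (by linarith)]
        rw [mul_zero, Real.exp_zero, neg_div_neg_eq]
        ring

/-- moments of `a` -/
def mom (ρ : ℂ) (j : ℕ) : ℂ := ∫ u : ℝ, (u : ℂ) ^ j * af ρ u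

lemma pow_af_integrable {ρ : ℂ} (h0 : 0 < ρ.re) (h1 : ρ.re < 1) (hz : riemannZeta ρ = 0) (j : ℕ) :
    Integrable (fun u : ℝ => (u : ℂ) ^ j * af ρ u) := by
  obtain ⟨K, hK0, hK⟩ := af_nice h0 h1 hz
  have h2 : IntegrableOn (fun u : ℝ => u ^ j * Real.exp (-ρ.re * u)) (Ioi 0) := by
    have := integrableOn_rpow_mul_exp_neg_mul_rpow (s := (j:ℝ)) (p := 1) (b := ρ.re)
      (by have : (0:ℝ) ≤ j := Nat.cast_nonneg j
          linarith) zero_lt_one h0
    simpa using this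
  have h3 : Integrable ((Ici (0:ℝ)).indicator (fun u : ℝ => K * (u ^ j * Real.exp (-ρ.re * u)))) := by
    rw [integrable_indicator_iff measurableSet_Ici, integrableOn_Ici_iff_integrableOn_Ioi]
    exact h2.const_mul K
  refine h3.mono' ?_ (Eventually.of_forall fun u => ?_)
  · refine Measurable.aestronglyMeasurable ?_
    exact (Complex.measurable_ofReal.pow_const j).mul (af_meas ρ)
  · rcases lt_or_ge u 0 with hu | hu
    · rw [af_zero hu, indicator_of_notMem (by simpa using hu)]; simp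
    · rw [indicator_of_mem (show u ∈ Ici (0:ℝ) from hu), norm_mul, norm_pow, Complex.norm_real,
        Real.norm_of_nonneg hu]
      have := hK.bound u
      calc u ^ j * ‖af ρ u‖ ≤ u ^ j * (K * Real.exp (-ρ.re * u)) := by gcongr
        _ = _ := by ring

lemma binom_mom {ρ : ℂ} (h0 : 0 < ρ.re) (h1 : ρ.re < 1) (hz : riemannZeta ρ = 0) (p : ℕ) (x : ℝ) :
    Integrable (fun u : ℝ => ((x - u : ℝ) : ℂ) ^ p * af ρ u) ∧
    ∫ u : ℝ, ((x - u : ℝ) : ℂ) ^ p * af ρ u =
      ∑ j ∈ Finset.range (p + 1), (x : ℂ) ^ (p - j) * (-1) ^ j * (p.choose j : ℂ) * mom ρ j := by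
  have e : ∀ u : ℝ, ((x - u : ℝ) : ℂ) ^ p * af ρ u =
      ∑ j ∈ Finset.range (p + 1), (x : ℂ) ^ (p - j) * (-1) ^ j * (p.choose j : ℂ) * ((u : ℂ) ^ j * af ρ u) := by
    intro u
    have : ((x - u : ℝ) : ℂ) = (-1) * (u : ℂ) + x := by push_cast; ring
    rw [this, add_pow, Finset.sum_mul]
    refine Finset.sum_congr rfl fun j _ => ?_
    rw [mul_pow]; ring
  have hi : ∀ j ∈ Finset.range (p + 1), Integrable (fun u : ℝ => (x : ℂ) ^ (p - j) * (-1) ^ j * (p.choose j : ℂ) * ((u : ℂ) ^ j * af ρ u)) :=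
    fun j _ => (pow_af_integrable h0 h1 hz j).const_mul _
  simp only [e]
  refine ⟨integrable_finset_sum _ hi, ?_⟩
  rw [integral_finset_sum _ hi]
  refine Finset.sum_congr rfl fun j _ => ?_
  rw [integral_const_mul]
  rfl

/-- the difference between `R_p` and the polynomial is small -/
lemma RA_sub {ρ : ℂ} (h0 : 0 < ρ.re) (h1 : ρ.re < 1) (hz : riemannZeta ρ = 0) (p : ℕ) {x : ℝ} (hx : 0 ≤ x) :
    ‖RA p ρ x - ∫ u : ℝ, ((x - u : ℝ) : ℂ) ^ p * af ρ u‖ ≤ ∫ u in Ioi x, u ^ p * ‖af ρ u‖ := by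
  obtain ⟨hi, -⟩ := binom_mom h0 h1 hz p x
  have hn : Integrable (fun u : ℝ => u ^ p * ‖af ρ u‖) := by
    have := (pow_af_integrable h0 h1 hz p).norm
    refine this.congr (Eventually.of_forall fun u => ?_)
    simp only
    rcases lt_or_ge u 0 with hu | hu
    · rw [af_zero hu]; simp
    · rw [norm_mul, norm_pow, Complex.norm_real, Real.norm_of_nonneg hu]
  have hi2 : Integrable (fun u : ℝ => ((xp p (x - u) : ℝ) : ℂ) * af ρ u) := by
    refine Integrable.mono' (g := fun u : ℝ => ‖((x - u : ℝ) : ℂ) ^ p * af ρ u‖) hi.norm ?_ ?_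
    · refine Measurable.aestronglyMeasurable ?_
      exact (Complex.measurable_ofReal.comp ((xp_meas p).comp (measurable_const.sub measurable_id))).mul (af_meas ρ)
    · refine Eventually.of_forall fun u => ?_
      rw [norm_mul, norm_mul]
      gcongr
      rw [Complex.norm_real, norm_pow, Complex.norm_real, Real.norm_of_nonneg (xp_nonneg _ _)]
      unfold xp
      split_ifs with h
      · rw [Real.norm_of_nonneg h]
      · positivity
  unfold RA
  rw [← integral_sub hi2 hi, ← integral_indicator measurableSet_Ioi]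
  refine norm_integral_le_of_norm_le ?_ (Eventually.of_forall fun u => ?_)
  · rw [integrable_indicator_iff measurableSet_Ioi]
    exact hn.integrableOn
  · by_cases hu : u ∈ Ioi x
    · rw [indicator_of_mem hu]
      have hu' : x < u := hu
      rw [xp_neg (by linarith), Complex.ofReal_zero, zero_mul, zero_sub, norm_neg, norm_mul, norm_pow,
        Complex.norm_real]
      gcongr
      rw [Real.norm_eq_abs, abs_of_neg (by linarith)]
      linarith
    · rw [indicator_of_notMem hu]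
      have hu' : u ≤ x := by simpa using hu
      have : xp p (x - u) = (x - u) ^ p := by unfold xp; rw [if_pos (by linarith)]
      rw [this]
      push_cast
      simp

lemma RA_neg {ρ : ℂ} {p : ℕ} {x : ℝ} (hx : x < 0) : RA p ρ x = 0 := by
  unfold RA
  have : ∀ u, ((xp p (x - u) : ℝ) : ℂ) * af ρ u = 0 := by
    intro u
    rcases lt_or_ge u 0 with h | h
    · rw [af_zero h, mul_zero]
    · rw [xp_neg (by linarith)]; simp
  simp [this]

/-- if the moments of order `< p` vanish then `R_p` is bounded -/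
theorem RA_bounded {ρ : ℂ} (h0 : 0 < ρ.re) (h1 : ρ.re < 1) (hz : riemannZeta ρ = 0) {p : ℕ}
    (hm : ∀ j < p, mom ρ j = 0) : ∃ B : ℝ, 0 < B ∧ ∀ x, ‖RA p ρ x‖ ≤ B := by
  have hn : Integrable (fun u : ℝ => u ^ p * ‖af ρ u‖) := by
    have := (pow_af_integrable h0 h1 hz p).norm
    refine this.congr (Eventually.of_forall fun u => ?_)
    simp only
    rcases lt_or_ge u 0 with hu | hu
    · rw [af_zero hu]; simp
    · rw [norm_mul, norm_pow, Complex.norm_real, Real.norm_of_nonneg hu]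
  have hI : 0 ≤ ∫ u in Ioi (0:ℝ), u ^ p * ‖af ρ u‖ := by
    refine setIntegral_nonneg measurableSet_Ioi fun u hu => ?_
    have : (0:ℝ) < u := hu
    positivity
  refine ⟨1 + ‖mom ρ p‖ + ∫ u in Ioi (0:ℝ), u ^ p * ‖af ρ u‖, by positivity, fun x => ?_⟩
  rcases lt_or_ge x 0 with hx | hx
  · rw [RA_neg hx, norm_zero]; positivity
  have h2 := RA_sub h0 h1 hz p hx
  obtain ⟨-, h3⟩ := binom_mom h0 h1 hz p x
  have h4 : ∫ u : ℝ, ((x - u : ℝ) : ℂ) ^ p * af ρ u = (-1) ^ p * mom ρ p := by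
    rw [h3, Finset.sum_range_succ, Finset.sum_eq_zero, zero_add]
    · simp
    · intro j hj
      rw [hm j (Finset.mem_range.1 hj), mul_zero]
  rw [h4] at h2
  have h5 : ∫ u in Ioi x, u ^ p * ‖af ρ u‖ ≤ ∫ u in Ioi (0:ℝ), u ^ p * ‖af ρ u‖ := by
    refine setIntegral_mono_set hn.integrableOn ?_ (Eventually.of_forall (Ioi_subset_Ioi hx))
    refine (ae_restrict_mem measurableSet_Ioi).mono fun u hu => ?_
    have : (0:ℝ) < u := hu
    simp only [Pi.zero_apply]
    positivity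
  have h6 : ‖RA p ρ x‖ ≤ ‖RA p ρ x - (-1) ^ p * mom ρ p‖ + ‖(-1) ^ p * mom ρ p‖ := by
    have := norm_add_le (RA p ρ x - (-1) ^ p * mom ρ p) ((-1) ^ p * mom ρ p)
    rwa [sub_add_cancel] at this
  have h7 : ‖(-1) ^ p * mom ρ p‖ = ‖mom ρ p‖ := by
    rw [norm_mul, norm_pow, norm_neg, norm_one, one_pow, one_mul]
  linarith

/-- **Part (b), abstract form.** -/
theorem partB {ρ : ℂ} (h0 : 1 / 2 ≤ ρ.re) (h1 : ρ.re < 1) (hz : riemannZeta ρ = 0) {p : ℕ}
    (hm : ∀ j < p, mom ρ j = 0) :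
    ∃ c : ℝ, 0 < c ∧ ∃ L₀ : ℝ, ∀ L ≥ L₀, c * L ^ (2 * p + 1) ≤ JJ L := by
  obtain ⟨B, hB, hRA⟩ := RA_bounded (by linarith) h1 hz hm
  obtain ⟨C, hC, hw⟩ := Cv_weighted (by linarith) h1 hz p
  have hc := norm_pos_iff.2 (c0_ne (by linarith : 0 < ρ.re) h1)
  set a : ℝ := ‖c0 ρ‖ / (p + 1) with ha
  have hp1 : (0:ℝ) < p + 1 := by positivity
  have ha0 : 0 < a := by positivity
  refine ⟨(a / (2 * B)) ^ 2, by positivity, max 1 (2 * C / a), fun L hL => ?_⟩
  have hL1 : 1 ≤ L := (le_max_left _ _).trans hL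
  have hL2 : 2 * C / a ≤ L := (le_max_right _ _).trans hL
  have hL0 : 0 < L := by linarith
  obtain ⟨-, hf⟩ := fub (by linarith : 0 < ρ.re) h1 hz p hL0.le
  have h2 := hw L hL0.le
  have hf' : ∫ t, ((xp p (L - t) : ℝ) : ℂ) * Cv ρ t = ∫ s, mf ρ s * RA p ρ (L - s) := hf
  rw [hf'] at h2
  have hmi : IntegrableOn (fun s => ‖mf ρ s‖) (Ioc 0 L) := by
    refine integrableOn_of_le (B := Real.exp L) (mf_meas ρ).norm fun s hs => ?_
    rw [abs_of_nonneg (norm_nonneg _)]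
    exact norm_mf_le' (by linarith) hs.2
  have h3 : ‖∫ s, mf ρ s * RA p ρ (L - s)‖ ≤ B * ∫ s in Ioc 0 L, ‖mf ρ s‖ := by
    rw [← integral_Icc_eq_integral_Ioc, ← integral_const_mul, ← integral_indicator measurableSet_Icc]
    refine norm_integral_le_of_norm_le ?_ (Eventually.of_forall fun s => ?_)
    · rw [integrable_indicator_iff measurableSet_Icc, integrableOn_Icc_iff_integrableOn_Ioc]
      exact hmi.const_mul B
    · by_cases hs : s ∈ Icc 0 L
      · rw [indicator_of_mem hs, norm_mul, mul_comm]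
        gcongr
        exact hRA _
      · rw [indicator_of_notMem hs]
        rw [mem_Icc, not_and_or, not_le, not_le] at hs
        rcases hs with hs | hs
        · rw [mf_zero hs]; simp
        · rw [RA_neg (by linarith)]; simp
  have h4 : ‖c0 ρ * ((L ^ (p + 1) / (p + 1) : ℝ) : ℂ)‖ = a * L ^ (p + 1) := by
    rw [norm_mul, Complex.norm_real, Real.norm_of_nonneg (by positivity), ha]
    ring
  have h5 : a * L ^ (p + 1) ≤ C * L ^ p + B * ∫ s in Ioc 0 L, ‖mf ρ s‖ := by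
    rw [← h4]
    have := norm_sub_norm_le (c0 ρ * ((L ^ (p + 1) / (p + 1) : ℝ) : ℂ)) (∫ s, mf ρ s * RA p ρ (L - s))
    rw [norm_sub_rev] at this
    linarith
  have h6 : C * L ^ p ≤ a / 2 * L ^ (p + 1) := by
    rw [div_le_iff₀ ha0] at hL2
    have : 0 < L ^ p := by positivity
    rw [pow_succ]
    nlinarith
  have h7 : a / (2 * B) * L ^ (p + 1) ≤ ∫ s in Ioc 0 L, ‖mf ρ s‖ := by
    rw [div_mul_eq_mul_div, div_le_iff₀ (by positivity)]
    nlinarith
  have h8 := mf_L1 h0 le_rfl hL0.le (a := 0) (b := L)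
  have h9 : (a / (2 * B) * L ^ (p + 1)) ^ 2 ≤ JJ L * L := by
    refine le_trans ?_ (h8.trans (by rw [sub_zero]))
    gcongr
  have h10 : (a / (2 * B) * L ^ (p + 1)) ^ 2 = (a / (2 * B)) ^ 2 * L ^ (2 * p + 1) * L := by ring
  rw [h10] at h9
  exact le_of_mul_le_mul_right h9 hL0

end

end Pool.Agent.H295R2
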