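import Pool.Agent.H295R2.WM3

set_option autoImplicit false

open MeasureTheory Filter Topology Set

namespace Pool.Agent.H295R2

noncomputable section

/-- `A(u) = ∑_{j ≤ e^u} j^{-ρ}` -/
def AA (ρ : ℂ) (u : ℝ) : ℂ := ∑ j ∈ Finset.Icc 1 ⌊Real.exp u⌋₊, (j : ℂ) ^ (-ρ)

lemma AA_nice {ρ : ℂ} (h0 : 0 < ρ.re) : Nice (AA ρ) 1 1 0 where
  meas := by
    unfold AA
    exact (measurable_from_top (f := fun n : ℕ => ∑ j ∈ Finset.Icc 1 n, (j : ℂ) ^ (-ρ))).comp
      (Nat.measurable_floor.comp Real.measurable_exp)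
  bound := by
    intro u
    unfold AA
    rw [one_mul, one_mul]
    calc ‖∑ j ∈ Finset.Icc 1 ⌊Real.exp u⌋₊, (j : ℂ) ^ (-ρ)‖
        ≤ ∑ j ∈ Finset.Icc 1 ⌊Real.exp u⌋₊, (1:ℝ) := by
          refine norm_sum_le_of_le _ fun j hj => ?_
          rw [Finset.mem_Icc] at hj
          rw [Complex.norm_natCast_cpow_of_pos (by omega)]
          apply Real.rpow_le_one_of_one_le_of_nonpos (by exact_mod_cast hj.1)
          simp; linarith
      _ = ⌊Real.exp u⌋₊ := by simp
      _ ≤ Real.exp u := Nat.floor_le (Real.exp_pos u).le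
  zero := by
    intro u hu
    unfold AA
    have h1 : ⌊Real.exp u⌋₊ = 0 := by
      rw [Nat.floor_eq_zero, ← Real.exp_zero]; exact Real.exp_lt_exp.2 hu
    rw [h1]; simp

lemma Lap_AA {ρ : ℂ} (h0 : 0 < ρ.re) {s : ℂ} (hs : 1 < s.re) : s * Lap (AA ρ) s = riemannZeta (ρ + s) := by
  have hO : (fun n : ℕ => ∑ k ∈ Finset.Icc 1 n, ‖(k : ℂ) ^ (-ρ)‖) =O[atTop] fun n : ℕ => (n : ℝ) ^ (1:ℝ) := by
    refine Asymptotics.isBigO_of_le _ fun n => ?_
    rw [Real.norm_of_nonneg (Finset.sum_nonneg fun _ _ => norm_nonneg _), Real.rpow_one,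
      Real.norm_of_nonneg (Nat.cast_nonneg n)]
    calc ∑ k ∈ Finset.Icc 1 n, ‖(k : ℂ) ^ (-ρ)‖ ≤ ∑ k ∈ Finset.Icc 1 n, (1:ℝ) := by
          refine Finset.sum_le_sum fun j hj => ?_
          rw [Finset.mem_Icc] at hj
          rw [Complex.norm_natCast_cpow_of_pos (by omega)]
          apply Real.rpow_le_one_of_one_le_of_nonpos (by exact_mod_cast hj.1)
          simp; linarith
      _ = n := by simp
  have h1 := LSeries_eq_mul_integral' (fun k : ℕ => (k : ℂ) ^ (-ρ)) (r := 1) (by norm_num) (s := s) hs hO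
  have h2 : LSeries (fun k : ℕ => (k : ℂ) ^ (-ρ)) s = riemannZeta (ρ + s) := by
    have hre : 1 < (ρ + s).re := by simp; linarith
    rw [zeta_eq_tsum_one_div_nat_cpow hre]
    unfold LSeries
    refine tsum_congr fun n => ?_
    rcases Nat.eq_zero_or_pos n with rfl | hn
    · have : ρ + s ≠ 0 := by
        intro h; rw [h] at hre; norm_num at hre
      simp [this]
    · rw [LSeries.term_of_ne_zero (by omega)]
      have hn' : (n : ℂ) ≠ 0 := by exact_mod_cast (by omega : n ≠ 0)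
      rw [Complex.cpow_add _ _ hn', Complex.cpow_neg]
      field_simp
  rw [← h2, h1]
  congr 1
  rw [integral_Ioi_exp]
  unfold Lap
  rw [← setIntegral_eq_integral_of_forall_compl_eq_zero (s := Ici (0:ℝ)), integral_Ici_eq_integral_Ioi]
  · apply setIntegral_congr_fun measurableSet_Ioi
    intro u _
    simp only
    unfold AA
    have hne : ((Real.exp u : ℝ) : ℂ) ≠ 0 := by exact_mod_cast (Real.exp_pos u).ne'
    rw [Complex.cpow_def_of_ne_zero hne, ← Complex.ofReal_log (Real.exp_pos u).le, Real.log_exp]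
    have e1 : ((Real.exp u : ℝ) : ℂ) = Complex.exp u := Complex.ofReal_exp u
    rw [e1]
    have e2 : Complex.exp (-(s * u)) = Complex.exp u * Complex.exp ((u : ℂ) * (-(s + 1))) := by
      rw [← Complex.exp_add]; ring_nf
    rw [e2]; ring
  · intro u hu
    have : u < 0 := by simpa using hu
    rw [(AA_nice h0).zero u this, zero_mul]

lemma af_ae_eq (ρ : ℂ) : af ρ =ᵐ[volume] fun u => AA ρ u - (2 : ℂ) ^ (1 - ρ) * AA ρ (u - Real.log 2) := by
  have h1 : ({Real.log 2}ᶜ : Set ℝ) ∈ ae (volume : Measure ℝ) := by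
    rw [mem_ae_iff, compl_compl]; simp
  filter_upwards [h1] with u hu
  have hne : u ≠ Real.log 2 := by simpa using hu
  unfold af VV RR
  have hexp : ((Real.exp u : ℝ) : ℂ) ^ ρ * Complex.exp (-(ρ * u)) = 1 := by
    have hne : ((Real.exp u : ℝ) : ℂ) ≠ 0 := by exact_mod_cast (Real.exp_pos u).ne'
    rw [Complex.cpow_def_of_ne_zero hne, ← Complex.ofReal_log (Real.exp_pos u).le, Real.log_exp,
      ← Complex.exp_add]
    ring_nf; simp
  have hexp2 : ((Real.exp u / 2 : ℝ) : ℂ) ^ ρ * Complex.exp (-(ρ * u)) = (2 : ℂ) ^ (-ρ) := by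
    have e1 : Real.exp u / 2 = Real.exp (u - Real.log 2) := by
      rw [Real.exp_sub, Real.exp_log (by norm_num)]
    have hne : ((Real.exp (u - Real.log 2) : ℝ) : ℂ) ≠ 0 := by exact_mod_cast (Real.exp_pos _).ne'
    rw [e1, Complex.cpow_def_of_ne_zero hne, ← Complex.ofReal_log (Real.exp_pos _).le, Real.log_exp,
      ← Complex.exp_add, Complex.cpow_def_of_ne_zero (by norm_num)]
    have e2 : Complex.log 2 = ((Real.log 2 : ℝ) : ℂ) := by
      rw [Complex.ofReal_log (by norm_num)]; norm_num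
    rw [e2]
    congr 1; push_cast; ring
  have h22 : (2:ℂ) * (2:ℂ) ^ (-ρ) = (2:ℂ) ^ (1 - ρ) := by
    rw [sub_eq_add_neg, Complex.cpow_add _ _ (by norm_num), Complex.cpow_one]
  have e3 : Real.exp (u - Real.log 2) = Real.exp u / 2 := by
    rw [Real.exp_sub, Real.exp_log (by norm_num)]
  by_cases h2 : 2 < Real.exp u
  · rw [indicator_of_mem (show Real.exp u ∈ Ioi (2:ℝ) from h2)]
    unfold AA
    rw [e3, ← h22, ← hexp2]
    have := hexp
    linear_combination (∑ j ∈ Finset.Icc 1 ⌊Real.exp u⌋₊, (j : ℂ) ^ (-ρ)) * hexp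
  · rw [indicator_of_notMem (show Real.exp u ∉ Ioi (2:ℝ) from h2)]
    have h3 : Real.exp u < 2 := by
      rcases lt_or_eq_of_le (not_lt.1 h2) with h | h
      · exact h
      · exfalso; apply hne
        rw [← Real.log_exp u, h]
    have h4 : ⌊Real.exp (u - Real.log 2)⌋₊ = 0 := by
      rw [Nat.floor_eq_zero, e3]; linarith
    unfold AA
    rw [h4]
    simp only [sub_zero, Finset.Icc_eq_empty (by norm_num : ¬ (1 ≤ 0)), Finset.sum_empty, mul_zero]
    linear_combination (∑ j ∈ Finset.Icc 1 ⌊Real.exp u⌋₊, (j : ℂ) ^ (-ρ)) * hexp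

lemma Lap_af_big {ρ : ℂ} (h0 : 0 < ρ.re) {s : ℂ} (hs : 1 < s.re) :
    s * Lap (af ρ) s = (1 - (2 : ℂ) ^ (1 - ρ - s)) * riemannZeta (ρ + s) := by
  have hAA := AA_nice h0
  have h1 : Lap (af ρ) s = Lap (AA ρ) s - (2 : ℂ) ^ (1 - ρ - s) * Lap (AA ρ) s := by
    unfold Lap
    have e1 : ∫ u, af ρ u * Complex.exp (-(s * u)) =
        ∫ u, (AA ρ u * Complex.exp (-(s * u)) - (2 : ℂ) ^ (1 - ρ) * (AA ρ (u - Real.log 2) * Complex.exp (-(s * u)))) := by
      refine integral_congr_ae ?_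
      filter_upwards [af_ae_eq ρ] with u hu
      rw [hu]; ring
    have e2 : ∀ u : ℝ, AA ρ (u - Real.log 2) * Complex.exp (-(s * u)) =
        (2 : ℂ) ^ (-s) * (AA ρ (u - Real.log 2) * Complex.exp (-(s * ((u - Real.log 2 : ℝ) : ℂ)))) := by
      intro u
      have e2 : Complex.log 2 = ((Real.log 2 : ℝ) : ℂ) := by
        rw [Complex.ofReal_log (by norm_num)]; norm_num
      have e3 : Complex.exp (-(s * u)) = (2 : ℂ) ^ (-s) * Complex.exp (-(s * ((u - Real.log 2 : ℝ) : ℂ))) := by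
        rw [Complex.cpow_def_of_ne_zero (by norm_num), e2, ← Complex.exp_add]
        congr 1; push_cast; ring
      rw [e3]; ring
    have hi := hAA.integrable (s := s) (by simpa using hs)
    have hi2 : Integrable (fun u : ℝ => AA ρ (u - Real.log 2) * Complex.exp (-(s * u))) := by
      simp only [e2]
      exact (hi.comp_sub_right (Real.log 2)).const_mul _
    rw [e1, integral_sub hi (hi2.const_mul _), integral_const_mul]
    congr 1
    simp only [e2]
    rw [integral_const_mul, integral_sub_right_eq_self (fun u : ℝ => AA ρ u * Complex.exp (-(s * u))) (Real.log 2),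
      ← mul_assoc, ← Complex.cpow_add _ _ (by norm_num)]
    ring_nf
  rw [h1, ← Lap_AA h0 hs]
  ring

lemma Lap_af {ρ : ℂ} (h0 : 0 < ρ.re) (h1 : ρ.re < 1) (hz : riemannZeta ρ = 0) {s : ℂ} (hs : -ρ.re < s.re) :
    s * (s + ρ - 1) * Lap (af ρ) s = (1 - (2 : ℂ) ^ (1 - ρ - s)) * Zs (ρ + s) := by
  obtain ⟨K, hK0, hK⟩ := af_nice h0 h1 hz
  have hU : IsOpen {s : ℂ | -ρ.re < s.re} := halfplane_open _
  have hf : AnalyticOnNhd ℂ (fun s => s * (s + ρ - 1) * Lap (af ρ) s) {s : ℂ | -ρ.re < s.re} := by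
    refine DifferentiableOn.analyticOnNhd (fun s hs => ?_) hU
    refine (DifferentiableAt.mul (by fun_prop) (hK.Lap_differentiableAt hs)).differentiableWithinAt
  have hg : AnalyticOnNhd ℂ (fun s => (1 - (2 : ℂ) ^ (1 - ρ - s)) * Zs (ρ + s)) {s : ℂ | -ρ.re < s.re} := by
    refine DifferentiableOn.analyticOnNhd (fun s hs => ?_) hU
    have hd : DifferentiableAt ℂ (fun s => (2 : ℂ) ^ (1 - ρ - s)) s :=
      DifferentiableAt.const_cpow (by fun_prop) (Or.inl (by norm_num))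
    have hZ : DifferentiableAt ℂ (fun s => Zs (ρ + s)) s :=
      (Zs_differentiable (ρ + s)).comp s (by fun_prop)
    exact (DifferentiableAt.mul ((differentiableAt_const _).sub hd) hZ).differentiableWithinAt
  have heq : (fun s => s * (s + ρ - 1) * Lap (af ρ) s) =ᶠ[𝓝 (2:ℂ)] (fun s => (1 - (2 : ℂ) ^ (1 - ρ - s)) * Zs (ρ + s)) := by
    have hopen : {s : ℂ | 1 < s.re} ∈ 𝓝 (2:ℂ) := (halfplane_open 1).mem_nhds (by simp)
    filter_upwards [hopen] with s hs
    have hs' : 1 < s.re := hs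
    have h2 := Lap_af_big h0 hs'
    have h3 : ρ + s ≠ 1 := by
      intro h
      have : (ρ + s).re = 1 := by rw [h]; simp
      simp at this; linarith
    rw [← Zs_eq h3]
    linear_combination (s + ρ - 1) * h2
  have := hf.eqOn_of_preconnected_of_eventuallyEq hg (halfplane_preconnected _) (z₀ := 2)
    (by simp; linarith) heq
  exact this hs

lemma Lap_af' {ρ : ℂ} (h0 : 0 < ρ.re) (h1 : ρ.re < 1) (hz : riemannZeta ρ = 0) {s : ℂ} (hs : -ρ.re < s.re)
    (hne : ρ + s ≠ 1) :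
    s * Lap (af ρ) s = (1 - (2 : ℂ) ^ (1 - ρ - s)) * riemannZeta (ρ + s) := by
  have h2 := Lap_af h0 h1 hz hs
  rw [← Zs_eq hne] at h2
  have h3 : s + ρ - 1 ≠ 0 := by
    intro h; apply hne; linear_combination h
  have h4 : (s + ρ - 1) * (s * Lap (af ρ) s) = (s + ρ - 1) * ((1 - (2 : ℂ) ^ (1 - ρ - s)) * riemannZeta (ρ + s)) := by
    linear_combination h2
  exact mul_left_cancel₀ h3 h4

/-- multiplication by powers of `-u` keeps the class -/
lemma Nice.powmul {k : ℝ → ℂ} {C a : ℝ} (h : Nice k C a 0) {δ : ℝ} (hδ : 0 < δ) (j : ℕ) :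
    ∃ C' : ℝ, Nice (fun u => (-(u : ℂ)) ^ j * k u) C' (a + δ) 0 := by
  have hC := h.C_nonneg
  refine ⟨((j.factorial : ℝ) / δ ^ j) * C, ?_, ?_, ?_⟩
  · exact (Complex.measurable_ofReal.neg.pow_const j).mul h.meas
  · intro u
    rcases lt_or_ge u 0 with hu | hu
    · rw [h.zero u hu, mul_zero, norm_zero]; positivity
    · rw [norm_mul, norm_pow, norm_neg, Complex.norm_real, Real.norm_of_nonneg hu]
      have h1 := Real.pow_div_factorial_le_exp (δ * u) (by positivity) j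
      have hj : (0:ℝ) < j.factorial := by exact_mod_cast Nat.factorial_pos j
      have h2 : u ^ j ≤ (j.factorial : ℝ) / δ ^ j * Real.exp (δ * u) := by
        rw [div_le_iff₀ hj, mul_pow] at h1
        rw [div_mul_eq_mul_div, le_div_iff₀ (by positivity)]
        linarith
      calc u ^ j * ‖k u‖ ≤ ((j.factorial : ℝ) / δ ^ j * Real.exp (δ * u)) * (C * Real.exp (a * u)) := by
            gcongr; exact h.bound u
        _ = (j.factorial : ℝ) / δ ^ j * C * (Real.exp (a * u) * Real.exp (δ * u)) := by ring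
        _ = _ := by rw [← Real.exp_add]; ring_nf
  · intro u hu
    rw [h.zero u hu, mul_zero]

lemma Nice.iteratedDeriv_Lap {k : ℝ → ℂ} {C a : ℝ} (h : Nice k C a 0) (j : ℕ) :
    ∀ s : ℂ, a < s.re → iteratedDeriv j (Lap k) s = Lap (fun u => (-(u : ℂ)) ^ j * k u) s := by
  induction j with
  | zero => intro s _; simp
  | succ j ih =>
    intro s hs
    rw [iteratedDeriv_succ]
    have hev : iteratedDeriv j (Lap k) =ᶠ[𝓝 s] Lap (fun u => (-(u : ℂ)) ^ j * k u) := by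
      filter_upwards [(halfplane_open a).mem_nhds hs] with z hz
      exact ih z hz
    rw [hev.deriv_eq]
    obtain ⟨C', hC'⟩ := h.powmul (δ := (s.re - a) / 2) (by linarith) j
    rw [(hC'.Lap_hasDerivAt (s := s) (by linarith)).deriv]
    unfold Lap
    refine integral_congr_ae (Eventually.of_forall fun u => ?_)
    simp only
    rw [pow_succ]; ring

lemma mom_eq {ρ : ℂ} (h0 : 0 < ρ.re) (h1 : ρ.re < 1) (hz : riemannZeta ρ = 0) (j : ℕ) :
    iteratedDeriv j (Lap (af ρ)) 0 = (-1) ^ j * mom ρ j := by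
  obtain ⟨K, hK0, hK⟩ := af_nice h0 h1 hz
  rw [hK.iteratedDeriv_Lap j 0 (by simpa using h0)]
  unfold Lap mom
  rw [← integral_const_mul]
  refine integral_congr_ae (Eventually.of_forall fun u => ?_)
  simp only [zero_mul, neg_zero, Complex.exp_zero, mul_one]
  rw [neg_pow]; ring

/-- **vanishing of moments at a multiple zero** -/
theorem mom_zero {ρ : ℂ} (h0 : 0 < ρ.re) (h1 : ρ.re < 1) {p : ℕ}
    (hz : ∀ j < p + 1, iteratedDeriv j riemannZeta ρ = 0) : ∀ j < p, mom ρ j = 0 := by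
  have hz0 : riemannZeta ρ = 0 := by simpa using hz 0 (by omega)
  obtain ⟨K, hK0, hK⟩ := af_nice h0 h1 hz0
  have hρ1 : ρ ≠ 1 := by rintro rfl; simp at h1
  have hζ : AnalyticAt ℂ riemannZeta ρ := by
    have hd : DifferentiableOn ℂ riemannZeta {1}ᶜ := fun s hs =>
      (differentiableAt_riemannZeta (by simpa using hs)).differentiableWithinAt
    exact hd.analyticAt (isOpen_compl_singleton.mem_nhds hρ1)
  have hord := (natCast_le_analyticOrderAt_iff_iteratedDeriv_eq_zero (n := p + 1) hζ).2 hz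
  obtain ⟨g, hg, hge⟩ := (natCast_le_analyticOrderAt hζ).1 hord
  have hKan : AnalyticAt ℂ (Lap (af ρ)) 0 := by
    have hd : DifferentiableOn ℂ (Lap (af ρ)) {s : ℂ | -ρ.re < s.re} := fun s hs =>
      (hK.Lap_differentiableAt hs).differentiableWithinAt
    exact hd.analyticAt ((halfplane_open _).mem_nhds (by simpa using h0))
  have hpow : AnalyticAt ℂ (fun s : ℂ => (2 : ℂ) ^ (1 - ρ - s)) 0 := by
    have hd : Differentiable ℂ (fun s : ℂ => (2 : ℂ) ^ (1 - ρ - s)) := fun s =>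
      DifferentiableAt.const_cpow (by fun_prop) (Or.inl (by norm_num))
    exact hd.analyticAt 0
  have hgc : AnalyticAt ℂ (fun s : ℂ => g (ρ + s)) 0 := by
    have h2 : AnalyticAt ℂ g (ρ + 0) := by rw [add_zero]; exact hg
    exact AnalyticAt.fun_comp (g := g) (f := fun s : ℂ => ρ + s) h2 (by fun_prop)
  have hev : ∀ᶠ s in 𝓝[≠] (0:ℂ), Lap (af ρ) s = s ^ p * ((1 - (2 : ℂ) ^ (1 - ρ - s)) * g (ρ + s)) := by
    have e1 : ∀ᶠ s in 𝓝 (0:ℂ), riemannZeta (ρ + s) = (ρ + s - ρ) ^ (p + 1) • g (ρ + s) := by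
      have ht : Tendsto (fun s : ℂ => ρ + s) (𝓝 0) (𝓝 ρ) := by
        have : ContinuousAt (fun s : ℂ => ρ + s) 0 := by fun_prop
        simpa [ContinuousAt] using this
      exact ht.eventually hge
    have e2 : ∀ᶠ s in 𝓝 (0:ℂ), -ρ.re < s.re := (halfplane_open _).mem_nhds (by simpa using h0)
    have e3 : ∀ᶠ s in 𝓝 (0:ℂ), ρ + s ≠ 1 := by
      have : ContinuousAt (fun s : ℂ => ρ + s) 0 := by fun_prop
      exact this.eventually_ne (by simpa using hρ1)
    filter_upwards [nhdsWithin_le_nhds e1, nhdsWithin_le_nhds e2, nhdsWithin_le_nhds e3, self_mem_nhdsWithin]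
      with s h2 h3 h4 h5
    have h6 := Lap_af' h0 h1 hz0 h3 h4
    have h7 : s ≠ 0 := h5
    rw [h2, smul_eq_mul, add_sub_cancel_left, pow_succ] at h6
    apply mul_left_cancel₀ h7
    rw [h6]; ring
  have han2 : AnalyticAt ℂ (fun s : ℂ => s ^ p * ((1 - (2 : ℂ) ^ (1 - ρ - s)) * g (ρ + s))) 0 :=
    (analyticAt_id.pow p).mul ((analyticAt_const.sub hpow).mul hgc)
  have hev2 : ∀ᶠ s in 𝓝 (0:ℂ), Lap (af ρ) s = (s - 0) ^ p • ((1 - (2 : ℂ) ^ (1 - ρ - s)) * g (ρ + s)) := by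
    have := (hKan.frequently_eq_iff_eventually_eq han2).1 hev.frequently
    filter_upwards [this] with s hs
    rw [hs, sub_zero, smul_eq_mul]
  have hle : (p : ℕ∞) ≤ analyticOrderAt (Lap (af ρ)) 0 :=
    (natCast_le_analyticOrderAt hKan).2 ⟨_, (analyticAt_const.sub hpow).mul hgc, hev2⟩
  have hfin := (natCast_le_analyticOrderAt_iff_iteratedDeriv_eq_zero hKan).1 hle
  intro j hj
  have h2 := hfin j hj
  rw [mom_eq h0 h1 hz0 j] at h2
  have h3 : ((-1 : ℂ)) ^ j ≠ 0 := pow_ne_zero _ (by norm_num)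
  exact (mul_eq_zero.1 h2).resolve_left h3

/-- the zeroth moment -/
theorem mom_zeroth {ρ : ℂ} (h0 : 0 < ρ.re) (h1 : ρ.re < 1) (hz : riemannZeta ρ = 0) :
    mom ρ 0 = (1 - (2 : ℂ) ^ (1 - ρ)) * deriv riemannZeta ρ := by
  obtain ⟨K, hK0, hK⟩ := af_nice h0 h1 hz
  have hρ1 : ρ ≠ 1 := by rintro rfl; simp at h1
  have h2 : mom ρ 0 = Lap (af ρ) 0 := by
    have := mom_eq h0 h1 hz 0
    simpa using this.symm
  rw [h2]
  have hcont : Tendsto (Lap (af ρ)) (𝓝[≠] 0) (𝓝 (Lap (af ρ) 0)) :=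
    ((hK.Lap_differentiableAt (s := 0) (by simpa using h0)).continuousAt.tendsto).mono_left nhdsWithin_le_nhds
  have hd : HasDerivAt riemannZeta (deriv riemannZeta ρ) ρ := (differentiableAt_riemannZeta hρ1).hasDerivAt
  have hd2 : HasDerivAt (fun s => riemannZeta (ρ + s)) (deriv riemannZeta ρ) 0 := by
    have : HasDerivAt riemannZeta (deriv riemannZeta ρ) (ρ + 0) := by rw [add_zero]; exact hd
    exact this.comp_const_add ρ 0
  have hslope := hasDerivAt_iff_tendsto_slope.1 hd2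
  have hpow : ContinuousAt (fun s : ℂ => (1 - (2 : ℂ) ^ (1 - ρ - s))) 0 := by
    have hd : DifferentiableAt ℂ (fun s : ℂ => (2 : ℂ) ^ (1 - ρ - s)) 0 :=
      DifferentiableAt.const_cpow (by fun_prop) (Or.inl (by norm_num))
    exact ((differentiableAt_const _).sub hd).continuousAt
  have hlim2 : Tendsto (fun s : ℂ => (1 - (2 : ℂ) ^ (1 - ρ - s)) * slope (fun s => riemannZeta (ρ + s)) 0 s) (𝓝[≠] 0)
      (𝓝 ((1 - (2 : ℂ) ^ (1 - ρ - 0)) * deriv riemannZeta ρ)) :=
    (hpow.tendsto.mono_left nhdsWithin_le_nhds).mul hslope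
  rw [sub_zero] at hlim2
  refine tendsto_nhds_unique (hcont.congr' ?_) hlim2
  have e2 : ∀ᶠ s in 𝓝 (0:ℂ), -ρ.re < s.re := (halfplane_open _).mem_nhds (by simpa using h0)
  have e3 : ∀ᶠ s in 𝓝 (0:ℂ), ρ + s ≠ 1 := by
    have : ContinuousAt (fun s : ℂ => ρ + s) 0 := by fun_prop
    exact this.eventually_ne (by simpa using hρ1)
  filter_upwards [nhdsWithin_le_nhds e2, nhdsWithin_le_nhds e3, self_mem_nhdsWithin] with s h3 h4 h5
  have h6 := Lap_af' h0 h1 hz h3 h4
  have h7 : s ≠ 0 := h5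
  rw [slope_def_field, add_zero, hz, sub_zero, sub_zero, mul_div_assoc', ← h6, mul_div_cancel_left₀ _ h7]

/-- **Part (b).** -/
theorem partB' {ρ : ℂ} (h0 : 1 / 2 ≤ ρ.re) (h1 : ρ.re < 1) {m : ℕ} (hm : 1 ≤ m)
    (hz : ∀ j < m, iteratedDeriv j riemannZeta ρ = 0) :
    ∃ c : ℝ, 0 < c ∧ ∃ L₀ : ℝ, ∀ L ≥ L₀, c * L ^ (2 * m - 1) ≤ JJ L := by
  obtain ⟨p, rfl⟩ : ∃ p, m = p + 1 := ⟨m - 1, by omega⟩
  have hz0 : riemannZeta ρ = 0 := by simpa using hz 0 (by omega)
  have h2 := partB h0 h1 hz0 (mom_zero (by linarith) h1 hz)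
  have h3 : 2 * (p + 1) - 1 = 2 * p + 1 := by omega
  rw [h3]
  exact h2

end

end Pool.Agent.H295R2
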