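import Pool.Agent.H295R2.WM4
import Pool.Agent.H295R2.T6b

set_option autoImplicit false

open MeasureTheory Filter Topology Set

namespace Pool.Agent.H295R2

noncomputable section

/-- refined estimate of the tail -/
lemma RA_sub' {ρ : ℂ} (h0 : 0 < ρ.re) (h1 : ρ.re < 1) (hz : riemannZeta ρ = 0) (p : ℕ) :
    ∃ K' : ℝ, 0 < K' ∧ ∀ x : ℝ, 0 ≤ x →
      ‖RA p ρ x - ∫ u : ℝ, ((x - u : ℝ) : ℂ) ^ p * af ρ u‖ ≤ K' * Real.exp (-(ρ.re * x)) := by
  obtain ⟨K, hK0, hK⟩ := af_nice h0 h1 hz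
  have h2 : IntegrableOn (fun u : ℝ => u ^ p * Real.exp (-ρ.re * u)) (Ioi 0) := by
    have := integrableOn_rpow_mul_exp_neg_mul_rpow (s := (p:ℝ)) (p := 1) (b := ρ.re)
      (by have : (0:ℝ) ≤ p := Nat.cast_nonneg p
          linarith) zero_lt_one h0
    simpa using this
  set g : ℝ → ℝ := (Ioi (0:ℝ)).indicator (fun u : ℝ => K * (u ^ p * Real.exp (-ρ.re * u))) with hg
  have hgi : Integrable g := by
    rw [hg, integrable_indicator_iff measurableSet_Ioi]
    exact h2.const_mul K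
  have hg0 : 0 ≤ ∫ v, g v := by
    refine integral_nonneg fun v => ?_
    rw [hg]
    refine indicator_nonneg (fun u hu => ?_) v
    have : (0:ℝ) < u := hu
    positivity
  refine ⟨1 + ∫ v, g v, by positivity, fun x hx => ?_⟩
  obtain ⟨hi, -⟩ := binom_mom h0 h1 hz p x
  have hi2 : Integrable (fun u : ℝ => ((xp p (x - u) : ℝ) : ℂ) * af ρ u) := by
    refine Integrable.mono' (g := fun u : ℝ => ‖((x - u : ℝ) : ℂ) ^ p * af ρ u‖) hi.norm ?_ ?_
    · refine Measurable.aestronglyMeasurable ?_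
      exact (Complex.measurable_ofReal.comp ((xp_meas p).comp (measurable_const.sub measurable_id))).mul (af_meas ρ)
    · refine Eventually.of_forall fun u => ?_
      rw [norm_mul, norm_mul]
      gcongr
      rw [Complex.norm_real, norm_pow, Complex.norm_real, Real.norm_of_nonneg (xp_nonneg _ _)]
      unfold xp
      split_ifs with h
      · rw [Real.norm_of_nonneg h]
      · positivity
  unfold RA
  rw [← integral_sub hi2 hi]
  calc ‖∫ u, (((xp p (x - u) : ℝ) : ℂ) * af ρ u - ((x - u : ℝ) : ℂ) ^ p * af ρ u)‖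
      ≤ ∫ u, Real.exp (-(ρ.re * x)) * g (u - x) := by
        refine norm_integral_le_of_norm_le ((hgi.comp_sub_right x).const_mul _) (Eventually.of_forall fun u => ?_)
        rcases lt_or_ge x u with hu | hu
        · rw [hg, indicator_of_mem (show u - x ∈ Ioi (0:ℝ) by simpa using hu)]
          rw [xp_neg (by linarith), Complex.ofReal_zero, zero_mul, zero_sub, norm_neg, norm_mul, norm_pow,
            Complex.norm_real, Real.norm_eq_abs, abs_of_neg (by linarith), neg_sub]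
          have h3 := hK.bound u
          calc (u - x) ^ p * ‖af ρ u‖ ≤ (u - x) ^ p * (K * Real.exp (-ρ.re * u)) := by
                have : 0 ≤ u - x := by linarith
                gcongr
            _ = K * (u - x) ^ p * (Real.exp (-(ρ.re * x)) * Real.exp (-ρ.re * (u - x))) := by
                rw [← Real.exp_add]; ring_nf
            _ = _ := by ring
        · have : xp p (x - u) = (x - u) ^ p := by unfold xp; rw [if_pos (by linarith)]
          rw [this]
          have h4 : 0 ≤ g (u - x) := by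
            rw [hg]
            refine indicator_nonneg (fun u hu => ?_) _
            have : (0:ℝ) < u := hu
            positivity
          push_cast
          rw [sub_self, norm_zero]
          positivity
    _ = Real.exp (-(ρ.re * x)) * ∫ v, g v := by
        rw [integral_const_mul, integral_sub_right_eq_self]
    _ ≤ _ := by
        have := Real.exp_pos (-(ρ.re * x))
        nlinarith

lemma mf_exp_L1 {ρ : ℂ} {L : ℝ} :
    ∫ s in Icc 0 L, ‖mf ρ s‖ * Real.exp (-(ρ.re * (L - s))) =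
      Real.exp (-(ρ.re * L)) * ∫ s in Ioc 0 L, |Mx (Real.exp s)| := by
  rw [integral_Icc_eq_integral_Ioc, ← integral_const_mul]
  refine integral_congr_ae (Eventually.of_forall fun s => ?_)
  simp only
  rw [norm_mf]
  have : Real.exp (-(ρ.re * s)) * Real.exp (-(ρ.re * (L - s))) = Real.exp (-(ρ.re * L)) := by
    rw [← Real.exp_add]; ring_nf
  rw [← this]; ring

lemma mf_exp_integrable {ρ : ℂ} (h0 : 0 ≤ ρ.re) {L : ℝ} :
    IntegrableOn (fun s => ‖mf ρ s‖ * Real.exp (-(ρ.re * (L - s)))) (Icc 0 L) := by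
  rw [integrableOn_Icc_iff_integrableOn_Ioc]
  refine integrableOn_of_le (B := Real.exp L) ?_ fun s hs => ?_
  · exact (mf_meas ρ).norm.mul (Continuous.measurable (by fun_prop))
  · rw [abs_of_nonneg (by positivity)]
    have h1 := norm_mf_le' h0 hs.2
    have h2 : Real.exp (-(ρ.re * (L - s))) ≤ 1 := by
      rw [Real.exp_le_one_iff]
      have := mul_nonneg h0 (by linarith [hs.2] : 0 ≤ L - s)
      linarith
    calc ‖mf ρ s‖ * Real.exp (-(ρ.re * (L - s))) ≤ Real.exp L * 1 := by gcongr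
      _ = _ := mul_one _

/-- the general bound for a kernel that decays like `e^{-βx}` -/
lemma decay_bound {ρ : ℂ} (h0 : 0 < ρ.re) {F : ℝ → ℂ} {K : ℝ} (hK : 0 < K)
    (hF : ∀ x, 0 ≤ x → ‖F x‖ ≤ K * Real.exp (-(ρ.re * x))) (hF0 : ∀ x < 0, F x = 0) (L : ℝ) :
    ‖∫ s, mf ρ s * F (L - s)‖ ≤ K * Real.exp (-(ρ.re * L)) * ∫ s in Ioc 0 L, |Mx (Real.exp s)| := by
  have h1 : ‖∫ s, mf ρ s * F (L - s)‖ ≤ ∫ s in Icc 0 L, K * (‖mf ρ s‖ * Real.exp (-(ρ.re * (L - s)))) := by
    rw [← integral_indicator measurableSet_Icc]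
    refine norm_integral_le_of_norm_le ?_ (Eventually.of_forall fun s => ?_)
    · rw [integrable_indicator_iff measurableSet_Icc]
      exact (mf_exp_integrable h0.le).const_mul K
    · by_cases hs : s ∈ Icc 0 L
      · rw [indicator_of_mem hs, norm_mul]
        have := hF (L - s) (by linarith [hs.2])
        calc ‖mf ρ s‖ * ‖F (L - s)‖ ≤ ‖mf ρ s‖ * (K * Real.exp (-(ρ.re * (L - s)))) := by gcongr
          _ = _ := by ring
      · rw [indicator_of_notMem hs]
        rw [mem_Icc, not_and_or, not_le, not_le] at hs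
        rcases hs with hs | hs
        · rw [mf_zero hs]; simp
        · rw [hF0 _ (by linarith)]; simp
  rw [integral_const_mul, mf_exp_L1] at h1
  linarith

/-- off-line (or on-line) zero of multiplicity `≥ p + 2` -/
theorem partA2 {ρ : ℂ} (h0 : 1 / 4 < ρ.re) (h1 : ρ.re < 1) (hz : riemannZeta ρ = 0) {p : ℕ}
    (hm : ∀ j < p + 1, mom ρ j = 0) :
    ∃ c : ℝ, 0 < c ∧ ∃ L₀ : ℝ, ∀ L ≥ L₀, c * (Real.exp ((2 * ρ.re - 1) * L) * L ^ (2 * (p + 1))) ≤ JJ L := by
  obtain ⟨K, hK, hRA⟩ := RA_sub' (by linarith) h1 hz p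
  obtain ⟨C, hC, hw⟩ := Cv_weighted h0 h1 hz p
  have hc := norm_pos_iff.2 (c0_ne (by linarith : 0 < ρ.re) h1)
  set a : ℝ := ‖c0 ρ‖ / (p + 1) with ha
  have hp1 : (0:ℝ) < p + 1 := by positivity
  have ha0 : 0 < a := by positivity
  refine ⟨(a / (2 * K)) ^ 2, by positivity, max 1 (2 * C / a), fun L hL => ?_⟩
  have hL1 : 1 ≤ L := (le_max_left _ _).trans hL
  have hL2 : 2 * C / a ≤ L := (le_max_right _ _).trans hL
  have hL0 : 0 < L := by linarith
  obtain ⟨-, hf⟩ := fub (by linarith : 0 < ρ.re) h1 hz p hL0.le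
  have h2 := hw L hL0.le
  have hf' : ∫ t, ((xp p (L - t) : ℝ) : ℂ) * Cv ρ t = ∫ s, mf ρ s * RA p ρ (L - s) := hf
  rw [hf'] at h2
  have h3 : ‖∫ s, mf ρ s * RA p ρ (L - s)‖ ≤ K * Real.exp (-(ρ.re * L)) * ∫ s in Ioc 0 L, |Mx (Real.exp s)| := by
    refine decay_bound (by linarith) hK (fun x hx => ?_) (fun x hx => RA_neg hx) L
    have h4 := hRA x hx
    obtain ⟨-, h5⟩ := binom_mom (by linarith : 0 < ρ.re) h1 hz p x
    have h6 : ∫ u : ℝ, ((x - u : ℝ) : ℂ) ^ p * af ρ u = 0 := by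
      rw [h5]
      refine Finset.sum_eq_zero fun j hj => ?_
      rw [hm j (Finset.mem_range.1 hj), mul_zero]
    rwa [h6, sub_zero] at h4
  have h4 : ‖c0 ρ * ((L ^ (p + 1) / (p + 1) : ℝ) : ℂ)‖ = a * L ^ (p + 1) := by
    rw [norm_mul, Complex.norm_real, Real.norm_of_nonneg (by positivity), ha]
    ring
  set A : ℝ := ∫ s in Ioc 0 L, |Mx (Real.exp s)| with hA
  have h5 : a * L ^ (p + 1) ≤ C * L ^ p + K * Real.exp (-(ρ.re * L)) * A := by
    rw [← h4]
    have := norm_sub_norm_le (c0 ρ * ((L ^ (p + 1) / (p + 1) : ℝ) : ℂ)) (∫ s, mf ρ s * RA p ρ (L - s))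
    rw [norm_sub_rev] at this
    linarith
  have h6 : C * L ^ p ≤ a / 2 * L ^ (p + 1) := by
    rw [div_le_iff₀ ha0] at hL2
    have : 0 < L ^ p := by positivity
    rw [pow_succ]
    nlinarith
  have h7 : a / (2 * K) * L ^ (p + 1) ≤ Real.exp (-(ρ.re * L)) * A := by
    rw [div_mul_eq_mul_div, div_le_iff₀ (by positivity)]
    nlinarith
  have h8 := Mx_exp_L1 L
  have h9 : (a / (2 * K) * L ^ (p + 1)) ^ 2 ≤ Real.exp (-(ρ.re * L)) ^ 2 * (JJ L * Real.exp L) := by
    calc (a / (2 * K) * L ^ (p + 1)) ^ 2 ≤ (Real.exp (-(ρ.re * L)) * A) ^ 2 := by gcongr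
      _ = Real.exp (-(ρ.re * L)) ^ 2 * A ^ 2 := by ring
      _ ≤ _ := by gcongr
  have e1 : Real.exp (-(ρ.re * L)) ^ 2 * (JJ L * Real.exp L) = JJ L * Real.exp (-((2 * ρ.re - 1) * L)) := by
    have : Real.exp (-((2 * ρ.re - 1) * L)) = Real.exp (-(ρ.re * L)) * Real.exp (-(ρ.re * L)) * Real.exp L := by
      rw [← Real.exp_add, ← Real.exp_add]; ring_nf
    rw [this]; ring
  rw [e1] at h9
  have e2 : Real.exp (-((2 * ρ.re - 1) * L)) * Real.exp ((2 * ρ.re - 1) * L) = 1 := by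
    rw [← Real.exp_add]; simp
  calc (a / (2 * K)) ^ 2 * (Real.exp ((2 * ρ.re - 1) * L) * L ^ (2 * (p + 1)))
      = (a / (2 * K) * L ^ (p + 1)) ^ 2 * Real.exp ((2 * ρ.re - 1) * L) := by ring
    _ ≤ JJ L * Real.exp (-((2 * ρ.re - 1) * L)) * Real.exp ((2 * ρ.re - 1) * L) := by gcongr
    _ = JJ L * (Real.exp (-((2 * ρ.re - 1) * L)) * Real.exp ((2 * ρ.re - 1) * L)) := by ring
    _ = JJ L := by rw [e2, mul_one]

/-- **Part (a)**, with multiplicities. -/
theorem partA' {ρ : ℂ} (h0 : 1 / 4 < ρ.re) (h1 : ρ.re < 1) {m : ℕ} (hm : 1 ≤ m)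
    (hz : ∀ j < m, iteratedDeriv j riemannZeta ρ = 0) :
    ∃ c : ℝ, 0 < c ∧ ∃ L₀ : ℝ, ∀ L ≥ L₀, c * (Real.exp ((2 * ρ.re - 1) * L) * L ^ (2 * m - 2)) ≤ JJ L := by
  have hz0 : riemannZeta ρ = 0 := by simpa using hz 0 (by omega)
  obtain rfl | ⟨p, rfl⟩ : m = 1 ∨ ∃ p, m = p + 2 := by
    rcases Nat.lt_or_ge 1 m with h | h
    · exact Or.inr ⟨m - 2, by omega⟩
    · exact Or.inl (by omega)
  · obtain ⟨c, hc, t₀, h2⟩ := partA h0 h1 hz0
    refine ⟨c, hc, t₀, fun L hL => ?_⟩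
    simpa using h2 L hL
  · have h2 := partA2 h0 h1 hz0 (mom_zero (by linarith) h1 (p := p + 1) hz)
    have h3 : 2 * (p + 2) - 2 = 2 * (p + 1) := by omega
    rw [h3]
    exact h2

/-- `P_ρ(L) = ∫_0^L M(e^s)e^{-ρs} ds` -/
def PP (ρ : ℂ) (L : ℝ) : ℂ := ∫ s in Ioc 0 L, mf ρ s

lemma PP_bound {ρ : ℂ} (h : ρ.re = 1 / 2) (hz : riemannZeta ρ = 0) :
    ∃ C : ℝ, 0 < C ∧ ∀ L : ℝ, 0 ≤ L →
      ‖deriv riemannZeta ρ * PP ρ L - (L : ℂ) / ρ‖ ≤ C * (1 + Real.sqrt (JJ L)) := by
  have h0 : 0 < ρ.re := by linarith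
  have h14 : 1 / 4 < ρ.re := by linarith
  have h1 : ρ.re < 1 := by linarith
  obtain ⟨K, hK, hRA⟩ := RA_sub' h0 h1 hz 0
  obtain ⟨C, hC, hw⟩ := Cv_weighted h14 h1 hz 0
  have hq := two_pow_ne h1
  have hq0 : 0 < ‖(1:ℂ) - (2:ℂ) ^ (1 - ρ)‖ := norm_pos_iff.2 hq
  refine ⟨(C + K) / ‖(1:ℂ) - (2:ℂ) ^ (1 - ρ)‖, by positivity, fun L hL => ?_⟩
  obtain ⟨-, hf⟩ := fub h0 h1 hz 0 hL
  have h2 := hw L hL
  have hf' : ∫ t, ((xp 0 (L - t) : ℝ) : ℂ) * Cv ρ t = ∫ s, mf ρ s * RA 0 ρ (L - s) := hf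
  rw [hf'] at h2
  simp only [pow_zero, mul_one, zero_add, pow_one, Nat.cast_zero, div_one] at h2
  -- the main term
  set F : ℝ → ℂ := fun x => RA 0 ρ x - (Ici (0:ℝ)).indicator (fun _ => mom ρ 0) x with hF
  have hFb : ∀ x, 0 ≤ x → ‖F x‖ ≤ K * Real.exp (-(ρ.re * x)) := by
    intro x hx
    have h4 := hRA x hx
    simp only [pow_zero, one_mul] at h4
    rw [hF]
    simp only
    rw [indicator_of_mem (show x ∈ Ici (0:ℝ) from hx)]
    have h5 : mom ρ 0 = ∫ u : ℝ, af ρ u := by unfold mom; simp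
    rw [h5]
    exact h4
  have hF0 : ∀ x < 0, F x = 0 := by
    intro x hx
    rw [hF]
    simp only
    rw [RA_neg hx, indicator_of_notMem (by simpa using hx), sub_zero]
  have hmi : Integrable ((Icc 0 L).indicator (mf ρ)) := by
    rw [integrable_indicator_iff measurableSet_Icc, integrableOn_Icc_iff_integrableOn_Ioc]
    refine Integrable.mono' (g := fun _ => Real.exp L) (integrableOn_const (by simp)) (mf_meas ρ).aestronglyMeasurable ?_
    exact (ae_restrict_mem measurableSet_Ioc).mono fun s hs => norm_mf_le' h0.le hs.2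
  have h3 : ∀ s, mf ρ s * RA 0 ρ (L - s) = mf ρ s * F (L - s) + mom ρ 0 * (Icc 0 L).indicator (mf ρ) s := by
    intro s
    rw [hF]
    simp only
    by_cases hs : s ∈ Icc 0 L
    · rw [indicator_of_mem hs, indicator_of_mem (show L - s ∈ Ici (0:ℝ) by simpa using hs.2)]
      ring
    · rw [indicator_of_notMem hs]
      rw [mem_Icc, not_and_or, not_le, not_le] at hs
      rcases hs with hs | hs
      · rw [mf_zero hs]; simp
      · rw [indicator_of_notMem (show L - s ∉ Ici (0:ℝ) by simpa using hs)]; ring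
  have hFi : Integrable (fun s => mf ρ s * F (L - s)) := by
    have hmeasF : Measurable F := by
      rw [hF]
      refine Measurable.sub ?_ (measurable_const.indicator measurableSet_Ici)
      unfold RA
      have hm2 : StronglyMeasurable (fun z : ℝ × ℝ => ((xp 0 (z.1 - z.2) : ℝ) : ℂ) * af ρ z.2) := by
        refine Measurable.stronglyMeasurable ?_
        refine (Complex.measurable_ofReal.comp ((xp_meas 0).comp (measurable_fst.sub measurable_snd))).mul ?_
        exact (af_meas ρ).comp measurable_snd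
      exact hm2.integral_prod_right.measurable
    have hdom : Integrable ((Icc 0 L).indicator fun s => K * (‖mf ρ s‖ * Real.exp (-(ρ.re * (L - s))))) := by
      rw [integrable_indicator_iff measurableSet_Icc]
      exact (mf_exp_integrable h0.le).const_mul K
    refine hdom.mono' ?_ (Eventually.of_forall fun s => ?_)
    · exact ((mf_meas ρ).mul (hmeasF.comp (measurable_const.sub measurable_id))).aestronglyMeasurable
    · by_cases hs : s ∈ Icc 0 L
      · rw [indicator_of_mem hs, norm_mul]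
        have := hFb (L - s) (by linarith [hs.2])
        calc ‖mf ρ s‖ * ‖F (L - s)‖ ≤ ‖mf ρ s‖ * (K * Real.exp (-(ρ.re * (L - s)))) := by gcongr
          _ = _ := by ring
      · rw [indicator_of_notMem hs]
        rw [mem_Icc, not_and_or, not_le, not_le] at hs
        rcases hs with hs | hs
        · rw [mf_zero hs]; simp
        · rw [hF0 _ (by linarith)]; simp
  have h4 : ∫ s, mf ρ s * RA 0 ρ (L - s) = (∫ s, mf ρ s * F (L - s)) + mom ρ 0 * PP ρ L := by
    rw [integral_congr_ae (Eventually.of_forall h3), integral_add hFi (hmi.const_mul _), integral_const_mul,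
      integral_indicator measurableSet_Icc, integral_Icc_eq_integral_Ioc]
    rfl
  have h5 := decay_bound h0 hK hFb hF0 L
  have h6 := Mx_exp_L1 L
  set A : ℝ := ∫ s in Ioc 0 L, |Mx (Real.exp s)| with hA
  have hA0 : 0 ≤ A := integral_nonneg fun s => abs_nonneg _
  have h7 : Real.exp (-(ρ.re * L)) * A ≤ Real.sqrt (JJ L) := by
    apply Real.le_sqrt_of_sq_le
    rw [mul_pow]
    calc Real.exp (-(ρ.re * L)) ^ 2 * A ^ 2 ≤ Real.exp (-(ρ.re * L)) ^ 2 * (JJ L * Real.exp L) := by gcongr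
      _ = JJ L * (Real.exp (-(ρ.re * L)) * Real.exp (-(ρ.re * L)) * Real.exp L) := by ring
      _ = JJ L := by
        rw [← Real.exp_add, ← Real.exp_add, h]
        have : -(1 / 2 * L) + -(1 / 2 * L) + L = 0 := by ring
        rw [this, Real.exp_zero, mul_one]
  have h8 : ‖mom ρ 0 * PP ρ L - c0 ρ * L‖ ≤ (C + K) * (1 + Real.sqrt (JJ L)) := by
    have e : mom ρ 0 * PP ρ L - c0 ρ * L = ((∫ s, mf ρ s * RA 0 ρ (L - s)) - c0 ρ * L) - ∫ s, mf ρ s * F (L - s) := by
      rw [h4]; ring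
    rw [e]
    refine (norm_sub_le _ _).trans ?_
    have h9 : K * Real.exp (-(ρ.re * L)) * A ≤ K * Real.sqrt (JJ L) := by
      rw [mul_assoc]; gcongr
    have h10 := Real.sqrt_nonneg (JJ L)
    nlinarith
  have h9 : mom ρ 0 * PP ρ L - c0 ρ * L = (1 - (2:ℂ) ^ (1 - ρ)) * (deriv riemannZeta ρ * PP ρ L - (L : ℂ) / ρ) := by
    rw [mom_zeroth h0 h1 hz]; unfold c0; ring
  rw [h9, norm_mul] at h8
  rw [div_mul_eq_mul_div, le_div_iff₀ hq0]
  linarith

end

end Pool.Agent.H295R2
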