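import Pool.Agent.H295R2.WM5

set_option autoImplicit false

open MeasureTheory Filter Topology Set

namespace Pool.Agent.H295R2

noncomputable section

/-- normalised coefficient `1/(ρ ζ'(ρ))` -/
def ww (ρ : ℂ) : ℂ := 1 / (ρ * deriv riemannZeta ρ)

lemma PP_bound' {ρ : ℂ} (h : ρ.re = 1 / 2) (hz : riemannZeta ρ = 0) (hd : deriv riemannZeta ρ ≠ 0) :
    ∃ C : ℝ, 0 < C ∧ ∀ L : ℝ, 0 ≤ L → ‖PP ρ L - ww ρ * L‖ ≤ C * (1 + Real.sqrt (JJ L)) := by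
  obtain ⟨C, hC, hb⟩ := PP_bound h hz
  have hd0 := norm_pos_iff.2 hd
  refine ⟨C / ‖deriv riemannZeta ρ‖, by positivity, fun L hL => ?_⟩
  have h2 := hb L hL
  have hρ0 : ρ ≠ 0 := by rintro rfl; norm_num at h
  have h3 : deriv riemannZeta ρ * PP ρ L - (L : ℂ) / ρ = deriv riemannZeta ρ * (PP ρ L - ww ρ * L) := by
    unfold ww; field_simp
  rw [h3, norm_mul] at h2
  rw [div_mul_eq_mul_div, le_div_iff₀ hd0]
  linarith

/-- `m₀(s) = M(e^s)e^{-s/2}` -/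
def m0 (s : ℝ) : ℂ := ((Mx (Real.exp s) * Real.exp (-(s / 2)) : ℝ) : ℂ)

/-- the exponential `e^{iγ s}` for `ρ = 1/2 + iγ` -/
def ee (ρ : ℂ) (s : ℝ) : ℂ := Complex.exp ((ρ - 1 / 2) * s)

lemma m0_mul {ρ : ℂ} (h : ρ.re = 1 / 2) (s : ℝ) : m0 s * (starRingEnd ℂ) (ee ρ s) = mf ρ s := by
  unfold m0 ee mf
  rw [← Complex.exp_conj]
  have h1 : (starRingEnd ℂ) ((ρ - 1 / 2) * s) = -((ρ - 1 / 2) * s) := by
    rw [map_mul, Complex.conj_ofReal, ← neg_mul]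
    congr 1
    apply Complex.ext
    · simp [h]
    · simp
  rw [h1]
  push_cast
  rw [mul_assoc, ← Complex.exp_add]
  congr 2; ring

lemma ee_mul {ρ ρ' : ℂ} (h : ρ'.re = 1 / 2) (s : ℝ) :
    ee ρ s * (starRingEnd ℂ) (ee ρ' s) = Complex.exp ((ρ - ρ') * s) := by
  unfold ee
  rw [← Complex.exp_conj]
  have h1 : (starRingEnd ℂ) ((ρ' - 1 / 2) * s) = -((ρ' - 1 / 2) * s) := by
    rw [map_mul, Complex.conj_ofReal, ← neg_mul]
    congr 1
    apply Complex.ext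
    · simp [h]
    · simp
  rw [h1, ← Complex.exp_add]
  congr 1; ring

/-- the Gram integrals -/
def GR (δ : ℂ) (L : ℝ) : ℂ := ∫ s in Ioc 0 L, Complex.exp (δ * s)

lemma GR_zero {L : ℝ} (hL : 0 ≤ L) : GR 0 L = L := by
  unfold GR
  simp [hL]

lemma GR_bound {δ : ℂ} (hδ : δ ≠ 0) (hre : δ.re = 0) {L : ℝ} (hL : 0 ≤ L) : ‖GR δ L‖ ≤ 2 / ‖δ‖ := by
  unfold GR
  rw [← intervalIntegral.integral_of_le hL, integral_exp_mul_complex hδ, norm_div]
  gcongr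
  refine (norm_sub_le _ _).trans ?_
  rw [Complex.norm_exp, Complex.norm_exp]
  simp [hre]
  norm_num

lemma cont_iOn {f : ℝ → ℂ} (hf : Continuous f) (L : ℝ) : IntegrableOn f (Ioc 0 L) :=
  hf.integrableOn_Icc.mono_set Ioc_subset_Icc_self

lemma mf_iOn {ρ : ℂ} (h0 : 0 ≤ ρ.re) (L : ℝ) : IntegrableOn (mf ρ) (Ioc 0 L) := by
  refine Integrable.mono' (g := fun _ => Real.exp L) (integrableOn_const (by simp)) (mf_meas ρ).aestronglyMeasurable ?_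
  exact (ae_restrict_mem measurableSet_Ioc).mono fun s hs => norm_mf_le' h0 hs.2

/-- the finite Bessel identity/inequality -/
lemma bessel_raw (Z : Finset ℂ) (hZ : ∀ ρ ∈ Z, ρ.re = 1 / 2) (w : ℂ → ℂ) (L : ℝ) :
    0 ≤ JJ L - 2 * (∑ ρ ∈ Z, (starRingEnd ℂ) (w ρ) * PP ρ L).re +
      (∑ ρ ∈ Z, ∑ ρ' ∈ Z, w ρ * (starRingEnd ℂ) (w ρ') * GR (ρ - ρ') L).re := by
  set S : ℝ → ℂ := fun s => ∑ ρ ∈ Z, w ρ * ee ρ s with hS
  have hpt : ∀ s, Complex.normSq (m0 s - S s) = Mx (Real.exp s) ^ 2 * Real.exp (-s) -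
      2 * (∑ ρ ∈ Z, (starRingEnd ℂ) (w ρ) * mf ρ s).re +
      (∑ ρ ∈ Z, ∑ ρ' ∈ Z, w ρ * (starRingEnd ℂ) (w ρ') * Complex.exp ((ρ - ρ') * s)).re := by
    intro s
    rw [Complex.normSq_sub]
    have e1 : Complex.normSq (m0 s) = Mx (Real.exp s) ^ 2 * Real.exp (-s) := by
      unfold m0
      rw [Complex.normSq_ofReal]
      have : Real.exp (-s) = Real.exp (-(s / 2)) * Real.exp (-(s / 2)) := by
        rw [← Real.exp_add]; ring_nf
      rw [this]; ring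
    have e2 : (m0 s * (starRingEnd ℂ) (S s)) = ∑ ρ ∈ Z, (starRingEnd ℂ) (w ρ) * mf ρ s := by
      rw [hS]
      simp only
      rw [map_sum, Finset.mul_sum]
      refine Finset.sum_congr rfl fun ρ hρ => ?_
      rw [map_mul, ← m0_mul (hZ ρ hρ) s]; ring
    have e3 : Complex.normSq (S s) =
        (∑ ρ ∈ Z, ∑ ρ' ∈ Z, w ρ * (starRingEnd ℂ) (w ρ') * Complex.exp ((ρ - ρ') * s)).re := by
      have h1 : ((Complex.normSq (S s) : ℝ) : ℂ) = ∑ ρ ∈ Z, ∑ ρ' ∈ Z, w ρ * (starRingEnd ℂ) (w ρ') * Complex.exp ((ρ - ρ') * s) := by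
        rw [Complex.normSq_eq_conj_mul_self, mul_comm, hS]
        simp only
        rw [map_sum, Finset.sum_mul_sum]
        refine Finset.sum_congr rfl fun ρ _ => Finset.sum_congr rfl fun ρ' hρ' => ?_
        rw [map_mul, ← ee_mul (ρ := ρ) (hZ ρ' hρ') s]; ring
      rw [← h1, Complex.ofReal_re]
    rw [e1, e2, e3]; ring
  have h0 : 0 ≤ ∫ s in Ioc 0 L, Complex.normSq (m0 s - S s) := integral_nonneg fun s => Complex.normSq_nonneg _
  have i1 : IntegrableOn (fun s => ∑ ρ ∈ Z, (starRingEnd ℂ) (w ρ) * mf ρ s) (Ioc 0 L) :=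
    integrable_finsetSum _ fun ρ hρ => (mf_iOn (by rw [hZ ρ hρ]; norm_num) L).const_mul _
  have i2 : IntegrableOn (fun s : ℝ => ∑ ρ ∈ Z, ∑ ρ' ∈ Z, w ρ * (starRingEnd ℂ) (w ρ') * Complex.exp ((ρ - ρ') * s)) (Ioc 0 L) :=
    cont_iOn (by fun_prop) L
  have i3 := i1.re
  have i4 := i2.re
  simp only [hpt] at h0
  have i5 : IntegrableOn (fun s => 2 * (∑ ρ ∈ Z, (starRingEnd ℂ) (w ρ) * mf ρ s).re) (Ioc 0 L) := i3.const_mul 2
  have i6 : IntegrableOn (fun s => Mx (Real.exp s) ^ 2 * Real.exp (-s) - 2 * (∑ ρ ∈ Z, (starRingEnd ℂ) (w ρ) * mf ρ s).re) (Ioc 0 L) :=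
    (JJ_integrable L).sub i5
  have i7 : IntegrableOn (fun s : ℝ => (∑ ρ ∈ Z, ∑ ρ' ∈ Z, w ρ * (starRingEnd ℂ) (w ρ') * Complex.exp ((ρ - ρ') * s)).re) (Ioc 0 L) := i4
  have e4 := integral_add i6 i7
  have e5 := integral_sub (JJ_integrable L) i5
  rw [e4, e5, integral_const_mul] at h0
  have e6 : ∫ s in Ioc 0 L, (∑ ρ ∈ Z, (starRingEnd ℂ) (w ρ) * mf ρ s).re = (∑ ρ ∈ Z, (starRingEnd ℂ) (w ρ) * PP ρ L).re := by
    have := integral_re i1
    simp only [RCLike.re_eq_complex_re] at this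
    rw [this, integral_finsetSum]
    · congr 1
      refine Finset.sum_congr rfl fun ρ _ => ?_
      rw [integral_const_mul]; rfl
    · exact fun ρ hρ => (mf_iOn (by rw [hZ ρ hρ]; norm_num) L).const_mul _
  have e7 : ∫ s in Ioc 0 L, (∑ ρ ∈ Z, ∑ ρ' ∈ Z, w ρ * (starRingEnd ℂ) (w ρ') * Complex.exp ((ρ - ρ') * s)).re =
      (∑ ρ ∈ Z, ∑ ρ' ∈ Z, w ρ * (starRingEnd ℂ) (w ρ') * GR (ρ - ρ') L).re := by
    have := integral_re i2
    simp only [RCLike.re_eq_complex_re] at this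
    rw [this, integral_finsetSum]
    · congr 1
      refine Finset.sum_congr rfl fun ρ _ => ?_
      rw [integral_finsetSum]
      · refine Finset.sum_congr rfl fun ρ' _ => ?_
        rw [integral_const_mul]; rfl
      · exact fun ρ' _ => cont_iOn (by fun_prop) L
    · exact fun ρ _ => cont_iOn (by fun_prop) L
  rw [e6, e7] at h0
  exact h0

/-- finite Bessel inequality with error terms -/
theorem bessel_fin (Z : Finset ℂ) (hZ : ∀ ρ ∈ Z, ρ.re = 1 / 2 ∧ riemannZeta ρ = 0 ∧ deriv riemannZeta ρ ≠ 0) :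
    ∃ C : ℝ, 0 < C ∧ ∀ L : ℝ, 0 ≤ L → (∑ ρ ∈ Z, ‖ww ρ‖ ^ 2) * L ≤ JJ L + C * (1 + Real.sqrt (JJ L)) := by
  classical
  choose! Cf hCf hCb using fun ρ (h : ρ.re = 1 / 2 ∧ riemannZeta ρ = 0 ∧ deriv riemannZeta ρ ≠ 0) =>
    PP_bound' h.1 h.2.1 h.2.2
  set C1 : ℝ := ∑ ρ ∈ Z, ‖ww ρ‖ * |Cf ρ| with hC1
  set C2 : ℝ := ∑ ρ ∈ Z, ∑ ρ' ∈ Z, ‖ww ρ‖ * ‖ww ρ'‖ * (2 / ‖ρ - ρ'‖) with hC2
  have hC1' : 0 ≤ C1 := Finset.sum_nonneg fun _ _ => by positivity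
  have hC2' : 0 ≤ C2 := Finset.sum_nonneg fun _ _ => Finset.sum_nonneg fun _ _ => by positivity
  refine ⟨2 * C1 + C2 + 1, by positivity, fun L hL => ?_⟩
  have h0 := bessel_raw Z (fun ρ hρ => (hZ ρ hρ).1) ww L
  have hsq : ∀ ρ : ℂ, (starRingEnd ℂ) (ww ρ) * (ww ρ * L) = ((‖ww ρ‖ ^ 2 * L : ℝ) : ℂ) := by
    intro ρ
    rw [← mul_assoc, ← Complex.normSq_eq_conj_mul_self, Complex.normSq_eq_norm_sq]
    push_cast; ring
  have h1 : (∑ ρ ∈ Z, ‖ww ρ‖ ^ 2) * L - C1 * (1 + Real.sqrt (JJ L)) ≤ (∑ ρ ∈ Z, (starRingEnd ℂ) (ww ρ) * PP ρ L).re := by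
    have e1 : ∑ ρ ∈ Z, (starRingEnd ℂ) (ww ρ) * PP ρ L =
        (((∑ ρ ∈ Z, ‖ww ρ‖ ^ 2) * L : ℝ) : ℂ) + ∑ ρ ∈ Z, (starRingEnd ℂ) (ww ρ) * (PP ρ L - ww ρ * L) := by
      rw [Finset.sum_mul]
      push_cast
      rw [← Finset.sum_add_distrib]
      refine Finset.sum_congr rfl fun ρ _ => ?_
      have := hsq ρ
      push_cast at this
      rw [← this]; ring
    rw [e1, Complex.add_re, Complex.ofReal_re]
    have h2 : ‖∑ ρ ∈ Z, (starRingEnd ℂ) (ww ρ) * (PP ρ L - ww ρ * L)‖ ≤ C1 * (1 + Real.sqrt (JJ L)) := by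
      rw [hC1, Finset.sum_mul]
      refine norm_sum_le_of_le _ fun ρ hρ => ?_
      rw [norm_mul, RCLike.norm_conj, mul_assoc]
      refine mul_le_mul_of_nonneg_left ?_ (norm_nonneg _)
      refine (hCb ρ (hZ ρ hρ) L hL).trans ?_
      gcongr
      exact le_abs_self _
    have h3 := (abs_le.1 ((Complex.abs_re_le_norm _).trans h2)).1
    linarith
  have h2 : (∑ ρ ∈ Z, ∑ ρ' ∈ Z, ww ρ * (starRingEnd ℂ) (ww ρ') * GR (ρ - ρ') L).re ≤
      (∑ ρ ∈ Z, ‖ww ρ‖ ^ 2) * L + C2 := by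
    rw [Complex.re_sum, Finset.sum_mul, hC2, ← Finset.sum_add_distrib]
    refine Finset.sum_le_sum fun ρ hρ => ?_
    rw [Complex.re_sum]
    have h3 : ∀ ρ' ∈ Z, (ww ρ * (starRingEnd ℂ) (ww ρ') * GR (ρ - ρ') L).re ≤
        (if ρ' = ρ then ‖ww ρ‖ ^ 2 * L else 0) + ‖ww ρ‖ * ‖ww ρ'‖ * (2 / ‖ρ - ρ'‖) := by
      intro ρ' hρ'
      by_cases he : ρ' = ρ
      · subst he
        rw [if_pos rfl, sub_self, GR_zero hL]
        have e2 : ww ρ' * (starRingEnd ℂ) (ww ρ') * (L : ℂ) = ((‖ww ρ'‖ ^ 2 * L : ℝ) : ℂ) := by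
          rw [← hsq ρ']; ring
        rw [e2, Complex.ofReal_re]
        have : 0 ≤ ‖ww ρ'‖ * ‖ww ρ'‖ * (2 / ‖(0:ℂ)‖) := by positivity
        linarith
      · rw [if_neg he, zero_add]
        refine (Complex.re_le_norm _).trans ?_
        rw [norm_mul, norm_mul, RCLike.norm_conj]
        gcongr
        apply GR_bound (sub_ne_zero.2 (Ne.symm he)) _ hL
        rw [Complex.sub_re, (hZ ρ hρ).1, (hZ ρ' hρ').1, sub_self]
    refine (Finset.sum_le_sum h3).trans ?_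
    rw [Finset.sum_add_distrib, Finset.sum_ite_eq' Z ρ, if_pos hρ]
  have h3 := Real.sqrt_nonneg (JJ L)
  nlinarith

/-- **Part (c), the Bessel bound at infinitely many scales.** -/
theorem bessel_freq (Z : Finset ℂ) (hZ : ∀ ρ ∈ Z, ρ.re = 1 / 2 ∧ riemannZeta ρ = 0 ∧ deriv riemannZeta ρ ≠ 0)
    {C : ℝ} (hf : ∃ᶠ L in atTop, JJ L ≤ C * L) : ∑ ρ ∈ Z, ‖ww ρ‖ ^ 2 ≤ C := by
  obtain ⟨K, hK, hb⟩ := bessel_fin Z hZ
  by_contra hcon
  push Not at hcon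
  set S : ℝ := ∑ ρ ∈ Z, ‖ww ρ‖ ^ 2
  have hε : 0 < S - C := by linarith
  -- for large L : (S - C) L > K (1 + sqrt (C L))
  have hlim : Tendsto (fun L : ℝ => K * (1 + Real.sqrt (|C| * L)) / L) atTop (𝓝 0) := by
    have h1 : Tendsto (fun L : ℝ => K * (L⁻¹ + Real.sqrt |C| * (Real.sqrt L)⁻¹)) atTop (𝓝 (K * (0 + Real.sqrt |C| * 0))) := by
      refine Tendsto.const_mul _ (Tendsto.add tendsto_inv_atTop_zero (Tendsto.const_mul _ ?_))
      exact tendsto_inv_atTop_zero.comp Real.tendsto_sqrt_atTop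
    have h2 : K * (0 + Real.sqrt |C| * 0) = 0 := by ring
    rw [h2] at h1
    refine h1.congr' ?_
    filter_upwards [eventually_gt_atTop 0] with L hL
    rw [Real.sqrt_mul (abs_nonneg C)]
    have h3 : Real.sqrt L * Real.sqrt L = L := Real.mul_self_sqrt hL.le
    have h4 : 0 < Real.sqrt L := Real.sqrt_pos.2 hL
    have h5 : (Real.sqrt L)⁻¹ = Real.sqrt L / L := by
      rw [eq_div_iff hL.ne', inv_mul_eq_div, div_eq_iff h4.ne']; exact h3.symm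
    rw [h5]; field_simp
  have hev := hlim.eventually (gt_mem_nhds hε)
  have hev2 := hev.and (eventually_gt_atTop 0)
  obtain ⟨L, h1, h2, h3⟩ := (hf.and_eventually hev2).exists
  have h4 := hb L h3.le
  have h5 : Real.sqrt (JJ L) ≤ Real.sqrt (|C| * L) := by
    apply Real.sqrt_le_sqrt
    exact h1.trans (by have := le_abs_self C; nlinarith)
  rw [div_lt_iff₀ h3] at h2
  nlinarith

/-- the integral in the problem -/
def II (x : ℝ) : ℝ :=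
  ∫ u in (1:ℝ)..x, ((∑ n ∈ Finset.Icc 1 ⌊u⌋₊, ((ArithmeticFunction.moebius n : ℤ) : ℝ)) / u) ^ 2

lemma II_exp {L : ℝ} (hL : 0 ≤ L) : II (Real.exp L) = JJ L := by
  unfold II
  rw [intervalIntegral.integral_of_le (Real.one_le_exp hL)]
  have h := integral_image_eq_integral_abs_deriv_smul (s := Ioc 0 L) (f := Real.exp) (f' := Real.exp)
    measurableSet_Ioc (fun x _ => (Real.hasDerivAt_exp x).hasDerivWithinAt) (Real.exp_injective.injOn)
    (fun u => ((∑ n ∈ Finset.Icc 1 ⌊u⌋₊, ((ArithmeticFunction.moebius n : ℤ) : ℝ)) / u) ^ 2)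
  have himg : Real.exp '' Ioc 0 L = Ioc 1 (Real.exp L) := by
    ext y
    simp only [mem_image, mem_Ioc]
    constructor
    · rintro ⟨x, hx, rfl⟩
      exact ⟨Real.one_lt_exp_iff.2 hx.1, Real.exp_le_exp.2 hx.2⟩
    · intro hy
      have hy0 : 0 < y := by linarith [hy.1]
      exact ⟨Real.log y, ⟨Real.log_pos hy.1, (Real.log_le_iff_le_exp hy0).2 hy.2⟩, Real.exp_log hy0⟩
  rw [himg] at h
  rw [h]
  unfold JJ
  refine integral_congr_ae (Eventually.of_forall fun s => ?_)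
  simp only
  have e1 : (∑ n ∈ Finset.Icc 1 ⌊Real.exp s⌋₊, ((ArithmeticFunction.moebius n : ℤ) : ℝ)) = Mx (Real.exp s) := rfl
  rw [e1, abs_of_pos (Real.exp_pos s), smul_eq_mul, Real.exp_neg]
  have := (Real.exp_pos s).ne'
  field_simp

lemma II_eq {x : ℝ} (hx : 1 ≤ x) : II x = JJ (Real.log x) := by
  rw [← II_exp (Real.log_nonneg hx), Real.exp_log (by linarith)]

/-- eventual statements transfer -/
lemma ev_log {P : ℝ → ℝ → Prop} {L₀ : ℝ} (h : ∀ L ≥ L₀, P (Real.exp L) (JJ L)) : ∀ᶠ x in atTop, P x (II x) := by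
  filter_upwards [eventually_ge_atTop 1, eventually_ge_atTop (Real.exp L₀)] with x h1 h2
  have h3 : L₀ ≤ Real.log x := (Real.le_log_iff_exp_le (by linarith)).2 h2
  have := h _ h3
  rwa [Real.exp_log (by linarith), ← II_eq h1] at this

lemma freq_log {C : ℝ} (h : ∃ᶠ x in atTop, II x ≤ C * Real.log x) : ∃ᶠ L in atTop, JJ L ≤ C * L := by
  have h2 := (h.and_eventually (eventually_ge_atTop 1)).mono (fun x hx => by
    rw [II_eq hx.2] at hx; exact hx.1 : ∀ x : ℝ, (II x ≤ C * Real.log x ∧ 1 ≤ x) → JJ (Real.log x) ≤ C * Real.log x)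
  exact Real.tendsto_log_atTop.frequently h2

end

end Pool.Agent.H295R2
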