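import Pool.Agent.H295R2.WM6

set_option autoImplicit false

open MeasureTheory Filter Topology Set

namespace Pool.Agent.H295R2

noncomputable section

/-- `∫_0^L |M(e^s)| ds` -/
def AL (L : ℝ) : ℝ := ∫ s in Ioc 0 L, |Mx (Real.exp s)|

/-- `∫_A^L M(e^s)² e^{-s} ds` -/
def JW (A L : ℝ) : ℝ := ∫ s in Ioc A L, Mx (Real.exp s) ^ 2 * Real.exp (-s)

lemma JW_nonneg (A L : ℝ) : 0 ≤ JW A L := integral_nonneg fun s => by positivity

lemma JW_integrable {A L : ℝ} (hA : 0 ≤ A) :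
    IntegrableOn (fun s : ℝ => Mx (Real.exp s) ^ 2 * Real.exp (-s)) (Ioc A L) :=
  (JJ_integrable L).mono_set (Ioc_subset_Ioc_left hA)

lemma JW_mono {A A' L L' : ℝ} (hA : 0 ≤ A) (h1 : A ≤ A') (h2 : L' ≤ L) : JW A' L' ≤ JW A L :=
  setIntegral_mono_set (JW_integrable hA) (Eventually.of_forall fun s => by positivity)
    (Eventually.of_forall (Ioc_subset_Ioc h1 h2))

lemma abs_Mx_integrable (L : ℝ) : IntegrableOn (fun s : ℝ => |Mx (Real.exp s)|) (Ioc 0 L) := by
  refine integrableOn_of_le (B := Real.exp L) ?_ ?_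
  · exact (continuous_abs.measurable).comp (Mx_meas.comp Real.measurable_exp)
  · intro s hs
    rw [abs_abs]
    exact (abs_Mx_le (Real.exp_pos s).le).trans (Real.exp_le_exp.2 hs.2)

lemma Mx_exp_L1w {A L : ℝ} (hA : 0 ≤ A) (hAL : A ≤ L) :
    (∫ s in Ioc A L, |Mx (Real.exp s)|) ^ 2 ≤ JW A L * Real.exp L := by
  have hf : IntegrableOn (fun s : ℝ => (|Mx (Real.exp s)| * Real.exp (-(s / 2))) ^ 2) (Ioc A L) := by
    refine (JW_integrable hA).congr (Eventually.of_forall fun s => ?_)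
    simp only
    rw [mul_pow, sq_abs, sq (Real.exp _), ← Real.exp_add]; ring_nf
  have hg : IntegrableOn (fun s : ℝ => (Real.exp (s / 2)) ^ 2) (Ioc A L) :=
    (Continuous.integrableOn_Icc (by fun_prop)).mono_set Ioc_subset_Icc_self
  have hfg : IntegrableOn (fun s : ℝ => (|Mx (Real.exp s)| * Real.exp (-(s / 2))) * (Real.exp (s / 2))) (Ioc A L) := by
    refine IntegrableOn.mono_set (t := Ioc 0 L) ?_ (Ioc_subset_Ioc_left hA)
    refine (abs_Mx_integrable L).congr (Eventually.of_forall fun s => ?_)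
    simp only
    rw [mul_assoc, ← Real.exp_add, neg_add_cancel, Real.exp_zero, mul_one]
  have h1 := cs_ineq hf hg hfg
  have e1 : ∫ s in Ioc A L, |Mx (Real.exp s)| =
      ∫ s in Ioc A L, (|Mx (Real.exp s)| * Real.exp (-(s / 2))) * (Real.exp (s / 2)) := by
    refine integral_congr_ae (Eventually.of_forall fun s => ?_)
    simp only
    rw [mul_assoc, ← Real.exp_add, neg_add_cancel, Real.exp_zero, mul_one]
  have e2 : ∫ s in Ioc A L, (|Mx (Real.exp s)| * Real.exp (-(s / 2))) ^ 2 = JW A L := by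
    unfold JW
    refine integral_congr_ae (Eventually.of_forall fun s => ?_)
    simp only
    rw [mul_pow, sq_abs, sq (Real.exp _), ← Real.exp_add]; ring_nf
  have e3 : ∫ s in Ioc A L, (Real.exp (s / 2)) ^ 2 = Real.exp L - Real.exp A := by
    have : ∀ s : ℝ, (Real.exp (s / 2)) ^ 2 = Real.exp s := by
      intro s; rw [sq, ← Real.exp_add]; ring_nf
    simp only [this]
    rw [← intervalIntegral.integral_of_le hAL, integral_exp]
  rw [e1]
  refine h1.trans ?_
  rw [e2, e3]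
  have := JW_nonneg A L
  have := Real.exp_pos A
  nlinarith

lemma AL_split {CM σ : ℝ} (hCM : ∀ y : ℝ, 1 ≤ y → |Mx y| ≤ CM * y ^ σ) (hC0 : 0 < CM) (hσ : 0 < σ)
    {A L : ℝ} (hA : 0 ≤ A) (hAL : A ≤ L) :
    AL L ≤ CM / σ * Real.exp (σ * A) + Real.sqrt (JW A L) * Real.exp (L / 2) := by
  have h1 : AL L = (∫ s in Ioc 0 A, |Mx (Real.exp s)|) + ∫ s in Ioc A L, |Mx (Real.exp s)| := by
    unfold AL
    rw [← Ioc_union_Ioc_eq_Ioc hA hAL, setIntegral_union (Ioc_disjoint_Ioc_of_le le_rfl) measurableSet_Ioc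
      (abs_Mx_integrable A) ((abs_Mx_integrable L).mono_set (Ioc_subset_Ioc_left hA))]
  have h2 : ∫ s in Ioc 0 A, |Mx (Real.exp s)| ≤ CM / σ * Real.exp (σ * A) := by
    have hi : IntegrableOn (fun s : ℝ => CM * Real.exp (σ * s)) (Ioc 0 A) :=
      (Continuous.integrableOn_Icc (by fun_prop)).mono_set Ioc_subset_Icc_self
    calc ∫ s in Ioc 0 A, |Mx (Real.exp s)| ≤ ∫ s in Ioc 0 A, CM * Real.exp (σ * s) := by
          refine setIntegral_mono_on (abs_Mx_integrable A) hi measurableSet_Ioc fun s hs => ?_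
          have := hCM (Real.exp s) (Real.one_le_exp hs.1.le)
          rwa [← Real.exp_mul, mul_comm s] at this
      _ = CM * ((Real.exp (σ * A) - 1) / σ) := by
          rw [integral_const_mul, ← intervalIntegral.integral_of_le hA]
          congr 1
          rw [intervalIntegral.integral_comp_mul_left (fun x => Real.exp x) hσ.ne', integral_exp]
          simp
          ring
      _ ≤ CM / σ * Real.exp (σ * A) := by
          rw [mul_div_assoc', div_mul_eq_mul_div]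
          gcongr
          linarith
  have h3 : ∫ s in Ioc A L, |Mx (Real.exp s)| ≤ Real.sqrt (JW A L) * Real.exp (L / 2) := by
    have h4 := Mx_exp_L1w hA hAL
    have h5 : Real.sqrt (JW A L) * Real.exp (L / 2) = Real.sqrt (JW A L * Real.exp L) := by
      rw [Real.sqrt_mul (JW_nonneg A L)]
      congr 1
      rw [Real.sqrt_eq_rpow, ← Real.exp_mul]
      ring_nf
    rw [h5]
    exact Real.le_sqrt_of_sq_le h4
  rw [h1]
  linarith

lemma Cv_le_AL {ρ : ℂ} (h0 : 0 < ρ.re) (h1 : ρ.re < 1) (hz : riemannZeta ρ = 0) :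
    ∃ K : ℝ, 0 < K ∧ ∀ t : ℝ, ‖Cv ρ t‖ ≤ K * Real.exp (-(ρ.re * t)) * AL t := by
  obtain ⟨K, hK0, hK⟩ := af_nice h0 h1 hz
  refine ⟨K, hK0, fun t => ?_⟩
  have hsub : Cv ρ t = ∫ s, mf ρ s * af ρ (t - s) := by
    unfold Cv
    rw [← integral_sub_left_eq_self (fun s => mf ρ s * af ρ (t - s)) volume t]
    simp
  rw [hsub]
  refine decay_bound h0 hK0 (fun x _ => ?_) (fun x hx => af_zero hx) t
  have := hK.bound x
  rwa [neg_mul] at this

/-- RH from the window hypothesis -/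
theorem window_RH {δ : ℝ} (hδ : 0 < δ) (hδ1 : δ ≤ 1) {C : ℝ}
    (hf : ∃ᶠ L in atTop, JW ((1 - δ) * L) L ≤ C * L) : zetaSup ≤ 1 / 2 := by
  by_contra hcon
  push Not at hcon
  have hone := zetaSup_le_one
  set Θ := zetaSup with hΘ
  set κ : ℝ := min (Θ - 1 / 2) (δ / 8) with hκ
  have hκ0 : 0 < κ := lt_min (by linarith) (by positivity)
  have hκ1 : κ ≤ Θ - 1 / 2 := min_le_left _ _
  have hκ2 : κ ≤ δ / 8 := min_le_right _ _
  obtain ⟨ρ, hρ, hρz⟩ := zetaSup_sup κ hκ0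
  obtain ⟨hz, hpos, hlt⟩ := zeta_of_Zs hρz (by linarith)
  obtain ⟨CM, hCM0, hCM⟩ := mertens_bound (θ := Θ) (σ := Θ + κ)
    (by linarith) zetaSup_free (by linarith) (by linarith)
  obtain ⟨K, hK, hKb⟩ := Cv_le_AL hpos hlt hz
  obtain ⟨t₀, ht₀⟩ := Cv_lower (by linarith : 1 / 4 < ρ.re) hlt
  have hc := norm_pos_iff.2 (c0_ne hpos hlt)
  have hσ0 : 0 < Θ + κ := by linarith
  -- the first term tends to zero
  have hexp : (Θ + κ) * (1 - δ) - ρ.re ≤ -(δ / 4) := by nlinarith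
  have hlim : Tendsto (fun L : ℝ => K * (CM / (Θ + κ)) * Real.exp (-(δ / 4 * L))) atTop (𝓝 0) := by
    have h2 : Tendsto (fun t : ℝ => δ / 4 * t) atTop atTop :=
      Tendsto.const_mul_atTop (by linarith) tendsto_id
    have := (Real.tendsto_exp_neg_atTop_nhds_zero.comp h2).const_mul (K * (CM / (Θ + κ)))
    simpa using this
  have hev := hlim.eventually (gt_mem_nhds (show 0 < ‖c0 ρ‖ / 4 by positivity))
  -- C L is smaller than c e^{(2β-1)L}
  have hβ : 0 < ρ.re - 1 / 2 := by linarith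
  have hlim2 : Tendsto (fun L : ℝ => K * (Real.sqrt (|C| * L) * Real.exp (-((ρ.re - 1 / 2) * L)))) atTop (𝓝 0) := by
    have h3 : Tendsto (fun L : ℝ => L ^ (1:ℝ) * Real.exp (-(ρ.re - 1 / 2) * L)) atTop (𝓝 0) :=
      tendsto_rpow_mul_exp_neg_mul_atTop_nhds_zero 1 (ρ.re - 1 / 2) hβ
    have h4 : Tendsto (fun L : ℝ => K * Real.sqrt |C| * (L ^ (1:ℝ) * Real.exp (-(ρ.re - 1 / 2) * L))) atTop (𝓝 0) := by
      simpa using h3.const_mul (K * Real.sqrt |C|)
    refine squeeze_zero' (Eventually.of_forall fun L => by positivity) ?_ h4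
    filter_upwards [eventually_ge_atTop 1] with L hL
    rw [Real.sqrt_mul (abs_nonneg C), Real.rpow_one]
    have h5 : Real.sqrt L ≤ L := by
      rw [Real.sqrt_le_left (by linarith)]
      nlinarith
    have h6 : -((ρ.re - 1 / 2) * L) = -(ρ.re - 1 / 2) * L := by ring
    rw [h6]
    calc K * (Real.sqrt |C| * Real.sqrt L * Real.exp (-(ρ.re - 1 / 2) * L))
        ≤ K * (Real.sqrt |C| * L * Real.exp (-(ρ.re - 1 / 2) * L)) := by gcongr
      _ = _ := by ring
  have hev2 := hlim2.eventually (gt_mem_nhds (show 0 < ‖c0 ρ‖ / 4 by positivity))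
  obtain ⟨L, h1, ⟨⟨h2, h3⟩, h4⟩, h5⟩ := (hf.and_eventually (((hev.and hev2).and (eventually_ge_atTop t₀)).and
    (eventually_gt_atTop 0))).exists
  have hA : 0 ≤ (1 - δ) * L := by nlinarith
  have hAL : (1 - δ) * L ≤ L := by nlinarith
  have h6 := AL_split hCM hCM0 hσ0 hA hAL
  have h7 := (ht₀ L h4).trans (hKb L)
  have h8 : Real.sqrt (JW ((1 - δ) * L) L) ≤ Real.sqrt (|C| * L) := by
    apply Real.sqrt_le_sqrt
    exact h1.trans (by have := le_abs_self C; nlinarith)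
  have h9 : K * Real.exp (-(ρ.re * L)) * AL L ≤ K * (CM / (Θ + κ)) * Real.exp (-(δ / 4 * L)) +
      K * (Real.sqrt (|C| * L) * Real.exp (-((ρ.re - 1 / 2) * L))) := by
    calc K * Real.exp (-(ρ.re * L)) * AL L
        ≤ K * Real.exp (-(ρ.re * L)) * (CM / (Θ + κ) * Real.exp ((Θ + κ) * ((1 - δ) * L)) +
          Real.sqrt (|C| * L) * Real.exp (L / 2)) := by
          gcongr
          exact h6.trans (by gcongr)
      _ = K * (CM / (Θ + κ)) * (Real.exp (-(ρ.re * L)) * Real.exp ((Θ + κ) * ((1 - δ) * L))) +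
          K * (Real.sqrt (|C| * L) * (Real.exp (-(ρ.re * L)) * Real.exp (L / 2))) := by ring
      _ ≤ _ := by
          rw [← Real.exp_add, ← Real.exp_add]
          have e1 : -(ρ.re * L) + (Θ + κ) * ((1 - δ) * L) ≤ -(δ / 4 * L) := by nlinarith
          have e2 : -(ρ.re * L) + L / 2 = -((ρ.re - 1 / 2) * L) := by ring
          rw [e2]
          gcongr
  linarith

/-- the general estimate for `P_ρ(L)` -/
theorem PPgen {ρ : ℂ} (h14 : 1 / 4 < ρ.re) (h1 : ρ.re < 1) (hz : riemannZeta ρ = 0) {p : ℕ}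
    (hm : ∀ j < p, mom ρ j = 0) :
    ∃ C : ℝ, 0 < C ∧ ∀ L : ℝ, 0 ≤ L →
      ‖(-1) ^ p * mom ρ p * PP ρ L - c0 ρ * ((L ^ (p + 1) / (p + 1) : ℝ) : ℂ)‖ ≤
        C * (L ^ p + Real.exp (-(ρ.re * L)) * AL L) := by
  have h0 : 0 < ρ.re := by linarith
  obtain ⟨K, hK, hRA⟩ := RA_sub' h0 h1 hz p
  obtain ⟨C, hC, hw⟩ := Cv_weighted h14 h1 hz p
  refine ⟨C + K, by positivity, fun L hL => ?_⟩
  obtain ⟨-, hf⟩ := fub h0 h1 hz p hL
  have h2 := hw L hL
  have hf' : ∫ t, ((xp p (L - t) : ℝ) : ℂ) * Cv ρ t = ∫ s, mf ρ s * RA p ρ (L - s) := hf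
  rw [hf'] at h2
  set F : ℝ → ℂ := fun x => RA p ρ x - (Ici (0:ℝ)).indicator (fun _ => (-1) ^ p * mom ρ p) x with hF
  have hFb : ∀ x, 0 ≤ x → ‖F x‖ ≤ K * Real.exp (-(ρ.re * x)) := by
    intro x hx
    have h4 := hRA x hx
    obtain ⟨-, h5⟩ := binom_mom h0 h1 hz p x
    have h6 : ∫ u : ℝ, ((x - u : ℝ) : ℂ) ^ p * af ρ u = (-1) ^ p * mom ρ p := by
      rw [h5, Finset.sum_range_succ, Finset.sum_eq_zero, zero_add]
      · simp
      · intro j hj
        rw [hm j (Finset.mem_range.1 hj), mul_zero]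
    rw [h6] at h4
    rw [hF]
    simp only
    rw [indicator_of_mem (show x ∈ Ici (0:ℝ) from hx)]
    exact h4
  have hF0 : ∀ x < 0, F x = 0 := by
    intro x hx
    rw [hF]
    simp only
    rw [RA_neg hx, indicator_of_notMem (by simpa using hx), sub_zero]
  have hmi : Integrable ((Icc 0 L).indicator (mf ρ)) := by
    rw [integrable_indicator_iff measurableSet_Icc, integrableOn_Icc_iff_integrableOn_Ioc]
    exact mf_iOn h0.le L
  have h3 : ∀ s, mf ρ s * RA p ρ (L - s) = mf ρ s * F (L - s) + (-1) ^ p * mom ρ p * (Icc 0 L).indicator (mf ρ) s := by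
    intro s
    rw [hF]
    simp only
    by_cases hs : s ∈ Icc 0 L
    · rw [indicator_of_mem hs, indicator_of_mem (show L - s ∈ Ici (0:ℝ) by simpa using hs.2)]
      ring
    · rw [indicator_of_notMem hs]
      rw [mem_Icc, not_and_or, not_le, not_le] at hs
      rcases hs with hs | hs
      · rw [mf_zero hs]; simp
      · rw [indicator_of_notMem (show L - s ∉ Ici (0:ℝ) by simpa using hs)]; ring
  have hFi : Integrable (fun s => mf ρ s * F (L - s)) := by
    have hmeasF : Measurable F := by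
      rw [hF]
      refine Measurable.sub ?_ (measurable_const.indicator measurableSet_Ici)
      unfold RA
      have hm2 : StronglyMeasurable (fun z : ℝ × ℝ => ((xp p (z.1 - z.2) : ℝ) : ℂ) * af ρ z.2) := by
        refine Measurable.stronglyMeasurable ?_
        refine (Complex.measurable_ofReal.comp ((xp_meas p).comp (measurable_fst.sub measurable_snd))).mul ?_
        exact (af_meas ρ).comp measurable_snd
      exact hm2.integral_prod_right.measurable
    have hdom : Integrable ((Icc 0 L).indicator fun s => K * (‖mf ρ s‖ * Real.exp (-(ρ.re * (L - s))))) := by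
      rw [integrable_indicator_iff measurableSet_Icc]
      exact (mf_exp_integrable h0.le).const_mul K
    refine hdom.mono' ?_ (Eventually.of_forall fun s => ?_)
    · exact ((mf_meas ρ).mul (hmeasF.comp (measurable_const.sub measurable_id))).aestronglyMeasurable
    · by_cases hs : s ∈ Icc 0 L
      · rw [indicator_of_mem hs, norm_mul]
        have := hFb (L - s) (by linarith [hs.2])
        calc ‖mf ρ s‖ * ‖F (L - s)‖ ≤ ‖mf ρ s‖ * (K * Real.exp (-(ρ.re * (L - s)))) := by gcongr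
          _ = _ := by ring
      · rw [indicator_of_notMem hs]
        rw [mem_Icc, not_and_or, not_le, not_le] at hs
        rcases hs with hs | hs
        · rw [mf_zero hs]; simp
        · rw [hF0 _ (by linarith)]; simp
  have h4 : ∫ s, mf ρ s * RA p ρ (L - s) = (∫ s, mf ρ s * F (L - s)) + (-1) ^ p * mom ρ p * PP ρ L := by
    rw [integral_congr_ae (Eventually.of_forall h3), integral_add hFi (hmi.const_mul _), integral_const_mul,
      integral_indicator measurableSet_Icc, integral_Icc_eq_integral_Ioc]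
    rfl
  have h5 := decay_bound h0 hK hFb hF0 L
  have h6 : 0 ≤ AL L := integral_nonneg fun s => abs_nonneg _
  have h7 : ∫ s in Ioc 0 L, |Mx (Real.exp s)| = AL L := rfl
  rw [h7] at h5
  have e : (-1) ^ p * mom ρ p * PP ρ L - c0 ρ * ((L ^ (p + 1) / (p + 1) : ℝ) : ℂ) =
      ((∫ s, mf ρ s * RA p ρ (L - s)) - c0 ρ * ((L ^ (p + 1) / (p + 1) : ℝ) : ℂ)) - ∫ s, mf ρ s * F (L - s) := by
    rw [h4]; ring
  rw [e]
  refine (norm_sub_le _ _).trans ?_
  have h8 : 0 ≤ L ^ p := by positivity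
  have h9 : 0 ≤ Real.exp (-(ρ.re * L)) * AL L := by positivity
  nlinarith

/-- `P_ρ` on a window -/
lemma PP_sub {ρ : ℂ} (h0 : 0 ≤ ρ.re) {A L : ℝ} (hA : 0 ≤ A) (hAL : A ≤ L) :
    PP ρ L - PP ρ A = ∫ s in Ioc A L, mf ρ s := by
  unfold PP
  rw [← Ioc_union_Ioc_eq_Ioc hA hAL, setIntegral_union (Ioc_disjoint_Ioc_of_le le_rfl) measurableSet_Ioc
      (mf_iOn h0 A) ((mf_iOn h0 L).mono_set (Ioc_subset_Ioc_left hA))]
  ring

/-- Cauchy-Schwarz on a window -/
lemma mf_L1w {ρ : ℂ} (h0 : ρ.re = 1 / 2) {A L : ℝ} (hA : 0 ≤ A) (hAL : A ≤ L) :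
    ‖PP ρ L - PP ρ A‖ ^ 2 ≤ JW A L * (L - A) := by
  rw [PP_sub (by rw [h0]; norm_num) hA hAL]
  have h1 : ‖∫ s in Ioc A L, mf ρ s‖ ≤ ∫ s in Ioc A L, (|Mx (Real.exp s)| * Real.exp (-(s / 2))) * 1 := by
    refine (norm_integral_le_integral_norm _).trans (le_of_eq ?_)
    refine integral_congr_ae (Eventually.of_forall fun s => ?_)
    simp only
    rw [norm_mf, h0, mul_one]; ring_nf
  have hf : IntegrableOn (fun s : ℝ => (|Mx (Real.exp s)| * Real.exp (-(s / 2))) ^ 2) (Ioc A L) := by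
    refine (JW_integrable hA).congr (Eventually.of_forall fun s => ?_)
    simp only
    rw [mul_pow, sq_abs, sq (Real.exp _), ← Real.exp_add]; ring_nf
  have hg : IntegrableOn (fun _ : ℝ => (1:ℝ) ^ 2) (Ioc A L) := integrableOn_const (by simp)
  have hfg : IntegrableOn (fun s : ℝ => (|Mx (Real.exp s)| * Real.exp (-(s / 2))) * 1) (Ioc A L) := by
    refine IntegrableOn.mono_set (t := Ioc 0 L) ?_ (Ioc_subset_Ioc_left hA)
    refine (mf_iOn (ρ := ρ) (by rw [h0]; norm_num) L).norm.congr (Eventually.of_forall fun s => ?_)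
    simp only
    rw [norm_mf, h0, mul_one]; ring_nf
  have h2 := cs_ineq hf hg hfg
  have e2 : ∫ s in Ioc A L, (|Mx (Real.exp s)| * Real.exp (-(s / 2))) ^ 2 = JW A L := by
    unfold JW
    refine integral_congr_ae (Eventually.of_forall fun s => ?_)
    simp only
    rw [mul_pow, sq_abs, sq (Real.exp _), ← Real.exp_add]; ring_nf
  have e3 : ∫ s in Ioc A L, (1:ℝ) ^ 2 = L - A := by simp [hAL]
  rw [e2, e3] at h2
  calc ‖∫ s in Ioc A L, mf ρ s‖ ^ 2 ≤ (∫ s in Ioc A L, (|Mx (Real.exp s)| * Real.exp (-(s / 2))) * 1) ^ 2 := by gcongr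
    _ ≤ _ := h2

/-- the local control of the error terms, under RH -/
lemma W2 (hRH : zetaSup ≤ 1 / 2) {δ η : ℝ} (hδ1 : δ ≤ 1) (hη : 0 < η) (hηδ : η ≤ δ) :
    ∃ D : ℝ, 0 < D ∧ ∀ L : ℝ, 0 ≤ L → ∀ y : ℝ, (1 - δ + η) * L ≤ y → y ≤ L →
      Real.exp (-(1 / 2 * y)) * AL y ≤ D * (1 + Real.sqrt (JW ((1 - δ) * L) L)) := by
  have hη1 : η ≤ 1 := hηδ.trans hδ1
  obtain ⟨CM, hCM0, hCM⟩ := mertens_bound (θ := 1 / 2) (σ := 1 / 2 + η / 2) (by norm_num)
    (fun s hs => zetaSup_free s (by linarith)) (by linarith) (by linarith)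
  have hσ : 0 < 1 / 2 + η / 2 := by linarith
  refine ⟨CM / (1 / 2 + η / 2) + 1, by positivity, fun L hL y hy1 hy2 => ?_⟩
  have hA : 0 ≤ (1 - δ) * L := by nlinarith
  have hAy : (1 - δ) * L ≤ y := by nlinarith
  have h1 := AL_split hCM hCM0 hσ hA hAy
  have h2 : Real.sqrt (JW ((1 - δ) * L) y) ≤ Real.sqrt (JW ((1 - δ) * L) L) :=
    Real.sqrt_le_sqrt (JW_mono hA le_rfl hy2)
  have h3 := Real.sqrt_nonneg (JW ((1 - δ) * L) L)
  have h4 : 0 < CM / (1 / 2 + η / 2) := by positivity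
  calc Real.exp (-(1 / 2 * y)) * AL y
      ≤ Real.exp (-(1 / 2 * y)) * (CM / (1 / 2 + η / 2) * Real.exp ((1 / 2 + η / 2) * ((1 - δ) * L)) +
        Real.sqrt (JW ((1 - δ) * L) L) * Real.exp (y / 2)) := by
        gcongr
        exact h1.trans (by gcongr)
    _ = CM / (1 / 2 + η / 2) * (Real.exp (-(1 / 2 * y)) * Real.exp ((1 / 2 + η / 2) * ((1 - δ) * L))) +
        Real.sqrt (JW ((1 - δ) * L) L) * (Real.exp (-(1 / 2 * y)) * Real.exp (y / 2)) := by ring
    _ ≤ CM / (1 / 2 + η / 2) * 1 + Real.sqrt (JW ((1 - δ) * L) L) * 1 := by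
        rw [← Real.exp_add, ← Real.exp_add]
        have e1 : -(1 / 2 * y) + (1 / 2 + η / 2) * ((1 - δ) * L) ≤ 0 := by nlinarith [mul_nonneg hη.le hL, mul_nonneg (mul_nonneg hη.le hL) (by linarith : 0 ≤ δ)]
        have e2 : -(1 / 2 * y) + y / 2 = 0 := by ring
        rw [e2, Real.exp_zero]
        gcongr
        exact Real.exp_le_one_iff.2 e1
    _ ≤ _ := by nlinarith

/-- no double zero, from the window hypothesis -/
theorem window_simple (hRH : zetaSup ≤ 1 / 2) {δ : ℝ} (hδ : 0 < δ) (hδ1 : δ ≤ 1) {C : ℝ}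
    (hf : ∃ᶠ L in atTop, JW ((1 - δ) * L) L ≤ C * L) {ρ : ℂ} (hρ : ρ.re = 1 / 2) (hz : riemannZeta ρ = 0) :
    deriv riemannZeta ρ ≠ 0 := by
  intro hd
  have hmom : ∀ j < 1, mom ρ j = 0 := mom_zero (by linarith) (by linarith) (p := 1) (by
    intro j hj
    interval_cases j
    · simpa using hz
    · simpa using hd)
  obtain ⟨K, hK, hP⟩ := PPgen (by linarith : 1 / 4 < ρ.re) (by linarith) hz hmom
  obtain ⟨D, hD, hW⟩ := W2 hRH hδ1 (half_pos hδ) (by linarith : δ / 2 ≤ δ)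
  have hc := norm_pos_iff.2 (c0_ne (by linarith : 0 < ρ.re) (by linarith : ρ.re < 1))
  -- constants
  set M1 : ℝ := ‖mom ρ 1‖ with hM1
  have hM1' : 0 ≤ M1 := norm_nonneg _
  -- for all large L the frequent inequality fails
  have hlim : Tendsto (fun L : ℝ => (M1 * Real.sqrt |C| + 2 * K * (D + 1) + 2 * K * D * Real.sqrt |C|) * L⁻¹) atTop (𝓝 0) := by
    simpa using tendsto_inv_atTop_zero.const_mul (M1 * Real.sqrt |C| + 2 * K * (D + 1) + 2 * K * D * Real.sqrt |C|)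
  have hgap : 0 < ‖c0 ρ‖ * (δ / 4) := by positivity
  have hev := hlim.eventually (gt_mem_nhds hgap)
  obtain ⟨L, h1, h2, h3⟩ := (hf.and_eventually (hev.and (eventually_gt_atTop 1))).exists
  have hL0 : 0 < L := by linarith
  set A : ℝ := (1 - δ + δ / 2) * L with hA
  have hA0 : 0 ≤ A := by rw [hA]; nlinarith
  have hAL : A ≤ L := by rw [hA]; nlinarith
  have hJ : Real.sqrt (JW ((1 - δ) * L) L) ≤ Real.sqrt |C| * Real.sqrt L := by
    rw [← Real.sqrt_mul (abs_nonneg C)]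
    apply Real.sqrt_le_sqrt
    exact h1.trans (by have := le_abs_self C; nlinarith)
  have hsL : Real.sqrt L ≤ L := by
    rw [Real.sqrt_le_left hL0.le]; nlinarith
  have hsL0 := Real.sqrt_nonneg L
  have hsC0 := Real.sqrt_nonneg |C|
  have hJ' : Real.sqrt (JW ((1 - δ) * L) L) ≤ Real.sqrt |C| * L := hJ.trans (by gcongr)
  have b1 := hP L hL0.le
  have b2 := hP A hA0
  have w1 := hW L hL0.le L hAL le_rfl
  have w2 := hW L hL0.le A le_rfl hAL
  rw [hρ] at b1 b2
  have c1 : K * (L ^ 1 + Real.exp (-(1 / 2 * L)) * AL L) ≤ K * (L + D * (1 + Real.sqrt |C| * L)) := by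
    rw [pow_one]
    have : D * (1 + Real.sqrt (JW ((1 - δ) * L) L)) ≤ D * (1 + Real.sqrt |C| * L) := by gcongr
    exact mul_le_mul_of_nonneg_left (by linarith) hK.le
  have c2 : K * (A ^ 1 + Real.exp (-(1 / 2 * A)) * AL A) ≤ K * (L + D * (1 + Real.sqrt |C| * L)) := by
    rw [pow_one]
    have : D * (1 + Real.sqrt (JW ((1 - δ) * L) L)) ≤ D * (1 + Real.sqrt |C| * L) := by gcongr
    exact mul_le_mul_of_nonneg_left (by linarith) hK.le
  have hPPA : ‖PP ρ L - PP ρ A‖ ≤ Real.sqrt |C| * L := by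
    have d1 := mf_L1w hρ hA0 hAL
    have d2 : JW A L ≤ |C| * L := by
      have : JW A L ≤ JW ((1 - δ) * L) L := JW_mono (by nlinarith) (by rw [hA]; nlinarith) le_rfl
      have := le_abs_self C
      nlinarith
    have d3 : ‖PP ρ L - PP ρ A‖ ^ 2 ≤ (Real.sqrt |C| * L) ^ 2 := by
      rw [mul_pow, Real.sq_sqrt (abs_nonneg C)]
      calc ‖PP ρ L - PP ρ A‖ ^ 2 ≤ JW A L * (L - A) := d1
        _ ≤ (|C| * L) * L := by
          apply mul_le_mul d2 (by linarith) (by linarith) (by positivity)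
        _ = _ := by ring
    exact le_of_sq_le_sq d3 (by positivity) |> fun h => h
  have e1 : c0 ρ * (((L ^ 2 - A ^ 2) / 2 : ℝ) : ℂ) = (-1) ^ 1 * mom ρ 1 * (PP ρ L - PP ρ A) -
      (((-1) ^ 1 * mom ρ 1 * PP ρ L - c0 ρ * ((L ^ (1 + 1) / ((1:ℕ) + 1) : ℝ) : ℂ)) -
       ((-1) ^ 1 * mom ρ 1 * PP ρ A - c0 ρ * ((A ^ (1 + 1) / ((1:ℕ) + 1) : ℝ) : ℂ))) := by
    push_cast; ring
  have e2 : ‖c0 ρ * (((L ^ 2 - A ^ 2) / 2 : ℝ) : ℂ)‖ ≤ M1 * (Real.sqrt |C| * L) +
      2 * (K * (L + D * (1 + Real.sqrt |C| * L))) := by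
    rw [e1]
    refine (norm_sub_le _ _).trans ?_
    refine add_le_add ?_ ?_
    · rw [norm_mul, norm_mul, norm_pow, norm_neg, norm_one, one_pow, one_mul]
      gcongr
    · refine (norm_sub_le _ _).trans ?_
      linarith [b1.trans c1, b2.trans c2]
  have hsq : A ^ 2 ≤ (1 - δ / 2) * L ^ 2 := by
    rw [hA, mul_pow]
    have : (1 - δ + δ / 2) ^ 2 ≤ 1 - δ / 2 := by nlinarith
    have hL2 : 0 ≤ L ^ 2 := by positivity
    nlinarith
  have e3 : ‖c0 ρ‖ * (δ / 4) * L ^ 2 ≤ ‖c0 ρ * (((L ^ 2 - A ^ 2) / 2 : ℝ) : ℂ)‖ := by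
    rw [norm_mul, Complex.norm_real, Real.norm_of_nonneg (by nlinarith), mul_assoc]
    gcongr
    nlinarith
  -- divide by L
  have e4 : ‖c0 ρ‖ * (δ / 4) * L ^ 2 ≤ (M1 * Real.sqrt |C| + 2 * K * (D + 1) + 2 * K * D * Real.sqrt |C|) * L := by
    have : M1 * (Real.sqrt |C| * L) + 2 * (K * (L + D * (1 + Real.sqrt |C| * L))) ≤
        (M1 * Real.sqrt |C| + 2 * K * (D + 1) + 2 * K * D * Real.sqrt |C|) * L := by
      have hKD : 0 ≤ K * D := by positivity
      nlinarith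
    linarith
  rw [← div_eq_mul_inv, div_lt_iff₀ hL0] at h2
  nlinarith

end

end Pool.Agent.H295R2
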