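import Pool.Agent.H295R2.WM7

set_option autoImplicit false

open MeasureTheory Filter Topology Set

namespace Pool.Agent.H295R2

noncomputable section

/-- the Gram integrals on a window -/
def GW (δ : ℂ) (A L : ℝ) : ℂ := ∫ s in Ioc A L, Complex.exp (δ * s)

lemma GW_zero {A L : ℝ} (hAL : A ≤ L) : GW 0 A L = ((L - A : ℝ) : ℂ) := by
  unfold GW
  simp [hAL]

lemma GW_bound {δ : ℂ} (hδ : δ ≠ 0) (hre : δ.re = 0) {A L : ℝ} (hAL : A ≤ L) : ‖GW δ A L‖ ≤ 2 / ‖δ‖ := by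
  unfold GW
  rw [← intervalIntegral.integral_of_le hAL, integral_exp_mul_complex hδ, norm_div]
  gcongr
  refine (norm_sub_le _ _).trans ?_
  rw [Complex.norm_exp, Complex.norm_exp]
  simp [hre]
  norm_num

lemma cont_iOnw {f : ℝ → ℂ} (hf : Continuous f) (A L : ℝ) : IntegrableOn f (Ioc A L) :=
  hf.integrableOn_Icc.mono_set Ioc_subset_Icc_self

lemma mf_iOnw {ρ : ℂ} (h0 : 0 ≤ ρ.re) {A : ℝ} (hA : 0 ≤ A) (L : ℝ) : IntegrableOn (mf ρ) (Ioc A L) :=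
  (mf_iOn h0 L).mono_set (Ioc_subset_Ioc_left hA)

/-- the finite Bessel inequality on a window -/
lemma bessel_raw_w (Z : Finset ℂ) (hZ : ∀ ρ ∈ Z, ρ.re = 1 / 2) (w : ℂ → ℂ) {A L : ℝ} (hA : 0 ≤ A) (hAL : A ≤ L) :
    0 ≤ JW A L - 2 * (∑ ρ ∈ Z, (starRingEnd ℂ) (w ρ) * (PP ρ L - PP ρ A)).re +
      (∑ ρ ∈ Z, ∑ ρ' ∈ Z, w ρ * (starRingEnd ℂ) (w ρ') * GW (ρ - ρ') A L).re := by
  set S : ℝ → ℂ := fun s => ∑ ρ ∈ Z, w ρ * ee ρ s with hS
  have hpt : ∀ s, Complex.normSq (m0 s - S s) = Mx (Real.exp s) ^ 2 * Real.exp (-s) -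
      2 * (∑ ρ ∈ Z, (starRingEnd ℂ) (w ρ) * mf ρ s).re +
      (∑ ρ ∈ Z, ∑ ρ' ∈ Z, w ρ * (starRingEnd ℂ) (w ρ') * Complex.exp ((ρ - ρ') * s)).re := by
    intro s
    rw [Complex.normSq_sub]
    have e1 : Complex.normSq (m0 s) = Mx (Real.exp s) ^ 2 * Real.exp (-s) := by
      unfold m0
      rw [Complex.normSq_ofReal]
      have : Real.exp (-s) = Real.exp (-(s / 2)) * Real.exp (-(s / 2)) := by
        rw [← Real.exp_add]; ring_nf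
      rw [this]; ring
    have e2 : (m0 s * (starRingEnd ℂ) (S s)) = ∑ ρ ∈ Z, (starRingEnd ℂ) (w ρ) * mf ρ s := by
      rw [hS]
      simp only
      rw [map_sum, Finset.mul_sum]
      refine Finset.sum_congr rfl fun ρ hρ => ?_
      rw [map_mul, ← m0_mul (hZ ρ hρ) s]; ring
    have e3 : Complex.normSq (S s) =
        (∑ ρ ∈ Z, ∑ ρ' ∈ Z, w ρ * (starRingEnd ℂ) (w ρ') * Complex.exp ((ρ - ρ') * s)).re := by
      have h1 : ((Complex.normSq (S s) : ℝ) : ℂ) = ∑ ρ ∈ Z, ∑ ρ' ∈ Z, w ρ * (starRingEnd ℂ) (w ρ') * Complex.exp ((ρ - ρ') * s) := by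
        rw [Complex.normSq_eq_conj_mul_self, mul_comm, hS]
        simp only
        rw [map_sum, Finset.sum_mul_sum]
        refine Finset.sum_congr rfl fun ρ _ => Finset.sum_congr rfl fun ρ' hρ' => ?_
        rw [map_mul, ← ee_mul (ρ := ρ) (hZ ρ' hρ') s]; ring
      rw [← h1, Complex.ofReal_re]
    rw [e1, e2, e3]; ring
  have h0 : 0 ≤ ∫ s in Ioc A L, Complex.normSq (m0 s - S s) := integral_nonneg fun s => Complex.normSq_nonneg _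
  have i1 : IntegrableOn (fun s => ∑ ρ ∈ Z, (starRingEnd ℂ) (w ρ) * mf ρ s) (Ioc A L) :=
    integrable_finsetSum _ fun ρ hρ => (mf_iOnw (by rw [hZ ρ hρ]; norm_num) hA L).const_mul _
  have i2 : IntegrableOn (fun s : ℝ => ∑ ρ ∈ Z, ∑ ρ' ∈ Z, w ρ * (starRingEnd ℂ) (w ρ') * Complex.exp ((ρ - ρ') * s)) (Ioc A L) :=
    cont_iOnw (by fun_prop) A L
  have i3 := i1.re
  have i4 := i2.re
  simp only [hpt] at h0
  have i5 : IntegrableOn (fun s => 2 * (∑ ρ ∈ Z, (starRingEnd ℂ) (w ρ) * mf ρ s).re) (Ioc A L) := i3.const_mul 2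
  have i6 : IntegrableOn (fun s => Mx (Real.exp s) ^ 2 * Real.exp (-s) - 2 * (∑ ρ ∈ Z, (starRingEnd ℂ) (w ρ) * mf ρ s).re) (Ioc A L) :=
    (JW_integrable hA).sub i5
  have i7 : IntegrableOn (fun s : ℝ => (∑ ρ ∈ Z, ∑ ρ' ∈ Z, w ρ * (starRingEnd ℂ) (w ρ') * Complex.exp ((ρ - ρ') * s)).re) (Ioc A L) := i4
  have e4 := integral_add i6 i7
  have e5 := integral_sub (JW_integrable (L := L) hA) i5
  rw [e4, e5, integral_const_mul] at h0
  have e6 : ∫ s in Ioc A L, (∑ ρ ∈ Z, (starRingEnd ℂ) (w ρ) * mf ρ s).re =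
      (∑ ρ ∈ Z, (starRingEnd ℂ) (w ρ) * (PP ρ L - PP ρ A)).re := by
    have := integral_re i1
    simp only [RCLike.re_eq_complex_re] at this
    rw [this, integral_finsetSum]
    · congr 1
      refine Finset.sum_congr rfl fun ρ hρ => ?_
      rw [integral_const_mul, PP_sub (by rw [hZ ρ hρ]; norm_num) hA hAL]
    · exact fun ρ hρ => (mf_iOnw (by rw [hZ ρ hρ]; norm_num) hA L).const_mul _
  have e7 : ∫ s in Ioc A L, (∑ ρ ∈ Z, ∑ ρ' ∈ Z, w ρ * (starRingEnd ℂ) (w ρ') * Complex.exp ((ρ - ρ') * s)).re =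
      (∑ ρ ∈ Z, ∑ ρ' ∈ Z, w ρ * (starRingEnd ℂ) (w ρ') * GW (ρ - ρ') A L).re := by
    have := integral_re i2
    simp only [RCLike.re_eq_complex_re] at this
    rw [this, integral_finsetSum]
    · congr 1
      refine Finset.sum_congr rfl fun ρ _ => ?_
      rw [integral_finsetSum]
      · refine Finset.sum_congr rfl fun ρ' _ => ?_
        rw [integral_const_mul]; rfl
      · exact fun ρ' _ => cont_iOnw (by fun_prop) A L
    · exact fun ρ _ => cont_iOnw (by fun_prop) A L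
  rw [e6, e7] at h0
  exact h0

/-- bound for one zero on the window -/
lemma PPw_bound (hRH : zetaSup ≤ 1 / 2) {δ η : ℝ} (hδ1 : δ ≤ 1) (hη : 0 < η) (hηδ : η ≤ δ)
    {ρ : ℂ} (hρ : ρ.re = 1 / 2) (hz : riemannZeta ρ = 0) (hd : deriv riemannZeta ρ ≠ 0) :
    ∃ K : ℝ, 0 < K ∧ ∀ L : ℝ, 0 ≤ L →
      ‖(PP ρ L - PP ρ ((1 - δ + η) * L)) - ww ρ * ((L - (1 - δ + η) * L : ℝ) : ℂ)‖ ≤
        K * (1 + Real.sqrt (JW ((1 - δ) * L) L)) := by
  obtain ⟨C, hC, hP⟩ := PPgen (p := 0) (by linarith : 1 / 4 < ρ.re) (by linarith) hz (by intro j hj; omega)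
  obtain ⟨D, hD, hW⟩ := W2 hRH hδ1 hη hηδ
  have hd0 := norm_pos_iff.2 hd
  have hq := two_pow_ne (by linarith : ρ.re < 1)
  have hq0 : 0 < ‖(1:ℂ) - (2:ℂ) ^ (1 - ρ)‖ := norm_pos_iff.2 hq
  have hρ0 : ρ ≠ 0 := by rintro rfl; norm_num at hρ
  refine ⟨2 * (C * (1 + D)) / (‖(1:ℂ) - (2:ℂ) ^ (1 - ρ)‖ * ‖deriv riemannZeta ρ‖), by positivity, fun L hL => ?_⟩
  set A : ℝ := (1 - δ + η) * L with hA
  have hA0 : 0 ≤ A := by rw [hA]; nlinarith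
  have hAL : A ≤ L := by rw [hA]; nlinarith
  have b1 := hP L hL
  have b2 := hP A hA0
  have w1 := hW L hL L hAL le_rfl
  have w2 := hW L hL A le_rfl hAL
  rw [hρ] at b1 b2
  set R := Real.sqrt (JW ((1 - δ) * L) L) with hR
  have hR0 : 0 ≤ R := Real.sqrt_nonneg _
  simp only [pow_zero, one_mul, zero_add, pow_one, Nat.cast_zero, div_one] at b1 b2
  have c1 : C * (1 + Real.exp (-(1 / 2 * L)) * AL L) ≤ C * (1 + D) * (1 + R) := by
    rw [mul_assoc]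
    apply mul_le_mul_of_nonneg_left _ hC.le
    nlinarith
  have c2 : C * (1 + Real.exp (-(1 / 2 * A)) * AL A) ≤ C * (1 + D) * (1 + R) := by
    rw [mul_assoc]
    apply mul_le_mul_of_nonneg_left _ hC.le
    nlinarith
  have hmom := mom_zeroth (by linarith : 0 < ρ.re) (by linarith) hz
  have e1 : (1 - (2:ℂ) ^ (1 - ρ)) * deriv riemannZeta ρ * ((PP ρ L - PP ρ A) - ww ρ * ((L - A : ℝ) : ℂ)) =
      (mom ρ 0 * PP ρ L - c0 ρ * (L : ℂ)) - (mom ρ 0 * PP ρ A - c0 ρ * (A : ℂ)) := by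
    rw [hmom]; unfold c0 ww; push_cast; field_simp; ring
  have e2 : ‖(1 - (2:ℂ) ^ (1 - ρ)) * deriv riemannZeta ρ * ((PP ρ L - PP ρ A) - ww ρ * ((L - A : ℝ) : ℂ))‖ ≤
      2 * (C * (1 + D)) * (1 + R) := by
    rw [e1]
    refine (norm_sub_le _ _).trans ?_
    linarith [b1.trans c1, b2.trans c2]
  rw [norm_mul, norm_mul] at e2
  rw [div_mul_eq_mul_div, le_div_iff₀ (by positivity)]
  linarith

/-- finite Bessel inequality on the window with error terms -/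
theorem bessel_fin_w (hRH : zetaSup ≤ 1 / 2) {δ η : ℝ} (hδ1 : δ ≤ 1) (hη : 0 < η) (hηδ : η ≤ δ) (Z : Finset ℂ)
    (hZ : ∀ ρ ∈ Z, ρ.re = 1 / 2 ∧ riemannZeta ρ = 0 ∧ deriv riemannZeta ρ ≠ 0) :
    ∃ C : ℝ, 0 < C ∧ ∀ L : ℝ, 0 ≤ L → (∑ ρ ∈ Z, ‖ww ρ‖ ^ 2) * (L - (1 - δ + η) * L) ≤
      JW ((1 - δ) * L) L + C * (1 + Real.sqrt (JW ((1 - δ) * L) L)) := by
  classical
  choose! Cf hCf hCb using fun ρ (h : ρ.re = 1 / 2 ∧ riemannZeta ρ = 0 ∧ deriv riemannZeta ρ ≠ 0) =>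
    PPw_bound hRH hδ1 hη hηδ h.1 h.2.1 h.2.2
  set C1 : ℝ := ∑ ρ ∈ Z, ‖ww ρ‖ * |Cf ρ| with hC1
  set C2 : ℝ := ∑ ρ ∈ Z, ∑ ρ' ∈ Z, ‖ww ρ‖ * ‖ww ρ'‖ * (2 / ‖ρ - ρ'‖) with hC2
  have hC1' : 0 ≤ C1 := Finset.sum_nonneg fun _ _ => by positivity
  have hC2' : 0 ≤ C2 := Finset.sum_nonneg fun _ _ => Finset.sum_nonneg fun _ _ => by positivity
  refine ⟨2 * C1 + C2 + 1, by positivity, fun L hL => ?_⟩
  set A : ℝ := (1 - δ + η) * L with hA
  have hA0 : 0 ≤ A := by rw [hA]; nlinarith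
  have hAL : A ≤ L := by rw [hA]; nlinarith
  set R := Real.sqrt (JW ((1 - δ) * L) L) with hR
  have hR0 : 0 ≤ R := Real.sqrt_nonneg _
  have hJ : JW A L ≤ JW ((1 - δ) * L) L := JW_mono (by nlinarith) (by rw [hA]; nlinarith) le_rfl
  have h0 := bessel_raw_w Z (fun ρ hρ => (hZ ρ hρ).1) ww hA0 hAL
  have hsq : ∀ ρ : ℂ, (starRingEnd ℂ) (ww ρ) * (ww ρ * ((L - A : ℝ) : ℂ)) = ((‖ww ρ‖ ^ 2 * (L - A) : ℝ) : ℂ) := by
    intro ρ
    rw [← mul_assoc, ← Complex.normSq_eq_conj_mul_self, Complex.normSq_eq_norm_sq]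
    push_cast; ring
  have h1 : (∑ ρ ∈ Z, ‖ww ρ‖ ^ 2) * (L - A) - C1 * (1 + R) ≤ (∑ ρ ∈ Z, (starRingEnd ℂ) (ww ρ) * (PP ρ L - PP ρ A)).re := by
    have e1 : ∑ ρ ∈ Z, (starRingEnd ℂ) (ww ρ) * (PP ρ L - PP ρ A) =
        (((∑ ρ ∈ Z, ‖ww ρ‖ ^ 2) * (L - A) : ℝ) : ℂ) +
          ∑ ρ ∈ Z, (starRingEnd ℂ) (ww ρ) * ((PP ρ L - PP ρ A) - ww ρ * ((L - A : ℝ) : ℂ)) := by
      rw [Finset.sum_mul, Complex.ofReal_sum, ← Finset.sum_add_distrib]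
      refine Finset.sum_congr rfl fun ρ _ => ?_
      rw [← hsq]; ring
    rw [e1, Complex.add_re, Complex.ofReal_re]
    have h2 : ‖∑ ρ ∈ Z, (starRingEnd ℂ) (ww ρ) * ((PP ρ L - PP ρ A) - ww ρ * ((L - A : ℝ) : ℂ))‖ ≤ C1 * (1 + R) := by
      rw [hC1, Finset.sum_mul]
      refine norm_sum_le_of_le _ fun ρ hρ => ?_
      rw [norm_mul, RCLike.norm_conj, mul_assoc]
      refine mul_le_mul_of_nonneg_left ?_ (norm_nonneg _)
      refine (hCb ρ (hZ ρ hρ) L hL).trans ?_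
      gcongr
      exact le_abs_self _
    have h3 := (abs_le.1 ((Complex.abs_re_le_norm _).trans h2)).1
    linarith
  have h2 : (∑ ρ ∈ Z, ∑ ρ' ∈ Z, ww ρ * (starRingEnd ℂ) (ww ρ') * GW (ρ - ρ') A L).re ≤
      (∑ ρ ∈ Z, ‖ww ρ‖ ^ 2) * (L - A) + C2 := by
    rw [Complex.re_sum, Finset.sum_mul, hC2, ← Finset.sum_add_distrib]
    refine Finset.sum_le_sum fun ρ hρ => ?_
    rw [Complex.re_sum]
    have h3 : ∀ ρ' ∈ Z, (ww ρ * (starRingEnd ℂ) (ww ρ') * GW (ρ - ρ') A L).re ≤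
        (if ρ' = ρ then ‖ww ρ‖ ^ 2 * (L - A) else 0) + ‖ww ρ‖ * ‖ww ρ'‖ * (2 / ‖ρ - ρ'‖) := by
      intro ρ' hρ'
      by_cases he : ρ' = ρ
      · subst he
        rw [if_pos rfl, sub_self, GW_zero hAL]
        have e2 : ww ρ' * (starRingEnd ℂ) (ww ρ') * ((L - A : ℝ) : ℂ) = ((‖ww ρ'‖ ^ 2 * (L - A) : ℝ) : ℂ) := by
          rw [← hsq ρ']; ring
        rw [e2, Complex.ofReal_re]
        have : 0 ≤ ‖ww ρ'‖ * ‖ww ρ'‖ * (2 / ‖(0:ℂ)‖) := by positivity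
        linarith
      · rw [if_neg he, zero_add]
        refine (Complex.re_le_norm _).trans ?_
        rw [norm_mul, norm_mul, RCLike.norm_conj]
        gcongr
        apply GW_bound (sub_ne_zero.2 (Ne.symm he)) _ hAL
        rw [Complex.sub_re, (hZ ρ hρ).1, (hZ ρ' hρ').1, sub_self]
    refine (Finset.sum_le_sum h3).trans ?_
    rw [Finset.sum_add_distrib, Finset.sum_ite_eq' Z ρ, if_pos hρ]
  nlinarith

lemma sqrt_lim (K C : ℝ) : Tendsto (fun L : ℝ => K * (1 + Real.sqrt (|C| * L)) / L) atTop (𝓝 0) := by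
  have h1 : Tendsto (fun L : ℝ => K * (L⁻¹ + Real.sqrt |C| * (Real.sqrt L)⁻¹)) atTop (𝓝 (K * (0 + Real.sqrt |C| * 0))) := by
    refine Tendsto.const_mul _ (Tendsto.add tendsto_inv_atTop_zero (Tendsto.const_mul _ ?_))
    exact tendsto_inv_atTop_zero.comp Real.tendsto_sqrt_atTop
  have h2 : K * (0 + Real.sqrt |C| * 0) = 0 := by ring
  rw [h2] at h1
  refine h1.congr' ?_
  filter_upwards [eventually_gt_atTop 0] with L hL
  rw [Real.sqrt_mul (abs_nonneg C)]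
  have h3 : Real.sqrt L * Real.sqrt L = L := Real.mul_self_sqrt hL.le
  have h4 : 0 < Real.sqrt L := Real.sqrt_pos.2 hL
  have h5 : (Real.sqrt L)⁻¹ = Real.sqrt L / L := by
    rw [eq_div_iff hL.ne', inv_mul_eq_div, div_eq_iff h4.ne']; exact h3.symm
  rw [h5]; field_simp

/-- the Bessel bound from infinitely many windows -/
theorem bessel_freq_w (hRH : zetaSup ≤ 1 / 2) {δ : ℝ} (hδ : 0 < δ) (hδ1 : δ ≤ 1) (Z : Finset ℂ)
    (hZ : ∀ ρ ∈ Z, ρ.re = 1 / 2 ∧ riemannZeta ρ = 0 ∧ deriv riemannZeta ρ ≠ 0)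
    {C : ℝ} (hf : ∃ᶠ L in atTop, JW ((1 - δ) * L) L ≤ C * L) : ∑ ρ ∈ Z, ‖ww ρ‖ ^ 2 ≤ C / δ := by
  rw [le_div_iff₀ hδ]
  by_contra hcon
  push Not at hcon
  set S : ℝ := ∑ ρ ∈ Z, ‖ww ρ‖ ^ 2 with hS
  have hS0 : 0 ≤ S := Finset.sum_nonneg fun _ _ => by positivity
  -- choose η
  obtain ⟨η, hη, hηδ, hη2⟩ : ∃ η : ℝ, 0 < η ∧ η ≤ δ ∧ C < S * (δ - η) := by
    refine ⟨min δ ((S * δ - C) / (2 * (S + 1))), lt_min hδ (div_pos (by linarith) (by positivity)), min_le_left _ _, ?_⟩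
    have h1 : min δ ((S * δ - C) / (2 * (S + 1))) ≤ (S * δ - C) / (2 * (S + 1)) := min_le_right _ _
    have h2 : S * min δ ((S * δ - C) / (2 * (S + 1))) ≤ (S * δ - C) / 2 := by
      calc S * min δ ((S * δ - C) / (2 * (S + 1))) ≤ S * ((S * δ - C) / (2 * (S + 1))) := by gcongr
        _ ≤ (S + 1) * ((S * δ - C) / (2 * (S + 1))) := by
          have : 0 ≤ (S * δ - C) / (2 * (S + 1)) := div_nonneg (by linarith) (by positivity)
          nlinarith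
        _ = (S * δ - C) / 2 := by field_simp
    nlinarith
  obtain ⟨K, hK, hb⟩ := bessel_fin_w hRH hδ1 hη hηδ Z hZ
  have hε : 0 < S * (δ - η) - C := by linarith
  have hev := (sqrt_lim K C).eventually (gt_mem_nhds hε)
  obtain ⟨L, h1, h2, h3⟩ := (hf.and_eventually (hev.and (eventually_gt_atTop 0))).exists
  have h4 := hb L h3.le
  have h5 : Real.sqrt (JW ((1 - δ) * L) L) ≤ Real.sqrt (|C| * L) := by
    apply Real.sqrt_le_sqrt
    exact h1.trans (by have := le_abs_self C; nlinarith)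
  rw [div_lt_iff₀ h3] at h2
  have h6 : S * (L - (1 - δ + η) * L) = S * (δ - η) * L := by ring
  rw [h6] at h4
  nlinarith

/-- the integral over the window `[x^{1-δ}, x]` -/
def IW (δ x : ℝ) : ℝ :=
  ∫ u in (x ^ (1 - δ))..x, ((∑ n ∈ Finset.Icc 1 ⌊u⌋₊, ((ArithmeticFunction.moebius n : ℤ) : ℝ)) / u) ^ 2

lemma IW_exp {A L : ℝ} (hAL : A ≤ L) :
    ∫ u in (Real.exp A)..(Real.exp L), ((∑ n ∈ Finset.Icc 1 ⌊u⌋₊, ((ArithmeticFunction.moebius n : ℤ) : ℝ)) / u) ^ 2 = JW A L := by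
  rw [intervalIntegral.integral_of_le (Real.exp_le_exp.2 hAL)]
  have h := integral_image_eq_integral_abs_deriv_smul (s := Ioc A L) (f := Real.exp) (f' := Real.exp)
    measurableSet_Ioc (fun x _ => (Real.hasDerivAt_exp x).hasDerivWithinAt) (Real.exp_injective.injOn)
    (fun u => ((∑ n ∈ Finset.Icc 1 ⌊u⌋₊, ((ArithmeticFunction.moebius n : ℤ) : ℝ)) / u) ^ 2)
  have himg : Real.exp '' Ioc A L = Ioc (Real.exp A) (Real.exp L) := by
    ext y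
    simp only [mem_image, mem_Ioc]
    constructor
    · rintro ⟨x, hx, rfl⟩
      exact ⟨Real.exp_lt_exp.2 hx.1, Real.exp_le_exp.2 hx.2⟩
    · intro hy
      have hy0 : 0 < y := (Real.exp_pos A).trans hy.1
      exact ⟨Real.log y, ⟨(Real.lt_log_iff_exp_lt hy0).2 hy.1, (Real.log_le_iff_le_exp hy0).2 hy.2⟩, Real.exp_log hy0⟩
  rw [himg] at h
  rw [h]
  unfold JW
  refine integral_congr_ae (Eventually.of_forall fun s => ?_)
  simp only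
  have e1 : (∑ n ∈ Finset.Icc 1 ⌊Real.exp s⌋₊, ((ArithmeticFunction.moebius n : ℤ) : ℝ)) = Mx (Real.exp s) := rfl
  rw [e1, abs_of_pos (Real.exp_pos s), smul_eq_mul, Real.exp_neg]
  have := (Real.exp_pos s).ne'
  field_simp

lemma IW_eq {δ x : ℝ} (hδ : 0 ≤ δ) (hx : 1 ≤ x) : IW δ x = JW ((1 - δ) * Real.log x) (Real.log x) := by
  have hlog := Real.log_nonneg hx
  rw [← IW_exp (by nlinarith), Real.exp_log (by linarith)]
  unfold IW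
  have : Real.exp ((1 - δ) * Real.log x) = x ^ (1 - δ) := by
    rw [Real.rpow_def_of_pos (by linarith), mul_comm]
  rw [this]

lemma IW_freq {δ C : ℝ} (hδ : 0 ≤ δ) (h : ∃ᶠ x in atTop, IW δ x ≤ C * Real.log x) :
    ∃ᶠ L in atTop, JW ((1 - δ) * L) L ≤ C * L := by
  have h2 := (h.and_eventually (eventually_ge_atTop 1)).mono (fun x hx => by
    rw [IW_eq hδ hx.2] at hx; exact hx.1 :
      ∀ x : ℝ, (IW δ x ≤ C * Real.log x ∧ 1 ≤ x) → JW ((1 - δ) * Real.log x) (Real.log x) ≤ C * Real.log x)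
  exact Real.tendsto_log_atTop.frequently h2

/-- **Main theorem.** -/
theorem weak_mertens_windows {δ : ℝ} (hδ : 0 < δ) (hδ1 : δ ≤ 1) {C : ℝ}
    (h : ∃ᶠ x in atTop, IW δ x ≤ C * Real.log x) :
    (∀ ρ : ℂ, riemannZeta ρ = 0 ∧ 0 < ρ.re ∧ ρ.re < 1 → ρ.re = 1 / 2 ∧ deriv riemannZeta ρ ≠ 0) ∧
    ∀ Z : Finset ℂ, (∀ ρ ∈ Z, riemannZeta ρ = 0 ∧ 0 < ρ.re ∧ ρ.re < 1) → ∑ ρ ∈ Z, 1 / ‖ρ * deriv riemannZeta ρ‖ ^ 2 ≤ C / δ := by
  have hf := IW_freq hδ.le h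
  have hRH := window_RH hδ hδ1 hf
  have hline : ∀ ρ : ℂ, riemannZeta ρ = 0 ∧ 0 < ρ.re ∧ ρ.re < 1 → ρ.re = 1 / 2 := by
    have hR : ∀ ρ : ℂ, riemannZeta ρ = 0 ∧ 0 < ρ.re ∧ ρ.re < 1 → ρ.re ≤ 1 / 2 := fun ρ hρ =>
      (le_csSup zset_bdd ⟨ρ, hρ, rfl⟩).trans hRH
    intro ρ hρ
    refine le_antisymm (hR ρ hρ) ?_
    have h1 : riemannZeta (1 - ρ) = 0 ∧ 0 < (1 - ρ).re ∧ (1 - ρ).re < 1 := by
      refine ⟨?_, by simp; exact hρ.2.2, by simp; exact hρ.2.1⟩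
      rw [riemannZeta_one_sub]
      · rw [hρ.1, mul_zero]
      · intro n hn
        have := hρ.2.1
        rw [hn] at this
        simp at this
        linarith [(Nat.cast_nonneg n : (0:ℝ) ≤ n)]
      · rintro rfl
        have := hρ.2.2
        simp at this
    have := hR _ h1
    simp at this
    linarith
  have hsimple : ∀ ρ : ℂ, riemannZeta ρ = 0 ∧ 0 < ρ.re ∧ ρ.re < 1 → deriv riemannZeta ρ ≠ 0 := fun ρ hρ =>
    window_simple hRH hδ hδ1 hf (hline ρ hρ) hρ.1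
  refine ⟨fun ρ hρ => ⟨hline ρ hρ, hsimple ρ hρ⟩, fun Z hZ => ?_⟩
  have h2 := bessel_freq_w hRH hδ hδ1 Z (fun ρ hρ => ⟨hline ρ (hZ ρ hρ), (hZ ρ hρ).1, hsimple ρ (hZ ρ hρ)⟩) hf
  refine le_trans (le_of_eq (Finset.sum_congr rfl fun ρ _ => ?_)) h2
  unfold ww
  rw [norm_div, norm_one, div_pow, one_pow]

end

end Pool.Agent.H295R2
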